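import Pool.Agent.Helper66.PD.Stmts

set_option autoImplicit false

namespace Pool.Agent.Helper66.PD

open Finset

section key

variable {P : Type} [PartialOrder P] {w : ℕ} (l r : P → ℕ) (e : ℕ → P → Fin (w + 1))

open Classical in
/-- up-trace -/
noncomputable def key_tr (p : ℕ) (x : P) : Finset (Fin (w + 1)) :=
  univ.filter fun s => ∃ b, x ≤ b ∧ l b ≤ p ∧ p ≤ r b ∧ e p b = s

open Classical in
/-- down-trace -/
noncomputable def key_td (p : ℕ) (y : P) : Finset (Fin (w + 1)) :=
  univ.filter fun s => ∃ b, b ≤ y ∧ l b ≤ p ∧ p ≤ r b ∧ e p b = s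

variable {l r e}

theorem key_tr_eq (hI : ∀ p x y, l x ≤ p → p ≤ r x → l y ≤ p → p ≤ r y → e p x = e p y → x = y)
    {p : ℕ} {x x' b : P} (h : key_tr l r e p x = key_tr l r e p x') (hb : x ≤ b) (h1 : l b ≤ p)
    (h2 : p ≤ r b) : x' ≤ b := by
  classical
  have h3 : e p b ∈ key_tr l r e p x := by
    unfold key_tr
    simp only [mem_filter, mem_univ, true_and]
    exact ⟨b, hb, h1, h2, rfl⟩
  rw [h] at h3
  unfold key_tr at h3
  simp only [mem_filter, mem_univ, true_and] at h3
  obtain ⟨b', hb', h4, h5, h6⟩ := h3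
  have := hI p b' b h4 h5 h1 h2 h6
  rw [← this]; exact hb'

theorem key_td_eq (hI : ∀ p x y, l x ≤ p → p ≤ r x → l y ≤ p → p ≤ r y → e p x = e p y → x = y)
    {p : ℕ} {y y' b : P} (h : key_td l r e p y = key_td l r e p y') (hb : b ≤ y) (h1 : l b ≤ p)
    (h2 : p ≤ r b) : b ≤ y' := by
  classical
  have h3 : e p b ∈ key_td l r e p y := by
    unfold key_td
    simp only [mem_filter, mem_univ, true_and]
    exact ⟨b, hb, h1, h2, rfl⟩
  rw [h] at h3
  unfold key_td at h3
  simp only [mem_filter, mem_univ, true_and] at h3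
  obtain ⟨b', hb', h4, h5, h6⟩ := h3
  have := hI p b' b h4 h5 h1 h2 h6
  rw [← this]; exact hb'

end key

/-- congruent numbers at distance less than the modulus are equal -/
theorem key_mod {a b N : ℕ} (h : a % N = b % N) (h1 : a < b + N) (h2 : b < a + N) : a = b := by
  have e1 := Nat.div_add_mod a N
  have e2 := Nat.div_add_mod b N
  rcases lt_trichotomy (a / N) (b / N) with hq | hq | hq
  · have : N * (a / N + 1) ≤ N * (b / N) := Nat.mul_le_mul_left _ hq
    rw [Nat.mul_add] at this
    omega
  · rw [hq] at e1; omega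
  · have : N * (b / N + 1) ≤ N * (a / N) := Nat.mul_le_mul_left _ hq
    rw [Nat.mul_add] at this
    omega

theorem st_KEY (hCRO : ST_CRO) (hLOC : ST_LOC) : ST_KEY := by
  classical
  intro P _ _ w h m l r H A E C e hh hR hH hL hI
  have hlm : ∀ x, l x < m := fun x => lt_of_le_of_lt (hR.lr x) (hR.rm x)
  -- the level
  set lev : P → P → ℕ := fun x y => Nat.findGreatest (fun i => A i (l x) = A i (l y)) (w + 1)
    with hlev
  have lev_le : ∀ x y, lev x y ≤ w + 1 := fun x y => Nat.findGreatest_le _
  have down : ∀ x y i, A i (l x) = A i (l y) → ∀ j, j ≤ i → A j (l x) = A j (l y) := by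
    intro x y i
    induction i with
    | zero => intro h0 j hj; rw [Nat.le_zero.1 hj]; exact h0
    | succ i ih =>
      intro h0 j hj
      rcases Nat.le_succ_iff.1 hj with h1 | h1
      · exact ih ((hH.child i _ _ (hlm x) (hlm y)).1 h0).1 j h1
      · rw [h1]; exact h0
  have lev_sp : ∀ x y, A (lev x y) (l x) = A (lev x y) (l y) := fun x y =>
    Nat.findGreatest_spec (P := fun i => A i (l x) = A i (l y)) (Nat.zero_le (w + 1))
      (hH.zero _ _ (hlm x) (hlm y))
  have lev_eq : ∀ x y j, j ≤ lev x y → A j (l x) = A j (l y) := fun x y j hj =>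
    down x y _ (lev_sp x y) j hj
  have lev_ne : ∀ x y, lev x y ≤ w → C (lev x y) (l x) ≠ C (lev x y) (l y) := by
    intro x y hv hc
    have h1 : A (lev x y + 1) (l x) = A (lev x y + 1) (l y) :=
      (hH.child _ _ _ (hlm x) (hlm y)).2 ⟨lev_sp x y, hc⟩
    exact Nat.findGreatest_is_greatest (P := fun i => A i (l x) = A i (l y))
      (n := w + 1) (Nat.lt_succ_self (lev x y)) (by omega) h1
  have h2h : 0 < 2 * h := by omega
  let χ : P → P → Col w h := fun x y =>
    (⟨lev x y, Nat.lt_succ_of_le (lev_le x y)⟩,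
      decide (C (lev x y) (l x) < C (lev x y) (l y)),
      decide (C (lev x y) (l x) < C (lev x y) (l y) + h ∧
        C (lev x y) (l y) < C (lev x y) (l x) + h),
      fun j => ⟨min (C j (l x)) (C j (l y)) % (2 * h), Nat.mod_lt _ h2h⟩,
      fun j => (key_tr l r e (A j (l x)) x, key_tr l r e (E j (l x)) x),
      fun j => key_td l r e (E j (l y)) y)
  refine ⟨χ, ?_⟩
  intro c n t hn hper hall
  have hS : ∀ k, ¬ (t k).1 ≤ (t k).2 := fun k => (hall k).1.1
  have hχ : ∀ k, χ (t k).1 (t k).2 = χ (t (k + 1)).1 (t (k + 1)).2 := fun k =>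
    (hall k).1.2.trans (hall k).2.1.2.symm
  have hle : ∀ k, (t k).1 ≤ (t (k + 1)).2 := fun k => (hall k).2.2
  set X : ℕ → P := fun k => (t k).1 with hX
  set Y : ℕ → P := fun k => (t k).2 with hY
  have hv1 : ∀ k, lev (X k) (Y k) = lev (X (k + 1)) (Y (k + 1)) := fun k =>
    congrArg Fin.val (congrArg Prod.fst (hχ k))
  set v := lev (X 0) (Y 0) with hvdef
  have hv : ∀ k, lev (X k) (Y k) = v := by
    intro k
    induction k with
    | zero => rfl
    | succ k ih => rw [← hv1 k]; exact ih
  have hvw : v ≤ w + 1 := lev_le _ _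
  have hσ : ∀ k, (C v (l (X k)) < C v (l (Y k)) ↔
      C v (l (X (k + 1))) < C v (l (Y (k + 1)))) := by
    intro k
    have h1 := congrArg (fun z : Col w h => z.2.1) (hχ k)
    have h2 := decide_eq_decide.1 h1
    rw [show lev (t k).1 (t k).2 = v from hv k,
      show lev (t (k + 1)).1 (t (k + 1)).2 = v from hv (k + 1)] at h2
    exact h2
  have hν : ∀ k, ((C v (l (X k)) < C v (l (Y k)) + h ∧ C v (l (Y k)) < C v (l (X k)) + h) ↔
      (C v (l (X (k + 1))) < C v (l (Y (k + 1))) + h ∧
        C v (l (Y (k + 1))) < C v (l (X (k + 1))) + h)) := by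
    intro k
    have h1 := congrArg (fun z : Col w h => z.2.2.1) (hχ k)
    have h2 := decide_eq_decide.1 h1
    rw [show lev (t k).1 (t k).2 = v from hv k,
      show lev (t (k + 1)).1 (t (k + 1)).2 = v from hv (k + 1)] at h2
    exact h2
  have hidx : ∀ k j, j ≤ w → min (C j (l (X k))) (C j (l (Y k))) % (2 * h) =
      min (C j (l (X (k + 1)))) (C j (l (Y (k + 1)))) % (2 * h) := by
    intro k j hj
    have h1 := congrFun (congrArg (fun z : Col w h => z.2.2.2.1) (hχ k)) ⟨j, by omega⟩
    exact congrArg Fin.val h1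
  have htA : ∀ k j, j ≤ w + 1 → key_tr l r e (A j (l (X k))) (X k) =
      key_tr l r e (A j (l (X (k + 1)))) (X (k + 1)) := by
    intro k j hj
    have h1 := congrFun (congrArg (fun z : Col w h => z.2.2.2.2.1) (hχ k)) ⟨j, by omega⟩
    exact congrArg Prod.fst h1
  have htE : ∀ k j, j ≤ w + 1 → key_tr l r e (E j (l (X k))) (X k) =
      key_tr l r e (E j (l (X (k + 1)))) (X (k + 1)) := by
    intro k j hj
    have h1 := congrFun (congrArg (fun z : Col w h => z.2.2.2.2.1) (hχ k)) ⟨j, by omega⟩
    exact congrArg Prod.snd h1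
  have htD : ∀ k j, j ≤ w + 1 → key_td l r e (E j (l (Y k))) (Y k) =
      key_td l r e (E j (l (Y (k + 1)))) (Y (k + 1)) := by
    intro k j hj
    exact congrFun (congrArg (fun z : Col w h => z.2.2.2.2.2) (hχ k)) ⟨j, by omega⟩
  -- no element in between contains an end of the node
  have noend : ∀ k i, i ≤ w + 1 → A i (l (X k)) = A i (l (X (k + 1))) → ∀ b, X k ≤ b →
      b ≤ Y (k + 1) → ¬ (l b ≤ A i (l (X k)) ∧ A i (l (X k)) ≤ r b) ∧
        ¬ (l b ≤ E i (l (X k)) ∧ E i (l (X k)) ≤ r b) := by
    intro k i hi hA b hb1 hb2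
    have hE := hH.eqE i _ _ (hlm _) (hlm _) hA
    refine ⟨fun hc => ?_, fun hc => ?_⟩
    · have h1 := htA k i hi
      rw [← hA] at h1
      exact hS (k + 1) ((key_tr_eq hI h1 hb1 hc.1 hc.2).trans hb2)
    · have h1 := htE k i hi
      rw [← hE] at h1
      exact hS (k + 1) ((key_tr_eq hI h1 hb1 hc.1 hc.2).trans hb2)
  have stp : ∀ k i, i ≤ w + 1 → A i (l (X k)) = A i (l (X (k + 1))) →
      C i (l (X k)) < C i (l (Y (k + 1))) + h ∧ C i (l (Y (k + 1))) < C i (l (X k)) + h := by
    intro k i hi hA
    obtain ⟨-, h1, h2⟩ := hLOC P w h m l r H A E C hR hH i (X k) (Y (k + 1)) (hle k)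
      (noend k i hi hA)
    have h3 := hR.lt (Y (k + 1))
    exact ⟨by omega, by omega⟩
  -- all positions are in the same node up to level `v`
  have same : ∀ i, i ≤ v → ∀ k, A i (l (X k)) = A i (l (X (k + 1))) := by
    intro i
    induction i with
    | zero => intro _ k; exact hH.zero _ _ (hlm _) (hlm _)
    | succ i ih =>
      intro hi k
      have hA := ih (by omega) k
      obtain ⟨h1, h2⟩ := stp k i (by omega) hA
      have hc : ∀ k, C i (l (X k)) = C i (l (Y k)) := by
        intro k
        have h3 := lev_eq (X k) (Y k) (i + 1) (by rw [hv k]; exact hi)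
        exact ((hH.child i _ _ (hlm _) (hlm _)).1 h3).2
      have h4 := hidx k i (by omega)
      rw [← hc k, ← hc (k + 1), min_self, min_self] at h4
      rw [← hc (k + 1)] at h1 h2
      have h5 := key_mod h4 (by omega) (by omega)
      exact (hH.child i _ _ (hlm _) (hlm _)).2 ⟨hA, h5⟩
  have hAv := same v le_rfl
  rcases Nat.lt_or_ge v (w + 1) with hvlt | hvge
  · -- `v ≤ w`
    have hvw' : v ≤ w := by omega
    have hne : ∀ k, C v (l (X k)) ≠ C v (l (Y k)) := by
      intro k
      have := lev_ne (X k) (Y k) (by rw [hv k]; exact hvw')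
      rwa [hv k] at this
    have hXY : ∀ k, A v (l (X k)) = A v (l (Y k)) := fun k =>
      lev_eq (X k) (Y k) v (by rw [hv k])
    have hst := fun k => stp k v hvw (hAv k)
    have hσ' : ∀ k, (C v (l (X k)) < C v (l (Y k)) ↔ C v (l (X 0)) < C v (l (Y 0))) := by
      intro k
      induction k with
      | zero => rfl
      | succ k ih => exact (hσ k).symm.trans ih
    have hν' : ∀ k, ((C v (l (X k)) < C v (l (Y k)) + h ∧ C v (l (Y k)) < C v (l (X k)) + h) ↔
        (C v (l (X 0)) < C v (l (Y 0)) + h ∧ C v (l (Y 0)) < C v (l (X 0)) + h)) := by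
      intro k
      induction k with
      | zero => rfl
      | succ k ih => exact (hν k).symm.trans ih
    have hperY : Y n = Y 0 := by
      have := hper 0
      rw [zero_add] at this
      simp only [hY, this]
    by_cases hs : C v (l (X 0)) < C v (l (Y 0))
    · have hs' : ∀ k, C v (l (X k)) < C v (l (Y k)) := fun k => (hσ' k).2 hs
      by_cases hn' : C v (l (X 0)) < C v (l (Y 0)) + h ∧ C v (l (Y 0)) < C v (l (X 0)) + h
      · have hn2 := fun k => (hν' k).2 hn'
        have h4 := hidx 0 v hvw'
        rw [min_eq_left (hs' 0).le, min_eq_left (hs' (0 + 1)).le] at h4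
        have h5 : C v (l (X 0)) = C v (l (X (0 + 1))) := by
          have a1 := hst 0
          have a2 := hs' (0 + 1)
          have a3 := hn2 (0 + 1)
          exact key_mod h4 (by omega) (by omega)
        have h6 : A (v + 1) (l (X 0)) = A (v + 1) (l (X (0 + 1))) :=
          (hH.child v _ _ (hlm _) (hlm _)).2 ⟨hAv 0, h5⟩
        have h7 := hH.eqE (v + 1) _ _ (hlm _) (hlm _) h6
        obtain ⟨m1, m2, m3⟩ := hH.mem (v + 1) (l (X 0)) (hlm _)
        have h8 : E (v + 1) (l (X 0)) < l (Y (0 + 1)) := by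
          by_contra hcon
          push Not at hcon
          have h9 : A (v + 1) (E (v + 1) (l (X 0))) = A (v + 1) (l (X 0)) :=
            hH.node (v + 1) _ _ (hlm _) (m1.trans m2) le_rfl
          obtain ⟨h10, h11⟩ := (hH.child v _ _ m3 (hlm _)).1 h9
          have h12 : A v (l (Y (0 + 1))) = A v (E (v + 1) (l (X 0))) := by
            rw [h10, hAv 0, hXY (0 + 1)]
          have h13 := hH.mono v _ _ hcon m3 h12
          have := hs' (0 + 1)
          omega
        obtain ⟨b, b1, b2, b3, b4⟩ := hCRO P w h m l r H hR (X 0) (Y (0 + 1))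
          (E (v + 1) (l (X 0))) (hle 0) (Or.inl ⟨m2, h8⟩)
        have h14 := htE 0 (v + 1) (by omega)
        rw [← h7] at h14
        exact hS (0 + 1) ((key_tr_eq hI h14 b1 b3 b4).trans b2)
      · have hn2 := fun k hk => hn' ((hν' k).1 hk)
        have hdec : ∀ k, C v (l (Y (k + 1))) < C v (l (Y k)) := by
          intro k
          have a1 := hst k
          have a2 := hs' k
          have a3 := hn2 k
          by_contra hcon
          exact a3 ⟨by omega, by omega⟩
        have : ∀ k, C v (l (Y k)) + k ≤ C v (l (Y 0)) := by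
          intro k
          induction k with
          | zero => simp
          | succ k ih => have := hdec k; omega
        have h9 := this n
        rw [hperY] at h9
        omega
    · have hs' : ∀ k, C v (l (Y k)) < C v (l (X k)) := fun k =>
        lt_of_le_of_ne (not_lt.1 fun hc => hs ((hσ' k).1 hc)) (hne k).symm
      by_cases hn' : C v (l (X 0)) < C v (l (Y 0)) + h ∧ C v (l (Y 0)) < C v (l (X 0)) + h
      · have hn2 := fun k => (hν' k).2 hn'
        have h4 := hidx 0 v hvw'
        rw [min_eq_right (hs' 0).le, min_eq_right (hs' (0 + 1)).le] at h4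
        have h5 : C v (l (Y 0)) = C v (l (Y (0 + 1))) := by
          have a1 := hst 0
          have a2 := hs' 0
          have a3 := hn2 0
          exact key_mod h4 (by omega) (by omega)
        have hAY : A v (l (Y 0)) = A v (l (Y (0 + 1))) := by
          rw [← hXY 0, ← hXY (0 + 1)]; exact hAv 0
        have h6 : A (v + 1) (l (Y 0)) = A (v + 1) (l (Y (0 + 1))) :=
          (hH.child v _ _ (hlm _) (hlm _)).2 ⟨hAY, h5⟩
        have h7 := hH.eqE (v + 1) _ _ (hlm _) (hlm _) h6
        obtain ⟨m1, m2, m3⟩ := hH.mem (v + 1) (l (Y 0)) (hlm _)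
        obtain ⟨m1', m2', m3'⟩ := hH.mem (v + 1) (l (Y (0 + 1))) (hlm _)
        have h8 : E (v + 1) (l (Y 0)) < l (X 0) := by
          by_contra hcon
          push Not at hcon
          have h9 : A (v + 1) (E (v + 1) (l (Y 0))) = A (v + 1) (l (Y 0)) :=
            hH.node (v + 1) _ _ (hlm _) (m1.trans m2) le_rfl
          obtain ⟨h10, h11⟩ := (hH.child v _ _ m3 (hlm _)).1 h9
          have h12 : A v (l (X 0)) = A v (E (v + 1) (l (Y 0))) := by
            rw [h10, hXY 0]
          have h13 := hH.mono v _ _ hcon m3 h12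
          have := hs' 0
          omega
        obtain ⟨b, b1, b2, b3, b4⟩ := hCRO P w h m l r H hR (X 0) (Y (0 + 1))
          (E (v + 1) (l (Y 0))) (hle 0) (Or.inr ⟨by rw [h7]; exact m2', h8⟩)
        have h14 := htD 0 (v + 1) (by omega)
        rw [← h7] at h14
        exact hS 0 (b1.trans (key_td_eq hI h14.symm b2 b3 b4))
      · have hn2 := fun k hk => hn' ((hν' k).1 hk)
        have hinc : ∀ k, C v (l (Y k)) < C v (l (Y (k + 1))) := by
          intro k
          have a1 := hst k
          have a2 := hs' k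
          have a3 := hn2 k
          by_contra hcon
          exact a3 ⟨by omega, by omega⟩
        have : ∀ k, C v (l (Y 0)) + k ≤ C v (l (Y k)) := by
          intro k
          induction k with
          | zero => simp
          | succ k ih => have := hinc k; omega
        have h9 := this n
        rw [hperY] at h9
        omega
  · -- `v = w + 1`
    have hve : v = w + 1 := by omega
    obtain ⟨q1, q2⟩ := hL (X 0) (l (X 0)) (hlm _) le_rfl (hR.lr _)
    obtain ⟨m1, m2, m3⟩ := hH.mem (w + 1) (l (X 0)) (hlm _)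
    have h1 := (noend 0 (w + 1) le_rfl (by rw [← hve]; exact hAv 0) (X 0) le_rfl (hle 0)).1
    exact h1 ⟨q1, by omega⟩

end Pool.Agent.Helper66.PD
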