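import Pool.Agent.Helper24.PD.HGT
import Pool.Agent.Helper84.PD.ITV
import Pool.Agent.Helper85.PD.SPL
import Pool.Agent.Helper60.PD.HIE
import Pool.Agent.Helper49.PD.LST
import Pool.Agent.Helper88.PD.CRO
import Pool.Agent.Helper46.PD.LOC
import Pool.Agent.Helper67.PD.INJ
import Pool.Agent.Helper58.PD.CRD
import Pool.Agent.Helper13.PD.SEQ
import Pool.Agent.Helper66.PD.KEY
import Pool.Agent.Helper51.PD.EXT
import Pool.Agent.Helper77.PD.UPP
import Pool.Agent.Helper12.PD.HTL
import Pool.Agent.Helper22.PD.BCD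
import Pool.Agent.Helper48.PD.CVX
import Pool.Agent.Helper62.PD.EDG
import Pool.Agent.Helper73.PD.PWL
import Pool.Agent.Helper92.PD.DML

/-!
# Dimension and height of posets with cover graph of bounded path-width: the two theorems
-/

set_option autoImplicit false

namespace Pool.Agent.Helper66.PD

/-- the upper bound, with the constant -/
theorem path_width_upper_const : ST_UPP :=
  st_UPP st_HGT st_ITV (st_HIE st_SPL) st_LST st_INJ st_CRD st_SEQ (st_KEY st_CRO (st_LOC)) st_EXT

/-- the upper bound -/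
theorem path_width_upper : ∀ w : ℕ, ∃ C : ℕ, ∀ (h : ℕ) (P : Type) [PartialOrder P] [Fintype P],
    HeightLE P h → PathWidthLE (cov P) w → DimLE P (C * h ^ (w + 1)) :=
  fun w => ⟨CW w, fun h P _ _ hh hw => path_width_upper_const P w h hh hw⟩

/-- the lower bound -/
theorem path_width_lower : ∀ k n : ℕ, ∃ (P : Type) (_ : PartialOrder P) (_ : Fintype P),
    HeightLE P (n + 2) ∧ PathWidthLE (cov P) (4 * k + 1) ∧ ∀ d : ℕ, DimLE P d → n ^ k ≤ d :=
  fun k n => ⟨Q k n, instPO, instFT, st_HTL k n, st_PWL st_BCD st_CVX st_EDG k n, st_DML k n⟩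

end Pool.Agent.Helper66.PD
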