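import Pool.Agent.Helper66.PD.Up2

/-!
# Dimension and height of posets with cover graph of path-width `w`: exponent `w - 1`

On the level `w - 1` of the hierarchy at most two elements of a bag do not span the node, and one
index modulo 8 replaces the index modulo `2 * h`.
-/

set_option autoImplicit false

namespace Pool.Agent.Helper66.PD

open Finset

/-- a comparability such that no element in between contains an end of the node -/
def Inn {P : Type} [PartialOrder P] (l r : P → ℕ) (α ε : ℕ) (x y : P) : Prop :=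
  x ≤ y ∧ ∀ b, x ≤ b → b ≤ y → ¬ (l b ≤ α ∧ α ≤ r b) ∧ ¬ (l b ≤ ε ∧ ε ≤ r b)

/-- a node with at most two elements in a bag which do not span it -/
structure Nd (P : Type) [PartialOrder P] (l r : P → ℕ) (α ε : ℕ) (c : ℕ → ℕ) : Prop where
  lr : ∀ x, l x ≤ r x
  adj : ∀ x y, x ⋖ y → l x ≤ r y ∧ l y ≤ r x
  mono : ∀ p q, α ≤ p → p ≤ q → q ≤ ε → c p ≤ c q
  step : ∀ z p q, α ≤ p → p ≤ q → q ≤ ε → ¬ (l z ≤ α ∧ ε ≤ r z) → l z ≤ p → q ≤ r z →
    c q ≤ c p + 1
  two : ∀ p b b' d, α ≤ p → p ≤ ε → b ≠ b' → l b ≤ p → p ≤ r b → l b' ≤ p → p ≤ r b' →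
    l d ≤ p → p ≤ r d → ¬ (l b ≤ α ∧ ε ≤ r b) → ¬ (l b' ≤ α ∧ ε ≤ r b') →
    ¬ (l d ≤ α ∧ ε ≤ r d) → d = b ∨ d = b'
  cro : ∀ x y p, x ≤ y → (l x ≤ p ∧ p < l y ∨ l y ≤ p ∧ p < l x) →
    ∃ b, x ≤ b ∧ b ≤ y ∧ l b ≤ p ∧ p ≤ r b

section nd

variable {P : Type} [PartialOrder P] {l r : P → ℕ} {α ε : ℕ} {c : ℕ → ℕ}

theorem Nd.inside (N : Nd P l r α ε c) {x y : P} (hI : Inn l r α ε x y) (h1 : α ≤ l x)
    (h2 : l x ≤ ε) : ∀ b, x ≤ b → b ≤ y → α < l b ∧ r b < ε := by
  have hx1 : α < l x := by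
    by_contra hc
    exact (hI.2 x le_rfl hI.1).1 ⟨not_lt.1 hc, h1.trans (N.lr x)⟩
  intro b hb1 hb2
  have hb := hI.2 b hb1 hb2
  have h3 : l b ≤ ε := by
    by_contra hc
    obtain ⟨d, d1, d2, d3, d4⟩ := N.cro x b ε hb1 (Or.inl ⟨h2, not_le.1 hc⟩)
    exact (hI.2 d d1 (d2.trans hb2)).2 ⟨d3, d4⟩
  have h4 : r b < ε := by
    by_contra hc
    exact hb.2 ⟨h3, not_lt.1 hc⟩
  refine ⟨?_, h4⟩
  by_contra hc
  obtain ⟨d, d1, d2, d3, d4⟩ := N.cro x b α hb1 (Or.inr ⟨not_lt.1 hc, hx1⟩)
  exact (hI.2 d d1 (d2.trans hb2)).1 ⟨d3, d4⟩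

theorem rtg_le {x y : P} (h : Relation.ReflTransGen (· ⋖ ·) x y) : x ≤ y := by
  induction h with
  | refl => exact le_rfl
  | tail _ h1 ih => exact ih.trans h1.lt.le

theorem le_rtg [Fintype P] {x y : P} (h : x ≤ y) : Relation.ReflTransGen (· ⋖ ·) x y := by
  classical
  let _ : LocallyFiniteOrder P := Fintype.toLocallyFiniteOrder
  exact le_iff_reflTransGen_covBy.1 h

theorem Nd.walk (N : Nd P l r α ε c) (F : ℕ → ℤ)
    (hF : ∀ z p q, α < l z → r z < ε → l z ≤ p → p ≤ r z → l z ≤ q → q ≤ r z → F p ≤ F q + 1)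
    (k : ℤ) (x y : P) (hxy : Relation.ReflTransGen (· ⋖ ·) x y) :
    (∀ b, x ≤ b → b ≤ y → α < l b ∧ r b < ε) → ∀ p0, l x ≤ p0 → p0 ≤ r x → F p0 + 1 ≤ k →
    k + 1 ≤ F (l y) → ∃ b b' p, x ≤ b ∧ b ⋖ b' ∧ b' ≤ y ∧ l b ≤ p ∧ p ≤ r b ∧ l b' ≤ p ∧
      p ≤ r b' ∧ F p = k := by
  induction hxy using Relation.ReflTransGen.head_induction_on with
  | refl =>
    intro hin p0 h1 h2 h3 h4
    have h5 := hin y le_rfl le_rfl
    have h6 := hF y (l y) p0 h5.1 h5.2 le_rfl (N.lr y) h1 h2
    omega
  | head hx hxy ih =>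
    rename_i a a'
    intro hin p0 h1 h2 h3 h4
    have hle : a' ≤ y := rtg_le hxy
    have h5 := hin a le_rfl (hx.lt.le.trans hle)
    obtain ⟨a1, a2⟩ := N.adj a a' hx
    have b1 : l a ≤ max (l a) (l a') := le_max_left _ _
    have b2 : l a' ≤ max (l a) (l a') := le_max_right _ _
    have b3 : max (l a) (l a') ≤ r a := max_le (N.lr a) a2
    have b4 : max (l a) (l a') ≤ r a' := max_le a1 (N.lr a')
    have h6 := hF a (max (l a) (l a')) p0 h5.1 h5.2 b1 b3 h1 h2
    by_cases hk : F (max (l a) (l a')) = k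
    · exact ⟨a, a', max (l a) (l a'), le_rfl, hx, hle, b1, b3, b2, b4, hk⟩
    · obtain ⟨b, b', p, c1, c2⟩ := ih (fun b hb1 hb2 => hin b (hx.lt.le.trans hb1) hb2)
        (max (l a) (l a')) b2 b4 (by omega) h4
      exact ⟨b, b', p, hx.lt.le.trans c1, c2⟩

theorem Nd.hc (N : Nd P l r α ε c) : ∀ z p q, α < l z → r z < ε → l z ≤ p → p ≤ r z → l z ≤ q →
    q ≤ r z → c p ≤ c q + 1 := by
  intro z p q h1 h2 h3 h4 h5 h6
  rcases le_total p q with h | h
  · exact (N.mono p q (by omega) h (by omega)).trans (by omega)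
  · exact N.step z q p (by omega) h (by omega) (by omega) h5 h4

theorem Nd.ocl [Fintype P] (N : Nd P l r α ε c) {x y x' y' : P} (h1 : Inn l r α ε x y)
    (h2 : Inn l r α ε x' y') (hx : α ≤ l x ∧ l x ≤ ε) (hx' : α ≤ l x' ∧ l x' ≤ ε) (k : ℕ)
    (a1 : c (l x) + 1 ≤ k) (a2 : k + 3 ≤ c (l y)) (a3 : k + 3 ≤ c (l x'))
    (a4 : c (l y') + 1 ≤ k) : False := by
  classical
  have i1 := N.inside h1 hx.1 hx.2
  have i2 := N.inside h2 hx'.1 hx'.2
  have hF : ∀ z p q, α < l z → r z < ε → l z ≤ p → p ≤ r z → l z ≤ q → q ≤ r z →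
      (c p : ℤ) ≤ (c q : ℤ) + 1 := by
    intro z p q g1 g2 g3 g4 g5 g6
    have := N.hc z p q g1 g2 g3 g4 g5 g6
    omega
  obtain ⟨b, b', p, e1, e2, e3, e4, e5, e6, e7, e8⟩ := N.walk (fun p => (c p : ℤ)) hF (k : ℤ) x y
    (le_rtg h1.1) i1 (l x) le_rfl (N.lr x) (by omega)
    (by omega)
  have eb := i1 b e1 (e2.lt.le.trans e3)
  have eb' := i1 b' (e1.trans e2.lt.le) e3
  obtain ⟨f, f', p', g1, g2, g3, g4, g5, g6, g7, g8⟩ := N.walk (fun p => (c p : ℤ)) hF
    ((k : ℤ) + 2) b' y (le_rtg e3)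
    (fun d d1 d2 => i1 d ((e1.trans e2.lt.le).trans d1) d2) p e6 e7 (by omega)
    (by omega)
  have ef := i1 f ((e1.trans e2.lt.le).trans g1) (g2.lt.le.trans g3)
  have ef' := i1 f' (((e1.trans e2.lt.le).trans g1).trans g2.lt.le) g3
  have iy' := i2 y' h2.1 le_rfl
  have ix' := i2 x' le_rfl h2.1
  have lrx' := N.lr x'
  have lry' := N.lr y'
  have hpp : p < p' := by
    by_contra hc
    have := N.mono p' p (by omega) (not_lt.1 hc) (by omega)
    omega
  have hy'p : l y' ≤ p := by
    by_contra hc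
    have := N.mono p (l y') (by omega) (not_le.1 hc).le (by omega)
    omega
  have hx'p : p' < l x' := by
    by_contra hc
    have := N.mono (l x') p' (by omega) (not_lt.1 hc) (by omega)
    omega
  obtain ⟨d, d1, d2, d3, d4⟩ := N.cro x' y' p' h2.1 (Or.inr ⟨by omega, hx'p⟩)
  have id := i2 d d1 d2
  have hd : d = f ∨ d = f' := N.two p' f f' d (by omega) (by omega) g2.lt.ne g4 g5 g6 g7 d3 d4
    (by omega) (by omega) (by omega)
  have hfd : f ≤ d := by
    rcases hd with rfl | rfl
    · exact le_rfl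
    · exact g2.lt.le
  have hdp : p < l d := by
    by_contra hc
    have := N.step d p p' (by omega) hpp.le (by omega) (by omega) (not_lt.1 hc) d4
    omega
  obtain ⟨d', q1, q2, q3, q4⟩ := N.cro d y' p d2 (Or.inr ⟨hy'p, hdp⟩)
  have id' := i2 d' (d1.trans q1) q2
  have hd' : d' = b ∨ d' = b' := N.two p b b' d' (by omega) (by omega) e2.lt.ne e4 e5 e6 e7 q3 q4
    (by omega) (by omega) (by omega)
  have hd'b : d' ≤ b' := by
    rcases hd' with rfl | rfl
    · exact e2.lt.le
    · exact le_rfl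
  have : d' = d := le_antisymm ((hd'b.trans g1).trans hfd) q1
  rw [this] at q3
  omega

theorem Nd.near [Fintype P] (N : Nd P l r α ε c) (n : ℕ) (hn : 1 ≤ n) (X Y : ℕ → P)
    (hX : ∀ k, X (k + n) = X k) (hI : ∀ k, Inn l r α ε (X k) (Y (k + 1)))
    (hN : ∀ k, α ≤ l (X k) ∧ l (X k) ≤ ε)
    (h2 : ∀ k, c (l (X k)) ≤ c (l (Y k)) + 2 ∧ c (l (Y k)) ≤ c (l (X k)) + 2)
    (h8 : ∀ k, c (l (X k)) % 8 = c (l (X (k + 1))) % 8) :
    ∀ k, c (l (X k)) = c (l (X (k + 1))) := by
  classical
  set f : ℕ → ℕ := fun k => c (l (X k)) with hf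
  have hper : ∀ k, f (k + n) = f k := fun k => by simp only [hf, hX]
  have hperm : ∀ t k, f (k + n * t) = f k := by
    intro t
    induction t with
    | zero => intro k; simp
    | succ t ih =>
      intro k
      rw [Nat.mul_succ, ← Nat.add_assoc, hper, ih]
  obtain ⟨ks, hks⟩ : ∃ ks, ∀ j, f ks ≤ f j := by
    obtain ⟨a, ⟨ks, rfl⟩, ha⟩ := WellFounded.has_min (r := ((· < ·) : ℕ → ℕ → Prop))
      wellFounded_lt (Set.range f) ⟨f 0, 0, rfl⟩
    exact ⟨ks, fun j => not_lt.1 (ha (f j) ⟨j, rfl⟩)⟩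
  by_contra hcon
  push Not at hcon
  obtain ⟨k0, hk0⟩ := hcon
  have hall : ∀ j, (∀ i, f i = f ks → f (i + 1) = f ks) → f j = f ks := by
    intro j hst
    have h3 : ∀ i, f (ks + i) = f ks := by
      intro i
      induction i with
      | zero => rfl
      | succ i ih => exact hst _ ih
    have h4 : f (j + n * ks) = f j := hperm ks j
    have h5 : ks ≤ j + n * ks := by nlinarith
    obtain ⟨i, hi⟩ := Nat.exists_eq_add_of_le h5
    rw [← h4, hi]
    exact h3 i
  have hall2 : ∀ j, (∀ i, f (i + 1) = f ks → f i = f ks) → f j = f ks := by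
    intro j hst
    have h3 : ∀ i j, f (j + i) = f ks → f j = f ks := by
      intro i
      induction i with
      | zero => intro j hj; exact hj
      | succ i ih =>
        intro j hj
        exact ih j (hst _ hj)
    have h4 : f (ks + n * j) = f ks := hperm j ks
    have h5 : j ≤ ks + n * j := by nlinarith
    obtain ⟨i, hi⟩ := Nat.exists_eq_add_of_le h5
    rw [hi] at h4
    exact h3 i j h4
  obtain ⟨k1, g1, g2⟩ : ∃ k1, f k1 = f ks ∧ f (k1 + 1) ≠ f ks := by
    by_contra hc
    push Not at hc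
    exact hk0 ((hall k0 hc).trans (hall (k0 + 1) hc).symm)
  obtain ⟨k2, g3, g4⟩ : ∃ k2, f (k2 + 1) = f ks ∧ f k2 ≠ f ks := by
    by_contra hc
    push Not at hc
    exact hk0 ((hall2 k0 hc).trans (hall2 (k0 + 1) hc).symm)
  have r1 := h8 k1
  have r2 := h8 k2
  have s1 := hks (k1 + 1)
  have s2 := hks k2
  have t1 := h2 (k1 + 1)
  have t2 := h2 (k2 + 1)
  simp only [hf] at g1 g2 g3 g4 s1 s2
  exact N.ocl (hI k1) (hI k2) (hN k1) (hN k2) (c (l (X ks)) + 3) (by omega) (by omega) (by omega)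
    (by omega)

/-- an element between which contains a given position -/
theorem Nd.croT (N : Nd P l r α ε c) (F : ℕ → ℤ)
    (hc : (∀ p, F p = (c p : ℤ)) ∨ ∀ p, F p = -(c p : ℤ)) {x b : P} {T p : ℕ} (hxb : x ≤ b)
    (hx : α ≤ l x ∧ l x ≤ ε) (hT : α ≤ T ∧ T ≤ ε) (hp : α ≤ p ∧ p ≤ ε) (h1 : l b ≤ T)
    (h2 : T ≤ r b) (h3 : F (l x) < F p) (h4 : F p < F T) :
    ∃ d, x ≤ d ∧ d ≤ b ∧ l d ≤ p ∧ p ≤ r d := by
  rcases hc with hc | hc
  · rw [hc, hc] at h3 h4
    have g1 : l x < p := by
      by_contra hcc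
      have := N.mono p (l x) hp.1 (not_lt.1 hcc) hx.2
      omega
    have g2 : p < T := by
      by_contra hcc
      have := N.mono T p hT.1 (not_lt.1 hcc) hp.2
      omega
    by_cases g3 : l b ≤ p
    · exact ⟨b, hxb, le_rfl, g3, by omega⟩
    · exact N.cro x b p hxb (Or.inl ⟨g1.le, not_le.1 g3⟩)
  · rw [hc, hc] at h3 h4
    have g1 : p < l x := by
      by_contra hcc
      have := N.mono (l x) p hx.1 (not_lt.1 hcc) hp.2
      omega
    have g2 : T < p := by
      by_contra hcc
      have := N.mono p T hp.1 (not_lt.1 hcc) hT.2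
      omega
    exact N.cro x b p hxb (Or.inr ⟨by omega, g1⟩)

theorem Nd.far [Fintype P] (N : Nd P l r α ε c) (F : ℕ → ℤ)
    (hc : (∀ p, F p = (c p : ℤ)) ∨ ∀ p, F p = -(c p : ℤ)) {x y x1 b1 : P} {q : ℕ}
    (hI : Inn l r α ε x y) (hx : α ≤ l x ∧ l x ≤ ε) (hx1 : α ≤ l x1 ∧ l x1 ≤ ε)
    (h1 : F (l x) < F (l x1)) (h2 : F (l x1) + 3 ≤ F (l y)) (hI1 : Inn l r α ε x1 b1)
    (q1 : l b1 ≤ q) (q2 : q ≤ r b1) (q3 : F (l x1) + 2 ≤ F q) : x1 ≤ y := by
  have i1 := N.inside hI hx.1 hx.2
  have i2 := N.inside hI1 hx1.1 hx1.2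
  have hF : ∀ z p q, α < l z → r z < ε → l z ≤ p → p ≤ r z → l z ≤ q → q ≤ r z →
      F p ≤ F q + 1 := by
    intro z p q g1 g2 g3 g4 g5 g6
    have t1 := N.hc z p q g1 g2 g3 g4 g5 g6
    have t2 := N.hc z q p g1 g2 g5 g6 g3 g4
    rcases hc with hc | hc
    · rw [hc, hc]; omega
    · rw [hc, hc]; omega
  obtain ⟨b, b', p, e1, e2, e3, e4, e5, e6, e7, e8⟩ := N.walk F hF (F (l x1) + 1) x y
    (le_rtg hI.1) i1 (l x) le_rfl (N.lr x) (by omega) (by omega)
  have eb := i1 b e1 (e2.lt.le.trans e3)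
  have eb' := i1 b' (e1.trans e2.lt.le) e3
  have ib1 := i2 b1 hI1.1 le_rfl
  obtain ⟨d, d1, d2, d3, d4⟩ := N.croT F hc (T := q) (p := p) hI1.1 hx1 ⟨by omega, by omega⟩
    ⟨by omega, by omega⟩ q1 q2 (by omega) (by omega)
  have id := i2 d d1 d2
  have hd : d = b ∨ d = b' := N.two p b b' d (by omega) (by omega) e2.lt.ne e4 e5 e6 e7 d3 d4
    (by omega) (by omega) (by omega)
  rcases hd with rfl | rfl
  · exact (d1.trans e2.lt.le).trans e3
  · exact d1.trans e3

end nd

/-- the nodes of the level `w - 1` -/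
theorem mkNd (hCRO : ST_CRO) (P : Type) [PartialOrder P] [Fintype P] (w u h m : ℕ)
    (hu : w = u + 1) (l r H : P → ℕ) (A E C : ℕ → ℕ → ℕ) (hR : Rep P w h m l r H)
    (hH : Hier P m l r A E C) (a : ℕ) (ha : a < m) : Nd P l r (A u a) (E u a) (C u) := by
  classical
  obtain ⟨m1, m2, m3⟩ := hH.mem u a ha
  have hA : ∀ p, A u a ≤ p → p ≤ E u a → A u p = A u a := fun p h1 h2 => hH.node u a p ha h1 h2
  refine ⟨hR.lr, hR.adj, ?_, ?_, ?_, hCRO P w h m l r H hR⟩
  · intro p q h1 h2 h3
    exact hH.mono u p q h2 (by omega) ((hA p h1 (h2.trans h3)).trans (hA q (h1.trans h2) h3).symm)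
  · intro z p q h1 h2 h3 h4 h5 h6
    have e1 := hA p h1 (h2.trans h3)
    have e2 := hH.eqE u p a (by omega) ha e1
    refine hH.step u z p q h2 (by omega) (e1.trans (hA q (h1.trans h2) h3).symm) ?_ h5 h6
    rw [e1, e2]; exact h4
  · intro p b b' d h1 h2 hbb hb1 hb2 hb1' hb2' hd1 hd2 nb nb' nd
    have e1 := hA p h1 h2
    have e2 := hH.eqE u p a (by omega) ha e1
    by_contra hcon
    push Not at hcon
    rcases spn P m l r A E C hH p (by omega) u with hs | hs
    · have := hs b hb1 hb2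
      rw [e1, e2] at this
      exact nb this
    · rw [e1, e2] at hs
      set K := univ.filter (fun z => l z ≤ A u a ∧ E u a ≤ r z) with hK
      have k1 : b ∉ K := fun hx => nb (by rw [hK, mem_filter] at hx; exact hx.2)
      have k2 : b' ∉ K := fun hx => nb' (by rw [hK, mem_filter] at hx; exact hx.2)
      have k3 : d ∉ K := fun hx => nd (by rw [hK, mem_filter] at hx; exact hx.2)
      have k4 : b' ∉ insert d K := by
        rw [mem_insert]
        rintro (hx | hx)
        · exact hcon.2 hx.symm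
        · exact k2 hx
      have k5 : b ∉ insert b' (insert d K) := by
        rw [mem_insert, mem_insert]
        rintro (hx | hx | hx)
        · exact hbb hx
        · exact hcon.1 hx.symm
        · exact k1 hx
      have hsub : insert b (insert b' (insert d K)) ⊆
          univ.filter (fun z => l z ≤ p ∧ p ≤ r z) := by
        intro z hz
        rw [mem_insert, mem_insert, mem_insert] at hz
        rw [mem_filter]
        rcases hz with rfl | rfl | rfl | hz
        · exact ⟨mem_univ _, hb1, hb2⟩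
        · exact ⟨mem_univ _, hb1', hb2'⟩
        · exact ⟨mem_univ _, hd1, hd2⟩
        · rw [hK, mem_filter] at hz
          exact ⟨mem_univ _, hz.2.1.trans h1, h2.trans hz.2.2⟩
      have hcd := (card_le_card hsub).trans (hR.card p)
      rw [card_insert_of_notMem k5, card_insert_of_notMem k4, card_insert_of_notMem k3] at hcd
      omega

/-- the colours -/
abbrev Col3 (w u h : ℕ) : Type :=
  Fin (w + 2) × Bool × Bool × (Fin u → Fin (2 * h)) ×
    (Fin (w + 2) → Finset (Fin (w + 1)) × Finset (Fin (w + 1))) ×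
    (Fin (w + 2) → Finset (Fin (w + 1))) × Fin 8 × Bool × Bool × Bool

/-- the constant -/
def CW3 (w u : ℕ) : ℕ :=
  (w + 2) * 2 * 2 * 2 ^ u * (2 ^ (w + 1) * 2 ^ (w + 1)) ^ (w + 2) * (2 ^ (w + 1)) ^ (w + 2) *
    8 * 2 * 2 * 2

theorem crd3 (w u h : ℕ) : Fintype.card (Col3 w u h) = CW3 w u * h ^ u := by
  simp only [Col3, CW3, Fintype.card_prod, Fintype.card_fun, Fintype.card_finset,
    Fintype.card_fin, Fintype.card_bool, mul_pow]
  ring

/-- KEY3: every colour class is without alternating cycles -/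
def ST_KEY3 : Prop := ∀ (P : Type) [PartialOrder P] [Fintype P] (w u h m : ℕ) (l r H : P → ℕ)
  (A E C : ℕ → ℕ → ℕ) (e : ℕ → P → Fin (w + 1)), w = u + 1 → 1 ≤ h → Rep P w h m l r H →
  Hier P m l r A E C →
  (∀ z p, p < m → l z ≤ p → p ≤ r z → l z ≤ A (w + 1) p ∧ E (w + 1) p ≤ r z) →
  (∀ p x y, l x ≤ p → p ≤ r x → l y ≤ p → p ≤ r y → e p x = e p y → x = y) →
  ∃ χ : P → P → Col3 w u h, ∀ (c : Col3 w u h) (n : ℕ) (t : ℕ → P × P), 1 ≤ n →
    (∀ k, t (k + n) = t k) →
    ¬ ∀ k, Alt P (fun x y => ¬ x ≤ y ∧ χ x y = c) (t k) (t (k + 1))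

theorem key3 (hCRO : ST_CRO) (hLOC : ST_LOC) : ST_KEY3 := by
  classical
  intro P _ _ w u h m l r H A E C e hu hh hR hH hL hI
  have hlm : ∀ x, l x < m := fun x => lt_of_le_of_lt (hR.lr x) (hR.rm x)
  -- the level
  set lev : P → P → ℕ := fun x y => Nat.findGreatest (fun i => A i (l x) = A i (l y)) (w + 1)
    with hlev
  have lev_le : ∀ x y, lev x y ≤ w + 1 := fun x y => Nat.findGreatest_le _
  have down : ∀ x y i, A i (l x) = A i (l y) → ∀ j, j ≤ i → A j (l x) = A j (l y) := by
    intro x y i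
    induction i with
    | zero => intro h0 j hj; rw [Nat.le_zero.1 hj]; exact h0
    | succ i ih =>
      intro h0 j hj
      rcases Nat.le_succ_iff.1 hj with h1 | h1
      · exact ih ((hH.child i _ _ (hlm x) (hlm y)).1 h0).1 j h1
      · rw [h1]; exact h0
  have lev_sp : ∀ x y, A (lev x y) (l x) = A (lev x y) (l y) := fun x y =>
    Nat.findGreatest_spec (P := fun i => A i (l x) = A i (l y)) (Nat.zero_le (w + 1))
      (hH.zero _ _ (hlm x) (hlm y))
  have lev_eq : ∀ x y j, j ≤ lev x y → A j (l x) = A j (l y) := fun x y j hj =>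
    down x y _ (lev_sp x y) j hj
  have lev_ne : ∀ x y, lev x y ≤ w → C (lev x y) (l x) ≠ C (lev x y) (l y) := by
    intro x y hv hc
    have h1 : A (lev x y + 1) (l x) = A (lev x y + 1) (l y) :=
      (hH.child _ _ _ (hlm x) (hlm y)).2 ⟨lev_sp x y, hc⟩
    exact Nat.findGreatest_is_greatest (P := fun i => A i (l x) = A i (l y))
      (n := w + 1) (Nat.lt_succ_self (lev x y)) (by omega) h1
  have h2h : 0 < 2 * h := by omega
  let χ : P → P → Col3 w u h := fun x y =>
    (⟨lev x y, Nat.lt_succ_of_le (lev_le x y)⟩,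
      decide (C (lev x y) (l x) < C (lev x y) (l y)),
      decide (C (lev x y) (l x) < C (lev x y) (l y) + h ∧
        C (lev x y) (l y) < C (lev x y) (l x) + h),
      fun j => ⟨min (C j (l x)) (C j (l y)) % (2 * h), Nat.mod_lt _ h2h⟩,
      fun j => (key_tr l r e (A j (l x)) x, key_tr l r e (E j (l x)) x),
      fun j => key_td l r e (E j (l y)) y,
      ⟨C u (l x) % 8, Nat.mod_lt _ (by norm_num)⟩,
      decide (C u (l x) ≤ C u (l y) + 2 ∧ C u (l y) ≤ C u (l x) + 2),
      decide (∃ b q, Inn l r (A u (l x)) (E u (l x)) x b ∧ l b ≤ q ∧ q ≤ r b ∧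
        C u (l x) + 2 ≤ C u q),
      decide (∃ b q, Inn l r (A u (l x)) (E u (l x)) x b ∧ l b ≤ q ∧ q ≤ r b ∧
        C u q + 2 ≤ C u (l x)))
  refine ⟨χ, ?_⟩
  intro c n t hn hper hall
  have hS : ∀ k, ¬ (t k).1 ≤ (t k).2 := fun k => (hall k).1.1
  have hχ : ∀ k, χ (t k).1 (t k).2 = χ (t (k + 1)).1 (t (k + 1)).2 := fun k =>
    (hall k).1.2.trans (hall k).2.1.2.symm
  have hle : ∀ k, (t k).1 ≤ (t (k + 1)).2 := fun k => (hall k).2.2
  set X : ℕ → P := fun k => (t k).1 with hX
  set Y : ℕ → P := fun k => (t k).2 with hY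
  have hv1 : ∀ k, lev (X k) (Y k) = lev (X (k + 1)) (Y (k + 1)) := fun k =>
    congrArg Fin.val (congrArg Prod.fst (hχ k))
  set v := lev (X 0) (Y 0) with hvdef
  have hv : ∀ k, lev (X k) (Y k) = v := by
    intro k
    induction k with
    | zero => rfl
    | succ k ih => rw [← hv1 k]; exact ih
  have hvw : v ≤ w + 1 := lev_le _ _
  have hσ : ∀ k, (C v (l (X k)) < C v (l (Y k)) ↔
      C v (l (X (k + 1))) < C v (l (Y (k + 1)))) := by
    intro k
    have h1 := congrArg (fun z : Col3 w u h => z.2.1) (hχ k)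
    have h2 := decide_eq_decide.1 h1
    rw [show lev (t k).1 (t k).2 = v from hv k,
      show lev (t (k + 1)).1 (t (k + 1)).2 = v from hv (k + 1)] at h2
    exact h2
  have hν : ∀ k, ((C v (l (X k)) < C v (l (Y k)) + h ∧ C v (l (Y k)) < C v (l (X k)) + h) ↔
      (C v (l (X (k + 1))) < C v (l (Y (k + 1))) + h ∧
        C v (l (Y (k + 1))) < C v (l (X (k + 1))) + h)) := by
    intro k
    have h1 := congrArg (fun z : Col3 w u h => z.2.2.1) (hχ k)
    have h2 := decide_eq_decide.1 h1
    rw [show lev (t k).1 (t k).2 = v from hv k,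
      show lev (t (k + 1)).1 (t (k + 1)).2 = v from hv (k + 1)] at h2
    exact h2
  have hidx : ∀ k j, j < u → min (C j (l (X k))) (C j (l (Y k))) % (2 * h) =
      min (C j (l (X (k + 1)))) (C j (l (Y (k + 1)))) % (2 * h) := by
    intro k j hj
    have h1 := congrFun (congrArg (fun z : Col3 w u h => z.2.2.2.1) (hχ k)) ⟨j, hj⟩
    exact congrArg Fin.val h1
  have htA : ∀ k j, j ≤ w + 1 → key_tr l r e (A j (l (X k))) (X k) =
      key_tr l r e (A j (l (X (k + 1)))) (X (k + 1)) := by
    intro k j hj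
    have h1 := congrFun (congrArg (fun z : Col3 w u h => z.2.2.2.2.1) (hχ k)) ⟨j, by omega⟩
    exact congrArg Prod.fst h1
  have htE : ∀ k j, j ≤ w + 1 → key_tr l r e (E j (l (X k))) (X k) =
      key_tr l r e (E j (l (X (k + 1)))) (X (k + 1)) := by
    intro k j hj
    have h1 := congrFun (congrArg (fun z : Col3 w u h => z.2.2.2.2.1) (hχ k)) ⟨j, by omega⟩
    exact congrArg Prod.snd h1
  have htD : ∀ k j, j ≤ w + 1 → key_td l r e (E j (l (Y k))) (Y k) =
      key_td l r e (E j (l (Y (k + 1)))) (Y (k + 1)) := by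
    intro k j hj
    exact congrFun (congrArg (fun z : Col3 w u h => z.2.2.2.2.2.1) (hχ k)) ⟨j, by omega⟩
  have hr8 : ∀ k, C u (l (X k)) % 8 = C u (l (X (k + 1))) % 8 := by
    intro k
    have h1 := congrArg (fun z : Col3 w u h => z.2.2.2.2.2.2.1) (hχ k)
    exact congrArg Fin.val h1
  have hn2 : ∀ k, ((C u (l (X k)) ≤ C u (l (Y k)) + 2 ∧ C u (l (Y k)) ≤ C u (l (X k)) + 2) ↔
      (C u (l (X (k + 1))) ≤ C u (l (Y (k + 1))) + 2 ∧
        C u (l (Y (k + 1))) ≤ C u (l (X (k + 1))) + 2)) := by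
    intro k
    have h1 := congrArg (fun z : Col3 w u h => z.2.2.2.2.2.2.2.1) (hχ k)
    exact decide_eq_decide.1 h1
  have hfR : ∀ k, ((∃ b q, Inn l r (A u (l (X k))) (E u (l (X k))) (X k) b ∧ l b ≤ q ∧ q ≤ r b ∧
      C u (l (X k)) + 2 ≤ C u q) ↔
      (∃ b q, Inn l r (A u (l (X (k + 1)))) (E u (l (X (k + 1)))) (X (k + 1)) b ∧ l b ≤ q ∧
      q ≤ r b ∧ C u (l (X (k + 1))) + 2 ≤ C u q)) := by
    intro k
    have h1 := congrArg (fun z : Col3 w u h => z.2.2.2.2.2.2.2.2.1) (hχ k)
    exact decide_eq_decide.1 h1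
  have hfL : ∀ k, ((∃ b q, Inn l r (A u (l (X k))) (E u (l (X k))) (X k) b ∧ l b ≤ q ∧ q ≤ r b ∧
      C u q + 2 ≤ C u (l (X k))) ↔
      (∃ b q, Inn l r (A u (l (X (k + 1)))) (E u (l (X (k + 1)))) (X (k + 1)) b ∧ l b ≤ q ∧
      q ≤ r b ∧ C u q + 2 ≤ C u (l (X (k + 1))))) := by
    intro k
    have h1 := congrArg (fun z : Col3 w u h => z.2.2.2.2.2.2.2.2.2) (hχ k)
    exact decide_eq_decide.1 h1
  -- no element in between contains an end of the node
  have noend : ∀ k i, i ≤ w + 1 → A i (l (X k)) = A i (l (X (k + 1))) → ∀ b, X k ≤ b →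
      b ≤ Y (k + 1) → ¬ (l b ≤ A i (l (X k)) ∧ A i (l (X k)) ≤ r b) ∧
        ¬ (l b ≤ E i (l (X k)) ∧ E i (l (X k)) ≤ r b) := by
    intro k i hi hA b hb1 hb2
    have hE := hH.eqE i _ _ (hlm _) (hlm _) hA
    refine ⟨fun hc => ?_, fun hc => ?_⟩
    · have h1 := htA k i hi
      rw [← hA] at h1
      exact hS (k + 1) ((key_tr_eq hI h1 hb1 hc.1 hc.2).trans hb2)
    · have h1 := htE k i hi
      rw [← hE] at h1
      exact hS (k + 1) ((key_tr_eq hI h1 hb1 hc.1 hc.2).trans hb2)
  have stp : ∀ k i, i ≤ w + 1 → A i (l (X k)) = A i (l (X (k + 1))) →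
      C i (l (X k)) < C i (l (Y (k + 1))) + h ∧ C i (l (Y (k + 1))) < C i (l (X k)) + h := by
    intro k i hi hA
    obtain ⟨-, h1, h2⟩ := hLOC P w h m l r H A E C hR hH i (X k) (Y (k + 1)) (hle k)
      (noend k i hi hA)
    have h3 := hR.lt (Y (k + 1))
    exact ⟨by omega, by omega⟩
  have teq : ∀ k, A w (l (X k)) = A w (l (X (k + 1))) → X k = Y (k + 1) := fun k hA =>
    top_eq P w h m l r H A E C hR hH (X k) (Y (k + 1)) (hle k) (noend k w (by omega) hA)
  have hperX : ∀ k, X (k + n) = X k := fun k => by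
    have := hper k
    simp only [hX, this]
  -- the node of level `u`
  have node_all : (∀ k, A u (l (X k)) = A u (l (X (k + 1)))) → ∀ k,
      A u (l (X k)) = A u (l (X 0)) ∧ E u (l (X k)) = E u (l (X 0)) ∧
      (A u (l (X 0)) ≤ l (X k) ∧ l (X k) ≤ E u (l (X 0))) ∧
      Inn l r (A u (l (X 0))) (E u (l (X 0))) (X k) (Y (k + 1)) := by
    intro hA k
    have h1 : A u (l (X k)) = A u (l (X 0)) := by
      induction k with
      | zero => rfl
      | succ k ih => exact (hA k).symm.trans ih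
    have h2 := hH.eqE u _ _ (hlm _) (hlm _) h1
    have h3 := hH.mem u (l (X k)) (hlm _)
    rw [h1, h2] at h3
    refine ⟨h1, h2, ⟨h3.1, h3.2.1⟩, hle k, ?_⟩
    have h4 := noend k u (by omega) (hA k)
    rw [h1, h2] at h4
    exact h4
  have ndu := mkNd hCRO P w u h m hu l r H A E C hR hH (l (X 0)) (hlm _)
  -- all positions are in the same node up to level `v`
  have same : ∀ i, i ≤ v → ∀ k, A i (l (X k)) = A i (l (X (k + 1))) := by
    intro i
    induction i with
    | zero => intro _ k; exact hH.zero _ _ (hlm _) (hlm _)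
    | succ i ih =>
      intro hi k
      have hA := ih (by omega) k
      obtain ⟨h1, h2⟩ := stp k i (by omega) hA
      have hc : ∀ k, C i (l (X k)) = C i (l (Y k)) := by
        intro k
        have h3 := lev_eq (X k) (Y k) (i + 1) (by rw [hv k]; exact hi)
        exact ((hH.child i _ _ (hlm _) (hlm _)).1 h3).2
      rcases Nat.lt_trichotomy i u with hiu | hiu | hiw
      · have h4 := hidx k i hiu
        rw [← hc k, ← hc (k + 1), min_self, min_self] at h4
        rw [← hc (k + 1)] at h1 h2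
        have h5 := key_mod h4 (by omega) (by omega)
        exact (hH.child i _ _ (hlm _) (hlm _)).2 ⟨hA, h5⟩
      · subst hiu
        have hN := node_all (fun k => ih (by omega) k)
        have h5 := ndu.near n hn X Y hperX (fun k => (hN k).2.2.2) (fun k => (hN k).2.2.1)
          (fun k => by have := hc k; omega) hr8 k
        exact (hH.child i _ _ (hlm _) (hlm _)).2 ⟨hA, h5⟩
      · have hiw' : i = w := by omega
        subst hiw'
        have h5 : C i (l (X k)) = C i (l (X (k + 1))) := by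
          rw [hc (k + 1), ← teq k hA]
        exact (hH.child i _ _ (hlm _) (hlm _)).2 ⟨hA, h5⟩
  have hAv := same v le_rfl
  rcases Nat.lt_or_ge v (w + 1) with hvlt | hvge
  · -- `v ≤ w`
    have hvw' : v ≤ w := by omega
    have hne : ∀ k, C v (l (X k)) ≠ C v (l (Y k)) := by
      intro k
      have := lev_ne (X k) (Y k) (by rw [hv k]; exact hvw')
      rwa [hv k] at this
    have hXY : ∀ k, A v (l (X k)) = A v (l (Y k)) := fun k =>
      lev_eq (X k) (Y k) v (by rw [hv k])
    have hst := fun k => stp k v hvw (hAv k)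
    have hσ' : ∀ k, (C v (l (X k)) < C v (l (Y k)) ↔ C v (l (X 0)) < C v (l (Y 0))) := by
      intro k
      induction k with
      | zero => rfl
      | succ k ih => exact (hσ k).symm.trans ih
    have hν' : ∀ k, ((C v (l (X k)) < C v (l (Y k)) + h ∧ C v (l (Y k)) < C v (l (X k)) + h) ↔
        (C v (l (X 0)) < C v (l (Y 0)) + h ∧ C v (l (Y 0)) < C v (l (X 0)) + h)) := by
      intro k
      induction k with
      | zero => rfl
      | succ k ih => exact (hν k).symm.trans ih
    have hperY : Y n = Y 0 := by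
      have := hper 0
      rw [zero_add] at this
      simp only [hY, this]
    rcases Nat.eq_or_lt_of_le hvw' with hvw2 | hvw2
    · -- `v = w`
      have hYX : ∀ k, X k = Y (k + 1) := fun k => teq k (by rw [← hvw2]; exact hAv k)
      by_cases hs : C v (l (X 0)) < C v (l (Y 0))
      · have : ∀ k, C v (l (Y k)) + k ≤ C v (l (Y 0)) := by
          intro k
          induction k with
          | zero => simp
          | succ k ih =>
            have a1 := (hσ' k).2 hs
            rw [hYX k] at a1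
            omega
        have h9 := this n
        rw [hperY] at h9
        omega
      · have : ∀ k, C v (l (Y 0)) + k ≤ C v (l (Y k)) := by
          intro k
          induction k with
          | zero => simp
          | succ k ih =>
            have a1 : ¬ C v (l (X k)) < C v (l (Y k)) := fun hc => hs ((hσ' k).1 hc)
            have a2 := hne k
            rw [hYX k] at a1 a2
            omega
        have h9 := this n
        rw [hperY] at h9
        omega
    rcases Nat.eq_or_lt_of_le (show v ≤ u by omega) with hvu | hvu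
    · -- `v = u`
      rw [hvu] at hAv hσ' hne hXY
      have hN := node_all hAv
      -- no two consecutive pairs in one child
      have nz : ∀ k, C u (l (X k)) ≠ C u (l (X (k + 1))) := by
        intro k h5
        have h6 : A (u + 1) (l (X k)) = A (u + 1) (l (X (k + 1))) :=
          (hH.child u _ _ (hlm _) (hlm _)).2 ⟨hAv k, h5⟩
        have h7 := hH.eqE (u + 1) _ _ (hlm _) (hlm _) h6
        obtain ⟨m1, m2, m3⟩ := hH.mem (u + 1) (l (X k)) (hlm _)
        by_cases hs : C u (l (X 0)) < C u (l (Y 0))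
        · have hsk := (hσ' (k + 1)).2 hs
          have h8 : E (u + 1) (l (X k)) < l (Y (k + 1)) := by
            by_contra hcon
            push Not at hcon
            have h9 : A (u + 1) (E (u + 1) (l (X k))) = A (u + 1) (l (X k)) :=
              hH.node (u + 1) _ _ (hlm _) (m1.trans m2) le_rfl
            obtain ⟨h10, h11⟩ := (hH.child u _ _ m3 (hlm _)).1 h9
            have h12 : A u (l (Y (k + 1))) = A u (E (u + 1) (l (X k))) := by
              rw [h10, hAv k, hXY (k + 1)]
            have h13 := hH.mono u _ _ hcon m3 h12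
            omega
          obtain ⟨b, b1, b2, b3, b4⟩ := hCRO P w h m l r H hR (X k) (Y (k + 1))
            (E (u + 1) (l (X k))) (hle k) (Or.inl ⟨m2, h8⟩)
          have h14 := htE k (u + 1) (by omega)
          rw [← h7] at h14
          exact hS (k + 1) ((key_tr_eq hI h14 b1 b3 b4).trans b2)
        · have hsk : ¬ C u (l (X (k + 1))) < C u (l (Y (k + 1))) :=
            fun hc => hs ((hσ' (k + 1)).1 hc)
          have hnk := hne (k + 1)
          have h8 : l (Y (k + 1)) < A (u + 1) (l (X k)) := by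
            by_contra hcon
            push Not at hcon
            have h9 : A (u + 1) (A (u + 1) (l (X k))) = A (u + 1) (l (X k)) :=
              hH.node (u + 1) _ _ (hlm _) le_rfl (m1.trans m2)
            obtain ⟨h10, h11⟩ := (hH.child u _ _ (lt_of_le_of_lt (m1.trans m2) m3) (hlm _)).1 h9
            have h12 : A u (A (u + 1) (l (X k))) = A u (l (Y (k + 1))) := by
              rw [h10, hAv k, hXY (k + 1)]
            have h13 := hH.mono u _ _ hcon (hlm _) h12
            omega
          have h15 : ∃ b, X k ≤ b ∧ b ≤ Y (k + 1) ∧ l b ≤ A (u + 1) (l (X k)) ∧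
              A (u + 1) (l (X k)) ≤ r b := by
            rcases Nat.eq_or_lt_of_le m1 with h16 | h16
            · exact ⟨X k, le_rfl, hle k, h16.symm.le, m1.trans (hR.lr _)⟩
            · exact hCRO P w h m l r H hR (X k) (Y (k + 1)) (A (u + 1) (l (X k))) (hle k)
                (Or.inr ⟨h8.le, h16⟩)
          obtain ⟨b, b1, b2, b3, b4⟩ := h15
          have h14 := htA k (u + 1) (by omega)
          rw [← h6] at h14
          exact hS (k + 1) ((key_tr_eq hI h14 b1 b3 b4).trans b2)
      have hn2' : ∀ k, ((C u (l (X k)) ≤ C u (l (Y k)) + 2 ∧ C u (l (Y k)) ≤ C u (l (X k)) + 2) ↔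
          (C u (l (X 0)) ≤ C u (l (Y 0)) + 2 ∧ C u (l (Y 0)) ≤ C u (l (X 0)) + 2)) := by
        intro k
        induction k with
        | zero => rfl
        | succ k ih => exact (hn2 k).symm.trans ih
      by_cases hnear : C u (l (X 0)) ≤ C u (l (Y 0)) + 2 ∧ C u (l (Y 0)) ≤ C u (l (X 0)) + 2
      · exact nz 0 (ndu.near n hn X Y hperX (fun k => (hN k).2.2.2) (fun k => (hN k).2.2.1)
          (fun k => (hn2' k).2 hnear) hr8 0)
      · have hfar : ∀ k, ¬ (C u (l (X k)) ≤ C u (l (Y k)) + 2 ∧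
            C u (l (Y k)) ≤ C u (l (X k)) + 2) := fun k hk => hnear ((hn2' k).1 hk)
        by_cases hs : C u (l (X 0)) < C u (l (Y 0))
        · obtain ⟨k, hk⟩ : ∃ k, C u (l (X k)) < C u (l (X (k + 1))) := by
            by_contra hcon
            push Not at hcon
            have : ∀ k, C u (l (X k)) + k ≤ C u (l (X 0)) := by
              intro k
              induction k with
              | zero => simp
              | succ k ih =>
                have a1 := hcon k
                have a2 := nz k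
                omega
            have h9 := this n
            have h10 := hperX 0
            rw [zero_add] at h10
            rw [h10] at h9
            omega
          have f1 := hfar (k + 1)
          have f2 := (hσ' (k + 1)).2 hs
          have g1 : ∃ b q, Inn l r (A u (l (X k))) (E u (l (X k))) (X k) b ∧ l b ≤ q ∧ q ≤ r b ∧
              C u (l (X k)) + 2 ≤ C u q := by
            refine ⟨Y (k + 1), l (Y (k + 1)), ?_, le_rfl, hR.lr _, by omega⟩
            have := (hN k).2.2.2
            rw [← (hN k).1, ← (hN k).2.1] at this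
            exact this
          obtain ⟨b1, q, g2, g3, g4, g5⟩ := (hfR k).1 g1
          rw [(hN (k + 1)).1, (hN (k + 1)).2.1] at g2
          have h20 : X (k + 1) ≤ Y (k + 1) := ndu.far (fun p => (C u p : ℤ))
            (Or.inl fun p => rfl) (hN k).2.2.2 (hN k).2.2.1 (hN (k + 1)).2.2.1 (by omega)
            (by omega) g2 g3 g4 (by omega)
          exact hS (k + 1) h20
        · obtain ⟨k, hk⟩ : ∃ k, C u (l (X (k + 1))) < C u (l (X k)) := by
            by_contra hcon
            push Not at hcon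
            have : ∀ k, C u (l (X 0)) + k ≤ C u (l (X k)) := by
              intro k
              induction k with
              | zero => simp
              | succ k ih =>
                have a1 := hcon k
                have a2 := nz k
                omega
            have h9 := this n
            have h10 := hperX 0
            rw [zero_add] at h10
            rw [h10] at h9
            omega
          have f1 := hfar (k + 1)
          have f2 : ¬ C u (l (X (k + 1))) < C u (l (Y (k + 1))) :=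
            fun hc => hs ((hσ' (k + 1)).1 hc)
          have g1 : ∃ b q, Inn l r (A u (l (X k))) (E u (l (X k))) (X k) b ∧ l b ≤ q ∧ q ≤ r b ∧
              C u q + 2 ≤ C u (l (X k)) := by
            refine ⟨Y (k + 1), l (Y (k + 1)), ?_, le_rfl, hR.lr _, by omega⟩
            have := (hN k).2.2.2
            rw [← (hN k).1, ← (hN k).2.1] at this
            exact this
          obtain ⟨b1, q, g2, g3, g4, g5⟩ := (hfL k).1 g1
          rw [(hN (k + 1)).1, (hN (k + 1)).2.1] at g2
          have h20 : X (k + 1) ≤ Y (k + 1) := ndu.far (fun p => -(C u p : ℤ))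
            (Or.inr fun p => rfl) (hN k).2.2.2 (hN k).2.2.1 (hN (k + 1)).2.2.1 (by omega)
            (by omega) g2 g3 g4 (by omega)
          exact hS (k + 1) h20
    by_cases hs : C v (l (X 0)) < C v (l (Y 0))
    · have hs' : ∀ k, C v (l (X k)) < C v (l (Y k)) := fun k => (hσ' k).2 hs
      by_cases hn' : C v (l (X 0)) < C v (l (Y 0)) + h ∧ C v (l (Y 0)) < C v (l (X 0)) + h
      · have hn2 := fun k => (hν' k).2 hn'
        have h4 := hidx 0 v hvu
        rw [min_eq_left (hs' 0).le, min_eq_left (hs' (0 + 1)).le] at h4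
        have h5 : C v (l (X 0)) = C v (l (X (0 + 1))) := by
          have a1 := hst 0
          have a2 := hs' (0 + 1)
          have a3 := hn2 (0 + 1)
          exact key_mod h4 (by omega) (by omega)
        have h6 : A (v + 1) (l (X 0)) = A (v + 1) (l (X (0 + 1))) :=
          (hH.child v _ _ (hlm _) (hlm _)).2 ⟨hAv 0, h5⟩
        have h7 := hH.eqE (v + 1) _ _ (hlm _) (hlm _) h6
        obtain ⟨m1, m2, m3⟩ := hH.mem (v + 1) (l (X 0)) (hlm _)
        have h8 : E (v + 1) (l (X 0)) < l (Y (0 + 1)) := by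
          by_contra hcon
          push Not at hcon
          have h9 : A (v + 1) (E (v + 1) (l (X 0))) = A (v + 1) (l (X 0)) :=
            hH.node (v + 1) _ _ (hlm _) (m1.trans m2) le_rfl
          obtain ⟨h10, h11⟩ := (hH.child v _ _ m3 (hlm _)).1 h9
          have h12 : A v (l (Y (0 + 1))) = A v (E (v + 1) (l (X 0))) := by
            rw [h10, hAv 0, hXY (0 + 1)]
          have h13 := hH.mono v _ _ hcon m3 h12
          have := hs' (0 + 1)
          omega
        obtain ⟨b, b1, b2, b3, b4⟩ := hCRO P w h m l r H hR (X 0) (Y (0 + 1))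
          (E (v + 1) (l (X 0))) (hle 0) (Or.inl ⟨m2, h8⟩)
        have h14 := htE 0 (v + 1) (by omega)
        rw [← h7] at h14
        exact hS (0 + 1) ((key_tr_eq hI h14 b1 b3 b4).trans b2)
      · have hn2 := fun k hk => hn' ((hν' k).1 hk)
        have hdec : ∀ k, C v (l (Y (k + 1))) < C v (l (Y k)) := by
          intro k
          have a1 := hst k
          have a2 := hs' k
          have a3 := hn2 k
          by_contra hcon
          exact a3 ⟨by omega, by omega⟩
        have : ∀ k, C v (l (Y k)) + k ≤ C v (l (Y 0)) := by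
          intro k
          induction k with
          | zero => simp
          | succ k ih => have := hdec k; omega
        have h9 := this n
        rw [hperY] at h9
        omega
    · have hs' : ∀ k, C v (l (Y k)) < C v (l (X k)) := fun k =>
        lt_of_le_of_ne (not_lt.1 fun hc => hs ((hσ' k).1 hc)) (hne k).symm
      by_cases hn' : C v (l (X 0)) < C v (l (Y 0)) + h ∧ C v (l (Y 0)) < C v (l (X 0)) + h
      · have hn2 := fun k => (hν' k).2 hn'
        have h4 := hidx 0 v hvu
        rw [min_eq_right (hs' 0).le, min_eq_right (hs' (0 + 1)).le] at h4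
        have h5 : C v (l (Y 0)) = C v (l (Y (0 + 1))) := by
          have a1 := hst 0
          have a2 := hs' 0
          have a3 := hn2 0
          exact key_mod h4 (by omega) (by omega)
        have hAY : A v (l (Y 0)) = A v (l (Y (0 + 1))) := by
          rw [← hXY 0, ← hXY (0 + 1)]; exact hAv 0
        have h6 : A (v + 1) (l (Y 0)) = A (v + 1) (l (Y (0 + 1))) :=
          (hH.child v _ _ (hlm _) (hlm _)).2 ⟨hAY, h5⟩
        have h7 := hH.eqE (v + 1) _ _ (hlm _) (hlm _) h6
        obtain ⟨m1, m2, m3⟩ := hH.mem (v + 1) (l (Y 0)) (hlm _)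
        obtain ⟨m1', m2', m3'⟩ := hH.mem (v + 1) (l (Y (0 + 1))) (hlm _)
        have h8 : E (v + 1) (l (Y 0)) < l (X 0) := by
          by_contra hcon
          push Not at hcon
          have h9 : A (v + 1) (E (v + 1) (l (Y 0))) = A (v + 1) (l (Y 0)) :=
            hH.node (v + 1) _ _ (hlm _) (m1.trans m2) le_rfl
          obtain ⟨h10, h11⟩ := (hH.child v _ _ m3 (hlm _)).1 h9
          have h12 : A v (l (X 0)) = A v (E (v + 1) (l (Y 0))) := by
            rw [h10, hXY 0]
          have h13 := hH.mono v _ _ hcon m3 h12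
          have := hs' 0
          omega
        obtain ⟨b, b1, b2, b3, b4⟩ := hCRO P w h m l r H hR (X 0) (Y (0 + 1))
          (E (v + 1) (l (Y 0))) (hle 0) (Or.inr ⟨by rw [h7]; exact m2', h8⟩)
        have h14 := htD 0 (v + 1) (by omega)
        rw [← h7] at h14
        exact hS 0 (b1.trans (key_td_eq hI h14.symm b2 b3 b4))
      · have hn2 := fun k hk => hn' ((hν' k).1 hk)
        have hinc : ∀ k, C v (l (Y k)) < C v (l (Y (k + 1))) := by
          intro k
          have a1 := hst k
          have a2 := hs' k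
          have a3 := hn2 k
          by_contra hcon
          exact a3 ⟨by omega, by omega⟩
        have : ∀ k, C v (l (Y 0)) + k ≤ C v (l (Y k)) := by
          intro k
          induction k with
          | zero => simp
          | succ k ih => have := hinc k; omega
        have h9 := this n
        rw [hperY] at h9
        omega
  · -- `v = w + 1`
    have hve : v = w + 1 := by omega
    obtain ⟨q1, q2⟩ := hL (X 0) (l (X 0)) (hlm _) le_rfl (hR.lr _)
    obtain ⟨m1, m2, m3⟩ := hH.mem (w + 1) (l (X 0)) (hlm _)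
    have h1 := (noend 0 (w + 1) le_rfl (by rw [← hve]; exact hAv 0) (X 0) le_rfl (hle 0)).1
    exact h1 ⟨q1, by omega⟩



/-- the upper bound with exponent `w - 1`, for `w = u + 1` -/
theorem path_width_upper3_const (P : Type) [PartialOrder P] [Fintype P] (u h : ℕ)
    (hh : HeightLE P h) (hw : PathWidthLE (cov P) (u + 1)) : DimLE P (CW3 (u + 1) u * h ^ u) := by
  rcases Nat.eq_zero_or_pos h with h0 | h0
  · subst h0
    exact upp_empty P hh _
  · obtain ⟨H, hH1, hH2⟩ := st_HGT P h hh
    obtain ⟨m, l, r, hlr, hrm, hadj, hcard⟩ := st_ITV P (u + 1) hw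
    obtain ⟨A, E, C, hier⟩ := (st_HIE st_SPL) P m l r
    have hlst := st_LST P (u + 1) m l r A E C hcard hier
    obtain ⟨e, he⟩ := st_INJ P (u + 1) l r hcard
    have hrep : Rep P (u + 1) h m l r H := ⟨hlr, hrm, hadj, hcard, hH1, hH2⟩
    obtain ⟨χ, hχ⟩ := (key3 st_CRO st_LOC) P (u + 1) u h m l r H A E C e rfl h0 hrep hier hlst he
    have hf : ∀ c : Col3 (u + 1) u h, ∃ f : P → ℕ, (∀ x y, x ≤ y → f x ≤ f y) ∧
        ∀ x y, (¬ x ≤ y ∧ χ x y = c) → f y < f x := by
      intro c
      exact st_EXT P (fun x y => ¬ x ≤ y ∧ χ x y = c) (fun x y hxy => hxy.1)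
        (upp_cls st_SEQ P _ (hχ c))
    choose g hg hr using hf
    exact upp_fin P (Col3 (u + 1) u h) _ (crd3 (u + 1) u h) g χ hg
      (fun c x y hxy hc => hr c x y ⟨hxy, hc⟩)

/-- the upper bound: path-width `w + 1`, exponent `w` -/
theorem path_width_upper3 : ∀ w : ℕ, ∃ C : ℕ, ∀ (h : ℕ) (P : Type) [PartialOrder P] [Fintype P],
    HeightLE P h → PathWidthLE (cov P) (w + 1) → DimLE P (C * h ^ w) :=
  fun u => ⟨CW3 (u + 1) u, fun h P _ _ hh hw => path_width_upper3_const P u h hh hw⟩

end Pool.Agent.Helper66.PD
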