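import Pool.Agent.Helper66.PD.Fin

/-!
# Posets with cover graph of bounded bandwidth: the dimension is linear in the height
-/

set_option autoImplicit false

namespace Pool.Agent.Helper66.PD

/-- bandwidth at most `b`: the vertices are numbered (injectively) such that the numbers of adjacent
vertices differ by at most `b` -/
def BandwidthLE {V : Type} (G : SimpleGraph V) (b : ℕ) : Prop :=
  ∃ σ : V → ℕ, Function.Injective σ ∧ ∀ u v, G.Adj u v → σ u ≤ σ v + b

/-- a comparability moves the number by at most `b` times the difference of the heights -/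
theorem band_move {P : Type} [PartialOrder P] [Fintype P] {b : ℕ} {σ H : P → ℕ}
    (hσ : ∀ u v, (cov P).Adj u v → σ u ≤ σ v + b) (hH : ∀ x y, x < y → H x < H y) {x y : P}
    (hxy : Relation.ReflTransGen (· ⋖ ·) x y) :
    σ x + b * H x ≤ σ y + b * H y ∧ σ y + b * H x ≤ σ x + b * H y := by
  induction hxy with
  | refl => exact ⟨le_rfl, le_rfl⟩
  | @tail z y hz hc ih =>
    have hadj : (cov P).Adj z y := by
      unfold cov
      rw [SimpleGraph.fromRel_adj]
      exact ⟨hc.ne, Or.inl hc⟩
    have h1 := hσ z y hadj
    have h2 := hσ y z hadj.symm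
    have h3 : b * (H z + 1) ≤ b * H y := Nat.mul_le_mul_left b (hH z y hc.lt)
    rw [Nat.mul_add, Nat.mul_one] at h3
    exact ⟨by omega, by omega⟩

/-- the upper bound -/
theorem bandwidth_upper : ∀ (b h : ℕ) (P : Type) [PartialOrder P] [Fintype P], HeightLE P h →
    BandwidthLE (cov P) b → DimLE P (2 * (b * (h - 1)) + 3) := by
  classical
  intro b h P _ _ hh hb
  obtain ⟨H, hH1, hH2⟩ := st_HGT P h hh
  obtain ⟨σ, hσi, hσ⟩ := hb
  set D := b * (h - 1) with hD
  have near : ∀ x y : P, x ≤ y → σ x ≤ σ y + D ∧ σ y ≤ σ x + D := by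
    intro x y hxy
    have h1 := band_move hσ hH1 (cro_chain hxy)
    have h2 : b * H y ≤ D := Nat.mul_le_mul_left b (by have := hH2 y; omega)
    exact ⟨by omega, by omega⟩
  let χ : P → P → Fin (2 * D + 1) ⊕ Bool := fun x y =>
    if σ x + D < σ y then Sum.inr true
    else if σ y + D < σ x then Sum.inr false
    else Sum.inl ⟨σ x % (2 * D + 1), Nat.mod_lt _ (Nat.succ_pos _)⟩
  have hext : ∀ c : Fin (2 * D + 1) ⊕ Bool, ∃ f : P → ℕ, (∀ x y, x ≤ y → f x ≤ f y) ∧
      ∀ x y, (¬ x ≤ y ∧ χ x y = c) → f y < f x := by
    intro c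
    refine st_EXT P (fun x y => ¬ x ≤ y ∧ χ x y = c) (fun x y hxy => hxy.1) ?_
    rcases c with c | c
    · -- the near classes: no two consecutive pairs
      intro s hs
      have hno : ∀ s t : P × P, ¬ Alt P (fun x y => ¬ x ≤ y ∧ χ x y = Sum.inl c) s t := by
        rintro ⟨x, y⟩ ⟨x', y'⟩ ⟨⟨h1, h2⟩, ⟨h3, h4⟩, h5⟩
        have ha : ∀ u v : P, χ u v = Sum.inl c → ¬ σ u + D < σ v ∧ ¬ σ v + D < σ u ∧
            σ u % (2 * D + 1) = c := by
          intro u v huv
          simp only [χ] at huv
          split_ifs at huv with h6 h7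
          exact ⟨h6, h7, by
            have := Sum.inl.inj huv
            exact congrArg Fin.val this⟩
        obtain ⟨-, -, h6⟩ := ha x y h2
        obtain ⟨h7, h8, h9⟩ := ha x' y' h4
        obtain ⟨h10, h11⟩ := near x y' h5
        have : σ x = σ x' := key_mod (h6.trans h9.symm) (by omega) (by omega)
        exact h3 (hσi this ▸ h5)
      obtain ⟨u, -, hu⟩ := Relation.TransGen.tail'_iff.1 hs
      exact hno _ _ hu
    · rcases c with _ | _
      · -- `y` far to the left
        have hmv : ∀ s t : P × P, Relation.TransGen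
            (Alt P (fun x y => ¬ x ≤ y ∧ χ x y = Sum.inr false)) s t → σ s.1 < σ t.1 := by
          have h0 : ∀ s t : P × P, Alt P (fun x y => ¬ x ≤ y ∧ χ x y = Sum.inr false) s t →
              σ s.1 < σ t.1 := by
            rintro ⟨x, y⟩ ⟨x', y'⟩ ⟨-, ⟨-, h4⟩, h5⟩
            have h6 : σ y' + D < σ x' := by
              simp only [χ] at h4
              split_ifs at h4 with h6 h7
              · simp at h4
              · exact h7
            have := (near x y' h5).1
            show σ x < σ x'
            omega
          intro s t hst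
          induction hst with
          | single h => exact h0 _ _ h
          | tail _ h ih => exact ih.trans (h0 _ _ h)
        intro s hs
        exact lt_irrefl _ (hmv s s hs)
      · -- `y` far to the right
        have hmv : ∀ s t : P × P, Relation.TransGen
            (Alt P (fun x y => ¬ x ≤ y ∧ χ x y = Sum.inr true)) s t → σ t.1 < σ s.1 := by
          have h0 : ∀ s t : P × P, Alt P (fun x y => ¬ x ≤ y ∧ χ x y = Sum.inr true) s t →
              σ t.1 < σ s.1 := by
            rintro ⟨x, y⟩ ⟨x', y'⟩ ⟨-, ⟨-, h4⟩, h5⟩
            have h6 : σ x' + D < σ y' := by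
              simp only [χ] at h4
              split_ifs at h4 with h6 h7
              · exact h6
              · simp at h4
            have := (near x y' h5).2
            show σ x' < σ x
            omega
          intro s t hst
          induction hst with
          | single h => exact h0 _ _ h
          | tail _ h ih => exact (h0 _ _ h).trans ih
        intro s hs
        exact lt_irrefl _ (hmv s s hs)
  choose g hg hr using hext
  refine upp_fin P (Fin (2 * D + 1) ⊕ Bool) _ ?_ g χ hg (fun c x y hxy hc => hr c x y ⟨hxy, hc⟩)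
  simp

end Pool.Agent.Helper66.PD
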