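import Pool.Agent.Helper66.PD.Band

/-!
# Posets with cover graph of bounded bandwidth: the thick Kelly poset
-/

set_option autoImplicit false

namespace Pool.Agent.Helper66.PD

/-- the thick Kelly poset: `X j i`, `Y j i` the pairs of block `j`, `R j`, `L j` the rails -/
inductive TK (b h : ℕ) : Type
  | X (j : Fin h) (i : Fin b) : TK b h
  | Y (j : Fin h) (i : Fin b) : TK b h
  | R (j : Fin h) : TK b h
  | L (j : Fin h) : TK b h

namespace TK

variable {b h : ℕ}

/-- the relation -/
def le : TK b h → TK b h → Prop
  | X j i, X j' i' => j = j' ∧ i = i'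
  | Y j i, Y j' i' => j = j' ∧ i = i'
  | X j i, Y j' i' => ¬ (j = j' ∧ i = i')
  | X j _, R j' => (j : ℕ) ≤ j'
  | X j _, L j' => (j' : ℕ) ≤ j
  | R j, R j' => (j : ℕ) ≤ j'
  | L j, L j' => (j' : ℕ) ≤ j
  | R j, Y j' _ => (j : ℕ) < j'
  | L j, Y j' _ => (j' : ℕ) < j
  | _, _ => False

/-- the rank -/
def rk : TK b h → ℕ
  | X _ _ => 0
  | Y _ _ => h + 1
  | R j => j + 1
  | L j => h - j

/-- the block -/
def bl : TK b h → ℕ
  | X j _ => j
  | Y j _ => j
  | R j => j
  | L j => j

/-- the position in the block -/
def ps : TK b h → ℕ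
  | X _ i => i
  | Y _ i => b + i
  | R _ => 2 * b
  | L _ => 2 * b + 1

theorem le_refl' : ∀ u : TK b h, u.le u
  | X _ _ => ⟨rfl, rfl⟩
  | Y _ _ => ⟨rfl, rfl⟩
  | R _ => Nat.le_refl _
  | L _ => Nat.le_refl _

theorem le_trans' (u v w : TK b h) (h1 : u.le v) (h2 : v.le w) : u.le w := by
  cases u <;> cases v <;> simp only [le] at h1 <;> cases w <;> simp only [le] at h2 ⊢
  all_goals omega

theorem rk_lt (u v : TK b h) (h1 : u.le v) (hne : u ≠ v) : u.rk < v.rk := by
  cases u <;> cases v <;> simp only [le] at h1 <;> simp only [rk] <;>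
    simp only [ne_eq, X.injEq, Y.injEq, R.injEq, L.injEq, Fin.ext_iff] at h1 hne <;>
    omega

instance instPO : PartialOrder (TK b h) where
  le u v := u.le v
  le_refl u := le_refl' u
  le_trans u v w := le_trans' u v w
  le_antisymm u v h1 h2 := by
    by_contra hne
    have a1 := rk_lt u v h1 hne
    have a2 := rk_lt v u h2 (Ne.symm hne)
    omega

theorem ps_lt (u : TK b h) : u.ps < 2 * b + 2 := by
  cases u with
  | X j i => have := i.isLt; simp only [ps]; omega
  | Y j i => have := i.isLt; simp only [ps]; omega
  | R j => simp only [ps]; omega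
  | L j => simp only [ps]; omega

theorem bl_lt (u : TK b h) : u.bl < h := by
  cases u with
  | X j i => exact j.isLt
  | Y j i => exact j.isLt
  | R j => exact j.isLt
  | L j => exact j.isLt

theorem ext' (u v : TK b h) (h1 : u.bl = v.bl) (h2 : u.ps = v.ps) : u = v := by
  cases u <;> cases v <;> simp only [bl, ps] at h1 h2 <;>
    first
      | (exfalso; omega)
      | (simp only [X.injEq, Y.injEq, R.injEq, L.injEq, Fin.ext_iff]; omega)

/-- the number -/
def num (u : TK b h) : ℕ := (2 * b + 2) * u.bl + u.ps

theorem num_inj : Function.Injective (num : TK b h → ℕ) := by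
  intro u v huv
  have h1 := ps_lt u
  have h2 := ps_lt v
  have h3 : u.bl = v.bl := by
    have e1 : (num u) / (2 * b + 2) = u.bl := by
      unfold num
      rw [Nat.mul_add_div (by omega), Nat.div_eq_of_lt h1, Nat.add_zero]
    have e2 : (num v) / (2 * b + 2) = v.bl := by
      unfold num
      rw [Nat.mul_add_div (by omega), Nat.div_eq_of_lt h2, Nat.add_zero]
    rw [← e1, ← e2, huv]
  refine ext' u v h3 ?_
  unfold num at huv
  rw [h3] at huv
  omega

noncomputable instance instFT : Fintype (TK b h) :=
  Fintype.ofInjective (fun u : TK b h => ((⟨u.bl, bl_lt u⟩, ⟨u.ps, ps_lt u⟩) :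
    Fin h × Fin (2 * b + 2))) fun u v huv => by
      have h1 := congrArg (fun z => (z.1 : ℕ)) huv
      have h2 := congrArg (fun z => (z.2 : ℕ)) huv
      exact ext' u v h1 h2

theorem height : HeightLE (TK b h) (h + 2) := by
  intro s hs
  have h1 : s.card ≤ (Finset.range (h + 2)).card := by
    apply Finset.card_le_card_of_injOn (fun u : TK b h => u.rk)
    · intro u _
      refine Finset.mem_coe.2 (Finset.mem_range.2 ?_)
      show u.rk < h + 2
      cases u with
      | X j i => simp only [rk]; omega
      | Y j i => simp only [rk]; omega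
      | R j => have := j.isLt; simp only [rk]; omega
      | L j => simp only [rk]; omega
    · intro u hu v hv huv
      by_contra hne
      have huv' : u.rk = v.rk := huv
      rcases hs hu hv hne with h2 | h2
      · have := rk_lt u v h2 hne
        omega
      · have := rk_lt v u h2 (Ne.symm hne)
        omega
  rwa [Finset.card_range] at h1

/-- covering elements are in the same or in adjacent blocks -/
theorem cover_bl (u v : TK b h) (huv : u ⋖ v) : u.bl ≤ v.bl + 1 ∧ v.bl ≤ u.bl + 1 := by
  have hle : u.le v := huv.le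
  have hno : ∀ w : TK b h, u.le w → w.le v → w ≠ u → w ≠ v → False := by
    intro w h1 h2 h3 h4
    exact huv.2 (lt_of_le_of_ne (show u ≤ w from h1) (Ne.symm h3))
      (lt_of_le_of_ne (show w ≤ v from h2) h4)
  cases u with
  | X j i =>
    cases v with
    | X j' i' => obtain ⟨rfl, rfl⟩ := hle; simp [bl]
    | Y j' i' =>
      simp only [bl]
      by_contra hcon
      rcases Nat.lt_trichotomy (j : ℕ) j' with h1 | h1 | h1
      · exact hno (R j) (Nat.le_refl _) h1 (by simp) (by simp)
      · omega
      · exact hno (L j) (Nat.le_refl _) h1 (by simp) (by simp)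
    | R j' =>
      have h0 : (j : ℕ) ≤ j' := hle
      simp only [bl]
      by_contra hcon
      exact hno (R j) (Nat.le_refl _) h0 (by simp) (by
        intro he
        have := congrArg bl he
        simp only [bl] at this
        omega)
    | L j' =>
      have h0 : (j' : ℕ) ≤ j := hle
      simp only [bl]
      by_contra hcon
      exact hno (L j) (Nat.le_refl _) h0 (by simp) (by
        intro he
        have := congrArg bl he
        simp only [bl] at this
        omega)
  | Y j i =>
    cases v with
    | Y j' i' => obtain ⟨rfl, rfl⟩ := hle; simp [bl]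
    | X j' i' => exact hle.elim
    | R j' => exact hle.elim
    | L j' => exact hle.elim
  | R j =>
    cases v with
    | X j' i' => exact hle.elim
    | L j' => exact hle.elim
    | R j' =>
      have h0 : (j : ℕ) ≤ j' := hle
      simp only [bl]
      by_contra hcon
      have hj := j'.isLt
      refine hno (R ⟨j + 1, by omega⟩) (show (j : ℕ) ≤ j + 1 by omega)
        (show (j : ℕ) + 1 ≤ j' by omega) ?_ ?_
      · intro he
        have := congrArg bl he
        simp only [bl] at this
        omega
      · intro he
        have := congrArg bl he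
        simp only [bl] at this
        omega
    | Y j' i' =>
      have h0 : (j : ℕ) < j' := hle
      simp only [bl]
      by_contra hcon
      have hj := j'.isLt
      refine hno (R ⟨j + 1, by omega⟩) (show (j : ℕ) ≤ j + 1 by omega)
        (show (j : ℕ) + 1 < j' by omega) ?_ (by simp)
      intro he
      have := congrArg bl he
      simp only [bl] at this
      omega
  | L j =>
    cases v with
    | X j' i' => exact hle.elim
    | R j' => exact hle.elim
    | L j' =>
      have h0 : (j' : ℕ) ≤ j := hle
      simp only [bl]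
      by_contra hcon
      have hj := j.isLt
      refine hno (L ⟨j - 1, by omega⟩) (show (j : ℕ) - 1 ≤ j by omega)
        (show (j' : ℕ) ≤ j - 1 by omega) ?_ ?_
      · intro he
        have := congrArg bl he
        simp only [bl] at this
        omega
      · intro he
        have := congrArg bl he
        simp only [bl] at this
        omega
    | Y j' i' =>
      have h0 : (j' : ℕ) < j := hle
      simp only [bl]
      by_contra hcon
      have hj := j.isLt
      refine hno (L ⟨j - 1, by omega⟩) (show (j : ℕ) - 1 ≤ j by omega)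
        (show (j' : ℕ) < j - 1 by omega) ?_ (by simp)
      intro he
      have := congrArg bl he
      simp only [bl] at this
      omega

theorem bandwidth : BandwidthLE (cov (TK b h)) (4 * b + 3) := by
  refine ⟨num, num_inj, ?_⟩
  intro u v huv
  have h1 : u.bl ≤ v.bl + 1 := by
    unfold cov at huv
    rw [SimpleGraph.fromRel_adj] at huv
    rcases huv.2 with h | h
    · exact (cover_bl u v h).1
    · exact (cover_bl v u h).2
  have h2 := ps_lt u
  have h3 : (2 * b + 2) * u.bl ≤ (2 * b + 2) * (v.bl + 1) := Nat.mul_le_mul_left _ h1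
  rw [Nat.mul_add, Nat.mul_one] at h3
  unfold num
  omega

theorem dim (d : ℕ) (hd : DimLE (TK b h) d) : b * h ≤ d := by
  obtain ⟨f, hf⟩ := hd
  have hXY : ∀ a c : Fin h × Fin b, X a.1 a.2 ≤ Y c.1 c.2 ↔ a ≠ c := by
    intro a c
    show (¬ (a.1 = c.1 ∧ a.2 = c.2)) ↔ a ≠ c
    rw [ne_eq, Prod.ext_iff]
  have h1 : ∀ a : Fin h × Fin b, ∃ i, f (Y a.1 a.2) i < f (X a.1 a.2) i := by
    intro a
    by_contra hc
    push Not at hc
    exact (hXY a a).1 ((hf _ _).2 hc) rfl
  choose i hi using h1
  have hinj : Function.Injective i := by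
    intro a c hac
    by_contra hne
    have e3 : f (X a.1 a.2) (i a) ≤ f (Y c.1 c.2) (i a) :=
      (hf _ _).1 ((hXY a c).2 hne) (i a)
    have e4 : f (X c.1 c.2) (i a) ≤ f (Y a.1 a.2) (i a) :=
      (hf _ _).1 ((hXY c a).2 (Ne.symm hne)) (i a)
    have e5 := hi a
    have e6 := hi c
    rw [← hac] at e6
    omega
  have h2 := Fintype.card_le_of_injective i hinj
  simp only [Fintype.card_prod, Fintype.card_fin] at h2
  rwa [Nat.mul_comm] at h2

end TK

/-- the lower bound -/
theorem bandwidth_lower : ∀ b h : ℕ, ∃ (P : Type) (_ : PartialOrder P) (_ : Fintype P),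
    HeightLE P (h + 2) ∧ BandwidthLE (cov P) (4 * b + 3) ∧ ∀ d : ℕ, DimLE P d → b * h ≤ d :=
  fun b h => ⟨TK b h, TK.instPO, TK.instFT, TK.height, TK.bandwidth, fun d hd => TK.dim d hd⟩

end Pool.Agent.Helper66.PD
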