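import Mathlib

/-!
# Dimension and height of posets with cover graph of bounded path-width: definitions
-/

set_option autoImplicit false

namespace Pool.Agent.Helper66.PD

/-- the cover graph -/
def cov (P : Type) [PartialOrder P] : SimpleGraph P := SimpleGraph.fromRel (fun x y : P => x ⋖ y)

/-- height at most `h`: every chain has at most `h` elements -/
def HeightLE (P : Type) [PartialOrder P] (h : ℕ) : Prop :=
  ∀ s : Finset P, IsChain (· ≤ ·) (s : Set P) → s.card ≤ h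

/-- path-width at most `w`: a path decomposition with bags of at most `w + 1` vertices -/
def PathWidthLE {V : Type} (G : SimpleGraph V) (w : ℕ) : Prop :=
  ∃ (m : ℕ) (B : Fin m → Finset V), (∀ v, ∃ i, v ∈ B i) ∧
    (∀ u v, G.Adj u v → ∃ i, u ∈ B i ∧ v ∈ B i) ∧
    (∀ (i j k : Fin m) (v : V), i ≤ j → j ≤ k → v ∈ B i → v ∈ B k → v ∈ B j) ∧
    ∀ i, (B i).card ≤ w + 1

/-- dimension at most `d`: an embedding into a product of `d` chains -/
def DimLE (P : Type) [PartialOrder P] (d : ℕ) : Prop :=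
  ∃ f : P → (Fin d → ℕ), ∀ x y : P, x ≤ y ↔ f x ≤ f y

/-! ## Upper bound -/

/-- interval representation of a path decomposition, with a height function `H` -/
structure Rep (P : Type) [PartialOrder P] [Fintype P] (w h m : ℕ) (l r H : P → ℕ) : Prop where
  lr : ∀ x, l x ≤ r x
  rm : ∀ x, r x < m
  adj : ∀ x y, x ⋖ y → l x ≤ r y ∧ l y ≤ r x
  card : ∀ p, (Finset.univ.filter (fun x => l x ≤ p ∧ p ≤ r x)).card ≤ w + 1
  mono : ∀ x y, x < y → H x < H y
  lt : ∀ x, H x < h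

/-- hierarchy of nodes: `[A ℓ p, E ℓ p]` is the node of level `ℓ` which contains the position `p`,
`C ℓ p` the number of its child (a node of level `ℓ + 1`) which contains `p` -/
structure Hier (P : Type) (m : ℕ) (l r : P → ℕ) (A E C : ℕ → ℕ → ℕ) : Prop where
  zero : ∀ p q, p < m → q < m → A 0 p = A 0 q
  mem : ∀ ℓ p, p < m → A ℓ p ≤ p ∧ p ≤ E ℓ p ∧ E ℓ p < m
  node : ∀ ℓ p q, p < m → A ℓ p ≤ q → q ≤ E ℓ p → A ℓ q = A ℓ p
  eqE : ∀ ℓ p q, p < m → q < m → A ℓ p = A ℓ q → E ℓ p = E ℓ q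
  nest : ∀ ℓ p, p < m → A ℓ p ≤ A (ℓ + 1) p ∧ E (ℓ + 1) p ≤ E ℓ p
  child : ∀ ℓ p q, p < m → q < m →
    (A (ℓ + 1) p = A (ℓ + 1) q ↔ A ℓ p = A ℓ q ∧ C ℓ p = C ℓ q)
  mono : ∀ ℓ p q, p ≤ q → q < m → A ℓ p = A ℓ q → C ℓ p ≤ C ℓ q
  step : ∀ ℓ z p q, p ≤ q → q < m → A ℓ p = A ℓ q → ¬ (l z ≤ A ℓ p ∧ E ℓ p ≤ r z) →
    l z ≤ p → q ≤ r z → C ℓ q ≤ C ℓ p + 1
  grow : ∀ ℓ p, p < m → (∀ z, l z ≤ p → p ≤ r z → l z ≤ A ℓ p ∧ E ℓ p ≤ r z) ∨
    ∃ z, ¬ (l z ≤ A ℓ p ∧ E ℓ p ≤ r z) ∧ l z ≤ A (ℓ + 1) p ∧ E (ℓ + 1) p ≤ r z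

/-- consecutive pairs of an alternating path -/
def Alt (P : Type) [PartialOrder P] (S : P → P → Prop) (s t : P × P) : Prop :=
  S s.1 s.2 ∧ S t.1 t.2 ∧ s.1 ≤ t.2

/-- the colours: level, two flags, indices of children, traces -/
abbrev Col (w h : ℕ) : Type :=
  Fin (w + 2) × Bool × Bool × (Fin (w + 1) → Fin (2 * h)) ×
    (Fin (w + 2) → Finset (Fin (w + 1)) × Finset (Fin (w + 1))) ×
    (Fin (w + 2) → Finset (Fin (w + 1)))

/-- the constant -/
def CW (w : ℕ) : ℕ :=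
  (w + 2) * 2 * 2 * 2 ^ (w + 1) * (2 ^ (w + 1) * 2 ^ (w + 1)) ^ (w + 2) * (2 ^ (w + 1)) ^ (w + 2)

/-! ## Lower bound -/

/-- `X a`, `Y a`: the pairs; `R j a`, `L j a`: the rails of level `j` (which depend only on the
coordinates `i ≥ j` of `a`) -/
inductive U (k n : ℕ) : Type
  | X (a : Fin k → Fin n) : U k n
  | Y (a : Fin k → Fin n) : U k n
  | R (j : Fin k) (a : Fin k → Fin n) : U k n
  | L (j : Fin k) (a : Fin k → Fin n) : U k n

/-- agreement above `j` -/
def ag {k n : ℕ} (j : Fin k) (a b : Fin k → Fin n) : Prop := ∀ i, j < i → a i = b i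

namespace U

variable {k n : ℕ}

/-- the relation -/
def le : U k n → U k n → Prop
  | X a, X b => a = b
  | X a, Y b => a ≠ b
  | X a, R j b => ag j a b ∧ a j ≤ b j
  | X a, L j b => ag j a b ∧ b j ≤ a j
  | Y a, Y b => a = b
  | R j a, R j' b => j = j' ∧ ag j a b ∧ a j ≤ b j
  | L j a, L j' b => j = j' ∧ ag j a b ∧ b j ≤ a j
  | R j a, Y b => ag j a b ∧ a j < b j
  | L j a, Y b => ag j a b ∧ b j < a j
  | _, _ => False

/-- normal form of the rails -/
def Norm : U k n → Prop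
  | X _ => True
  | Y _ => True
  | R j a => ∀ i, i < j → (a i : ℕ) = 0
  | L j a => ∀ i, i < j → (a i : ℕ) = 0

end U

/-- the nested Kelly poset -/
def Q (k n : ℕ) : Type := {u : U k n // u.Norm}

variable {k n : ℕ}

theorem ag_trans {j : Fin k} {a b c : Fin k → Fin n} (h1 : ag j a b) (h2 : ag j b c) : ag j a c :=
  fun i hi => (h1 i hi).trans (h2 i hi)

theorem le_trans' : ∀ u v w : U k n, u.le v → v.le w → u.le w
  | .X a, .X b, w, h1, h2 => by
      have h : a = b := h1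
      subst h; exact h2
  | .X a, .Y b, .Y c, h1, h2 => by
      have h : b = c := h2
      subst h; exact h1
  | .X a, .R j b, .R j' c, h1, h2 => by
      obtain ⟨rfl, h3, h4⟩ : j = j' ∧ ag j b c ∧ b j ≤ c j := h2
      exact ⟨ag_trans h1.1 h3, h1.2.trans h4⟩
  | .X a, .R j b, .Y c, h1, h2 => by
      intro h
      subst h
      have h3 : a j ≤ b j := h1.2
      have h4 : b j < a j := h2.2
      exact absurd h3 (not_le.2 h4)
  | .X a, .L j b, .L j' c, h1, h2 => by
      obtain ⟨rfl, h3, h4⟩ : j = j' ∧ ag j b c ∧ c j ≤ b j := h2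
      exact ⟨ag_trans h1.1 h3, le_trans h4 h1.2⟩
  | .X a, .L j b, .Y c, h1, h2 => by
      intro h
      subst h
      have h3 : b j ≤ a j := h1.2
      have h4 : a j < b j := h2.2
      exact absurd h3 (not_le.2 h4)
  | .Y a, .Y b, w, h1, h2 => by
      have h : a = b := h1
      subst h; exact h2
  | .R j a, .R j' b, .R j'' c, h1, h2 => by
      obtain ⟨rfl, h3, h4⟩ : j = j' ∧ ag j a b ∧ a j ≤ b j := h1
      obtain ⟨rfl, h5, h6⟩ : j = j'' ∧ ag j b c ∧ b j ≤ c j := h2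
      exact ⟨rfl, ag_trans h3 h5, h4.trans h6⟩
  | .R j a, .R j' b, .Y c, h1, h2 => by
      obtain ⟨rfl, h3, h4⟩ : j = j' ∧ ag j a b ∧ a j ≤ b j := h1
      exact ⟨ag_trans h3 h2.1, lt_of_le_of_lt h4 h2.2⟩
  | .R j a, .Y b, .Y c, h1, h2 => by
      have h : b = c := h2
      subst h; exact h1
  | .L j a, .L j' b, .L j'' c, h1, h2 => by
      obtain ⟨rfl, h3, h4⟩ : j = j' ∧ ag j a b ∧ b j ≤ a j := h1
      obtain ⟨rfl, h5, h6⟩ : j = j'' ∧ ag j b c ∧ c j ≤ b j := h2
      exact ⟨rfl, ag_trans h3 h5, h6.trans h4⟩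
  | .L j a, .L j' b, .Y c, h1, h2 => by
      obtain ⟨rfl, h3, h4⟩ : j = j' ∧ ag j a b ∧ b j ≤ a j := h1
      exact ⟨ag_trans h3 h2.1, lt_of_lt_of_le h2.2 h4⟩
  | .L j a, .Y b, .Y c, h1, h2 => by
      have h : b = c := h2
      subst h; exact h1

theorem le_antisymm' : ∀ u v : U k n, u.Norm → v.Norm → u.le v → v.le u → u = v
  | .X a, .X b, _, _, h1, _ => by
      have h : a = b := h1
      rw [h]
  | .Y a, .Y b, _, _, h1, _ => by
      have h : a = b := h1
      rw [h]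
  | .R j a, .R j' b, hu, hv, h1, h2 => by
      obtain ⟨rfl, h3, h4⟩ : j = j' ∧ ag j a b ∧ a j ≤ b j := h1
      obtain ⟨-, -, h5⟩ : j = j ∧ ag j b a ∧ b j ≤ a j := h2
      have : a = b := by
        funext i
        rcases lt_trichotomy i j with hi | hi | hi
        · exact Fin.ext ((hu i hi).trans (hv i hi).symm)
        · rw [hi]; exact le_antisymm h4 h5
        · exact h3 i hi
      rw [this]
  | .L j a, .L j' b, hu, hv, h1, h2 => by
      obtain ⟨rfl, h3, h4⟩ : j = j' ∧ ag j a b ∧ b j ≤ a j := h1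
      obtain ⟨-, -, h5⟩ : j = j ∧ ag j b a ∧ a j ≤ b j := h2
      have : a = b := by
        funext i
        rcases lt_trichotomy i j with hi | hi | hi
        · exact Fin.ext ((hu i hi).trans (hv i hi).symm)
        · rw [hi]; exact le_antisymm h5 h4
        · exact h3 i hi
      rw [this]

theorem le_refl' (u : U k n) : u.le u := by
  cases u <;> simp [U.le, ag]

instance instPO : PartialOrder (Q k n) where
  le u v := u.1.le v.1
  le_refl u := le_refl' u.1
  le_trans u v w := le_trans' u.1 v.1 w.1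
  le_antisymm u v h1 h2 := Subtype.ext (le_antisymm' u.1 v.1 u.2 v.2 h1 h2)

/-- address `c` is in the range of `u` -/
def Act (c : Fin k → Fin n) : U k n → Prop
  | .X a => a = c
  | .Y a => a = c
  | .R j b => ag j c b ∧ ((c j : ℕ) = b j ∨ (c j : ℕ) = b j + 1)
  | .L j b => ag j c b ∧ ((c j : ℕ) = b j ∨ (c j : ℕ) + 1 = b j)

/-- code of the elements, for finiteness -/
def code : U k n → Fin 4 × Option (Fin k) × (Fin k → Fin n)
  | .X a => (0, none, a)
  | .Y a => (1, none, a)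
  | .R j a => (2, some j, a)
  | .L j a => (3, some j, a)

theorem code_inj : Function.Injective (code : U k n → _) := by
  intro u v h
  cases u <;> cases v <;> simp_all [code]

noncomputable instance instFT : Fintype (Q k n) :=
  Fintype.ofInjective (fun u : Q k n => code u.1) fun _ _ h => Subtype.ext (code_inj h)

end Pool.Agent.Helper66.PD
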