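import Pool.Agent.Helper66.PD.Band

/-!
# Posets with cover graph of bounded path-width and bounded degree: quadratic lower bound
-/

set_option autoImplicit false

namespace Pool.Agent.Helper66.PD

/-- maximum degree at most `D` -/
def DegreeLE {V : Type} (G : SimpleGraph V) (D : ℕ) : Prop :=
  ∀ v : V, ∃ s : Finset V, s.card ≤ D ∧ ∀ u, G.Adj v u → u ∈ s

/-- elements: pairs `X`, `Y`, inner rails `R0`, `L0`, outer rails `R1`, `L1`, spines `P`, `Q` (from
the `X` of a block to the outer rails), `T`, `S` (from the outer rails to the `Y` of a block) -/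
inductive DK (n : ℕ) : Type
  | X (a b : Fin n) : DK n
  | Y (a b : Fin n) : DK n
  | R0 (a b : Fin n) : DK n
  | L0 (a b : Fin n) : DK n
  | P (a b : Fin n) : DK n
  | Q (a b : Fin n) : DK n
  | T (a b : Fin n) : DK n
  | S (a b : Fin n) : DK n
  | R1 (b : Fin n) : DK n
  | L1 (b : Fin n) : DK n

namespace DK

variable {n : ℕ}

/-- the edges -/
inductive E : DK n → DK n → Prop
  | xr (a b : Fin n) : E (X a b) (R0 a b)
  | xl (a b : Fin n) : E (X a b) (L0 a b)
  | xp (a b : Fin n) : E (X a b) (P a b)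
  | xq (a b : Fin n) : E (X a b) (Q a b)
  | rr (a a' b : Fin n) (h : (a' : ℕ) = a + 1) : E (R0 a b) (R0 a' b)
  | ry (a a' b : Fin n) (h : (a' : ℕ) = a + 1) : E (R0 a b) (Y a' b)
  | ll (a a' b : Fin n) (h : (a : ℕ) = a' + 1) : E (L0 a b) (L0 a' b)
  | ly (a a' b : Fin n) (h : (a : ℕ) = a' + 1) : E (L0 a b) (Y a' b)
  | pp (a a' b : Fin n) (h : (a' : ℕ) = a + 1) : E (P a b) (P a' b)
  | pr (a b : Fin n) (h : (a : ℕ) + 1 = n) : E (P a b) (R1 b)
  | qq (a a' b : Fin n) (h : (a' : ℕ) = a + 1) : E (Q a b) (Q a' b)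
  | ql (a b : Fin n) (h : (a : ℕ) + 1 = n) : E (Q a b) (L1 b)
  | r1 (b b' : Fin n) (h : (b' : ℕ) = b + 1) : E (R1 b) (R1 b')
  | rt (a b b' : Fin n) (h : (b' : ℕ) = b + 1) (ha : (a : ℕ) = 0) : E (R1 b) (T a b')
  | l1 (b b' : Fin n) (h : (b : ℕ) = b' + 1) : E (L1 b) (L1 b')
  | ls (a b b' : Fin n) (h : (b : ℕ) = b' + 1) (ha : (a : ℕ) + 1 = n) : E (L1 b) (S a b')
  | tt (a a' b : Fin n) (h : (a' : ℕ) = a + 1) : E (T a b) (T a' b)
  | ty (a b : Fin n) : E (T a b) (Y a b)
  | ss (a a' b : Fin n) (h : (a : ℕ) = a' + 1) : E (S a b) (S a' b)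
  | sy (a b : Fin n) : E (S a b) (Y a b)

/-- the rank -/
def rk : DK n → ℕ
  | X _ _ => 0
  | R0 a _ => a + 1
  | L0 a _ => n - a
  | P a _ => a + 1
  | Q a _ => a + 1
  | R1 b => n + 1 + b
  | L1 b => 2 * n - b
  | T a _ => 2 * n + 1 + a
  | S a _ => 3 * n - a
  | Y _ _ => 3 * n + 1

theorem rk_E (u v : DK n) (h : E u v) : u.rk < v.rk := by
  cases h with
  | xr a b => simp only [rk]; omega
  | xl a b => have := a.isLt; simp only [rk]; omega
  | xp a b => simp only [rk]; omega
  | xq a b => simp only [rk]; omega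
  | rr a a' b h => simp only [rk]; omega
  | ry a a' b h => have := a.isLt; simp only [rk]; omega
  | ll a a' b h => have := a.isLt; simp only [rk]; omega
  | ly a a' b h => have := a.isLt; simp only [rk]; omega
  | pp a a' b h => simp only [rk]; omega
  | pr a b h => simp only [rk]; omega
  | qq a a' b h => simp only [rk]; omega
  | ql a b h => have := b.isLt; simp only [rk]; omega
  | r1 b b' h => simp only [rk]; omega
  | rt a b b' h ha => have := b.isLt; simp only [rk]; omega
  | l1 b b' h => have := b.isLt; simp only [rk]; omega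
  | ls a b b' h ha => have := b.isLt; simp only [rk]; omega
  | tt a a' b h => simp only [rk]; omega
  | ty a b => have := a.isLt; simp only [rk]; omega
  | ss a a' b h => have := a.isLt; simp only [rk]; omega
  | sy a b => have := a.isLt; simp only [rk]; omega

theorem rk_le (u v : DK n) (h : Relation.ReflTransGen E u v) : u.rk ≤ v.rk := by
  induction h with
  | refl => exact le_rfl
  | tail _ h ih => exact ih.trans (rk_E _ _ h).le

theorem rk_lt (u v : DK n) (h : Relation.ReflTransGen E u v) (hne : u ≠ v) : u.rk < v.rk := by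
  rcases Relation.ReflTransGen.cases_tail h with h1 | ⟨w, h1, h2⟩
  · exact absurd h1.symm hne
  · exact lt_of_le_of_lt (rk_le _ _ h1) (rk_E _ _ h2)

theorem rk_top (u : DK n) : u.rk < 3 * n + 2 := by
  cases u with
  | X a b => simp only [rk]; omega
  | Y a b => simp only [rk]; omega
  | R0 a b => have := a.isLt; simp only [rk]; omega
  | L0 a b => simp only [rk]; omega
  | P a b => have := a.isLt; simp only [rk]; omega
  | Q a b => have := a.isLt; simp only [rk]; omega
  | T a b => have := a.isLt; simp only [rk]; omega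
  | S a b => simp only [rk]; omega
  | R1 b => have := b.isLt; simp only [rk]; omega
  | L1 b => simp only [rk]; omega

instance instPO : PartialOrder (DK n) where
  le u v := Relation.ReflTransGen E u v
  le_refl u := Relation.ReflTransGen.refl
  le_trans u v w h1 h2 := h1.trans h2
  le_antisymm u v h1 h2 := by
    by_contra hne
    have a1 := rk_lt u v h1 hne
    have a2 := rk_lt v u h2 (Ne.symm hne)
    omega

theorem le_def (u v : DK n) : u ≤ v ↔ Relation.ReflTransGen E u v := Iff.rfl

theorem E_le {u v : DK n} (h : E u v) : u ≤ v := Relation.ReflTransGen.single h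

/-- covers are edges -/
theorem cov_E (u v : DK n) (h : u ⋖ v) : E u v := by
  rcases Relation.ReflTransGen.cases_tail ((le_def _ _).1 h.le) with h1 | ⟨w, h1, h2⟩
  · exact absurd h1.symm h.ne
  · by_cases h3 : u = w
    · rw [h3]; exact h2
    · exfalso
      have h4 : w ≠ v := by
        intro h5
        have := rk_E _ _ h2
        rw [h5] at this
        exact lt_irrefl _ this
      exact h.2 (lt_of_le_of_ne (show u ≤ w from h1) h3) (lt_of_le_of_ne (E_le h2) h4)

theorem adj_E (u v : DK n) (h : (cov (DK n)).Adj u v) : E u v ∨ E v u := by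
  unfold cov at h
  rw [SimpleGraph.fromRel_adj] at h
  exact h.2.imp (cov_E _ _) (cov_E _ _)

/-- code, for finiteness -/
def code : DK n → Fin 10 × Fin n × Fin n
  | X a b => (0, a, b)
  | Y a b => (1, a, b)
  | R0 a b => (2, a, b)
  | L0 a b => (3, a, b)
  | P a b => (4, a, b)
  | Q a b => (5, a, b)
  | T a b => (6, a, b)
  | S a b => (7, a, b)
  | R1 b => (8, b, b)
  | L1 b => (9, b, b)

theorem code_inj : Function.Injective (code : DK n → _) := by
  intro u v h
  cases u <;> cases v <;> simp_all [code]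

noncomputable instance instFT : Fintype (DK n) := Fintype.ofInjective code code_inj

theorem height : HeightLE (DK n) (3 * n + 2) := by
  intro s hs
  have h1 : s.card ≤ (Finset.range (3 * n + 2)).card := by
    apply Finset.card_le_card_of_injOn (fun u : DK n => u.rk)
    · intro u _
      exact Finset.mem_coe.2 (Finset.mem_range.2 (rk_top u))
    · intro u hu v hv huv
      by_contra hne
      have huv' : u.rk = v.rk := huv
      rcases hs hu hv hne with h2 | h2
      · have := rk_lt u v h2 hne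
        omega
      · have := rk_lt v u h2 (Ne.symm hne)
        omega
  rwa [Finset.card_range] at h1

/-! ### degrees -/

/-- predecessor -/
def prv (a : Fin n) : Fin n := ⟨a - 1, lt_of_le_of_lt (Nat.sub_le _ _) a.isLt⟩

/-- successor -/
def nxt (a : Fin n) : Fin n := ⟨min (a + 1) (n - 1), by have := a.isLt; omega⟩

/-- first -/
def fst' (a : Fin n) : Fin n := ⟨0, Nat.pos_of_ne_zero (by have := a.isLt; omega)⟩

/-- last -/
def lst' (a : Fin n) : Fin n := ⟨n - 1, by have := a.isLt; omega⟩

theorem prv_eq {a a' : Fin n} (h : (a' : ℕ) = a + 1) : prv a' = a := by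
  apply Fin.ext
  show (a' : ℕ) - 1 = a
  omega

theorem nxt_eq {a a' : Fin n} (h : (a' : ℕ) = a + 1) : nxt a = a' := by
  apply Fin.ext
  show min ((a : ℕ) + 1) (n - 1) = a'
  have := a'.isLt
  omega

theorem fst_eq {a c : Fin n} (h : (a : ℕ) = 0) : fst' c = a := Fin.ext h.symm

theorem lst_eq {a c : Fin n} (h : (a : ℕ) + 1 = n) : lst' c = a := by
  apply Fin.ext
  show n - 1 = (a : ℕ)
  omega

open Classical in
/-- neighbours -/
noncomputable def nb : DK n → Finset (DK n)
  | X a b => {R0 a b, L0 a b, P a b, Q a b}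
  | Y a b => {R0 (prv a) b, L0 (nxt a) b, T a b, S a b}
  | R0 a b => {X a b, R0 (prv a) b, R0 (nxt a) b, Y (nxt a) b}
  | L0 a b => {X a b, L0 (prv a) b, L0 (nxt a) b, Y (prv a) b}
  | P a b => {X a b, P (prv a) b, P (nxt a) b, R1 b}
  | Q a b => {X a b, Q (prv a) b, Q (nxt a) b, L1 b}
  | T a b => {Y a b, T (prv a) b, T (nxt a) b, R1 (prv b)}
  | S a b => {Y a b, S (prv a) b, S (nxt a) b, L1 (nxt b)}
  | R1 b => {P (lst' b) b, R1 (prv b), R1 (nxt b), T (fst' b) (nxt b)}
  | L1 b => {Q (lst' b) b, L1 (prv b), L1 (nxt b), S (lst' b) (prv b)}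

theorem nb_card (u : DK n) : (nb u).card ≤ 4 := by
  classical
  cases u <;> simp only [nb] <;> exact Finset.card_le_four

theorem nb_out (u v : DK n) (h : E u v) : v ∈ nb u := by
  cases h with
  | xr a b => simp [nb]
  | xl a b => simp [nb]
  | xp a b => simp [nb]
  | xq a b => simp [nb]
  | rr a a' b h => simp [nb, nxt_eq h]
  | ry a a' b h => simp [nb, nxt_eq h]
  | ll a a' b h => simp [nb, prv_eq h]
  | ly a a' b h => simp [nb, prv_eq h]
  | pp a a' b h => simp [nb, nxt_eq h]
  | pr a b h => simp [nb]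
  | qq a a' b h => simp [nb, nxt_eq h]
  | ql a b h => simp [nb]
  | r1 b b' h => simp [nb, nxt_eq h]
  | rt a b b' h ha => simp [nb, nxt_eq h, fst_eq ha]
  | l1 b b' h => simp [nb, prv_eq h]
  | ls a b b' h ha => simp [nb, prv_eq h, lst_eq ha]
  | tt a a' b h => simp [nb, nxt_eq h]
  | ty a b => simp [nb]
  | ss a a' b h => simp [nb, prv_eq h]
  | sy a b => simp [nb]

theorem nb_in (u v : DK n) (h : E u v) : u ∈ nb v := by
  cases h with
  | xr a b => simp [nb]
  | xl a b => simp [nb]
  | xp a b => simp [nb]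
  | xq a b => simp [nb]
  | rr a a' b h => simp [nb, prv_eq h]
  | ry a a' b h => simp [nb, prv_eq h]
  | ll a a' b h => simp [nb, nxt_eq h]
  | ly a a' b h => simp [nb, nxt_eq h]
  | pp a a' b h => simp [nb, prv_eq h]
  | pr a b h => simp [nb, lst_eq h]
  | qq a a' b h => simp [nb, prv_eq h]
  | ql a b h => simp [nb, lst_eq h]
  | r1 b b' h => simp [nb, prv_eq h]
  | rt a b b' h ha => simp [nb, prv_eq h]
  | l1 b b' h => simp [nb, nxt_eq h]
  | ls a b b' h ha => simp [nb, nxt_eq h]
  | tt a a' b h => simp [nb, prv_eq h]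
  | ty a b => simp [nb]
  | ss a a' b h => simp [nb, nxt_eq h]
  | sy a b => simp [nb]

theorem degree : DegreeLE (cov (DK n)) 4 := by
  intro v
  refine ⟨nb v, nb_card v, fun u hu => ?_⟩
  rcases adj_E _ _ hu with h | h
  · exact nb_out _ _ h
  · exact nb_in _ _ h

/-! ### path-width -/

/-- left end -/
def lft : DK n → ℕ
  | X a b => b * n + a
  | Y a b => b * n + a
  | R0 a b => b * n + a
  | L0 a b => b * n + a
  | P a b => b * n + a
  | Q a b => b * n + a
  | T a b => b * n + a
  | S a b => b * n + a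
  | R1 b => b * n
  | L1 b => b * n

/-- right end -/
def rgt : DK n → ℕ
  | X a b => b * n + a + 1
  | Y a b => b * n + a + 1
  | R0 a b => b * n + a + 1
  | L0 a b => b * n + a + 1
  | P a b => b * n + a + 1
  | Q a b => b * n + a + 1
  | T a b => b * n + a + 1
  | S a b => b * n + a + 1
  | R1 b => b * n + n
  | L1 b => b * n + n

theorem mul_succ' {b b' : Fin n} (h : (b' : ℕ) = b + 1) : (b' : ℕ) * n = b * n + n := by
  rw [h]; ring

theorem E_meet (u v : DK n) (h : E u v) : lft u ≤ rgt v ∧ lft v ≤ rgt u := by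
  cases h with
  | xr a b => simp only [lft, rgt]; omega
  | xl a b => simp only [lft, rgt]; omega
  | xp a b => simp only [lft, rgt]; omega
  | xq a b => simp only [lft, rgt]; omega
  | rr a a' b h => simp only [lft, rgt]; omega
  | ry a a' b h => simp only [lft, rgt]; omega
  | ll a a' b h => simp only [lft, rgt]; omega
  | ly a a' b h => simp only [lft, rgt]; omega
  | pp a a' b h => simp only [lft, rgt]; omega
  | pr a b h => simp only [lft, rgt]; omega
  | qq a a' b h => simp only [lft, rgt]; omega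
  | ql a b h => simp only [lft, rgt]; omega
  | r1 b b' h => have := mul_succ' h; simp only [lft, rgt]; omega
  | rt a b b' h ha => have := mul_succ' h; simp only [lft, rgt]; omega
  | l1 b b' h => have := mul_succ' h; simp only [lft, rgt]; omega
  | ls a b b' h ha => have := mul_succ' h; simp only [lft, rgt]; omega
  | tt a a' b h => simp only [lft, rgt]; omega
  | ty a b => simp only [lft, rgt]; omega
  | ss a a' b h => simp only [lft, rgt]; omega
  | sy a b => simp only [lft, rgt]; omega

theorem blk {b b' : Fin n} {p : ℕ} (h1 : (b : ℕ) * n ≤ p) (h2 : p < b * n + n)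
    (h3 : (b' : ℕ) * n ≤ p) (h4 : p < b' * n + n) : b = b' := by
  apply Fin.ext
  rcases lt_trichotomy (b : ℕ) b' with h | h | h
  · have h5 : ((b : ℕ) + 1) * n ≤ b' * n := Nat.mul_le_mul_right n h
    rw [Nat.add_mul, Nat.one_mul] at h5
    omega
  · exact h
  · have h5 : ((b' : ℕ) + 1) * n ≤ b * n := Nat.mul_le_mul_right n h
    rw [Nat.add_mul, Nat.one_mul] at h5
    omega

theorem addr {a b a' b' : Fin n} (h : (b : ℕ) * n + a = b' * n + a') : a = a' ∧ b = b' := by
  have h1 := a.isLt
  have h2 := a'.isLt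
  have h3 : b = b' := blk (p := (b : ℕ) * n + a) (by omega) (by omega) (by omega) (by omega)
  subst h3
  exact ⟨Fin.ext (by omega), rfl⟩

theorem bag_inj (p : ℕ) (u v : DK n) (hu : lft u ≤ p ∧ p ≤ rgt u) (hv : lft v ≤ p ∧ p ≤ rgt v)
    (hk : (code u).1 = (code v).1) (hf : p = rgt u ↔ p = rgt v) : u = v := by
  cases u <;> cases v <;> first
    | (exfalso; revert hk; simp [code]; done)
    | skip
  all_goals simp only [lft, rgt] at hu hv hf
  case R1.R1 b b' =>
    have h1 := b.pos
    by_cases h : p = b * n + n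
    · have h2 := hf.1 h
      have h3 : b = b' := blk (p := (b : ℕ) * n) (by omega) (by omega) (by omega) (by omega)
      rw [h3]
    · have h2 : ¬ p = b' * n + n := fun h3 => h (hf.2 h3)
      have h3 : b = b' := blk (p := p) (by omega) (by omega) (by omega) (by omega)
      rw [h3]
  case L1.L1 b b' =>
    have h1 := b.pos
    by_cases h : p = b * n + n
    · have h2 := hf.1 h
      have h3 : b = b' := blk (p := (b : ℕ) * n) (by omega) (by omega) (by omega) (by omega)
      rw [h3]
    · have h2 : ¬ p = b' * n + n := fun h3 => h (hf.2 h3)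
      have h3 : b = b' := blk (p := p) (by omega) (by omega) (by omega) (by omega)
      rw [h3]
  all_goals
    rename_i a b a' b'
    have h3 : (b : ℕ) * n + a = b' * n + a' := by omega
    obtain ⟨rfl, rfl⟩ := addr h3
    rfl

theorem pathwidth : PathWidthLE (cov (DK n)) 19 := by
  classical
  refine ⟨n * n + n + 2, fun i => Finset.univ.filter (fun u : DK n => lft u ≤ i ∧ i ≤ rgt u),
    ?_, ?_, ?_, ?_⟩
  · intro v
    have h1 : lft v ≤ rgt v ∧ lft v < n * n + n + 2 := by
      cases v with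
      | R1 b =>
        have := Nat.mul_le_mul_right n b.isLt.le
        simp only [lft, rgt]; omega
      | L1 b =>
        have := Nat.mul_le_mul_right n b.isLt.le
        simp only [lft, rgt]; omega
      | _ a b =>
        have := Nat.mul_le_mul_right n b.isLt.le
        have := a.isLt
        simp only [lft, rgt]; omega
    refine ⟨⟨lft v, h1.2⟩, ?_⟩
    rw [Finset.mem_filter]
    exact ⟨Finset.mem_univ _, le_rfl, h1.1⟩
  · intro u v huv
    have h1 : lft u ≤ rgt v ∧ lft v ≤ rgt u := by
      rcases adj_E _ _ huv with h | h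
      · exact E_meet _ _ h
      · exact (E_meet _ _ h).symm
    have h2 : ∀ w : DK n, lft w ≤ rgt w ∧ lft w < n * n + n + 2 := by
      intro w
      cases w with
      | R1 b =>
        have := Nat.mul_le_mul_right n b.isLt.le
        simp only [lft, rgt]; omega
      | L1 b =>
        have := Nat.mul_le_mul_right n b.isLt.le
        simp only [lft, rgt]; omega
      | _ a b =>
        have := Nat.mul_le_mul_right n b.isLt.le
        have := a.isLt
        simp only [lft, rgt]; omega
    have h3 := h2 u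
    have h4 := h2 v
    refine ⟨⟨max (lft u) (lft v), by omega⟩, ?_, ?_⟩
    · rw [Finset.mem_filter]
      exact ⟨Finset.mem_univ _, by show lft u ≤ max (lft u) (lft v); omega,
        by show max (lft u) (lft v) ≤ rgt u; omega⟩
    · rw [Finset.mem_filter]
      exact ⟨Finset.mem_univ _, by show lft v ≤ max (lft u) (lft v); omega,
        by show max (lft u) (lft v) ≤ rgt v; omega⟩
  · intro i j k v hij hjk hi hk
    rw [Finset.mem_filter] at hi hk ⊢
    have h1 : (i : ℕ) ≤ j := hij
    have h2 : (j : ℕ) ≤ k := hjk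
    exact ⟨Finset.mem_univ _, by omega, by omega⟩
  · intro i
    have h1 : (Finset.univ.filter (fun u : DK n => lft u ≤ i ∧ i ≤ rgt u)).card ≤
        (Finset.univ : Finset (Fin 10 × Bool)).card := by
      apply Finset.card_le_card_of_injOn (fun u : DK n => ((code u).1, decide ((i : ℕ) = rgt u)))
      · intro u _
        exact Finset.mem_coe.2 (Finset.mem_univ _)
      · intro u hu v hv huv
        have hu' := (Finset.mem_filter.1 (Finset.mem_coe.1 hu)).2
        have hv' := (Finset.mem_filter.1 (Finset.mem_coe.1 hv)).2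
        have e1 := congrArg Prod.fst huv
        have e2 := congrArg Prod.snd huv
        exact bag_inj i u v hu' hv' e1 (decide_eq_decide.1 e2)
    simpa using h1

/-! ### dimension -/

theorem up (f : Fin n → DK n) (hf : ∀ a a' : Fin n, (a' : ℕ) = a + 1 → E (f a) (f a')) :
    ∀ (k : ℕ) (a a' : Fin n), (a' : ℕ) = a + k → f a ≤ f a' := by
  intro k
  induction k with
  | zero =>
    intro a a' h
    have : a = a' := Fin.ext (by omega)
    rw [this]
  | succ k ih =>
    intro a a' h
    have h1 := a'.isLt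
    exact (ih a ⟨a + k, by omega⟩ rfl).trans
      (E_le (hf ⟨a + k, by omega⟩ a' (by show (a' : ℕ) = a + k + 1; omega)))

theorem dn (f : Fin n → DK n) (hf : ∀ a a' : Fin n, (a : ℕ) = a' + 1 → E (f a) (f a')) :
    ∀ (k : ℕ) (a a' : Fin n), (a : ℕ) = a' + k → f a ≤ f a' := by
  intro k
  induction k with
  | zero =>
    intro a a' h
    have : a = a' := Fin.ext (by omega)
    rw [this]
  | succ k ih =>
    intro a a' h
    have h1 := a.isLt
    exact (ih a ⟨a' + 1, by omega⟩ (by show (a : ℕ) = a' + 1 + k; omega)).trans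
      (E_le (hf ⟨a' + 1, by omega⟩ a' rfl))

theorem X_le_Y (a b c d : Fin n) (h : ¬ (a = c ∧ b = d)) : X a b ≤ Y c d := by
  have hn : 0 < n := lt_of_le_of_lt (Nat.zero_le _) a.isLt
  have ha := a.isLt
  have hb := b.isLt
  have hc := c.isLt
  have hd := d.isLt
  rcases lt_trichotomy (b : ℕ) d with h1 | h1 | h1
  · have e1 : X a b ≤ P a b := E_le (E.xp a b)
    have e2 : P a b ≤ P ⟨n - 1, by omega⟩ b :=
      up (fun x => P x b) (fun x y h => E.pp x y b h) (n - 1 - a) _ _
        (by show n - 1 = a + (n - 1 - a); omega)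
    have e3 : P ⟨n - 1, by omega⟩ b ≤ R1 b := E_le (E.pr _ b (by show n - 1 + 1 = n; omega))
    have e4 : R1 b ≤ R1 ⟨d - 1, by omega⟩ :=
      up (fun x => R1 x) (fun x y h => E.r1 x y h) (d - 1 - b) _ _
        (by show (d : ℕ) - 1 = b + (d - 1 - b); omega)
    have e5 : R1 ⟨d - 1, by omega⟩ ≤ T ⟨0, hn⟩ d :=
      E_le (E.rt _ _ _ (by show (d : ℕ) = d - 1 + 1; omega) rfl)
    have e6 : T ⟨0, hn⟩ d ≤ T c d :=
      up (fun x => T x d) (fun x y h => E.tt x y d h) c _ _ (by show (c : ℕ) = 0 + c; omega)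
    have e7 : T c d ≤ Y c d := E_le (E.ty c d)
    exact e1.trans (e2.trans (e3.trans (e4.trans (e5.trans (e6.trans e7)))))
  · have hbd : b = d := Fin.ext h1
    subst hbd
    have hac : (a : ℕ) ≠ c := fun h2 => h ⟨Fin.ext h2, rfl⟩
    rcases Nat.lt_or_ge (a : ℕ) c with h2 | h2
    · have e1 : X a b ≤ R0 a b := E_le (E.xr a b)
      have e2 : R0 a b ≤ R0 ⟨c - 1, by omega⟩ b :=
        up (fun x => R0 x b) (fun x y h => E.rr x y b h) (c - 1 - a) _ _
          (by show (c : ℕ) - 1 = a + (c - 1 - a); omega)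
      have e3 : R0 ⟨c - 1, by omega⟩ b ≤ Y c b :=
        E_le (E.ry _ _ _ (by show (c : ℕ) = c - 1 + 1; omega))
      exact e1.trans (e2.trans e3)
    · have e1 : X a b ≤ L0 a b := E_le (E.xl a b)
      have e2 : L0 a b ≤ L0 ⟨c + 1, by omega⟩ b :=
        dn (fun x => L0 x b) (fun x y h => E.ll x y b h) (a - (c + 1)) _ _
          (by show (a : ℕ) = c + 1 + (a - (c + 1)); omega)
      have e3 : L0 ⟨c + 1, by omega⟩ b ≤ Y c b := E_le (E.ly _ _ _ rfl)
      exact e1.trans (e2.trans e3)
  · have e1 : X a b ≤ Q a b := E_le (E.xq a b)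
    have e2 : Q a b ≤ Q ⟨n - 1, by omega⟩ b :=
      up (fun x => Q x b) (fun x y h => E.qq x y b h) (n - 1 - a) _ _
        (by show n - 1 = a + (n - 1 - a); omega)
    have e3 : Q ⟨n - 1, by omega⟩ b ≤ L1 b := E_le (E.ql _ b (by show n - 1 + 1 = n; omega))
    have e4 : L1 b ≤ L1 ⟨d + 1, by omega⟩ :=
      dn (fun x => L1 x) (fun x y h => E.l1 x y h) (b - (d + 1)) _ _
        (by show (b : ℕ) = d + 1 + (b - (d + 1)); omega)
    have e5 : L1 ⟨d + 1, by omega⟩ ≤ S ⟨n - 1, by omega⟩ d :=
      E_le (E.ls _ _ _ rfl (by show n - 1 + 1 = n; omega))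
    have e6 : S ⟨n - 1, by omega⟩ d ≤ S c d :=
      dn (fun x => S x d) (fun x y h => E.ss x y d h) (n - 1 - c) _ _
        (by show n - 1 = c + (n - 1 - c); omega)
    have e7 : S c d ≤ Y c d := E_le (E.sy c d)
    exact e1.trans (e2.trans (e3.trans (e4.trans (e5.trans (e6.trans e7)))))

/-- what `X a b` can reach -/
def reach (a b : Fin n) : DK n → Prop
  | X c d => c = a ∧ d = b
  | R0 c d => d = b ∧ (a : ℕ) ≤ c
  | L0 c d => d = b ∧ (c : ℕ) ≤ a
  | P _ d => d = b
  | Q _ d => d = b
  | R1 d => (b : ℕ) ≤ d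
  | L1 d => (d : ℕ) ≤ b
  | T _ d => (b : ℕ) < d
  | S _ d => (d : ℕ) < b
  | Y c d => ¬ (c = a ∧ d = b)

theorem reach_E (a b : Fin n) (u v : DK n) (h : E u v) (hu : reach a b u) : reach a b v := by
  cases h with
  | xr x y => obtain ⟨rfl, rfl⟩ := hu; exact ⟨rfl, le_rfl⟩
  | xl x y => obtain ⟨rfl, rfl⟩ := hu; exact ⟨rfl, le_rfl⟩
  | xp x y => obtain ⟨rfl, rfl⟩ := hu; exact rfl
  | xq x y => obtain ⟨rfl, rfl⟩ := hu; exact rfl
  | rr x x' y h => exact ⟨hu.1, by have := hu.2; omega⟩
  | ry x x' y h =>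
    rintro ⟨rfl, rfl⟩
    have := hu.2
    omega
  | ll x x' y h => exact ⟨hu.1, by have := hu.2; omega⟩
  | ly x x' y h =>
    rintro ⟨rfl, rfl⟩
    have := hu.2
    omega
  | pp x x' y h => exact hu
  | pr x y h =>
    have h1 : y = b := hu
    subst h1
    exact le_refl (y : ℕ)
  | qq x x' y h => exact hu
  | ql x y h =>
    have h1 : y = b := hu
    subst h1
    exact le_refl (y : ℕ)
  | r1 y y' h =>
    have h1 : (b : ℕ) ≤ y := hu
    show (b : ℕ) ≤ y'
    omega
  | rt x y y' h hx =>
    have h1 : (b : ℕ) ≤ y := hu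
    show (b : ℕ) < y'
    omega
  | l1 y y' h =>
    have h1 : (y : ℕ) ≤ b := hu
    show (y' : ℕ) ≤ b
    omega
  | ls x y y' h hx =>
    have h1 : (y : ℕ) ≤ b := hu
    show (y' : ℕ) < b
    omega
  | tt x x' y h => exact hu
  | ty x y =>
    have h1 : (b : ℕ) < y := hu
    rintro ⟨-, rfl⟩
    omega
  | ss x x' y h => exact hu
  | sy x y =>
    have h1 : (y : ℕ) < b := hu
    rintro ⟨-, rfl⟩
    omega

theorem reach_le (a b : Fin n) (u : DK n) (h : X a b ≤ u) : reach a b u := by
  have h' := (le_def _ _).1 h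
  induction h' with
  | refl => exact ⟨rfl, rfl⟩
  | tail h1 h2 ih => exact reach_E a b _ _ h2 (ih h1)

theorem X_le_Y_iff (a b c d : Fin n) : X a b ≤ Y c d ↔ ¬ (a = c ∧ b = d) := by
  refine ⟨fun h => ?_, X_le_Y a b c d⟩
  rintro ⟨rfl, rfl⟩
  exact reach_le a b _ h ⟨rfl, rfl⟩

theorem dim (d : ℕ) (hd : DimLE (DK n) d) : n ^ 2 ≤ d := by
  obtain ⟨f, hf⟩ := hd
  have hXY : ∀ a c : Fin n × Fin n, X a.1 a.2 ≤ Y c.1 c.2 ↔ a ≠ c := by
    intro a c
    rw [X_le_Y_iff, ne_eq, Prod.ext_iff]
  have h1 : ∀ a : Fin n × Fin n, ∃ i, f (Y a.1 a.2) i < f (X a.1 a.2) i := by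
    intro a
    by_contra hc
    push Not at hc
    exact (hXY a a).1 ((hf _ _).2 hc) rfl
  choose i hi using h1
  have hinj : Function.Injective i := by
    intro a c hac
    by_contra hne
    have e3 : f (X a.1 a.2) (i a) ≤ f (Y c.1 c.2) (i a) :=
      (hf _ _).1 ((hXY a c).2 hne) (i a)
    have e4 : f (X c.1 c.2) (i a) ≤ f (Y a.1 a.2) (i a) :=
      (hf _ _).1 ((hXY c a).2 (Ne.symm hne)) (i a)
    have e5 := hi a
    have e6 := hi c
    rw [← hac] at e6
    omega
  have h2 := Fintype.card_le_of_injective i hinj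
  simp only [Fintype.card_prod, Fintype.card_fin] at h2
  rwa [sq]

end DK

/-- bounded degree and bounded path-width: a quadratic lower bound -/
theorem degree_lower : ∀ n : ℕ, ∃ (P : Type) (_ : PartialOrder P) (_ : Fintype P),
    HeightLE P (3 * n + 2) ∧ PathWidthLE (cov P) 19 ∧ DegreeLE (cov P) 4 ∧
      ∀ d : ℕ, DimLE P d → n ^ 2 ≤ d :=
  fun n => ⟨DK n, DK.instPO, DK.instFT, DK.height, DK.pathwidth, DK.degree, fun d hd => DK.dim d hd⟩

end Pool.Agent.Helper66.PD
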