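import Pool.Agent.Helper66.PD.DegK

/-!
# The multi-level Kelly poset with spines: path-width and dimension
-/

set_option autoImplicit false

namespace Pool.Agent.Helper66.PD

namespace MK

open W Relation

variable {k n : ℕ}

/-! ### path-width -/

/-- left end -/
def lft (n : ℕ) : W → ℕ
  | W.X a => a
  | W.Y a => a
  | W.A _ _ i B => B * n ^ i
  | W.D _ _ i B => B * n ^ i

/-- right end -/
def rgt (n : ℕ) : W → ℕ
  | W.X a => a + 1
  | W.Y a => a + 1
  | W.A _ _ i B => (B + 1) * n ^ i
  | W.D _ _ i B => (B + 1) * n ^ i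

theorem last_eq {B : ℕ} (hn : 0 < n) : B * n + (n - 1) + 1 = (B + 1) * n := by
  have h1 : n - 1 + 1 = n := by omega
  rw [Nat.add_assoc, h1]
  ring

theorem E_meet (u v : W) (h : EE k n u v) : lft n u ≤ rgt n v ∧ lft n v ≤ rgt n u := by
  obtain ⟨hE, hu, hv⟩ := h
  cases hE with
  | xu s j a => simp [lft, rgt]
  | uu s j i B h hB =>
    exact ⟨Nat.mul_le_mul_right _ (by omega), Nat.mul_le_mul_right _ (by omega)⟩
  | up s j i B h hB =>
    have h1 := div_mul' hB
    have hn := pos_of_ok _ hu (by simp) (by simp)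
    have h2 := last_eq (B := B / n) hn
    rw [h1] at h2
    simp only [lft, rgt]
    rw [pow_succ']
    constructor
    · calc B * n ^ i ≤ (B + 1) * n ^ i := Nat.mul_le_mul_right _ (by omega)
        _ = (B / n + 1) * (n * n ^ i) := by rw [h2]; ring
    · calc B / n * (n * n ^ i) ≤ (B / n + 1) * (n * n ^ i) := Nat.mul_le_mul_right _ (by omega)
        _ = (B + 1) * n ^ i := by rw [h2]; ring
  | rr j B hB =>
    exact ⟨Nat.mul_le_mul_right _ (by omega), Nat.mul_le_mul_right _ (by omega)⟩
  | ll j B hB =>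
    exact ⟨Nat.mul_le_mul_right _ (by omega), Nat.mul_le_mul_right _ (by omega)⟩
  | rd i B hB =>
    simp only [lft, rgt]
    rw [pow_succ']
    constructor
    · calc B * (n * n ^ i) ≤ (B + 1) * (n * n ^ i) := Nat.mul_le_mul_right _ (by omega)
        _ = (B + 1) * n * n ^ i := by ring
        _ ≤ ((B + 1) * n + 1) * n ^ i := Nat.mul_le_mul_right _ (by omega)
    · exact le_of_eq (by ring)
  | ld i B hB =>
    have hn := pos_of_ok _ hu (by simp) (by simp)
    have h2 := last_eq (B := B) hn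
    simp only [lft, rgt]
    rw [pow_succ', h2]
    constructor
    · exact le_of_eq (by ring)
    · calc (B * n + (n - 1)) * n ^ i ≤ (B * n + (n - 1) + 1) * n ^ i :=
            Nat.mul_le_mul_right _ (by omega)
        _ = (B + 1) * (n * n ^ i) := by rw [h2]; ring
        _ ≤ (B + 1 + 1) * (n * n ^ i) := Nat.mul_le_mul_right _ (by omega)
  | ry B hB =>
    simp [lft, rgt]
    omega
  | ly B hB =>
    simp [lft, rgt]
    omega
  | dr j i B h hB =>
    exact ⟨Nat.mul_le_mul_right _ (by omega), Nat.mul_le_mul_right _ (by omega)⟩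
  | dl j i B h hB =>
    exact ⟨Nat.mul_le_mul_right _ (by omega), Nat.mul_le_mul_right _ (by omega)⟩
  | er j i B h =>
    simp only [lft, rgt]
    rw [pow_succ']
    constructor
    · calc B * (n * n ^ i) = B * n * n ^ i := by ring
        _ ≤ (B * n + 1) * n ^ i := Nat.mul_le_mul_right _ (by omega)
    · calc B * n * n ^ i = B * (n * n ^ i) := by ring
        _ ≤ (B + 1) * (n * n ^ i) := Nat.mul_le_mul_right _ (by omega)
  | el j i B h =>
    have hn := pos_of_ok _ hu (by simp) (by simp)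
    have h2 := last_eq (B := B) hn
    simp only [lft, rgt]
    rw [pow_succ', h2]
    constructor
    · calc B * (n * n ^ i) ≤ (B + 1) * (n * n ^ i) := Nat.mul_le_mul_right _ (by omega)
        _ = (B + 1) * n * n ^ i := by ring
    · calc (B * n + (n - 1)) * n ^ i ≤ (B * n + (n - 1) + 1) * n ^ i :=
            Nat.mul_le_mul_right _ (by omega)
        _ = (B + 1) * (n * n ^ i) := by rw [h2]; ring
  | dy s j B h => simp [lft, rgt]

theorem blk {q B B' p : ℕ} (hq : 0 < q) (h1 : B * q ≤ p ∧ p ≤ (B + 1) * q)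
    (h2 : B' * q ≤ p ∧ p ≤ (B' + 1) * q) (hf : p = (B + 1) * q ↔ p = (B' + 1) * q) : B = B' := by
  by_cases h : p = (B + 1) * q
  · have h3 := h.symm.trans (hf.1 h)
    have h4 := Nat.eq_of_mul_eq_mul_right hq h3
    omega
  · have h' : ¬ p = (B' + 1) * q := fun h3 => h (hf.2 h3)
    rcases lt_trichotomy B B' with h3 | h3 | h3
    · have h4 : (B + 1) * q ≤ B' * q := Nat.mul_le_mul_right q h3
      omega
    · exact h3
    · have h4 : (B' + 1) * q ≤ B * q := Nat.mul_le_mul_right q h3
      omega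

/-- kind -/
def kd : MK k n → Bool ⊕ (Bool × Fin k × Fin k)
  | ⟨W.X _, _⟩ => Sum.inl true
  | ⟨W.Y _, _⟩ => Sum.inl false
  | ⟨W.A s j i _, h⟩ => Sum.inr (s, ⟨j, h.2.1⟩, ⟨i, lt_of_le_of_lt h.1 h.2.1⟩)
  | ⟨W.D s j i _, h⟩ => Sum.inr (s, ⟨i, h.1.trans h.2.1⟩, ⟨j, h.2.1⟩)

theorem bag_inj (p : ℕ) (u v : MK k n) (hu : lft n u.1 ≤ p ∧ p ≤ rgt n u.1)
    (hv : lft n v.1 ≤ p ∧ p ≤ rgt n v.1) (hk : kd u = kd v)
    (hf : p = rgt n u.1 ↔ p = rgt n v.1) : u = v := by
  rcases u with ⟨u, ou⟩
  rcases v with ⟨v, ov⟩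
  apply Subtype.ext
  cases u with
  | X a =>
    cases v with
    | X a' =>
      simp only [lft, rgt] at hu hv hf
      have : a = a' := by omega
      exact congrArg W.X this
    | Y a' => simp [kd] at hk
    | A s' j' i' B' => simp [kd] at hk
    | D s' j' i' B' => simp [kd] at hk
  | Y a =>
    cases v with
    | Y a' =>
      simp only [lft, rgt] at hu hv hf
      have : a = a' := by omega
      exact congrArg W.Y this
    | X a' => simp [kd] at hk
    | A s' j' i' B' => simp [kd] at hk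
    | D s' j' i' B' => simp [kd] at hk
  | A s j i B =>
    have hn := pos_of_ok _ ou (by simp) (by simp)
    cases v with
    | X a' => simp [kd] at hk
    | Y a' => simp [kd] at hk
    | A s' j' i' B' =>
      simp only [kd, Sum.inr.injEq, Prod.mk.injEq, Fin.mk.injEq] at hk
      obtain ⟨rfl, rfl, rfl⟩ := hk
      have h1 : B = B' := blk (Nat.pow_pos hn) hu hv hf
      exact congrArg (W.A s j i) h1
    | D s' j' i' B' =>
      simp only [kd, Sum.inr.injEq, Prod.mk.injEq, Fin.mk.injEq] at hk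
      have h1 := ou.1
      have h2 := ov.1
      omega
  | D s j i B =>
    have hn := pos_of_ok _ ou (by simp) (by simp)
    cases v with
    | X a' => simp [kd] at hk
    | Y a' => simp [kd] at hk
    | A s' j' i' B' =>
      simp only [kd, Sum.inr.injEq, Prod.mk.injEq, Fin.mk.injEq] at hk
      have h1 := ou.1
      have h2 := ov.1
      omega
    | D s' j' i' B' =>
      simp only [kd, Sum.inr.injEq, Prod.mk.injEq, Fin.mk.injEq] at hk
      obtain ⟨rfl, rfl, rfl⟩ := hk
      have h1 : B = B' := blk (Nat.pow_pos hn) hu hv hf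
      exact congrArg (W.D s j i) h1

theorem pos_bd (u : MK k n) : lft n u.1 ≤ rgt n u.1 ∧ rgt n u.1 ≤ n ^ k := by
  rcases u with ⟨u, ou⟩
  cases u with
  | X a =>
    have h : a < n ^ k := ou
    simp only [lft, rgt]; omega
  | Y a =>
    have h : a < n ^ k := ou
    simp only [lft, rgt]; omega
  | A s j i B =>
    obtain ⟨h1, h2, h3⟩ := ou
    refine ⟨Nat.mul_le_mul_right _ (by omega), ?_⟩
    calc (B + 1) * n ^ i ≤ n ^ (k - i) * n ^ i := Nat.mul_le_mul_right _ h3
      _ = n ^ k := by rw [← pow_add]; congr 1; omega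
  | D s j i B =>
    obtain ⟨h1, h2, h3⟩ := ou
    refine ⟨Nat.mul_le_mul_right _ (by omega), ?_⟩
    calc (B + 1) * n ^ i ≤ n ^ (k - i) * n ^ i := Nat.mul_le_mul_right _ h3
      _ = n ^ k := by rw [← pow_add]; congr 1; omega

theorem pathwidth : PathWidthLE (cov (MK k n)) (4 * k ^ 2 + 3) := by
  classical
  refine ⟨n ^ k + 1, fun i => Finset.univ.filter
    (fun u : MK k n => lft n u.1 ≤ i ∧ i ≤ rgt n u.1), ?_, ?_, ?_, ?_⟩
  · intro v
    have h1 := pos_bd v
    refine ⟨⟨lft n v.1, by omega⟩, ?_⟩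
    rw [Finset.mem_filter]
    exact ⟨Finset.mem_univ _, le_rfl, h1.1⟩
  · intro u v huv
    have h1 : lft n u.1 ≤ rgt n v.1 ∧ lft n v.1 ≤ rgt n u.1 := by
      rcases adj_E _ _ huv with h | h
      · exact E_meet _ _ ⟨h, u.2, v.2⟩
      · exact (E_meet _ _ ⟨h, v.2, u.2⟩).symm
    have h3 := pos_bd u
    have h4 := pos_bd v
    refine ⟨⟨max (lft n u.1) (lft n v.1), by omega⟩, ?_, ?_⟩
    · rw [Finset.mem_filter]
      exact ⟨Finset.mem_univ _, by show lft n u.1 ≤ max (lft n u.1) (lft n v.1); omega,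
        by show max (lft n u.1) (lft n v.1) ≤ rgt n u.1; omega⟩
    · rw [Finset.mem_filter]
      exact ⟨Finset.mem_univ _, by show lft n v.1 ≤ max (lft n u.1) (lft n v.1); omega,
        by show max (lft n u.1) (lft n v.1) ≤ rgt n v.1; omega⟩
  · intro i j l v hij hjk hi hk
    rw [Finset.mem_filter] at hi hk ⊢
    have h1 : (i : ℕ) ≤ j := hij
    have h2 : (j : ℕ) ≤ l := hjk
    exact ⟨Finset.mem_univ _, by omega, by omega⟩
  · intro i
    have h1 : (Finset.univ.filter (fun u : MK k n => lft n u.1 ≤ i ∧ i ≤ rgt n u.1)).card ≤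
        (Finset.univ : Finset ((Bool ⊕ (Bool × Fin k × Fin k)) × Bool)).card := by
      apply Finset.card_le_card_of_injOn
        (fun u : MK k n => (kd u, decide ((i : ℕ) = rgt n u.1)))
      · intro u _
        exact Finset.mem_coe.2 (Finset.mem_univ _)
      · intro u hu v hv huv
        have hu' := (Finset.mem_filter.1 (Finset.mem_coe.1 hu)).2
        have hv' := (Finset.mem_filter.1 (Finset.mem_coe.1 hv)).2
        have e1 := congrArg Prod.fst huv
        have e2 := congrArg Prod.snd huv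
        exact bag_inj i u v hu' hv' e1 (decide_eq_decide.1 e2)
    refine h1.trans (le_of_eq ?_)
    simp only [Finset.card_univ, Fintype.card_prod, Fintype.card_sum, Fintype.card_bool,
      Fintype.card_fin]
    ring

/-! ### dimension -/

theorem asc (f : ℕ → W) (M : ℕ)
    (hf : ∀ B, (B + 1) / n = B / n → B + 1 < M → EE k n (f B) (f (B + 1))) :
    ∀ d B, (B + d) / n = B / n → B + d < M → ReflTransGen (EE k n) (f B) (f (B + d)) := by
  intro d
  induction d with
  | zero => intro B _ _; exact ReflTransGen.refl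
  | succ d ih =>
    intro B h1 h2
    have h3 : (B + d) / n ≤ (B + (d + 1)) / n := Nat.div_le_div_right (by omega)
    have h4 : B / n ≤ (B + d) / n := Nat.div_le_div_right (by omega)
    refine (ih B (by omega) (by omega)).tail ?_
    exact hf (B + d) (by rw [Nat.add_assoc]; omega) (by omega)

theorem dsc (f : ℕ → W) (M : ℕ)
    (hf : ∀ B, (B + 1) / n = B / n → B + 1 < M → EE k n (f (B + 1)) (f B)) :
    ∀ d B, (B + d) / n = B / n → B + d < M → ReflTransGen (EE k n) (f (B + d)) (f B) := by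
  intro d
  induction d with
  | zero => intro B _ _; exact ReflTransGen.refl
  | succ d ih =>
    intro B h1 h2
    have h3 : (B + d) / n ≤ (B + (d + 1)) / n := Nat.div_le_div_right (by omega)
    have h4 : B / n ≤ (B + d) / n := Nat.div_le_div_right (by omega)
    refine ReflTransGen.head ?_ (ih B (by omega) (by omega))
    exact hf (B + d) (by rw [Nat.add_assoc]; omega) (by omega)

theorem bd {a i : ℕ} (ha : a < n ^ k) (hi : i ≤ k) : a / n ^ i < n ^ (k - i) := by
  apply Nat.div_lt_of_lt_mul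
  rw [← pow_add]
  have : i + (k - i) = k := by omega
  rw [this]
  exact ha

theorem dps (B m : ℕ) : B / n ^ (m + 1) = B / n / n ^ m := by
  rw [pow_succ', Nat.div_div_eq_div_mul]

theorem dps' (B m : ℕ) : B / n ^ (m + 1) = B / n ^ m / n := by
  rw [pow_succ, Nat.div_div_eq_div_mul]

/-- the last block with the same parent is admissible -/
theorem last_lt {B i : ℕ} (hn : 0 < n) (hi : i < k) (hB : B < n ^ (k - i)) :
    B / n * n + (n - 1) < n ^ (k - i) := by
  have h1 : n ^ (k - i) = n * n ^ (k - (i + 1)) := by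
    rw [← pow_succ']
    congr 1
    omega
  rw [h1] at hB ⊢
  have h2 : B / n < n ^ (k - (i + 1)) := Nat.div_lt_of_lt_mul hB
  have h3 : (B / n + 1) * n ≤ n ^ (k - (i + 1)) * n := Nat.mul_le_mul_right n h2
  have h4 := last_eq (B := B / n) hn
  rw [Nat.mul_comm n]
  omega

theorem mod_last {B : ℕ} (hn : 0 < n) : (B * n + (n - 1)) % n + 1 = n := by
  rw [Nat.mul_comm, Nat.mul_add_mod, Nat.mod_eq_of_lt (by omega)]
  omega

theorem upath (s : Bool) (j a : ℕ) (hn : 0 < n) (hj : j < k) (ha : a < n ^ k) :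
    ∀ i, i ≤ j → ReflTransGen (EE k n) (W.X a) (W.A s j i (a / n ^ i)) := by
  intro i
  induction i with
  | zero =>
    intro _
    have h1 : a / n ^ 0 = a := by simp
    rw [h1]
    exact ReflTransGen.single ⟨E.xu s j a, ha, ⟨Nat.zero_le _, hj, ha⟩⟩
  | succ i ih =>
    intro hi
    have h0 := ih (by omega)
    set B := a / n ^ i with hB
    have hBlt : B < n ^ (k - i) := bd ha (by omega)
    have h1 := last_lt hn (show i < k by omega) hBlt
    have h2 := Nat.div_add_mod' B n
    have h3 := Nat.mod_lt B hn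
    have h4 : B + (n - 1 - B % n) = B / n * n + (n - 1) := by omega
    have h5 := asc (k := k) (n := n) (fun B => W.A s j i B) (n ^ (k - i))
      (fun C hC hC2 => ⟨E.uu s j i C (by omega) hC, ⟨by omega, hj, by omega⟩,
        ⟨by omega, hj, hC2⟩⟩) (n - 1 - B % n) B (by rw [h4, mul_div' hn]) (by rw [h4]; exact h1)
    have h6 : B + (n - 1 - B % n) < n ^ (k - i) := by rw [h4]; exact h1
    have h7 : (B + (n - 1 - B % n)) / n = B / n := by rw [h4, mul_div' hn]
    have h8 : a / n ^ (i + 1) = B / n := dps' a i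
    have h9 : a / n ^ (i + 1) < n ^ (k - (i + 1)) := bd ha (by omega)
    have h10 : EE k n (W.A s j i (B + (n - 1 - B % n))) (W.A s j (i + 1) (a / n ^ (i + 1))) := by
      refine ⟨?_, ⟨by omega, hj, h6⟩, ⟨hi, hj, h9⟩⟩
      rw [h8, ← h7]
      exact E.up s j i _ (by omega) (by rw [h4]; exact mod_last hn)
    exact (h0.trans h5).tail h10

theorem dpath (s : Bool) (j b : ℕ) (hn : 0 < n) (hj : j < k) (hb : b < n ^ k) :
    ∀ i, i < j → ReflTransGen (EE k n) (W.D s j i (b / n ^ i)) (W.Y b) := by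
  intro i
  induction i with
  | zero =>
    intro hi
    have h1 : b / n ^ 0 = b := by simp
    rw [h1]
    exact ReflTransGen.single ⟨E.dy s j b hi, ⟨hi, hj, hb⟩, hb⟩
  | succ i ih =>
    intro hi
    have h0 := ih (by omega)
    set B := b / n ^ i with hB
    have hBlt : B < n ^ (k - i) := bd hb (by omega)
    have h1 := last_lt hn (show i < k by omega) hBlt
    have h2 := Nat.div_add_mod' B n
    have h3 := Nat.mod_lt B hn
    have h8 : b / n ^ (i + 1) = B / n := dps' b i
    have h9 : b / n ^ (i + 1) < n ^ (k - (i + 1)) := bd hb (by omega)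
    rw [h8] at h9 ⊢
    cases s with
    | true =>
      have h5 := asc (k := k) (n := n) (fun B => W.D true j i B) (n ^ (k - i))
        (fun C hC hC2 => ⟨E.dr j i C (by omega) hC, ⟨by omega, hj, by omega⟩,
          ⟨by omega, hj, hC2⟩⟩) (B % n) (B / n * n) (by rw [h2, mul_div'' hn])
          (by rw [h2]; exact hBlt)
      rw [h2] at h5
      have h10 : EE k n (W.D true j (i + 1) (B / n)) (W.D true j i (B / n * n)) :=
        ⟨E.er j i _ hi, ⟨hi, hj, h9⟩, ⟨by omega, hj, by omega⟩⟩
      exact ReflTransGen.head h10 (h5.trans h0)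
    | false =>
      have h4 : B + (n - 1 - B % n) = B / n * n + (n - 1) := by omega
      have h5 := dsc (k := k) (n := n) (fun B => W.D false j i B) (n ^ (k - i))
        (fun C hC hC2 => ⟨E.dl j i C (by omega) hC, ⟨by omega, hj, hC2⟩,
          ⟨by omega, hj, by omega⟩⟩) (n - 1 - B % n) B (by rw [h4, mul_div' hn])
          (by rw [h4]; exact h1)
      rw [h4] at h5
      have h10 : EE k n (W.D false j (i + 1) (B / n)) (W.D false j i (B / n * n + (n - 1))) :=
        ⟨E.el j i _ hi, ⟨hi, hj, h9⟩, ⟨by omega, hj, h1⟩⟩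
      exact ReflTransGen.head h10 (h5.trans h0)

theorem X_to_Y (a b : ℕ) (ha : a < n ^ k) (hb : b < n ^ k) (hab : a ≠ b) :
    ReflTransGen (EE k n) (W.X a) (W.Y b) := by
  have hn : 0 < n := by
    rcases Nat.eq_zero_or_pos n with h0 | h0
    · exfalso
      subst h0
      rcases Nat.eq_zero_or_pos k with h1 | h1
      · subst h1
        simp at ha hb
        omega
      · rw [Nat.zero_pow h1] at ha
        omega
    · exact h0
  have hex : ∃ m, a / n ^ m = b / n ^ m := ⟨k, by rw [Nat.div_eq_of_lt ha, Nat.div_eq_of_lt hb]⟩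
  classical
  obtain ⟨m, hm, hmin⟩ : ∃ m, a / n ^ m = b / n ^ m ∧ ∀ m', m' < m → a / n ^ m' ≠ b / n ^ m' :=
    ⟨Nat.find hex, Nat.find_spec hex, fun m' hm' => Nat.find_min hex hm'⟩
  have hmk : m ≤ k := by
    by_contra hc
    exact hmin k (by omega) (by rw [Nat.div_eq_of_lt ha, Nat.div_eq_of_lt hb])
  obtain ⟨j, rfl⟩ : ∃ j, m = j + 1 := by
    rcases m with _ | j
    · exfalso
      simp at hm
      exact hab hm
    · exact ⟨j, rfl⟩
  have hne := hmin j (by omega)
  have hpar : a / n ^ j / n = b / n ^ j / n := by rw [← dps', ← dps']; exact hm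
  have hjk : j < k := by omega
  have hbj : b / n ^ j < n ^ (k - j) := bd hb (by omega)
  have haj : a / n ^ j < n ^ (k - j) := bd ha (by omega)
  rcases Nat.lt_or_gt_of_ne hne with hlt | hlt
  · -- to the right
    have h1 := upath true j a hn hjk ha j le_rfl
    obtain ⟨R, hR⟩ : ∃ R, b / n ^ j = R + 1 :=
      Nat.exists_eq_succ_of_ne_zero (Nat.ne_of_gt (lt_of_le_of_lt (Nat.zero_le _) hlt))
    obtain ⟨d, hd⟩ := Nat.exists_eq_add_of_le (show a / n ^ j ≤ R by omega)
    have h2 : (R + 1) / n = R / n := by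
      have e1 : a / n ^ j / n ≤ R / n := Nat.div_le_div_right (by omega)
      have e2 : R / n ≤ (R + 1) / n := Nat.div_le_div_right (by omega)
      rw [← hR] at e2 ⊢
      omega
    have h3 : R / n = a / n ^ j / n := by rw [← h2, ← hR, hpar]
    have h4 := asc (k := k) (n := n) (fun B => W.A true j j B) (n ^ (k - j))
      (fun C hC hC2 => ⟨E.rr j C hC, ⟨le_rfl, hjk, by omega⟩, ⟨le_rfl, hjk, hC2⟩⟩)
      d (a / n ^ j) (by rw [← hd]; exact h3) (by omega)
    rw [← hd] at h4
    have h5 : ReflTransGen (EE k n) (W.X a) (W.A true j j R) := h1.trans h4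
    rcases j with _ | i
    · have h6 : b = R + 1 := by simpa using hR
      rw [h6]
      refine h5.tail ⟨E.ry R h2, ⟨le_rfl, hjk, by omega⟩, ?_⟩
      show R + 1 < n ^ k
      rw [← h6]
      exact hb
    · have hBlt : b / n ^ i < n ^ (k - i) := bd hb (by omega)
      have h6 : b / n ^ i / n = R + 1 := by rw [← dps']; exact hR
      have h7 := Nat.div_add_mod' (b / n ^ i) n
      rw [h6] at h7
      have h8 := asc (k := k) (n := n) (fun B => W.D true (i + 1) i B) (n ^ (k - i))
        (fun C hC hC2 => ⟨E.dr (i + 1) i C (by omega) hC, ⟨by omega, hjk, by omega⟩,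
          ⟨by omega, hjk, hC2⟩⟩) (b / n ^ i % n) ((R + 1) * n)
          (by rw [h7, mul_div'' hn]; exact h6) (by rw [h7]; exact hBlt)
      rw [h7] at h8
      have h9 : EE k n (W.A true (i + 1) (i + 1) R) (W.D true (i + 1) i ((R + 1) * n)) :=
        ⟨E.rd i R h2, ⟨le_rfl, hjk, by omega⟩, ⟨by omega, hjk, by omega⟩⟩
      exact (h5.tail h9).trans (h8.trans (dpath true (i + 1) b hn hjk hb i (by omega)))
  · -- to the left
    have h1 := upath false j a hn hjk ha j le_rfl
    obtain ⟨R, hR⟩ : ∃ R, b / n ^ j = R := ⟨b / n ^ j, rfl⟩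
    obtain ⟨d, hd⟩ := Nat.exists_eq_add_of_le (show R + 1 ≤ a / n ^ j by omega)
    have h2 : (R + 1) / n = R / n := by
      have e1 : (R + 1) / n ≤ a / n ^ j / n := Nat.div_le_div_right (by omega)
      have e2 : R / n ≤ (R + 1) / n := Nat.div_le_div_right (by omega)
      rw [hR] at hpar
      omega
    have h3 : a / n ^ j / n = (R + 1) / n := by rw [h2, hpar, hR]
    have h4 := dsc (k := k) (n := n) (fun B => W.A false j j B) (n ^ (k - j))
      (fun C hC hC2 => ⟨E.ll j C hC, ⟨le_rfl, hjk, hC2⟩, ⟨le_rfl, hjk, by omega⟩⟩)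
      d (R + 1) (by rw [← hd]; exact h3) (by omega)
    rw [← hd] at h4
    have h5 : ReflTransGen (EE k n) (W.X a) (W.A false j j (R + 1)) := h1.trans h4
    rcases j with _ | i
    · have h6 : b = R := by simpa using hR
      rw [h6]
      refine h5.tail ⟨E.ly R h2, ⟨le_rfl, hjk, by omega⟩, ?_⟩
      show R < n ^ k
      rw [← h6]
      exact hb
    · have hBlt : b / n ^ i < n ^ (k - i) := bd hb (by omega)
      have h6 : b / n ^ i / n = R := by rw [← dps']; exact hR
      have h7 := Nat.div_add_mod' (b / n ^ i) n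
      rw [h6] at h7
      have h10 := Nat.mod_lt (b / n ^ i) hn
      have h11 : b / n ^ i + (n - 1 - b / n ^ i % n) = R * n + (n - 1) := by omega
      have h12 := last_lt hn (show i < k by omega) hBlt
      rw [h6] at h12
      have h8 := dsc (k := k) (n := n) (fun B => W.D false (i + 1) i B) (n ^ (k - i))
        (fun C hC hC2 => ⟨E.dl (i + 1) i C (by omega) hC, ⟨by omega, hjk, hC2⟩,
          ⟨by omega, hjk, by omega⟩⟩) (n - 1 - b / n ^ i % n) (b / n ^ i)
          (by rw [h11, mul_div' hn, h6]) (by rw [h11]; exact h12)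
      rw [h11] at h8
      have h9 : EE k n (W.A false (i + 1) (i + 1) (R + 1))
          (W.D false (i + 1) i (R * n + (n - 1))) :=
        ⟨E.ld i R h2, ⟨le_rfl, hjk, by omega⟩, ⟨by omega, hjk, h12⟩⟩
      exact (h5.tail h9).trans (h8.trans (dpath false (i + 1) b hn hjk hb i (by omega)))

/-- what `X a` can reach -/
def reach (n a : ℕ) : W → Prop
  | W.X c => c = a
  | W.Y c => c ≠ a
  | W.A s j i B => (i < j → B / n ^ (j - i) = a / n ^ j) ∧
      (i = j → B / n = a / n ^ (j + 1) ∧ (s = true → a / n ^ j ≤ B) ∧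
        (s = false → B ≤ a / n ^ j))
  | W.D s j i B => (s = true → a / n ^ j < B / n ^ (j - i)) ∧
      (s = false → B / n ^ (j - i) < a / n ^ j)

theorem step_div {i j B C : ℕ} (h : i < j) (hB : C / n = B / n) :
    C / n ^ (j - i) = B / n ^ (j - i) := by
  obtain ⟨m, hm⟩ : ∃ m, j - i = m + 1 := ⟨j - i - 1, by omega⟩
  rw [hm, dps, dps, hB]

theorem reach_E (a : ℕ) (u v : W) (h : EE k n u v) (hr : reach n a u) : reach n a v := by
  obtain ⟨hE, hu, hv⟩ := h
  cases hE with
  | xu s j b =>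
    have h1 : b = a := hr
    subst h1
    refine ⟨fun h2 => by simp, fun h2 => ?_⟩
    subst h2
    exact ⟨by simp, fun _ => by simp, fun _ => by simp⟩
  | uu s j i B h hB =>
    refine ⟨fun h2 => ?_, fun h2 => absurd h2 (Nat.ne_of_lt h)⟩
    rw [step_div h hB]
    exact hr.1 h
  | up s j i B h hB =>
    have h1 := hr.1 h
    obtain ⟨m, hm⟩ : ∃ m, j - i = m + 1 := ⟨j - i - 1, by omega⟩
    rw [hm, dps] at h1
    refine ⟨fun h2 => ?_, fun h2 => ?_⟩
    · have h3 : j - (i + 1) = m := by omega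
      rw [h3]
      exact h1
    · have h3 : m = 0 := by omega
      rw [h3, pow_zero, Nat.div_one] at h1
      rw [h1]
      exact ⟨(dps' _ _).symm, fun _ => le_rfl, fun _ => le_rfl⟩
  | rr j B hB =>
    refine ⟨fun h2 => absurd h2 (lt_irrefl _), fun _ => ?_⟩
    obtain ⟨h1, h2, -⟩ := hr.2 rfl
    exact ⟨hB.trans h1, fun _ => (h2 rfl).trans (Nat.le_succ _), fun h3 => by simp at h3⟩
  | ll j B hB =>
    refine ⟨fun h2 => absurd h2 (lt_irrefl _), fun _ => ?_⟩
    obtain ⟨h1, -, h2⟩ := hr.2 rfl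
    exact ⟨hB.symm.trans h1, fun h3 => by simp at h3, fun _ => (Nat.le_succ _).trans (h2 rfl)⟩
  | rd i B hB =>
    have hn := pos_of_ok _ hu (by simp) (by simp)
    obtain ⟨-, h2, -⟩ := hr.2 rfl
    refine ⟨fun _ => ?_, fun h3 => by simp at h3⟩
    have h3 : i + 1 - i = 1 := by omega
    rw [h3, pow_one, mul_div'' hn]
    exact Nat.lt_succ_of_le (h2 rfl)
  | ld i B hB =>
    have hn := pos_of_ok _ hu (by simp) (by simp)
    obtain ⟨-, -, h2⟩ := hr.2 rfl
    refine ⟨fun h3 => by simp at h3, fun _ => ?_⟩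
    have h3 : i + 1 - i = 1 := by omega
    rw [h3, pow_one, mul_div' hn]
    exact h2 rfl
  | ry B hB =>
    obtain ⟨-, h2, -⟩ := hr.2 rfl
    have h3 := h2 rfl
    rw [pow_zero, Nat.div_one] at h3
    show B + 1 ≠ a
    omega
  | ly B hB =>
    obtain ⟨-, -, h2⟩ := hr.2 rfl
    have h3 := h2 rfl
    rw [pow_zero, Nat.div_one] at h3
    show B ≠ a
    omega
  | dr j i B h hB =>
    refine ⟨fun h3 => ?_, fun h3 => by simp at h3⟩
    rw [step_div h hB]
    exact hr.1 h3
  | dl j i B h hB =>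
    refine ⟨fun h3 => by simp at h3, fun h3 => ?_⟩
    rw [← step_div h hB]
    exact hr.2 h3
  | er j i B h =>
    have hn := pos_of_ok _ hu (by simp) (by simp)
    refine ⟨fun h3 => ?_, fun h3 => by simp at h3⟩
    have h4 := hr.1 h3
    have h5 : j - i = j - (i + 1) + 1 := by omega
    rw [h5, dps, mul_div'' hn]
    exact h4
  | el j i B h =>
    have hn := pos_of_ok _ hu (by simp) (by simp)
    refine ⟨fun h3 => by simp at h3, fun h3 => ?_⟩
    have h4 := hr.2 h3
    have h5 : j - i = j - (i + 1) + 1 := by omega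
    rw [h5, dps, mul_div' hn]
    exact h4
  | dy s j B h =>
    show B ≠ a
    intro h3
    subst h3
    cases s with
    | true => exact lt_irrefl _ (hr.1 rfl)
    | false => exact lt_irrefl _ (hr.2 rfl)

theorem reach_le (a : ℕ) (u : W) (h : ReflTransGen (EE k n) (W.X a) u) : reach n a u := by
  induction h with
  | refl => exact rfl
  | tail h1 h2 ih => exact reach_E a _ _ h2 ih

theorem dim (d : ℕ) (hd : DimLE (MK k n) d) : n ^ k ≤ d := by
  obtain ⟨f, hf⟩ := hd
  let X' : Fin (n ^ k) → MK k n := fun a => ⟨W.X a, a.isLt⟩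
  let Y' : Fin (n ^ k) → MK k n := fun a => ⟨W.Y a, a.isLt⟩
  have hXY : ∀ a c, X' a ≤ Y' c ↔ a ≠ c := by
    intro a c
    constructor
    · intro h hac
      subst hac
      exact reach_le (k := k) (n := n) (a : ℕ) (W.Y a) h rfl
    · intro h
      exact X_to_Y a c a.isLt c.isLt fun h2 => h (Fin.ext h2)
  have h1 : ∀ a, ∃ i, f (Y' a) i < f (X' a) i := by
    intro a
    by_contra hc
    push Not at hc
    exact (hXY a a).1 ((hf _ _).2 hc) rfl
  choose i hi using h1
  have hinj : Function.Injective i := by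
    intro a c hac
    by_contra hne
    have e3 : f (X' a) (i a) ≤ f (Y' c) (i a) := (hf _ _).1 ((hXY a c).2 hne) (i a)
    have e4 : f (X' c) (i a) ≤ f (Y' a) (i a) := (hf _ _).1 ((hXY c a).2 (Ne.symm hne)) (i a)
    have e5 := hi a
    have e6 := hi c
    rw [← hac] at e6
    omega
  have h2 := Fintype.card_le_of_injective i hinj
  simpa using h2

end MK

/-- bounded degree and bounded path-width: lower bounds of every degree -/
theorem degree_lower_all : ∀ k n : ℕ, ∃ (P : Type) (_ : PartialOrder P) (_ : Fintype P),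
    HeightLE P ((2 * k - 1) * n + 2) ∧ PathWidthLE (cov P) (4 * k ^ 2 + 3) ∧
      DegreeLE (cov P) (max 4 (2 * k)) ∧ ∀ d : ℕ, DimLE P d → n ^ k ≤ d :=
  fun k n => ⟨MK k n, MK.instPO, MK.instFT, MK.height, MK.pathwidth, MK.degree,
    fun d hd => MK.dim d hd⟩

end Pool.Agent.Helper66.PD
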