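import Pool.Agent.Helper66.PD.Deg

/-!
# Posets with cover graph of bounded path-width and maximum degree 4: lower bounds of every degree
-/

set_option autoImplicit false

namespace Pool.Agent.Helper66.PD

/-- elements: pairs `X a`, `Y a`; chains `Z 0 a < Z 1 a < ..` above `X a` and `.. < V 1 a < V 0 a`
below `Y a` (one element for each level); `A s j i B`: upward spine of level `j`, sublevel `i ≤ j`, block `B`
(for `i = j` the rail of level `j`, to the right for `s = true`, to the left for `s = false`);
`D s j i B`: downward spine of level `j`, sublevel `i < j`, block `B` -/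
inductive W4 : Type
  | X (a : ℕ) : W4
  | Y (a : ℕ) : W4
  | A (s : Bool) (j i B : ℕ) : W4
  | D (s : Bool) (j i B : ℕ) : W4
  | Z (j a : ℕ) : W4
  | V (j a : ℕ) : W4

namespace W4

/-- admissible elements -/
def ok (k n : ℕ) : W4 → Prop
  | X a => a < n ^ k
  | Y a => a < n ^ k
  | A _ j i B => i ≤ j ∧ j < k ∧ B < n ^ (k - i)
  | D _ j i B => i < j ∧ j < k ∧ B < n ^ (k - i)
  | Z j a => j < k ∧ a < n ^ k
  | V j a => j < k ∧ a < n ^ k

/-- the edges -/
inductive E (n : ℕ) : W4 → W4 → Prop
  | xz (a : ℕ) : E n (X a) (Z 0 a)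
  | zz (j a : ℕ) : E n (Z j a) (Z (j + 1) a)
  | xu (s : Bool) (j a : ℕ) : E n (Z j a) (A s j 0 a)
  | vv (j a : ℕ) : E n (V (j + 1) a) (V j a)
  | vy (a : ℕ) : E n (V 0 a) (Y a)
  | uu (s : Bool) (j i B : ℕ) (h : i < j) (hB : (B + 1) / n = B / n) :
      E n (A s j i B) (A s j i (B + 1))
  | up (s : Bool) (j i B : ℕ) (h : i < j) (hB : B % n + 1 = n) :
      E n (A s j i B) (A s j (i + 1) (B / n))
  | rr (j B : ℕ) (hB : (B + 1) / n = B / n) : E n (A true j j B) (A true j j (B + 1))
  | ll (j B : ℕ) (hB : (B + 1) / n = B / n) : E n (A false j j (B + 1)) (A false j j B)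
  | rd (i B : ℕ) (hB : (B + 1) / n = B / n) :
      E n (A true (i + 1) (i + 1) B) (D true (i + 1) i ((B + 1) * n))
  | ld (i B : ℕ) (hB : (B + 1) / n = B / n) :
      E n (A false (i + 1) (i + 1) (B + 1)) (D false (i + 1) i (B * n + (n - 1)))
  | ry (B : ℕ) (hB : (B + 1) / n = B / n) : E n (A true 0 0 B) (V 0 (B + 1))
  | ly (B : ℕ) (hB : (B + 1) / n = B / n) : E n (A false 0 0 (B + 1)) (V 0 B)
  | dr (j i B : ℕ) (h : i < j) (hB : (B + 1) / n = B / n) :
      E n (D true j i B) (D true j i (B + 1))
  | dl (j i B : ℕ) (h : i < j) (hB : (B + 1) / n = B / n) :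
      E n (D false j i (B + 1)) (D false j i B)
  | er (j i B : ℕ) (h : i + 1 < j) : E n (D true j (i + 1) B) (D true j i (B * n))
  | el (j i B : ℕ) (h : i + 1 < j) : E n (D false j (i + 1) B) (D false j i (B * n + (n - 1)))
  | dy (s : Bool) (j B : ℕ) (h : 0 < j) : E n (D s j 0 B) (V j B)

/-- edges between admissible elements -/
def EE (k n : ℕ) (u v : W4) : Prop := E n u v ∧ ok k n u ∧ ok k n v

/-- the rank -/
def rk (k n : ℕ) : W4 → ℕ
  | X _ => 0
  | Y _ => (2 * k - 1) * n + 2 * k + 1
  | A s j i B => k + 1 + i * n + (if i = j ∧ s = false then n - 1 - B % n else B % n)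
  | D s j i B => k + 1 + (2 * j - i) * n + (if s = false then n - 1 - B % n else B % n)
  | Z j _ => j + 1
  | V j _ => (2 * k - 1) * n + 2 * k - j

theorem mod_succ {n B : ℕ} (_ : 0 < n) (h : (B + 1) / n = B / n) : (B + 1) % n = B % n + 1 := by
  have h1 := Nat.div_add_mod (B + 1) n
  have h2 := Nat.div_add_mod B n
  rw [h] at h1
  omega

theorem pos_of_ok {k n : ℕ} (u : W4) (h : ok k n u) : (∀ a, u ≠ X a) → (∀ a, u ≠ Y a) → 0 < n := by
  intro h1 h2
  rcases Nat.eq_zero_or_pos n with h0 | h0
  · exfalso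
    subst h0
    cases u with
    | X a => exact h1 a rfl
    | Y a => exact h2 a rfl
    | A s j i B =>
      obtain ⟨h3, h4, h5⟩ := h
      rw [Nat.zero_pow (by omega)] at h5
      omega
    | D s j i B =>
      obtain ⟨h3, h4, h5⟩ := h
      rw [Nat.zero_pow (by omega)] at h5
      omega
    | Z j a =>
      obtain ⟨h3, h4⟩ := h
      rw [Nat.zero_pow (by omega)] at h4
      omega
    | V j a =>
      obtain ⟨h3, h4⟩ := h
      rw [Nat.zero_pow (by omega)] at h4
      omega
  · exact h0

theorem rk_EE {k n : ℕ} (u v : W4) (h : EE k n u v) : rk k n u < rk k n v := by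
  obtain ⟨hE, hu, hv⟩ := h
  cases hE with
  | xz a => simp only [rk]; omega
  | zz j a => simp only [rk]; omega
  | vv j a =>
    have := hu.1
    simp only [rk]; omega
  | vy a =>
    have := hu.1
    simp only [rk]; omega
  | xu s j a =>
    have := hu.1
    simp only [rk]; omega
  | uu s j i B h hB =>
    have hn := pos_of_ok _ hu (by simp) (by simp)
    have h1 := mod_succ hn hB
    have h2 : ¬ (i = j ∧ s = false) := fun h3 => absurd h3.1 (Nat.ne_of_lt h)
    simp only [rk, if_neg h2]
    omega
  | up s j i B h hB =>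
    have hn := pos_of_ok _ hu (by simp) (by simp)
    have h2 : ¬ (i = j ∧ s = false) := fun h3 => absurd h3.1 (Nat.ne_of_lt h)
    simp only [rk, if_neg h2]
    have h3 : (i + 1) * n = i * n + n := by ring
    rw [h3]
    omega
  | rr j B hB =>
    have hn := pos_of_ok _ hu (by simp) (by simp)
    have h1 := mod_succ hn hB
    simp only [rk]
    simp
    omega
  | ll j B hB =>
    have hn := pos_of_ok _ hu (by simp) (by simp)
    have h1 := mod_succ hn hB
    have h2 := Nat.mod_lt (B + 1) hn
    simp only [rk]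
    simp
    omega
  | rd i B hB =>
    have hn := pos_of_ok _ hu (by simp) (by simp)
    have h2 := Nat.mod_lt B hn
    have h3 : (2 * (i + 1) - i) * n = (i + 1) * n + n := by
      rw [show 2 * (i + 1) - i = (i + 1) + 1 by omega]; ring
    simp only [rk]
    simp
    rw [h3]
    omega
  | ld i B hB =>
    have hn := pos_of_ok _ hu (by simp) (by simp)
    have h3 : (2 * (i + 1) - i) * n = (i + 1) * n + n := by
      rw [show 2 * (i + 1) - i = (i + 1) + 1 by omega]; ring
    simp only [rk]
    simp
    rw [h3]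
    omega
  | ry B hB =>
    have hn := pos_of_ok _ hu (by simp) (by simp)
    have h2 := Nat.mod_lt B hn
    obtain ⟨-, hk, -⟩ := hu
    have h3 : (2 * k - 1) * n = (2 * k - 2) * n + n := by
      rw [show 2 * k - 1 = (2 * k - 2) + 1 by omega]; ring
    simp only [rk]
    simp
    omega
  | ly B hB =>
    have hn := pos_of_ok _ hu (by simp) (by simp)
    obtain ⟨-, hk, -⟩ := hu
    have h3 : (2 * k - 1) * n = (2 * k - 2) * n + n := by
      rw [show 2 * k - 1 = (2 * k - 2) + 1 by omega]; ring
    simp only [rk]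
    simp
    omega
  | dr j i B h hB =>
    have hn := pos_of_ok _ hu (by simp) (by simp)
    have h1 := mod_succ hn hB
    simp only [rk]
    simp
    omega
  | dl j i B h hB =>
    have hn := pos_of_ok _ hu (by simp) (by simp)
    have h1 := mod_succ hn hB
    have h2 := Nat.mod_lt (B + 1) hn
    simp only [rk]
    simp
    omega
  | er j i B h =>
    have hn := pos_of_ok _ hu (by simp) (by simp)
    have h2 := Nat.mod_lt B hn
    have h3 : (2 * j - i) * n = (2 * j - (i + 1)) * n + n := by
      rw [show 2 * j - i = (2 * j - (i + 1)) + 1 by omega]; ring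
    simp only [rk]
    simp
    rw [h3]
    omega
  | el j i B h =>
    have hn := pos_of_ok _ hu (by simp) (by simp)
    have h3 : (2 * j - i) * n = (2 * j - (i + 1)) * n + n := by
      rw [show 2 * j - i = (2 * j - (i + 1)) + 1 by omega]; ring
    simp only [rk]
    simp
    rw [h3]
    omega
  | dy s j B h =>
    have hn := pos_of_ok _ hu (by simp) (by simp)
    have h2 := Nat.mod_lt B hn
    obtain ⟨-, hk, -⟩ := hu
    have h4 : (2 * j - 0) * n ≤ (2 * k - 2) * n := Nat.mul_le_mul_right n (by omega)
    have h3 : (2 * k - 1) * n = (2 * k - 2) * n + n := by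
      rw [show 2 * k - 1 = (2 * k - 2) + 1 by omega]; ring
    simp only [rk]
    split_ifs <;> omega

theorem rk_le {k n : ℕ} (u v : W4) (h : Relation.ReflTransGen (EE k n) u v) :
    rk k n u ≤ rk k n v := by
  induction h with
  | refl => exact le_rfl
  | tail _ h ih => exact ih.trans (rk_EE _ _ h).le

theorem rk_lt {k n : ℕ} (u v : W4) (h : Relation.ReflTransGen (EE k n) u v) (hne : u ≠ v) :
    rk k n u < rk k n v := by
  rcases Relation.ReflTransGen.cases_tail h with h1 | ⟨w, h1, h2⟩
  · exact absurd h1.symm hne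
  · exact lt_of_le_of_lt (rk_le _ _ h1) (rk_EE _ _ h2)

theorem rk_top {k n : ℕ} (u : W4) (h : ok k n u) : rk k n u < (2 * k - 1) * n + 2 * k + 2 := by
  cases u with
  | X a => simp only [rk]; omega
  | Y a => simp only [rk]; omega
  | Z j a =>
    have := h.1
    simp only [rk]; omega
  | V j a =>
    have := h.1
    simp only [rk]; omega
  | A s j i B =>
    have hn := pos_of_ok _ h (by simp) (by simp)
    have h2 := Nat.mod_lt B hn
    obtain ⟨h3, h4, -⟩ := h
    have h5 : i * n ≤ (2 * k - 2) * n := Nat.mul_le_mul_right n (by omega)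
    have h6 : (2 * k - 1) * n = (2 * k - 2) * n + n := by
      rw [show 2 * k - 1 = (2 * k - 2) + 1 by omega]; ring
    simp only [rk]
    split_ifs <;> omega
  | D s j i B =>
    have hn := pos_of_ok _ h (by simp) (by simp)
    have h2 := Nat.mod_lt B hn
    obtain ⟨h3, h4, -⟩ := h
    have h5 : (2 * j - i) * n ≤ (2 * k - 2) * n := Nat.mul_le_mul_right n (by omega)
    have h6 : (2 * k - 1) * n = (2 * k - 2) * n + n := by
      rw [show 2 * k - 1 = (2 * k - 2) + 1 by omega]; ring
    simp only [rk]
    split_ifs <;> omega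

end W4

/-- the multi-level Kelly poset with spines -/
def MK4 (k n : ℕ) : Type := {u : W4 // W4.ok k n u}

namespace MK4

open W4

variable {k n : ℕ}

instance instPO : PartialOrder (MK4 k n) where
  le u v := Relation.ReflTransGen (EE k n) u.1 v.1
  le_refl u := Relation.ReflTransGen.refl
  le_trans u v w h1 h2 := Relation.ReflTransGen.trans h1 h2
  le_antisymm u v h1 h2 := by
    by_contra hne
    have hne' : u.1 ≠ v.1 := fun h => hne (Subtype.ext h)
    have a1 := W4.rk_lt u.1 v.1 h1 hne'
    have a2 := W4.rk_lt v.1 u.1 h2 (Ne.symm hne')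
    omega

theorem le_def (u v : MK4 k n) : u ≤ v ↔ Relation.ReflTransGen (EE k n) u.1 v.1 := Iff.rfl

/-- covers are edges -/
theorem cov_E (u v : MK4 k n) (h : u ⋖ v) : E n u.1 v.1 := by
  rcases Relation.ReflTransGen.cases_tail ((le_def _ _).1 h.le) with h1 | ⟨w, h1, h2⟩
  · exact absurd (Subtype.ext h1.symm) h.ne
  · by_cases h3 : u.1 = w
    · rw [h3]; exact h2.1
    · exfalso
      have h4 : w ≠ v.1 := by
        intro h5
        have := rk_EE _ _ h2
        rw [h5] at this
        exact lt_irrefl _ this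
      have h5 : ∃ w' : MK4 k n, w'.1 = w := ⟨⟨w, h2.2.1⟩, rfl⟩
      obtain ⟨w', rfl⟩ := h5
      have h6 : u ≤ w' := h1
      have h7 : w' ≤ v := Relation.ReflTransGen.single h2
      exact h.2 (lt_of_le_of_ne h6 fun h => h3 (congrArg Subtype.val h))
        (lt_of_le_of_ne h7 fun h => h4 (congrArg Subtype.val h))

theorem adj_E (u v : MK4 k n) (h : (cov (MK4 k n)).Adj u v) : E n u.1 v.1 ∨ E n v.1 u.1 := by
  unfold cov at h
  rw [SimpleGraph.fromRel_adj] at h
  exact h.2.imp (cov_E _ _) (cov_E _ _)

theorem height : HeightLE (MK4 k n) ((2 * k - 1) * n + 2 * k + 2) := by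
  intro s hs
  have h1 : s.card ≤ (Finset.range ((2 * k - 1) * n + 2 * k + 2)).card := by
    apply Finset.card_le_card_of_injOn (fun u : MK4 k n => rk k n u.1)
    · intro u _
      exact Finset.mem_coe.2 (Finset.mem_range.2 (rk_top u.1 u.2))
    · intro u hu v hv huv
      by_contra hne
      have hne' : u.1 ≠ v.1 := fun h => hne (Subtype.ext h)
      have huv' : rk k n u.1 = rk k n v.1 := huv
      rcases hs hu hv hne with h2 | h2
      · have := W4.rk_lt u.1 v.1 h2 hne'
        omega
      · have := W4.rk_lt v.1 u.1 h2 (Ne.symm hne')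
        omega
  rwa [Finset.card_range] at h1

/-! ### finiteness -/

/-- code -/
def code (k n : ℕ) : W4 → Fin 6 × Bool × ℕ × ℕ × ℕ
  | X a => (0, true, 0, 0, a)
  | Y a => (1, true, 0, 0, a)
  | A s j i B => (2, s, j, i, B)
  | D s j i B => (3, s, j, i, B)
  | Z j a => (4, true, j, 0, a)
  | V j a => (5, true, j, 0, a)

theorem code_inj : Function.Injective (code k n) := by
  intro u v h
  cases u <;> cases v <;> simp_all [code]

theorem pow_le (i : ℕ) (hn : 0 < n) : n ^ (k - i) ≤ n ^ k := Nat.pow_le_pow_right hn (Nat.sub_le _ _)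

instance instFin : Finite (MK4 k n) := by
  have h1 : ∀ u : MK4 k n, (code k n u.1).2.2.1 < k + 1 ∧ (code k n u.1).2.2.2.1 < k + 1 ∧
      (code k n u.1).2.2.2.2 < n ^ k + 1 := by
    rintro ⟨u, hu⟩
    cases u with
    | X a =>
      have h : a < n ^ k := hu
      simp only [code]; omega
    | Y a =>
      have h : a < n ^ k := hu
      simp only [code]; omega
    | A s j i B =>
      have hn := pos_of_ok _ hu (by simp) (by simp)
      have h2 := pow_le (k := k) i hn
      obtain ⟨h3, h4, h5⟩ := hu
      simp only [code]; omega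
    | D s j i B =>
      have hn := pos_of_ok _ hu (by simp) (by simp)
      have h2 := pow_le (k := k) i hn
      obtain ⟨h3, h4, h5⟩ := hu
      simp only [code]; omega
    | Z j a =>
      obtain ⟨h3, h4⟩ := hu
      simp only [code]; omega
    | V j a =>
      obtain ⟨h3, h4⟩ := hu
      simp only [code]; omega
  refine Finite.of_injective (β := Fin 6 × Bool × Fin (k + 1) × Fin (k + 1) × Fin (n ^ k + 1))
    (fun u : MK4 k n => ((code k n u.1).1, (code k n u.1).2.1, ⟨_, (h1 u).1⟩, ⟨_, (h1 u).2.1⟩,
      ⟨_, (h1 u).2.2⟩)) ?_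
  intro u v huv
  simp only [Prod.mk.injEq, Fin.mk.injEq] at huv
  obtain ⟨e1, e2, e3, e4, e5⟩ := huv
  refine Subtype.ext (code_inj (k := k) (n := n) ?_)
  exact Prod.ext e1 (Prod.ext e2 (Prod.ext e3 (Prod.ext e4 e5)))

noncomputable instance instFT : Fintype (MK4 k n) := Fintype.ofFinite _

/-! ### degrees -/

open Classical in
/-- neighbours -/
noncomputable def nb (k n : ℕ) : W4 → Finset W4
  | X a => {Z 0 a}
  | Y a => {V 0 a}
  | Z j a => {if j = 0 then X a else Z (j - 1) a, Z (j + 1) a, A true j 0 a, A false j 0 a}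
  | V j a => {if j = 0 then Y a else V (j - 1) a, V (j + 1) a,
      if j = 0 then A true 0 0 (a - 1) else D true j 0 a,
      if j = 0 then A false 0 0 (a + 1) else D false j 0 a}
  | A s j i B => {A s j i (B - 1), A s j i (B + 1),
      if i = 0 then Z j B else A s j (i - 1) (B * n + (n - 1)),
      if i < j then A s j (i + 1) (B / n) else
        if j = 0 then V 0 (if s = true then B + 1 else B - 1) else
          D s j (j - 1) (if s = true then (B + 1) * n else (B - 1) * n + (n - 1))}
  | D s j i B => {D s j i (B - 1), D s j i (B + 1),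
      if i = 0 then V j B else D s j (i - 1) (if s = true then B * n else B * n + (n - 1)),
      if i + 1 = j then A s j j (if s = true then B / n - 1 else B / n + 1) else
        D s j (i + 1) (B / n)}

theorem nb_card (u : W4) : (nb k n u).card ≤ 4 := by
  classical
  cases u with
  | X a => simp [nb]
  | Y a => simp [nb]
  | Z j a => simp only [nb]; exact Finset.card_le_four
  | V j a => simp only [nb]; exact Finset.card_le_four
  | A s j i B => simp only [nb]; exact Finset.card_le_four
  | D s j i B => simp only [nb]; exact Finset.card_le_four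

theorem mul_div' {B : ℕ} (hn : 0 < n) : (B * n + (n - 1)) / n = B := by
  rw [Nat.mul_comm, Nat.mul_add_div hn, Nat.div_eq_of_lt (by omega), Nat.add_zero]

theorem mul_div'' {B : ℕ} (hn : 0 < n) : B * n / n = B := Nat.mul_div_cancel B hn

theorem div_mul' {B : ℕ} (h : B % n + 1 = n) : B / n * n + (n - 1) = B := by
  have h1 := Nat.div_add_mod' B n
  omega

theorem nb_out (u v : W4) (h : EE k n u v) : v ∈ nb k n u := by
  obtain ⟨hE, hu, hv⟩ := h
  cases hE with
  | xz a => simp [nb]
  | zz j a => simp [nb]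
  | xu s j a => cases s <;> simp [nb]
  | vv j a => simp [nb]
  | vy a => simp [nb]
  | uu s j i B h hB => simp [nb]
  | up s j i B h hB => simp [nb, h]
  | rr j B hB => simp [nb]
  | ll j B hB => simp [nb]
  | rd i B hB => simp [nb]
  | ld i B hB => simp [nb]
  | ry B hB => simp [nb]
  | ly B hB => simp [nb]
  | dr j i B h hB => simp [nb]
  | dl j i B h hB => simp [nb]
  | er j i B h => simp [nb]
  | el j i B h => simp [nb]
  | dy s j B h => simp [nb]

theorem nb_in (u v : W4) (h : EE k n u v) : u ∈ nb k n v := by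
  obtain ⟨hE, hu, hv⟩ := h
  cases hE with
  | xz a => simp [nb]
  | zz j a => simp [nb]
  | xu s j a => simp [nb]
  | vv j a => simp [nb]
  | vy a => simp [nb]
  | uu s j i B h hB => simp [nb]
  | up s j i B h hB => simp [nb, div_mul' hB]
  | rr j B hB => simp [nb]
  | ll j B hB => simp [nb]
  | rd i B hB =>
    have hn := pos_of_ok _ hu (by simp) (by simp)
    simp [nb, mul_div'' hn]
  | ld i B hB =>
    have hn := pos_of_ok _ hu (by simp) (by simp)
    simp [nb, mul_div' hn]
  | ry B hB => simp [nb]
  | ly B hB => simp [nb]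
  | dr j i B h hB => simp [nb]
  | dl j i B h hB => simp [nb]
  | er j i B h =>
    have hn := pos_of_ok _ hu (by simp) (by simp)
    have h1 : ¬ i + 1 = j := by omega
    simp [nb, h1, mul_div'' hn]
  | el j i B h =>
    have hn := pos_of_ok _ hu (by simp) (by simp)
    have h1 : ¬ i + 1 = j := by omega
    simp [nb, h1, mul_div' hn]
  | dy s j B h =>
    have h1 : j ≠ 0 := Nat.ne_of_gt h
    cases s <;> simp [nb, h1]

theorem degree : DegreeLE (cov (MK4 k n)) 4 := by
  classical
  intro v
  refine ⟨Finset.univ.filter (fun u : MK4 k n => u.1 ∈ nb k n v.1), ?_, fun u hu => ?_⟩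
  · refine le_trans ?_ (nb_card (k := k) (n := n) v.1)
    apply Finset.card_le_card_of_injOn (fun u : MK4 k n => u.1)
    · intro u hu
      exact (Finset.mem_filter.1 (Finset.mem_coe.1 hu)).2
    · intro u _ w _ huw
      exact Subtype.ext huw
  · rw [Finset.mem_filter]
    refine ⟨Finset.mem_univ _, ?_⟩
    rcases adj_E _ _ hu with h | h
    · exact nb_out _ _ ⟨h, v.2, u.2⟩
    · exact nb_in _ _ ⟨h, u.2, v.2⟩

end MK4

end Pool.Agent.Helper66.PD
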