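import Pool.Agent.Helper66.PD.Up3

/-!
# Hierarchy with pairs of spanning elements
-/

set_option autoImplicit false

namespace Pool.Agent.Helper66.PD

open Finset

/-- greedy classes of a predicate -/
theorem h2_greedy (Q : ℕ → ℕ → Prop) (a : ℕ) :
    ∃ c s : ℕ → ℕ, s a = a ∧ ∀ p, a ≤ p →
      (Q (s p) (p + 1) ∧ s (p + 1) = s p ∧ c (p + 1) = c p ∨
        ¬ Q (s p) (p + 1) ∧ s (p + 1) = p + 1 ∧ c (p + 1) = c p + 1) := by
  classical
  let f : ℕ → ℕ × ℕ := fun j => Nat.rec (0, a)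
    (fun j x => if Q x.2 (a + j + 1) then x else (x.1 + 1, a + j + 1)) j
  have hf : ∀ j, f (j + 1) = if Q (f j).2 (a + j + 1) then f j else ((f j).1 + 1, a + j + 1) :=
    fun j => rfl
  refine ⟨fun p => (f (p - a)).1, fun p => (f (p - a)).2, ?_, ?_⟩
  · simp only [Nat.sub_self]; rfl
  · intro p hp
    have e1 : p + 1 - a = (p - a) + 1 := by omega
    have e2 : a + (p - a) + 1 = p + 1 := by omega
    have h1 := hf (p - a)
    rw [e2] at h1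
    simp only [e1]
    by_cases h2 : Q (f (p - a)).2 (p + 1)
    · left
      rw [if_pos h2] at h1
      rw [h1]
      exact ⟨h2, rfl, rfl⟩
    · right
      rw [if_neg h2] at h1
      rw [h1]
      exact ⟨h2, rfl, rfl⟩

/-- splitting of a node by pairs -/
def SPL2 (P : Type) (l r : P → ℕ) (a b : ℕ) (c : ℕ → ℕ) : Prop :=
  (∀ p q, a ≤ p → p ≤ q → q ≤ b → c p ≤ c q) ∧
  (∀ p, a ≤ p → p + 1 ≤ b → c (p + 1) ≤ c p + 1) ∧
  (∀ p z z' q, a ≤ p → p ≤ b → (∀ p', a ≤ p' → p' < p → c p' ≠ c p) → z ≠ z' →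
    ¬ (l z ≤ a ∧ b ≤ r z) → ¬ (l z' ≤ a ∧ b ≤ r z') → l z ≤ p → l z' ≤ p → p ≤ q → q ≤ b →
    q ≤ r z → q ≤ r z' → c q = c p) ∧
  (∀ p, a ≤ p → p ≤ b →
    (∀ z, l z ≤ p → p ≤ r z → ∀ q, a ≤ q → q ≤ b → c q = c p → l z ≤ q ∧ q ≤ r z) ∨
    ∃ z z', z ≠ z' ∧ ¬ (l z ≤ a ∧ b ≤ r z) ∧ ¬ (l z' ≤ a ∧ b ≤ r z') ∧
      ∀ q, a ≤ q → q ≤ b → c q = c p → (l z ≤ q ∧ q ≤ r z) ∧ (l z' ≤ q ∧ q ≤ r z'))

theorem st_SPL2 (P : Type) (l r : P → ℕ) (a b : ℕ) : ∃ c, SPL2 P l r a b c := by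
  classical
  set Q : ℕ → ℕ → Prop := fun s q => ∃ z z' : P, z ≠ z' ∧ ¬ (l z ≤ a ∧ b ≤ r z) ∧
    ¬ (l z' ≤ a ∧ b ≤ r z') ∧ l z ≤ s ∧ l z' ≤ s ∧ q ≤ r z ∧ q ≤ r z' with hQd
  have hQ : ∀ s q q', q ≤ q' → Q s q' → Q s q := by
    rintro s q q' h ⟨z, z', h1, h2, h3, h4, h5, h6, h7⟩
    exact ⟨z, z', h1, h2, h3, h4, h5, h.trans h6, h.trans h7⟩
  obtain ⟨c, s, hs0, hstep⟩ := h2_greedy Q a
  have f1 : ∀ j, s (a + j) ≤ a + j ∧ a ≤ s (a + j) ∧ c (s (a + j)) = c (a + j) ∧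
      (s (a + j) = a + j ∨ Q (s (a + j)) (a + j)) := by
    intro j
    induction j with
    | zero => simp [hs0]
    | succ j ih =>
      rcases hstep (a + j) (by omega) with ⟨h1, h2, h3⟩ | ⟨h1, h2, h3⟩
      · rw [← add_assoc, h2, h3]
        exact ⟨by omega, ih.2.1, ih.2.2.1, Or.inr h1⟩
      · rw [← add_assoc, h2]
        exact ⟨le_rfl, by omega, rfl, Or.inl rfl⟩
  have f1' : ∀ p, a ≤ p → s p ≤ p ∧ a ≤ s p ∧ c (s p) = c p ∧ (s p = p ∨ Q (s p) p) := by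
    intro p hp
    have := f1 (p - a)
    rw [show a + (p - a) = p by omega] at this
    exact this
  have f2 : ∀ p j, a ≤ p → c p ≤ c (p + j) ∧ (c (p + j) = c p → s (p + j) = s p) := by
    intro p j hp
    induction j with
    | zero => simp
    | succ j ih =>
      rcases hstep (p + j) (by omega) with ⟨h1, h2, h3⟩ | ⟨h1, h2, h3⟩
      · rw [← add_assoc, h2, h3]; exact ih
      · rw [← add_assoc, h2, h3]
        exact ⟨by omega, fun h => by omega⟩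
  have f2' : ∀ p q, a ≤ p → p ≤ q → c p ≤ c q ∧ (c q = c p → s q = s p) := by
    intro p q hp hpq
    have := f2 p (q - p) hp
    rw [show p + (q - p) = q by omega] at this
    exact this
  have f3 : ∀ p q, a ≤ p → a ≤ q → c q = c p → s q = s p := by
    intro p q hp hq h
    rcases le_total p q with h1 | h1
    · exact (f2' p q hp h1).2 h
    · exact ((f2' q p hq h1).2 h.symm).symm
  have f4 : ∀ p, a ≤ p → s p = p → ∀ j, Q p (p + j) → c (p + j) = c p ∧ s (p + j) = p := by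
    intro p hp hsp j
    induction j with
    | zero => intro _; exact ⟨rfl, hsp⟩
    | succ j ih =>
      intro h
      obtain ⟨h1, h2⟩ := ih (hQ _ _ _ (by omega) h)
      rcases hstep (p + j) (by omega) with ⟨g1, g2, g3⟩ | ⟨g1, g2, g3⟩
      · rw [← add_assoc, g2, g3]; exact ⟨h1, h2⟩
      · rw [h2] at g1
        exact absurd h g1
  refine ⟨c, fun p q hp hpq _ => (f2' p q hp hpq).1, ?_, ?_, ?_⟩
  · intro p hp _
    rcases hstep p hp with ⟨_, _, h3⟩ | ⟨_, _, h3⟩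
    · omega
    · omega
  · intro p z z' q hp hpb hst hzz hz hz' h1 h2 hpq hqb h3 h4
    obtain ⟨g1, g2, g3, g4⟩ := f1' p hp
    have hsp : s p = p := by
      by_contra hc
      exact hst (s p) g2 (lt_of_le_of_ne g1 hc) g3
    have := (f4 p hp hsp (q - p) ⟨z, z', hzz, hz, hz', h1, h2, by omega, by omega⟩).1
    rw [show p + (q - p) = q by omega] at this
    exact this
  · intro p hp hpb
    by_cases hsing : ∀ q, a ≤ q → q ≤ b → c q = c p → q = s p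
    · left
      intro z h1 h2 q hq1 hq2 hq3
      have e1 := hsing q hq1 hq2 hq3
      have e2 := hsing p hp hpb rfl
      rw [e1, ← e2]
      exact ⟨h1, h2⟩
    · right
      push Not at hsing
      obtain ⟨q0, k1, k2, k3, k4⟩ := hsing
      have hT : ((range (b + 1)).filter (fun q => a ≤ q ∧ c q = c p)).Nonempty :=
        ⟨p, by simp [hp]; omega⟩
      obtain ⟨e, he, hmax⟩ := Finset.exists_max_image _ (fun q => q) hT
      rw [mem_filter, mem_range] at he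
      have hmax' : ∀ q, a ≤ q → q ≤ b → c q = c p → q ≤ e := by
        intro q h1 h2 h3
        exact hmax q (by rw [mem_filter, mem_range]; exact ⟨by omega, h1, h3⟩)
      obtain ⟨g1, g2, g3, g4⟩ := f1' e he.2.1
      have hse : s e = s p := f3 p e hp he.2.1 he.2.2
      obtain ⟨i1, i2, i3, i4⟩ := f1' q0 k1
      have hsq0 : s q0 = s p := f3 p q0 hp k1 k3
      have hne : s e ≠ e := by
        intro h
        have h5 := hmax' q0 k1 k2 k3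
        exact k4 (le_antisymm (by rw [← hse, h]; exact h5) (by rw [← hsq0]; exact i1))
      rcases g4 with g4 | g4
      · exact absurd g4 hne
      · obtain ⟨z, z', hzz, hz, hz', t1, t2, t3, t4⟩ := g4
        refine ⟨z, z', hzz, hz, hz', fun q hq1 hq2 hq3 => ?_⟩
        have e1 := hmax' q hq1 hq2 hq3
        have e2 := f3 p q hp hq1 hq3
        have e3 := (f1' q hq1).1
        exact ⟨⟨by omega, by omega⟩, ⟨by omega, by omega⟩⟩

/-- hierarchy of nodes, split by pairs -/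
structure Hier2 (P : Type) (m : ℕ) (l r : P → ℕ) (A E C : ℕ → ℕ → ℕ) : Prop where
  zero : ∀ p q, p < m → q < m → A 0 p = A 0 q
  mem : ∀ ℓ p, p < m → A ℓ p ≤ p ∧ p ≤ E ℓ p ∧ E ℓ p < m
  node : ∀ ℓ p q, p < m → A ℓ p ≤ q → q ≤ E ℓ p → A ℓ q = A ℓ p
  eqE : ∀ ℓ p q, p < m → q < m → A ℓ p = A ℓ q → E ℓ p = E ℓ q
  nest : ∀ ℓ p, p < m → A ℓ p ≤ A (ℓ + 1) p ∧ E (ℓ + 1) p ≤ E ℓ p
  child : ∀ ℓ p q, p < m → q < m →
    (A (ℓ + 1) p = A (ℓ + 1) q ↔ A ℓ p = A ℓ q ∧ C ℓ p = C ℓ q)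
  mono : ∀ ℓ p q, p ≤ q → q < m → A ℓ p = A ℓ q → C ℓ p ≤ C ℓ q
  one : ∀ ℓ p, p + 1 < m → A ℓ p = A ℓ (p + 1) → C ℓ (p + 1) ≤ C ℓ p + 1
  greedy : ∀ ℓ p z z' q, p < m → z ≠ z' → ¬ (l z ≤ A ℓ p ∧ E ℓ p ≤ r z) →
    ¬ (l z' ≤ A ℓ p ∧ E ℓ p ≤ r z') → l z ≤ A (ℓ + 1) p → l z' ≤ A (ℓ + 1) p →
    A (ℓ + 1) p ≤ q → q ≤ E ℓ p → q ≤ r z → q ≤ r z' → C ℓ q = C ℓ p
  grow : ∀ ℓ p, p < m → (∀ z, l z ≤ p → p ≤ r z → l z ≤ A (ℓ + 1) p ∧ E (ℓ + 1) p ≤ r z) ∨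
    ∃ z z', z ≠ z' ∧ ¬ (l z ≤ A ℓ p ∧ E ℓ p ≤ r z) ∧ ¬ (l z' ≤ A ℓ p ∧ E ℓ p ≤ r z') ∧
      (l z ≤ A (ℓ + 1) p ∧ E (ℓ + 1) p ≤ r z) ∧ (l z' ≤ A (ℓ + 1) p ∧ E (ℓ + 1) p ≤ r z')

theorem st_HIE2 (P : Type) (m : ℕ) (l r : P → ℕ) : ∃ A E C : ℕ → ℕ → ℕ, Hier2 P m l r A E C := by
  have hc : ∀ a b : ℕ, ∃ c : ℕ → ℕ, SPL2 P l r a b c := fun a b => st_SPL2 P l r a b
  choose c hc using hc
  have hinv := hie_inv c m (fun a b p q _ => (hc a b).1 p q)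
  have heq : ∀ ℓ p q, p < m → q < m → (hieN c m ℓ p).1 = (hieN c m ℓ q).1 →
      hieN c m ℓ p = hieN c m ℓ q := by
    intro ℓ p q hp hq hA
    obtain ⟨i1, i2, i3, i4⟩ := hinv ℓ p hp
    obtain ⟨j1, j2, j3, j4⟩ := hinv ℓ q hq
    rw [← i4 (hieN c m ℓ p).1 le_rfl (i1.trans i2), ← j4 (hieN c m ℓ p).1 hA.ge
      (by rw [hA]; exact j1.trans j2)]
  have hnodeS : ∀ ℓ p q, hieN c m ℓ p = hieN c m ℓ q →
      c (hieN c m ℓ p).1 (hieN c m ℓ p).2 p = c (hieN c m ℓ q).1 (hieN c m ℓ q).2 q →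
      hieS c (hieN c m ℓ p) p = hieS c (hieN c m ℓ q) q := by
    intro ℓ p q hn hC
    unfold hieS
    rw [hC, hn]
  refine ⟨fun ℓ p => (hieN c m ℓ p).1, fun ℓ p => (hieN c m ℓ p).2,
    fun ℓ p => c (hieN c m ℓ p).1 (hieN c m ℓ p).2 p, ?_⟩
  refine ⟨?_, ?_, ?_, ?_, ?_, ?_, ?_, ?_, ?_, ?_⟩
  · intro p q _ _; rfl
  · intro ℓ p hp
    obtain ⟨i1, i2, i3, -⟩ := hinv ℓ p hp
    exact ⟨i1, i2, i3⟩
  · intro ℓ p q hp h2 h3
    obtain ⟨-, -, -, i4⟩ := hinv ℓ p hp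
    show (hieN c m ℓ q).1 = (hieN c m ℓ p).1
    rw [i4 q h2 h3]
  · intro ℓ p q hp hq hA
    show (hieN c m ℓ p).2 = (hieN c m ℓ q).2
    rw [heq ℓ p q hp hq hA]
  · intro ℓ p hp
    obtain ⟨i1, i2, i3, i4⟩ := hinv ℓ p hp
    obtain ⟨s1, s2, s3, s4⟩ := hie_S c (hieN c m ℓ p) p i1 i2
    exact ⟨s1.1, s2.2.1⟩
  · intro ℓ p q hp hq
    obtain ⟨i1, i2, i3, i4⟩ := hinv ℓ p hp
    obtain ⟨s1, s2, s3, s4⟩ := hie_S c (hieN c m ℓ p) p i1 i2
    obtain ⟨j1, j2, j3, j4⟩ := hinv ℓ q hq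
    obtain ⟨t1, t2, t3, t4⟩ := hie_S c (hieN c m ℓ q) q j1 j2
    constructor
    · intro hA
      have hA' : sInf (hieS c (hieN c m ℓ p) p) = sInf (hieS c (hieN c m ℓ q) q) := hA
      have e1 := i4 _ s1.1 s1.2.1
      have e2 := j4 _ t1.1 t1.2.1
      rw [hA', e2] at e1
      refine ⟨?_, ?_⟩
      · show (hieN c m ℓ p).1 = (hieN c m ℓ q).1
        rw [e1]
      · show c (hieN c m ℓ p).1 (hieN c m ℓ p).2 p = c (hieN c m ℓ q).1 (hieN c m ℓ q).2 q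
        have f1 := s1.2.2
        have f2 := t1.2.2
        rw [hA', ← e1] at f1
        rw [← e1, ← f1, ← f2]
    · rintro ⟨hA, hC⟩
      have hn := heq ℓ p q hp hq hA
      have hS := hnodeS ℓ p q hn hC
      show sInf (hieS c (hieN c m ℓ p) p) = sInf (hieS c (hieN c m ℓ q) q)
      rw [hS]
  · intro ℓ p q hpq hq hA
    have hp : p < m := lt_of_le_of_lt hpq hq
    have hn := heq ℓ p q hp hq hA
    obtain ⟨i1, i2, i3, i4⟩ := hinv ℓ p hp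
    obtain ⟨j1, j2, j3, j4⟩ := hinv ℓ q hq
    show c (hieN c m ℓ p).1 (hieN c m ℓ p).2 p ≤ c (hieN c m ℓ q).1 (hieN c m ℓ q).2 q
    rw [← hn] at j1 j2 ⊢
    exact (hc _ _).1 p q i1 hpq j2
  · intro ℓ p hq hA
    have hp : p < m := by omega
    have hn := heq ℓ p (p + 1) hp hq hA
    obtain ⟨i1, i2, i3, i4⟩ := hinv ℓ p hp
    obtain ⟨j1, j2, j3, j4⟩ := hinv ℓ (p + 1) hq
    show c (hieN c m ℓ (p + 1)).1 (hieN c m ℓ (p + 1)).2 (p + 1) ≤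
      c (hieN c m ℓ p).1 (hieN c m ℓ p).2 p + 1
    rw [← hn] at j1 j2 ⊢
    exact (hc _ _).2.1 p i1 j2
  · intro ℓ p z z' q hp hzz hz hz' h1 h2 h3 h4 h5 h6
    obtain ⟨i1, i2, i3, i4⟩ := hinv ℓ p hp
    obtain ⟨s1, s2, s3, s4⟩ := hie_S c (hieN c m ℓ p) p i1 i2
    have h3' : sInf (hieS c (hieN c m ℓ p) p) ≤ q := h3
    have hq1 : (hieN c m ℓ p).1 ≤ q := s1.1.trans h3'
    have hn := i4 q hq1 h4
    show c (hieN c m ℓ q).1 (hieN c m ℓ q).2 q = c (hieN c m ℓ p).1 (hieN c m ℓ p).2 p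
    rw [hn, ← s1.2.2]
    refine (hc _ _).2.2.1 _ z z' q s1.1 s1.2.1 ?_ hzz hz hz' h1 h2 h3' h4 h5 h6
    intro p' g1 g2 g3
    have : p' ∈ hieS c (hieN c m ℓ p) p := ⟨g1, g2.le.trans s1.2.1, g3.trans s1.2.2⟩
    exact absurd (Nat.sInf_le this) (not_le.2 g2)
  · intro ℓ p hp
    obtain ⟨i1, i2, i3, i4⟩ := hinv ℓ p hp
    obtain ⟨s1, s2, s3, s4⟩ := hie_S c (hieN c m ℓ p) p i1 i2
    rcases (hc _ _).2.2.2 p i1 i2 with h | ⟨z, z', hzz, hz, hz', h⟩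
    · left
      intro z g1 g2
      exact ⟨(h z g1 g2 _ s1.1 s1.2.1 s1.2.2).1, (h z g1 g2 _ s2.1 s2.2.1 s2.2.2).2⟩
    · refine Or.inr ⟨z, z', hzz, hz, hz', ⟨?_, ?_⟩, ⟨?_, ?_⟩⟩
      · exact (h _ s1.1 s1.2.1 s1.2.2).1.1
      · exact (h _ s2.1 s2.2.1 s2.2.2).1.2
      · exact (h _ s1.1 s1.2.1 s1.2.2).2.1
      · exact (h _ s2.1 s2.2.1 s2.2.2).2.2

open Classical in
/-- spanning elements of the nodes -/
theorem spn2 (P : Type) [Fintype P] (m : ℕ) (l r : P → ℕ) (A E C : ℕ → ℕ → ℕ)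
    (hH : Hier2 P m l r A E C) (p : ℕ) (hp : p < m) (k : ℕ) :
    (∀ x, l x ≤ p → p ≤ r x → l x ≤ A k p ∧ E k p ≤ r x) ∨
      2 * k ≤ (univ.filter (fun x => l x ≤ A k p ∧ E k p ≤ r x)).card := by
  have hmono : ∀ k x, (l x ≤ A k p ∧ E k p ≤ r x) → l x ≤ A (k + 1) p ∧ E (k + 1) p ≤ r x := by
    intro k x hx
    obtain ⟨h1, h2⟩ := hH.nest k p hp
    exact ⟨hx.1.trans h1, h2.trans hx.2⟩
  induction k with
  | zero => exact Or.inr (Nat.zero_le _)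
  | succ k ih =>
    rcases ih with ih | ih
    · exact Or.inl fun x h1 h2 => hmono k x (ih x h1 h2)
    · rcases hH.grow k p hp with h | ⟨y, y', hyy, hy1, hy1', hy2, hy2'⟩
      · exact Or.inl h
      · right
        set K := univ.filter (fun x => l x ≤ A k p ∧ E k p ≤ r x) with hK
        have n1 : y' ∉ K := fun h => hy1' (by rw [hK, mem_filter] at h; exact h.2)
        have n2 : y ∉ insert y' K := by
          rw [mem_insert]
          rintro (h | h)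
          · exact hyy h
          · exact hy1 (by rw [hK, mem_filter] at h; exact h.2)
        have hsub : insert y (insert y' K) ⊆
            univ.filter (fun x => l x ≤ A (k + 1) p ∧ E (k + 1) p ≤ r x) := by
          intro x hx
          rw [mem_insert, mem_insert] at hx
          rw [mem_filter]
          rcases hx with rfl | rfl | hx
          · exact ⟨mem_univ _, hy2⟩
          · exact ⟨mem_univ _, hy2'⟩
          · rw [hK, mem_filter] at hx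
            exact ⟨mem_univ _, hmono k x hx.2⟩
        have hcd := card_le_card hsub
        rw [card_insert_of_notMem n2, card_insert_of_notMem n1] at hcd
        omega

end Pool.Agent.Helper66.PD
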