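import Pool.Agent.Helper66.PD.Defs

/-!
# Dimension and height of posets with cover graph of bounded path-width: statement sheet
-/

set_option autoImplicit false

namespace Pool.Agent.Helper66.PD

/-- HGT: the height function -/
def ST_HGT : Prop := ∀ (P : Type) [PartialOrder P] [Fintype P] (h : ℕ), HeightLE P h →
  ∃ H : P → ℕ, (∀ x y, x < y → H x < H y) ∧ ∀ x, H x < h

/-- ITV: intervals from a path decomposition -/
def ST_ITV : Prop := ∀ (P : Type) [PartialOrder P] [Fintype P] (w : ℕ), PathWidthLE (cov P) w →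
  ∃ (m : ℕ) (l r : P → ℕ), (∀ x, l x ≤ r x) ∧ (∀ x, r x < m) ∧
    (∀ x y, x ⋖ y → l x ≤ r y ∧ l y ≤ r x) ∧
    ∀ p, (Finset.univ.filter (fun x => l x ≤ p ∧ p ≤ r x)).card ≤ w + 1

/-- SPL: greedy splitting of the node `[a, b]` -/
def ST_SPL : Prop := ∀ (P : Type) [Fintype P] (l r : P → ℕ) (a b : ℕ), a ≤ b →
  ∃ c : ℕ → ℕ, (∀ p q, a ≤ p → p ≤ q → q ≤ b → c p ≤ c q) ∧
    (∀ z p q, ¬ (l z ≤ a ∧ b ≤ r z) → a ≤ p → p ≤ q → q ≤ b → l z ≤ p → q ≤ r z →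
      c q ≤ c p + 1) ∧
    (∀ p, a ≤ p → p ≤ b → (∀ z, l z ≤ p → p ≤ r z → l z ≤ a ∧ b ≤ r z) ∨
      ∃ z, ¬ (l z ≤ a ∧ b ≤ r z) ∧ ∀ q, a ≤ q → q ≤ b → c q = c p → l z ≤ q ∧ q ≤ r z)

/-- HIE: the hierarchy -/
def ST_HIE : Prop := ∀ (P : Type) [Fintype P] (m : ℕ) (l r : P → ℕ),
  ∃ A E C : ℕ → ℕ → ℕ, Hier P m l r A E C

/-- LST: on level `w + 1` every element of a bag spans the node -/
def ST_LST : Prop := ∀ (P : Type) [Fintype P] (w m : ℕ) (l r : P → ℕ) (A E C : ℕ → ℕ → ℕ),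
  (∀ p, (Finset.univ.filter (fun x => l x ≤ p ∧ p ≤ r x)).card ≤ w + 1) →
  Hier P m l r A E C → ∀ z p, p < m → l z ≤ p → p ≤ r z →
    l z ≤ A (w + 1) p ∧ E (w + 1) p ≤ r z

/-- CRO: a comparability crosses every bag in between -/
def ST_CRO : Prop := ∀ (P : Type) [PartialOrder P] [Fintype P] (w h m : ℕ) (l r H : P → ℕ),
  Rep P w h m l r H → ∀ (x y : P) (p : ℕ), x ≤ y → (l x ≤ p ∧ p < l y ∨ l y ≤ p ∧ p < l x) →
    ∃ b, x ≤ b ∧ b ≤ y ∧ l b ≤ p ∧ p ≤ r b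

/-- LOC: a comparability inside a node moves by less than `h` children -/
def ST_LOC : Prop := ∀ (P : Type) [PartialOrder P] [Fintype P] (w h m : ℕ) (l r H : P → ℕ)
  (A E C : ℕ → ℕ → ℕ), Rep P w h m l r H → Hier P m l r A E C → ∀ (ℓ : ℕ) (x y : P), x ≤ y →
  (∀ b, x ≤ b → b ≤ y → ¬ (l b ≤ A ℓ (l x) ∧ A ℓ (l x) ≤ r b) ∧
    ¬ (l b ≤ E ℓ (l x) ∧ E ℓ (l x) ≤ r b)) →
  A ℓ (l x) = A ℓ (l y) ∧ C ℓ (l x) + H x ≤ C ℓ (l y) + H y ∧ C ℓ (l y) + H x ≤ C ℓ (l x) + H y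

/-- INJ: names for the elements of the bags -/
def ST_INJ : Prop := ∀ (P : Type) [Fintype P] (w : ℕ) (l r : P → ℕ),
  (∀ p, (Finset.univ.filter (fun x => l x ≤ p ∧ p ≤ r x)).card ≤ w + 1) →
  ∃ e : ℕ → P → Fin (w + 1), ∀ p x y, l x ≤ p → p ≤ r x → l y ≤ p → p ≤ r y →
    e p x = e p y → x = y

/-- CRD: the number of colours -/
def ST_CRD : Prop := ∀ w h : ℕ, Fintype.card (Col w h) = CW w * h ^ (w + 1)

/-- SEQ: a cycle as a periodic sequence -/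
def ST_SEQ : Prop := ∀ (T : Type) (R : T → T → Prop) (s : T), Relation.TransGen R s s →
  ∃ (n : ℕ) (t : ℕ → T), 1 ≤ n ∧ (∀ k, R (t k) (t (k + 1))) ∧ ∀ k, t (k + n) = t k

/-- KEY: every colour class is without alternating cycles -/
def ST_KEY : Prop := ∀ (P : Type) [PartialOrder P] [Fintype P] (w h m : ℕ) (l r H : P → ℕ)
  (A E C : ℕ → ℕ → ℕ) (e : ℕ → P → Fin (w + 1)), 1 ≤ h → Rep P w h m l r H →
  Hier P m l r A E C →
  (∀ z p, p < m → l z ≤ p → p ≤ r z → l z ≤ A (w + 1) p ∧ E (w + 1) p ≤ r z) →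
  (∀ p x y, l x ≤ p → p ≤ r x → l y ≤ p → p ≤ r y → e p x = e p y → x = y) →
  ∃ χ : P → P → Col w h, ∀ (c : Col w h) (n : ℕ) (t : ℕ → P × P), 1 ≤ n →
    (∀ k, t (k + n) = t k) →
    ¬ ∀ k, Alt P (fun x y => ¬ x ≤ y ∧ χ x y = c) (t k) (t (k + 1))

/-- EXT: a set of pairs without alternating cycles is reversed by a linear extension -/
def ST_EXT : Prop := ∀ (P : Type) [PartialOrder P] [Fintype P] (S : P → P → Prop),
  (∀ x y, S x y → ¬ x ≤ y) → (∀ s, ¬ Relation.TransGen (Alt P S) s s) →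
  ∃ f : P → ℕ, (∀ x y, x ≤ y → f x ≤ f y) ∧ ∀ x y, S x y → f y < f x

/-- UPP: the upper bound -/
def ST_UPP : Prop := ∀ (P : Type) [PartialOrder P] [Fintype P] (w h : ℕ), HeightLE P h →
  PathWidthLE (cov P) w → DimLE P (CW w * h ^ (w + 1))

/-- HTL: height of the nested Kelly poset -/
def ST_HTL : Prop := ∀ k n : ℕ, HeightLE (Q k n) (n + 2)

/-- BCD: size of the bags -/
def ST_BCD : Prop := ∀ (k n : ℕ) (c : Fin k → Fin n) (s : Finset (Q k n)),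
  (∀ u ∈ s, Act c u.1) → s.card ≤ 4 * k + 2

/-- CVX: the bags which contain an element are consecutive (`finFunctionFinEquiv`: the coordinate
`i` has weight `n ^ i`) -/
def ST_CVX : Prop := ∀ (k n : ℕ) (u : U k n) (c c' c'' : Fin k → Fin n),
  finFunctionFinEquiv c ≤ finFunctionFinEquiv c' →
  finFunctionFinEquiv c' ≤ finFunctionFinEquiv c'' → Act c u → Act c'' u → Act c' u

/-- EDG: covering elements are in a common bag -/
def ST_EDG : Prop := ∀ (k n : ℕ) (u v : Q k n), u ⋖ v → ∃ c, Act c u.1 ∧ Act c v.1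

/-- PWL: path-width of the nested Kelly poset -/
def ST_PWL : Prop := ∀ k n : ℕ, PathWidthLE (cov (Q k n)) (4 * k + 1)

/-- DML: dimension of the nested Kelly poset -/
def ST_DML : Prop := ∀ k n d : ℕ, DimLE (Q k n) d → n ^ k ≤ d

end Pool.Agent.Helper66.PD
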