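import Pool.Agent.Helper66.PD.Up9

/-!
# Posets with cover graph of path-width two have bounded dimension, part 1

Interval representations without a boundary inside three intervals.
-/

set_option autoImplicit false

namespace Pool.Agent.Helper66.PD

open Finset

/-- interval representation with at most three intervals over a position, distinct left ends -/
structure R3 (P : Type) [PartialOrder P] [Fintype P] (m : ℕ) (l r : P → ℕ) : Prop where
  lr : ∀ x, l x ≤ r x
  rm : ∀ x, r x < m
  adj : ∀ x y, x ⋖ y → l x ≤ r y ∧ l y ≤ r x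
  card : ∀ p, (univ.filter (fun x => l x ≤ p ∧ p ≤ r x)).card ≤ 3
  inj : ∀ x y, l x = l y → x = y

theorem r3_exists (P : Type) [PartialOrder P] [Fintype P] (hw : PathWidthLE (cov P) 2) :
    ∃ m l r, R3 P m l r := by
  classical
  obtain ⟨m, l, r, hlr, hrm, hadj, hcard⟩ := st_ITV P 2 hw
  obtain ⟨N, hN⟩ : ∃ N, N = Fintype.card P + 1 := ⟨_, rfl⟩
  obtain ⟨i, hi, hij⟩ : ∃ i : P → ℕ, (∀ x, i x < N) ∧ ∀ x y, i x = i y → x = y := by
    refine ⟨fun x => (Fintype.equivFin P x : ℕ), fun x => ?_, fun x y h => ?_⟩
    · have := (Fintype.equivFin P x).2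
      show ((Fintype.equivFin P x : Fin _) : ℕ) < N
      omega
    · exact (Fintype.equivFin P).injective (Fin.ext h)
  have hle : ∀ a b : ℕ, a ≤ b → N * a ≤ N * b := fun a b h => Nat.mul_le_mul_left N h
  have hlt : ∀ a b : ℕ, a < b → N * a + N ≤ N * b := fun a b h => by
    have := Nat.mul_le_mul_left N (show a + 1 ≤ b from h)
    rwa [Nat.mul_succ] at this
  refine ⟨N * m, fun x => N * l x + i x, fun x => N * r x + (N - 1), ?_, ?_, ?_, ?_, ?_⟩
  · intro x
    have h1 := hle _ _ (hlr x)
    have h2 := hi x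
    show N * l x + i x ≤ N * r x + (N - 1)
    omega
  · intro x
    have h1 := hlt _ _ (hrm x)
    show N * r x + (N - 1) < N * m
    omega
  · intro x y hxy
    obtain ⟨h1, h2⟩ := hadj x y hxy
    have h3 := hle _ _ h1
    have h4 := hle _ _ h2
    have h5 := hi x
    have h6 := hi y
    constructor
    · show N * l x + i x ≤ N * r y + (N - 1)
      omega
    · show N * l y + i y ≤ N * r x + (N - 1)
      omega
  · intro p
    refine (card_le_card ?_).trans (hcard (p / N))
    intro x hx
    rw [mem_filter] at hx ⊢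
    obtain ⟨-, h1, h2⟩ := hx
    have hNpos : 0 < N := by omega
    refine ⟨mem_univ _, ?_, ?_⟩
    · rw [Nat.le_div_iff_mul_le hNpos, Nat.mul_comm]
      omega
    · have h3 : p < (r x + 1) * N := by
        rw [Nat.mul_comm, Nat.mul_succ]
        omega
      have h4 := (Nat.div_lt_iff_lt_mul hNpos).2 h3
      omega
  · intro x y hxy
    have hxy' : N * l x + i x = N * l y + i y := hxy
    have h5 := hi x
    have h6 := hi y
    rcases Nat.lt_trichotomy (l x) (l y) with h | h | h
    · have := hlt _ _ h
      omega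
    · rw [h] at hxy'
      exact hij x y (by omega)
    · have := hlt _ _ h
      omega

theorem r3_two (P : Type) [PartialOrder P] [Fintype P] (hw : PathWidthLE (cov P) 2) :
    ∃ m l r, R3 P m l r ∧
      ∀ u, (univ.filter (fun x => l x ≤ u ∧ u + 1 ≤ r x)).card ≤ 2 := by
  classical
  obtain ⟨m, hm, hmin⟩ := WellFounded.has_min (r := ((· < ·) : ℕ → ℕ → Prop)) wellFounded_lt
    {m | ∃ l r, R3 P m l r} (by
      obtain ⟨m, l, r, h⟩ := r3_exists P hw
      exact ⟨m, l, r, h⟩)
  obtain ⟨l, r, hR⟩ := hm
  refine ⟨m, l, r, hR, ?_⟩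
  intro u
  by_contra hcon
  push Not at hcon
  set X := univ.filter (fun x => l x ≤ u ∧ u + 1 ≤ r x) with hX
  have hne : X.Nonempty := by rw [← card_pos]; omega
  obtain ⟨b0, hb0⟩ := hne
  rw [hX, mem_filter] at hb0
  have e1 : X = univ.filter (fun x => l x ≤ u ∧ u ≤ r x) := by
    apply eq_of_subset_of_card_le
    · intro x hx
      rw [hX, mem_filter] at hx
      rw [mem_filter]
      exact ⟨mem_univ _, hx.2.1, by omega⟩
    · exact (hR.card u).trans (by omega)
  have e2 : X = univ.filter (fun x => l x ≤ u + 1 ∧ u + 1 ≤ r x) := by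
    apply eq_of_subset_of_card_le
    · intro x hx
      rw [hX, mem_filter] at hx
      rw [mem_filter]
      exact ⟨mem_univ _, by omega, hx.2.2⟩
    · exact (hR.card (u + 1)).trans (by omega)
  have g2 : ∀ x, l x ≠ u + 1 := by
    intro x hx
    have h1 := hR.lr x
    have h2 : x ∈ univ.filter (fun x => l x ≤ u + 1 ∧ u + 1 ≤ r x) := by
      rw [mem_filter]; exact ⟨mem_univ _, by omega, by omega⟩
    rw [← e2, hX, mem_filter] at h2
    omega
  have hrb := hR.rm b0
  obtain ⟨φ, hφ⟩ : ∃ φ : ℕ → ℕ, ∀ q, φ q = if q ≤ u then q else q - 1 := ⟨_, fun _ => rfl⟩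
  have hR' : R3 P (m - 1) (fun x => φ (l x)) (fun x => φ (r x)) := by
    refine ⟨?_, ?_, ?_, ?_, ?_⟩
    · intro x
      have := hR.lr x
      show φ (l x) ≤ φ (r x)
      rw [hφ, hφ]
      split_ifs <;> omega
    · intro x
      have := hR.rm x
      show φ (r x) < m - 1
      rw [hφ]
      split_ifs <;> omega
    · intro x y hxy
      obtain ⟨h1, h2⟩ := hR.adj x y hxy
      constructor
      · show φ (l x) ≤ φ (r y)
        rw [hφ, hφ]
        split_ifs <;> omega
      · show φ (l y) ≤ φ (r x)
        rw [hφ, hφ]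
        split_ifs <;> omega
    · intro p
      rcases Nat.lt_or_ge u p with hp | hp
      · refine (card_le_card ?_).trans (hR.card (p + 1))
        intro x hx
        rw [mem_filter] at hx ⊢
        obtain ⟨-, h1, h2⟩ := hx
        rw [hφ] at h1 h2
        refine ⟨mem_univ _, ?_, ?_⟩
        · split_ifs at h1 <;> omega
        · split_ifs at h2 <;> omega
      · refine (card_le_card ?_).trans (hR.card p)
        intro x hx
        rw [mem_filter] at hx ⊢
        obtain ⟨-, h1, h2⟩ := hx
        have h3 := g2 x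
        rw [hφ] at h1 h2
        refine ⟨mem_univ _, ?_, ?_⟩
        · split_ifs at h1 <;> omega
        · split_ifs at h2 <;> omega
    · intro x y hxy
      have hxy' : φ (l x) = φ (l y) := hxy
      have h3 := g2 x
      have h4 := g2 y
      rw [hφ, hφ] at hxy'
      apply hR.inj
      split_ifs at hxy' <;> omega
  exact hmin (m - 1) ⟨_, _, hR'⟩ (by omega)

/-- two elements over one boundary get different colours -/
theorem r3_col {P : Type} [PartialOrder P] [Fintype P] (m : ℕ) (l r : P → ℕ) (hR : R3 P m l r)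
    (h2 : ∀ a b c u, (l a ≤ u ∧ u + 1 ≤ r a) → (l b ≤ u ∧ u + 1 ≤ r b) →
      (l c ≤ u ∧ u + 1 ≤ r c) → a = b ∨ a = c ∨ b = c) :
    ∃ col : P → Bool, ∀ a b u, a ≠ b → (l a ≤ u ∧ u + 1 ≤ r a) → (l b ≤ u ∧ u + 1 ≤ r b) →
      col a ≠ col b := by
  classical
  have main : ∀ n : ℕ, ∃ col : P → Bool, ∀ z z', l z < n → l z' < l z → l z + 1 ≤ r z →
      l z + 1 ≤ r z' → col z ≠ col z' := by
    intro n
    induction n with
    | zero => exact ⟨fun _ => true, fun z z' h => absurd h (Nat.not_lt_zero _)⟩
    | succ n ih =>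
      obtain ⟨col, hcol⟩ := ih
      by_cases hz : ∃ z0, l z0 = n ∧ ∃ z1, l z1 < n ∧ n + 1 ≤ r z0 ∧ n + 1 ≤ r z1
      · obtain ⟨z0, q1, z1, q2, q3, q4⟩ := hz
        refine ⟨Function.update col z0 (!(col z1)), ?_⟩
        intro z z' g1 g2 g3 g4
        by_cases hzn : l z = n
        · have hz0 : z = z0 := hR.inj z z0 (by omega)
          subst hz0
          have hz1 : z' = z1 := by
            rcases h2 z z' z1 n ⟨by omega, by omega⟩ ⟨by omega, by omega⟩
              ⟨by omega, by omega⟩ with h | h | h
            · subst h; omega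
            · subst h; omega
            · exact h
          subst hz1
          have hne : z' ≠ z := by rintro rfl; omega
          rw [Function.update_self, Function.update_of_ne hne]
          simp
        · have n1 : z ≠ z0 := by rintro rfl; exact hzn q1
          have n2 : z' ≠ z0 := by rintro rfl; omega
          rw [Function.update_of_ne n1, Function.update_of_ne n2]
          exact hcol z z' (by omega) g2 g3 g4
      · refine ⟨col, ?_⟩
        intro z z' g1 g2 g3 g4
        by_cases hzn : l z = n
        · exact absurd ⟨z, hzn, z', by omega, by omega, by omega⟩ hz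
        · exact hcol z z' (by omega) g2 g3 g4
  obtain ⟨col, hcol⟩ := main m
  refine ⟨col, ?_⟩
  intro a b u hab ha hb
  have hlab : l a ≠ l b := fun h => hab (hR.inj a b h)
  have ma := hR.rm a
  have mb := hR.rm b
  rcases Nat.lt_or_gt_of_ne hlab with h | h
  · exact (hcol b a (by omega) h (by omega) (by omega)).symm
  · exact hcol a b (by omega) h (by omega) (by omega)

end Pool.Agent.Helper66.PD
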