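import Pool.Agent.Helper66.PD.Tw1

/-!
# Posets with cover graph of path-width two have bounded dimension, part 2

Strict alternating cycles with a position function on the integers.
-/

set_option autoImplicit false

namespace Pool.Agent.Helper66.PD

open Finset

/-- positions `loc`, boundaries crossed by an element `V`, colours `col` -/
structure Bd (P : Type) [PartialOrder P] (loc : P → ℤ) (V : P → ℤ → Prop) (col : P → Bool) :
    Prop where
  cov : ∀ x y u, x ≤ y → (loc x ≤ u ∧ u < loc y ∨ loc y ≤ u ∧ u < loc x) →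
    ∃ b, x ≤ b ∧ b ≤ y ∧ V b u
  two : ∀ a b c u, V a u → V b u → V c u → a = b ∨ a = c ∨ b = c
  col : ∀ a b u, a ≠ b → V a u → V b u → col a ≠ col b
  nxt : ∀ a b c d u, V a u → V b u → V c (u + 1) → V d (u + 1) → a ≠ b → c ≠ d →
    a = c ∨ a = d ∨ b = c ∨ b = d

section bd

variable {P : Type} [PartialOrder P] {loc : P → ℤ} {V : P → ℤ → Prop} {col : P → Bool}

theorem Bd.refl (B : Bd P loc V col) : Bd P (fun x => - loc x) (fun b u => V b (-1 - u)) col := by
  refine ⟨?_, ?_, ?_, ?_⟩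
  · intro x y u hxy h
    exact B.cov x y (-1 - u) hxy (by omega)
  · intro a b c u h1 h2 h3
    exact B.two a b c (-1 - u) h1 h2 h3
  · intro a b u hab h1 h2
    exact B.col a b (-1 - u) hab h1 h2
  · intro a b c d u h1 h2 h3 h4 hab hcd
    have e : -1 - u = -1 - (u + 1) + 1 := by ring
    simp only [e] at h1 h2
    rcases B.nxt c d a b (-1 - (u + 1)) h3 h4 h1 h2 hcd hab with h | h | h | h
    · exact Or.inl h.symm
    · exact Or.inr (Or.inr (Or.inl h.symm))
    · exact Or.inr (Or.inl h.symm)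
    · exact Or.inr (Or.inr (Or.inr h.symm))

theorem Bd.name (B : Bd P loc V col) (S S' : P → Prop) (hd : ∀ b, S b → S' b → False) (s : ℤ) :
    ∀ k : ℕ, (∀ u, s ≤ u → u ≤ s + k → ∃ b, S b ∧ V b u) →
      (∀ u, s ≤ u → u ≤ s + k → ∃ b, S' b ∧ V b u) →
      ∀ b b', S b → V b s → S b' → V b' (s + k) → col b = col b' := by
  intro k
  induction k with
  | zero =>
    intro h1 h2 b b' hb hb1 hb' hb1'
    obtain ⟨d, d1, d2⟩ := h2 s le_rfl (by simp)
    simp only [Nat.cast_zero, add_zero] at hb1'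
    rcases B.two b b' d s hb1 hb1' d2 with h | h | h
    · rw [h]
    · subst h; exact absurd d1 (fun h0 => hd _ hb h0)
    · subst h; exact absurd d1 (fun h0 => hd _ hb' h0)
  | succ k ih =>
    intro h1 h2 b b' hb hb1 hb' hb1'
    push_cast at hb1' h1 h2
    obtain ⟨q, q1, q2⟩ := h1 (s + k) (by omega) (by omega)
    obtain ⟨d, d1, d2⟩ := h2 (s + k) (by omega) (by omega)
    obtain ⟨d', d1', d2'⟩ := h2 (s + k + 1) (by omega) (by omega)
    have hq := ih (fun u u1 u2 => h1 u u1 (by omega)) (fun u u1 u2 => h2 u u1 (by omega)) b q hb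
      hb1 q1 q2
    have e : s + ((k : ℤ) + 1) = s + k + 1 := by ring
    rw [e] at hb1'
    have n1 : q ≠ d := by rintro rfl; exact hd _ q1 d1
    have n2 : b' ≠ d' := by rintro rfl; exact hd _ hb' d1'
    rcases B.nxt q d b' d' (s + k) q2 d2 hb1' d2' n1 n2 with h | h | h | h
    · rw [hq, h]
    · subst h; exact absurd q1 (fun h0 => hd _ h0 d1')
    · subst h; exact absurd hb' (fun h0 => hd _ h0 d1)
    · subst h
      have c1 := B.col q d (s + k) n1 q2 d2
      have c2 := B.col b' d (s + k + 1) n2 hb1' d2'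
      rw [hq]
      revert c1 c2
      cases col q <;> cases col b' <;> cases col d <;> simp

theorem Bd.name' (B : Bd P loc V col) (S S' : P → Prop) (hd : ∀ b, S b → S' b → False) (s t : ℤ)
    (hst : s ≤ t) (h1 : ∀ u, s ≤ u → u ≤ t → ∃ b, S b ∧ V b u)
    (h2 : ∀ u, s ≤ u → u ≤ t → ∃ b, S' b ∧ V b u) :
    ∀ b b', S b → V b s → S b' → V b' t → col b = col b' := by
  have e : s + ((t - s).toNat : ℤ) = t := by
    rw [Int.toNat_of_nonneg (by omega)]; ring
  have := B.name S S' hd s (t - s).toNat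
  rw [e] at this
  exact this h1 h2

theorem Bd.main (B : Bd P loc V col) (n : ℕ) (hn : 1 ≤ n) (X Y : ℕ → P)
    (hX : ∀ k, X (k + n) = X k) (hY : ∀ k, Y (k + n) = Y k) (hle : ∀ k, X k ≤ Y (k + 1))
    (hS : ∀ k, ¬ X k ≤ Y k) (hstr : ∀ i j, X i ≤ Y j → j % n = (i + 1) % n)
    (hσ : ∀ k, loc (X k) < loc (Y k))
    (ha : ∀ k u, loc (X k) ≤ u → u < loc (Y k) → ∃ b, X k ≤ b ∧ V b u)
    (hb : ∀ k u, loc (X k) ≤ u → u < loc (Y k) → ∃ b, b ≤ Y k ∧ V b u)
    (hν : ∀ k, ((∃ b, X k ≤ b ∧ V b (loc (X k)) ∧ col b = true) ↔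
      ∃ b, X (k + 1) ≤ b ∧ V b (loc (X (k + 1))) ∧ col b = true)) : False := by
  classical
  -- the common colour
  have hν' : ∀ k, ((∃ b, X k ≤ b ∧ V b (loc (X k)) ∧ col b = true) ↔
      ∃ b, X 0 ≤ b ∧ V b (loc (X 0)) ∧ col b = true) := by
    intro k
    induction k with
    | zero => rfl
    | succ k ih => exact (hν k).symm.trans ih
  have hd : ∀ k b, X k ≤ b → b ≤ Y k → False := fun k b h1 h2 => hS k (h1.trans h2)
  obtain ⟨ν0, hν0⟩ : ∃ ν0 : Bool, ∀ k s, X k ≤ s → V s (loc (X k)) → col s = ν0 := by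
    refine ⟨decide (∃ b, X 0 ≤ b ∧ V b (loc (X 0)) ∧ col b = true), ?_⟩
    intro k s h1 h2
    by_cases hc : ∃ b, X 0 ≤ b ∧ V b (loc (X 0)) ∧ col b = true
    · obtain ⟨b, b1, b2, b3⟩ := (hν' k).2 hc
      obtain ⟨d, d1, d2⟩ := hb k (loc (X k)) le_rfl (hσ k)
      rw [decide_eq_true hc]
      rcases B.two s b d _ h2 b2 d2 with h | h | h
      · rw [h]; exact b3
      · subst h; exact absurd d1 (fun h0 => hd k _ h1 h0)
      · subst h; exact absurd d1 (fun h0 => hd k _ b1 h0)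
    · rw [decide_eq_false hc]
      by_contra hc2
      have hc3 : col s = true := by
        revert hc2
        cases col s <;> simp
      exact hc ((hν' k).1 ⟨s, h1, h2, hc3⟩)
  have N1 : ∀ k u s, loc (X k) ≤ u → u < loc (Y k) → X k ≤ s → V s u → col s = ν0 := by
    intro k u s h1 h2 h3 h4
    obtain ⟨b, b1, b2⟩ := ha k (loc (X k)) le_rfl (hσ k)
    rw [← hν0 k b b1 b2]
    exact (B.name' (fun b => X k ≤ b) (fun b => b ≤ Y k) (hd k) (loc (X k)) u h1
      (fun v v1 v2 => ha k v v1 (by omega)) (fun v v1 v2 => hb k v v1 (by omega)) b s b1 b2 h3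
      h4).symm
  have N2 : ∀ k u d, loc (X k) ≤ u → u < loc (Y k) → d ≤ Y k → V d u → col d ≠ ν0 := by
    intro k u d h1 h2 h3 h4
    obtain ⟨b, b1, b2⟩ := ha k u h1 h2
    rw [← N1 k u b h1 h2 b1 b2]
    refine B.col d b u ?_ h4 b2
    rintro rfl
    exact hd k _ b1 h3
  have A1 : ∀ k u, loc (X k) ≤ u → u < loc (Y k) → loc (X (k + 1)) ≤ u → u < loc (Y (k + 1)) →
      False := by
    intro k u h1 h2 h3 h4
    obtain ⟨s, s1, s2, s3⟩ := B.cov (X k) (Y (k + 1)) u (hle k) (Or.inl ⟨h1, h4⟩)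
    exact N2 (k + 1) u s h3 h4 s2 s3 (N1 k u s h1 h2 s1 s3)
  have B1 : ∀ k j u, j % n ≠ k % n → j % n ≠ (k + 1) % n → loc (X j) ≤ u → u < loc (Y j) →
      (loc (X k) ≤ u ∧ u < loc (Y (k + 1)) ∨ loc (Y (k + 1)) ≤ u ∧ u < loc (X k)) → False := by
    intro k j u h1 h2 h3 h4 h5
    obtain ⟨s, s1, s2, s3⟩ := B.cov (X k) (Y (k + 1)) u (hle k) h5
    obtain ⟨t, t1, t2⟩ := ha j u h3 h4
    obtain ⟨d, d1, d2⟩ := hb j u h3 h4
    rcases B.two s t d u s3 t2 d2 with h | h | h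
    · subst h
      have h6 := hstr j (k + 1) (t1.trans s2)
      exact h1 (Nat.ModEq.add_right_cancel' 1 (show k + 1 ≡ j + 1 [MOD n] from h6)).symm
    · subst h
      exact h2 (hstr k j (s1.trans d1))
    · subst h
      exact hd j _ t1 d1
  -- the leftmost `Y`
  have hYm : ∀ k, Y (k % n) = Y k := fun k => Function.Periodic.map_mod_nat hY k
  obtain ⟨j0, hj0, hmin⟩ := Finset.exists_min_image (range n) (fun k => loc (Y k))
    ⟨0, by rw [mem_range]; omega⟩
  have hmin' : ∀ k, loc (Y j0) ≤ loc (Y k) := by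
    intro k
    rw [← hYm k]
    exact hmin (k % n) (by rw [mem_range]; exact Nat.mod_lt _ (by omega))
  obtain ⟨i, hi⟩ : ∃ i, i + 1 = j0 + n := ⟨j0 + n - 1, by omega⟩
  have hYi : loc (Y (i + 1)) = loc (Y j0) := by rw [hi, hY]
  have m1 : ∀ k, loc (Y (i + 1)) ≤ loc (Y k) := fun k => by rw [hYi]; exact hmin' k
  have σi := hσ i
  have σ1 := hσ (i + 1)
  have σ2 := hσ (i + 2)
  have C1 : loc (Y (i + 1)) ≤ loc (X i) := by
    by_contra hc
    push Not at hc
    have h1 := m1 i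
    exact A1 i (loc (Y (i + 1)) - 1) (by omega) (by omega) (by omega) (by omega)
  have C2 : loc (Y (i + 1)) ≤ loc (X (i + 2)) := by
    by_contra hc
    push Not at hc
    have h1 := m1 (i + 2)
    exact A1 (i + 1) (loc (Y (i + 1)) - 1) (by omega) (by omega)
      (by show loc (X (i + 2)) ≤ _; omega) (by show _ < loc (Y (i + 2)); omega)
  by_cases hn2 : i % n = (i + 2) % n
  · -- two pairs
    have hX2 : X (i + 2) = X i := by
      have h1 : X ((i + 2) % n) = X (i + 2) := Function.Periodic.map_mod_nat hX _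
      have h2 : X (i % n) = X i := Function.Periodic.map_mod_nat hX _
      rw [← h1, ← hn2, h2]
    have hY2 : Y (i + 2) = Y i := by
      rw [← hYm (i + 2), ← hn2, hYm]
    have hle1 : X (i + 1) ≤ Y i := by rw [← hY2]; exact hle (i + 1)
    have hle0 : X i ≤ Y (i + 1) := hle i
    obtain ⟨s0, s1, s2, s3⟩ := B.cov (X (i + 1)) (Y i) (loc (X (i + 1))) hle1
      (Or.inl ⟨le_rfl, by omega⟩)
    obtain ⟨t0, t1, t2, t3⟩ := B.cov (X (i + 1)) (Y i) (loc (X i)) hle1
      (Or.inl ⟨by omega, by omega⟩)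
    have h1 := N1 (i + 1) _ s0 le_rfl σ1 s1 s3
    have h2 := N2 i _ t0 le_rfl σi t2 t3
    apply h2
    rw [← h1]
    refine (B.name' (fun b => X (i + 1) ≤ b ∧ b ≤ Y i) (fun b => b ≤ Y (i + 1) ∨ X i ≤ b)
      ?_ (loc (X (i + 1))) (loc (X i)) (by omega) ?_ ?_ s0 t0 ⟨s1, s2⟩ s3 ⟨t1, t2⟩ t3).symm
    · rintro b ⟨b1, b2⟩ (b3 | b3)
      · exact hd (i + 1) b b1 b3
      · exact hd i b b3 b2
    · intro u u1 u2
      obtain ⟨b, b1, b2, b3⟩ := B.cov (X (i + 1)) (Y i) u hle1 (Or.inl ⟨u1, by omega⟩)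
      exact ⟨b, ⟨b1, b2⟩, b3⟩
    · intro u u1 u2
      by_cases h3 : u < loc (Y (i + 1))
      · obtain ⟨b, b1, b2⟩ := hb (i + 1) u u1 h3
        exact ⟨b, Or.inl b1, b2⟩
      · by_cases h4 : u < loc (X i)
        · obtain ⟨b, b1, b2, b3⟩ := B.cov (X i) (Y (i + 1)) u hle0
            (Or.inr ⟨by omega, h4⟩)
          exact ⟨b, Or.inr b1, b3⟩
        · obtain ⟨b, b1, b2⟩ := ha i u (by omega) (by omega)
          exact ⟨b, Or.inr b1, b2⟩
  · -- at least three pairs
    have hn1 : n ≠ 1 := by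
      rintro rfl
      exact hn2 (by omega)
    have e1 : i % n ≠ (i + 1) % n := by
      intro h
      have h3 : (0 : ℕ) ≡ 1 [MOD n] := by
        have h4 : i + 0 ≡ i + 1 [MOD n] := h
        exact Nat.ModEq.add_left_cancel' i h4
      have h5 := (Nat.modEq_iff_dvd' (by omega)).1 h3
      have h6 := Nat.le_of_dvd (by omega) h5
      omega
    have e2 : (i + 1) % n ≠ (i + 2) % n := by
      intro h
      apply e1
      have h4 : i + 1 ≡ i + 1 + 1 [MOD n] := h
      exact Nat.ModEq.add_right_cancel' 1 h4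
    have D1 : loc (Y (i + 2)) ≤ loc (X i) := by
      by_contra hc
      push Not at hc
      exact B1 (i + 1) i (loc (X i)) e1 hn2 le_rfl σi
        (Or.inl ⟨by omega, by show _ < loc (Y (i + 2)); omega⟩)
    exact B1 i (i + 2) (loc (X (i + 2))) (fun h => hn2 h.symm) (fun h => e2 h.symm) le_rfl σ2
      (Or.inr ⟨by omega, by omega⟩)

end bd

end Pool.Agent.Helper66.PD
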