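import Pool.Agent.Helper66.PD.Tw2

/-!
# Posets with cover graph of path-width two have bounded dimension, part 3

With the recursion: the exact exponent for every path-width.
-/

set_option autoImplicit false

namespace Pool.Agent.Helper66.PD

open Finset

/-- a shortest cycle is strict -/
theorem strict_cyc {T : Type} (R : T → T → Prop)
    (hex : ∃ (n : ℕ) (t : ℕ → T), 1 ≤ n ∧ (∀ k, t (k + n) = t k) ∧ ∀ k, R (t k) (t (k + 1))) :
    ∃ (n : ℕ) (t : ℕ → T), 1 ≤ n ∧ (∀ k, t (k + n) = t k) ∧ (∀ k, R (t k) (t (k + 1))) ∧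
      ∀ i j, R (t i) (t j) → j % n = (i + 1) % n := by
  classical
  obtain ⟨n, hm, hmin⟩ := WellFounded.has_min (r := ((· < ·) : ℕ → ℕ → Prop)) wellFounded_lt
    {n | ∃ t : ℕ → T, 1 ≤ n ∧ (∀ k, t (k + n) = t k) ∧ ∀ k, R (t k) (t (k + 1))} (by
      obtain ⟨n, t, h⟩ := hex
      exact ⟨n, t, h⟩)
  obtain ⟨t, hn, hper, hR⟩ := hm
  refine ⟨n, t, hn, hper, hR, ?_⟩
  intro i j hij
  by_contra hcon
  have hmod : ∀ k, t (k % n) = t k := fun k => Function.Periodic.map_mod_nat hper k
  obtain ⟨a, ha⟩ : ∃ a, i + 1 + a = j + n * (i + 1) := by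
    refine ⟨j + n * (i + 1) - (i + 1), ?_⟩
    have : i + 1 ≤ n * (i + 1) := Nat.le_mul_of_pos_left _ (by omega)
    omega
  obtain ⟨q, hq⟩ : ∃ q, q = a % n := ⟨_, rfl⟩
  have hqn : q < n := by rw [hq]; exact Nat.mod_lt _ (by omega)
  have h1 : i + 1 + q ≡ i + 1 + a [MOD n] := by
    rw [hq]
    exact Nat.ModEq.add_left _ (Nat.mod_modEq a n)
  have h2 : i + 1 + a ≡ j [MOD n] := by
    rw [ha]
    show (j + n * (i + 1)) % n = j % n
    rw [Nat.add_mul_mod_self_left]
  have h3 : i + 1 + q ≡ j [MOD n] := h1.trans h2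
  have hq0 : q ≠ 0 := by
    intro h0
    rw [h0, add_zero] at h3
    exact hcon h3.symm
  have htj : t (i + 1 + q) = t j := by
    rw [← hmod (i + 1 + q), ← hmod j, h3]
  obtain ⟨n', hn'⟩ : ∃ n', n' = n - q := ⟨_, rfl⟩
  refine hmin n' ⟨fun k => t (i + 1 + q + k % n'), by omega, ?_, ?_⟩ (by omega)
  · intro k
    show t (i + 1 + q + (k + n') % n') = t (i + 1 + q + k % n')
    rw [Nat.add_mod_right]
  · intro k
    show R (t (i + 1 + q + k % n')) (t (i + 1 + q + (k + 1) % n'))
    have h4 : (k % n' + 1) % n' = (k + 1) % n' := Nat.ModEq.add_right 1 (Nat.mod_modEq k n')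
    have h5 : k % n' < n' := Nat.mod_lt _ (by omega)
    rw [← h4]
    rcases Nat.lt_or_ge (k % n' + 1) n' with h6 | h6
    · rw [Nat.mod_eq_of_lt h6]
      exact hR _
    · have h7 : k % n' + 1 = n' := by omega
      rw [h7, Nat.mod_self]
      have h8 : i + 1 + q + k % n' = i + n := by omega
      rw [h8, hper, add_zero, htj]
      exact hij

theorem dec_absurd (f : ℕ → ℕ) (n : ℕ) (hn : 1 ≤ n) (hp : f n = f 0)
    (h : ∀ k, f (k + 1) < f k) : False := by
  have : ∀ k, f k + k ≤ f 0 := by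
    intro k
    induction k with
    | zero => simp
    | succ k ih => have := h k; omega
  have := this n
  omega

theorem inc_absurd (f : ℕ → ℕ) (n : ℕ) (hn : 1 ≤ n) (hp : f n = f 0)
    (h : ∀ k, f k < f (k + 1)) : False := by
  have : ∀ k, f 0 + k ≤ f k := by
    intro k
    induction k with
    | zero => simp
    | succ k ih => have := h k; omega
  have := this n
  omega

theorem path_width_two (P : Type) [PartialOrder P] [Fintype P] (hw : PathWidthLE (cov P) 2) :
    DimLE P 16 := by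
  classical
  obtain ⟨m, l, r, hR, h2⟩ := r3_two P hw
  have three : ∀ a b c u, (l a ≤ u ∧ u + 1 ≤ r a) → (l b ≤ u ∧ u + 1 ≤ r b) →
      (l c ≤ u ∧ u + 1 ≤ r c) → a = b ∨ a = c ∨ b = c := by
    intro a b c u ha hb hc
    by_contra hcon
    push Not at hcon
    have hsub : ({a, b, c} : Finset P) ⊆ univ.filter (fun x => l x ≤ u ∧ u + 1 ≤ r x) := by
      intro x hx
      rw [mem_insert, mem_insert, mem_singleton] at hx
      rw [mem_filter]
      rcases hx with rfl | rfl | rfl
      · exact ⟨mem_univ _, ha⟩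
      · exact ⟨mem_univ _, hb⟩
      · exact ⟨mem_univ _, hc⟩
    have h3 := (card_le_card hsub).trans (h2 u)
    rw [card_insert_of_notMem (by
        rw [mem_insert, mem_singleton]
        rintro (h | h)
        · exact hcon.1 h
        · exact hcon.2.1 h),
      card_insert_of_notMem (by
        rw [mem_singleton]
        exact hcon.2.2), card_singleton] at h3
    omega
  obtain ⟨col, hcol⟩ := r3_col m l r hR three
  obtain ⟨H, hH1, hH2⟩ := st_HGT P (Fintype.card P) (fun s _ => card_le_univ s)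
  obtain ⟨V, hV⟩ : ∃ V : P → ℤ → Prop, ∀ b u, V b u ↔ ((l b : ℤ) ≤ u ∧ u + 1 ≤ (r b : ℤ)) :=
    ⟨fun b u => (l b : ℤ) ≤ u ∧ u + 1 ≤ (r b : ℤ), fun _ _ => Iff.rfl⟩
  have B : Bd P (fun x => (l x : ℤ)) V col := by
    refine ⟨?_, ?_, ?_, ?_⟩
    · intro x y u hxy h
      obtain ⟨v, rfl⟩ : ∃ v : ℕ, u = v := ⟨u.toNat, by omega⟩
      obtain ⟨S, -, s2, -, s4⟩ := up4_chain P l r H _ hR.adj hH1 hH2 x y (le_rtg hxy)
      obtain ⟨b, b1, b2, b3⟩ := s4 v (l y) le_rfl (hR.lr y) (by omega)
      exact ⟨b, (s2 b b1).1, (s2 b b1).2, (hV _ _).2 ⟨by omega, by omega⟩⟩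
    · intro a b c u h1 h3 h4
      rw [hV] at h1 h3 h4
      obtain ⟨v, rfl⟩ : ∃ v : ℕ, u = v := ⟨u.toNat, by omega⟩
      exact three a b c v ⟨by omega, by omega⟩ ⟨by omega, by omega⟩ ⟨by omega, by omega⟩
    · intro a b u hab h1 h3
      rw [hV] at h1 h3
      obtain ⟨v, rfl⟩ : ∃ v : ℕ, u = v := ⟨u.toNat, by omega⟩
      exact hcol a b v hab ⟨by omega, by omega⟩ ⟨by omega, by omega⟩
    · intro a b c d u h1 h3 h4 h5 hab hcd
      rw [hV] at h1 h3 h4 h5
      obtain ⟨v, rfl⟩ : ∃ v : ℕ, u = v := ⟨u.toNat, by omega⟩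
      by_contra hcon
      push Not at hcon
      have hsub : ({a, b, c, d} : Finset P) ⊆
          univ.filter (fun x => l x ≤ v + 1 ∧ v + 1 ≤ r x) := by
        intro x hx
        rw [mem_insert, mem_insert, mem_insert, mem_singleton] at hx
        rw [mem_filter]
        rcases hx with rfl | rfl | rfl | rfl
        · exact ⟨mem_univ _, by omega, by omega⟩
        · exact ⟨mem_univ _, by omega, by omega⟩
        · exact ⟨mem_univ _, by omega, by omega⟩
        · exact ⟨mem_univ _, by omega, by omega⟩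
      have h6 := (card_le_card hsub).trans (hR.card (v + 1))
      rw [card_insert_of_notMem (by
          rw [mem_insert, mem_insert, mem_singleton]
          rintro (h | h | h)
          · exact hab h
          · exact hcon.1 h
          · exact hcon.2.1 h),
        card_insert_of_notMem (by
          rw [mem_insert, mem_singleton]
          rintro (h | h)
          · exact hcon.2.2.1 h
          · exact hcon.2.2.2 h),
        card_insert_of_notMem (by
          rw [mem_singleton]
          exact hcd), card_singleton] at h6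
      omega
  -- flags
  obtain ⟨a, haD⟩ : ∃ a : P → P → Prop, ∀ x y, a x y ↔
      ∀ u : ℤ, ((l x : ℤ) ≤ u ∧ u < (l y : ℤ) ∨ (l y : ℤ) ≤ u ∧ u < (l x : ℤ)) →
        ∃ b, x ≤ b ∧ V b u := ⟨_, fun _ _ => Iff.rfl⟩
  obtain ⟨b, hbD⟩ : ∃ b : P → P → Prop, ∀ x y, b x y ↔
      ∀ u : ℤ, ((l x : ℤ) ≤ u ∧ u < (l y : ℤ) ∨ (l y : ℤ) ≤ u ∧ u < (l x : ℤ)) →
        ∃ b, b ≤ y ∧ V b u := ⟨_, fun _ _ => Iff.rfl⟩
  obtain ⟨p, hpD⟩ : ∃ p : P → Prop, ∀ x, p x ↔
      ∃ b, x ≤ b ∧ V b (l x : ℤ) ∧ col b = true := ⟨_, fun _ => Iff.rfl⟩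
  obtain ⟨q, hqD⟩ : ∃ q : P → Prop, ∀ x, q x ↔
      ∃ b, x ≤ b ∧ V b (-1 - -(l x : ℤ)) ∧ col b = true := ⟨_, fun _ => Iff.rfl⟩
  let χ : P → P → Bool × Bool × Bool × Bool := fun x y =>
    (decide (l x < l y), decide (a x y), decide (b x y),
      if l x < l y then decide (p x) else decide (q x))
  have hχ : ∀ (c : Bool × Bool × Bool × Bool) (n : ℕ) (t : ℕ → P × P), 1 ≤ n →
      (∀ k, t (k + n) = t k) →
      ¬ ∀ k, Alt P (fun x y => ¬ x ≤ y ∧ χ x y = c) (t k) (t (k + 1)) := by
    intro c n0 t0 hn0 hper0 hall0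
    obtain ⟨n, t, hn, hper, hall, hst⟩ := strict_cyc
      (Alt P (fun x y => ¬ x ≤ y ∧ χ x y = c)) ⟨n0, t0, hn0, hper0, hall0⟩
    obtain ⟨X, hXD⟩ : ∃ X : ℕ → P, ∀ k, X k = (t k).1 := ⟨_, fun _ => rfl⟩
    obtain ⟨Y, hYD⟩ : ∃ Y : ℕ → P, ∀ k, Y k = (t k).2 := ⟨_, fun _ => rfl⟩
    have hS : ∀ k, ¬ X k ≤ Y k := fun k => by rw [hXD, hYD]; exact (hall k).1.1
    have hle : ∀ k, X k ≤ Y (k + 1) := fun k => by rw [hXD, hYD]; exact (hall k).2.2
    have hX : ∀ k, X (k + n) = X k := fun k => by rw [hXD, hXD, hper]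
    have hY : ∀ k, Y (k + n) = Y k := fun k => by rw [hYD, hYD, hper]
    have hstr : ∀ i j, X i ≤ Y j → j % n = (i + 1) % n := by
      intro i j h
      refine hst i j ⟨(hall i).1, (hall j).1, ?_⟩
      rw [hXD, hYD] at h
      exact h
    have hc : ∀ k, χ (X k) (Y k) = χ (X (k + 1)) (Y (k + 1)) := fun k => by
      rw [hXD, hYD, hXD, hYD]
      exact (hall k).1.2.trans (hall (k + 1)).1.2.symm
    have hne : ∀ k, l (X k) ≠ l (Y k) := fun k h => hS k (hR.inj _ _ h).le
    have lX : l (X n) = l (X 0) := by have := hX 0; rw [zero_add] at this; rw [this]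
    have lY : l (Y n) = l (Y 0) := by have := hY 0; rw [zero_add] at this; rw [this]
    have c1 : ∀ k, (l (X k) < l (Y k) ↔ l (X 0) < l (Y 0)) := by
      intro k
      induction k with
      | zero => rfl
      | succ k ih =>
        have h1 := congrArg (fun z : Bool × Bool × Bool × Bool => z.1) (hc k)
        exact (decide_eq_decide.1 h1).symm.trans ih
    have c2 : ∀ k, (a (X k) (Y k) ↔ a (X 0) (Y 0)) := by
      intro k
      induction k with
      | zero => rfl
      | succ k ih =>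
        have h1 := congrArg (fun z : Bool × Bool × Bool × Bool => z.2.1) (hc k)
        exact (decide_eq_decide.1 h1).symm.trans ih
    have c3 : ∀ k, (b (X k) (Y k) ↔ b (X 0) (Y 0)) := by
      intro k
      induction k with
      | zero => rfl
      | succ k ih =>
        have h1 := congrArg (fun z : Bool × Bool × Bool × Bool => z.2.2.1) (hc k)
        exact (decide_eq_decide.1 h1).symm.trans ih
    have c4 : ∀ k, (if l (X k) < l (Y k) then decide (p (X k)) else decide (q (X k))) =
        (if l (X (k + 1)) < l (Y (k + 1)) then decide (p (X (k + 1))) else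
          decide (q (X (k + 1)))) := fun k =>
      congrArg (fun z : Bool × Bool × Bool × Bool => z.2.2.2) (hc k)
    by_cases hs : l (X 0) < l (Y 0)
    · have hs' : ∀ k, l (X k) < l (Y k) := fun k => (c1 k).2 hs
      by_cases ha0 : a (X 0) (Y 0)
      · by_cases hb0 : b (X 0) (Y 0)
        · refine B.main n hn X Y hX hY hle hS hstr (fun k => by have := hs' k; omega)
            (fun k u h1 h3 => (haD _ _).1 ((c2 k).2 ha0) u (Or.inl ⟨h1, h3⟩))
            (fun k u h1 h3 => (hbD _ _).1 ((c3 k).2 hb0) u (Or.inl ⟨h1, h3⟩)) ?_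
          intro k
          have h1 := c4 k
          rw [if_pos (hs' k), if_pos (hs' (k + 1))] at h1
          have h3 := decide_eq_decide.1 h1
          rw [hpD, hpD] at h3
          exact h3
        · refine dec_absurd (fun k => l (X k)) n hn lX ?_
          intro k
          have h1 : ¬ b (X (k + 1)) (Y (k + 1)) := fun h => hb0 ((c3 _).1 h)
          rw [hbD] at h1
          push Not at h1
          obtain ⟨u, h3, h4⟩ := h1
          have h5 := hs' (k + 1)
          show l (X (k + 1)) < l (X k)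
          by_contra hcon
          obtain ⟨d, d1, d2, d3⟩ := B.cov (X k) (Y (k + 1)) u (hle k) (Or.inl ⟨by omega, by omega⟩)
          exact h4 d d2 d3
      · refine dec_absurd (fun k => l (Y k)) n hn lY ?_
        intro k
        have h1 : ¬ a (X k) (Y k) := fun h => ha0 ((c2 _).1 h)
        rw [haD] at h1
        push Not at h1
        obtain ⟨u, h3, h4⟩ := h1
        have h5 := hs' k
        show l (Y (k + 1)) < l (Y k)
        by_contra hcon
        obtain ⟨d, d1, d2, d3⟩ := B.cov (X k) (Y (k + 1)) u (hle k) (Or.inl ⟨by omega, by omega⟩)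
        exact h4 d d1 d3
    · have hs' : ∀ k, l (Y k) < l (X k) := fun k => by
        have h1 : ¬ l (X k) < l (Y k) := fun h => hs ((c1 k).1 h)
        have h3 := hne k
        omega
      have hns : ∀ k, ¬ l (X k) < l (Y k) := fun k h => hs ((c1 k).1 h)
      by_cases ha0 : a (X 0) (Y 0)
      · by_cases hb0 : b (X 0) (Y 0)
        · refine B.refl.main n hn X Y hX hY hle hS hstr
            (fun k => by have := hs' k; show -(l (X k) : ℤ) < -(l (Y k) : ℤ); omega)
            (fun k u h1 h3 => (haD _ _).1 ((c2 k).2 ha0) (-1 - u)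
              (Or.inr ⟨by omega, by omega⟩))
            (fun k u h1 h3 => (hbD _ _).1 ((c3 k).2 hb0) (-1 - u)
              (Or.inr ⟨by omega, by omega⟩)) ?_
          intro k
          have h1 := c4 k
          rw [if_neg (hns k), if_neg (hns (k + 1))] at h1
          have h3 := decide_eq_decide.1 h1
          rw [hqD, hqD] at h3
          exact h3
        · refine inc_absurd (fun k => l (X k)) n hn lX ?_
          intro k
          have h1 : ¬ b (X (k + 1)) (Y (k + 1)) := fun h => hb0 ((c3 _).1 h)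
          rw [hbD] at h1
          push Not at h1
          obtain ⟨u, h3, h4⟩ := h1
          have h5 := hs' (k + 1)
          show l (X k) < l (X (k + 1))
          by_contra hcon
          obtain ⟨d, d1, d2, d3⟩ := B.cov (X k) (Y (k + 1)) u (hle k) (Or.inr ⟨by omega, by omega⟩)
          exact h4 d d2 d3
      · refine inc_absurd (fun k => l (Y k)) n hn lY ?_
        intro k
        have h1 : ¬ a (X k) (Y k) := fun h => ha0 ((c2 _).1 h)
        rw [haD] at h1
        push Not at h1
        obtain ⟨u, h3, h4⟩ := h1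
        have h5 := hs' k
        show l (Y k) < l (Y (k + 1))
        by_contra hcon
        obtain ⟨d, d1, d2, d3⟩ := B.cov (X k) (Y (k + 1)) u (hle k) (Or.inr ⟨by omega, by omega⟩)
        exact h4 d d1 d3
  have hf : ∀ c : Bool × Bool × Bool × Bool, ∃ f : P → ℕ, (∀ x y, x ≤ y → f x ≤ f y) ∧
      ∀ x y, (¬ x ≤ y ∧ χ x y = c) → f y < f x := by
    intro c
    exact st_EXT P (fun x y => ¬ x ≤ y ∧ χ x y = c) (fun x y hxy => hxy.1)
      (upp_cls st_SEQ P _ (hχ c))
  choose g hg hr using hf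
  exact upp_fin P (Bool × Bool × Bool × Bool) 16 (by simp) g χ hg
    (fun c x y hxy hc => hr c x y ⟨hxy, hc⟩)

/-- the upper bound with the exact exponent: path-width `w`, exponent `(w - 1) / 2` -/
theorem path_width_sharp : ∀ w : ℕ, ∃ C : ℕ, ∀ (h : ℕ) (P : Type) [PartialOrder P] [Fintype P],
    HeightLE P h → PathWidthLE (cov P) w → DimLE P (C * h ^ ((w - 1) / 2)) := by
  intro w
  obtain ⟨C, hC⟩ := path_width_rec_iter 2 ((w - 1) / 2)
  refine ⟨C * 16, ?_⟩
  intro h P _ _ hh hw
  have hw' : PathWidthLE (cov P) (2 + 2 * ((w - 1) / 2)) := by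
    obtain ⟨m, B, b1, b2, b3, b4⟩ := hw
    exact ⟨m, B, b1, b2, b3, fun i => (b4 i).trans (by omega)⟩
  have h1 := hC h 16 (by norm_num) (fun Q _ _ _ hQ => path_width_two Q hQ) P hh hw'
  have e : C * 16 * h ^ ((w - 1) / 2) = C * h ^ ((w - 1) / 2) * 16 := by ring
  rw [e]
  exact h1

end Pool.Agent.Helper66.PD
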