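import Pool.Agent.Helper66.PD.Fin

/-!
# Dimension and height of posets with cover graph of path-width `w`: exponent `w`

On the last level (`w`) of the hierarchy a comparability inside a node is an equality, so the
colours need no index on this level.
-/

set_option autoImplicit false

namespace Pool.Agent.Helper66.PD

open Finset

/-- the colours: level, two flags, indices of children on the levels below `w`, traces -/
abbrev Col2 (w h : ℕ) : Type :=
  Fin (w + 2) × Bool × Bool × (Fin w → Fin (2 * h)) ×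
    (Fin (w + 2) → Finset (Fin (w + 1)) × Finset (Fin (w + 1))) ×
    (Fin (w + 2) → Finset (Fin (w + 1)))

/-- the constant -/
def CW2 (w : ℕ) : ℕ :=
  (w + 2) * 2 * 2 * 2 ^ w * (2 ^ (w + 1) * 2 ^ (w + 1)) ^ (w + 2) * (2 ^ (w + 1)) ^ (w + 2)

theorem crd2 (w h : ℕ) : Fintype.card (Col2 w h) = CW2 w * h ^ w := by
  simp only [Col2, CW2, Fintype.card_prod, Fintype.card_fun, Fintype.card_finset, Fintype.card_fin,
    Fintype.card_bool, mul_pow]
  ring

/-- KEY2: every colour class is without alternating cycles -/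
def ST_KEY2 : Prop := ∀ (P : Type) [PartialOrder P] [Fintype P] (w h m : ℕ) (l r H : P → ℕ)
  (A E C : ℕ → ℕ → ℕ) (e : ℕ → P → Fin (w + 1)), 1 ≤ h → Rep P w h m l r H →
  Hier P m l r A E C →
  (∀ z p, p < m → l z ≤ p → p ≤ r z → l z ≤ A (w + 1) p ∧ E (w + 1) p ≤ r z) →
  (∀ p x y, l x ≤ p → p ≤ r x → l y ≤ p → p ≤ r y → e p x = e p y → x = y) →
  ∃ χ : P → P → Col2 w h, ∀ (c : Col2 w h) (n : ℕ) (t : ℕ → P × P), 1 ≤ n →
    (∀ k, t (k + n) = t k) →
    ¬ ∀ k, Alt P (fun x y => ¬ x ≤ y ∧ χ x y = c) (t k) (t (k + 1))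

open Classical in
/-- spanning elements of the nodes -/
theorem spn (P : Type) [Fintype P] (m : ℕ) (l r : P → ℕ) (A E C : ℕ → ℕ → ℕ)
    (hH : Hier P m l r A E C) (p : ℕ) (hp : p < m) (k : ℕ) :
    (∀ x, l x ≤ p → p ≤ r x → l x ≤ A k p ∧ E k p ≤ r x) ∨
      k ≤ (univ.filter (fun x => l x ≤ A k p ∧ E k p ≤ r x)).card := by
  have hmono : ∀ k x, (l x ≤ A k p ∧ E k p ≤ r x) → l x ≤ A (k + 1) p ∧ E (k + 1) p ≤ r x := by
    intro k x hx
    obtain ⟨h1, h2⟩ := hH.nest k p hp
    exact ⟨hx.1.trans h1, h2.trans hx.2⟩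
  induction k with
  | zero => exact Or.inr (Nat.zero_le _)
  | succ k ih =>
    rcases ih with ih | ih
    · exact Or.inl fun x h1 h2 => hmono k x (ih x h1 h2)
    · rcases hH.grow k p hp with h | ⟨y, hy1, hy2⟩
      · exact Or.inl fun x h1 h2 => hmono k x (h x h1 h2)
      · right
        have hlt : (univ.filter (fun x => l x ≤ A k p ∧ E k p ≤ r x)).card <
            (univ.filter (fun x => l x ≤ A (k + 1) p ∧ E (k + 1) p ≤ r x)).card := by
          apply Finset.card_lt_card
          rw [Finset.ssubset_iff_of_subset]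
          · refine ⟨y, ?_, ?_⟩
            · simp only [Finset.mem_filter, Finset.mem_univ, true_and]
              exact hy2
            · simp only [Finset.mem_filter, Finset.mem_univ, true_and]
              exact hy1
          · intro x hx
            simp only [Finset.mem_filter, Finset.mem_univ, true_and] at hx ⊢
            exact hmono k x hx
        omega

/-- on the level `w` a comparability inside a node is an equality -/
theorem top_eq (P : Type) [PartialOrder P] [Fintype P] (w h m : ℕ) (l r H : P → ℕ)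
    (A E C : ℕ → ℕ → ℕ) (hR : Rep P w h m l r H) (hH : Hier P m l r A E C) (x y : P) (hxy : x ≤ y)
    (hno : ∀ b, x ≤ b → b ≤ y → ¬ (l b ≤ A w (l x) ∧ A w (l x) ≤ r b) ∧
      ¬ (l b ≤ E w (l x) ∧ E w (l x) ≤ r b)) : x = y := by
  classical
  by_contra hne
  obtain ⟨b, hb1, hb2⟩ := exists_covBy_le_of_lt (lt_of_le_of_ne hxy hne)
  obtain ⟨a1, a2⟩ := hR.adj x b hb1
  have hlx := hR.lr x
  have hlb := hR.lr b
  have hlm : l x < m := lt_of_le_of_lt hlx (hR.rm x)
  obtain ⟨m1, m2, m3⟩ := hH.mem w (l x) hlm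
  have n1 := hno x le_rfl hxy
  have n2 := hno b hb1.lt.le hb2
  have hrx : r x < E w (l x) := by
    by_contra hc
    exact n1.2 ⟨m2, not_lt.1 hc⟩
  set p := max (l x) (l b) with hp
  have p1 : l x ≤ p := le_max_left _ _
  have p2 : l b ≤ p := le_max_right _ _
  have p3 : p ≤ r x := max_le hlx a2
  have p4 : p ≤ r b := max_le a1 hlb
  have hpm : p < m := lt_of_le_of_lt p3 (hR.rm x)
  have hA : A w p = A w (l x) := hH.node w (l x) p hlm (m1.trans p1) (p3.trans hrx.le)
  have hE : E w p = E w (l x) := hH.eqE w _ _ hpm hlm hA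
  rcases spn P m l r A E C hH p hpm w with hs | hs
  · obtain ⟨s1, s2⟩ := hs x p1 p3
    rw [hA] at s1
    exact n1.1 ⟨s1, m1.trans hlx⟩
  · rw [hA, hE] at hs
    set K := univ.filter (fun z => l z ≤ A w (l x) ∧ E w (l x) ≤ r z) with hK
    have hxK : x ∉ K := by
      intro hx
      rw [hK, mem_filter] at hx
      exact n1.1 ⟨hx.2.1, m1.trans hlx⟩
    have hbK : b ∉ K := by
      intro hx
      rw [hK, mem_filter] at hx
      exact n2.1 ⟨hx.2.1, (m1.trans m2).trans hx.2.2⟩
    have hxb : x ≠ b := hb1.lt.ne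
    have hxK' : x ∉ insert b K := by
      rw [mem_insert]
      rintro (h1 | h1)
      · exact hxb h1
      · exact hxK h1
    have hsub : insert x (insert b K) ⊆ univ.filter (fun z => l z ≤ p ∧ p ≤ r z) := by
      intro z hz
      rw [mem_insert, mem_insert] at hz
      rw [mem_filter]
      rcases hz with rfl | rfl | hz
      · exact ⟨mem_univ _, p1, p3⟩
      · exact ⟨mem_univ _, p2, p4⟩
      · rw [hK, mem_filter] at hz
        exact ⟨mem_univ _, hz.2.1.trans (m1.trans p1), (p3.trans hrx.le).trans hz.2.2⟩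
    have hc := (card_le_card hsub).trans (hR.card p)
    rw [card_insert_of_notMem hxK', card_insert_of_notMem hbK] at hc
    omega

theorem key2 (hCRO : ST_CRO) (hLOC : ST_LOC) : ST_KEY2 := by
  classical
  intro P _ _ w h m l r H A E C e hh hR hH hL hI
  have hlm : ∀ x, l x < m := fun x => lt_of_le_of_lt (hR.lr x) (hR.rm x)
  -- the level
  set lev : P → P → ℕ := fun x y => Nat.findGreatest (fun i => A i (l x) = A i (l y)) (w + 1)
    with hlev
  have lev_le : ∀ x y, lev x y ≤ w + 1 := fun x y => Nat.findGreatest_le _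
  have down : ∀ x y i, A i (l x) = A i (l y) → ∀ j, j ≤ i → A j (l x) = A j (l y) := by
    intro x y i
    induction i with
    | zero => intro h0 j hj; rw [Nat.le_zero.1 hj]; exact h0
    | succ i ih =>
      intro h0 j hj
      rcases Nat.le_succ_iff.1 hj with h1 | h1
      · exact ih ((hH.child i _ _ (hlm x) (hlm y)).1 h0).1 j h1
      · rw [h1]; exact h0
  have lev_sp : ∀ x y, A (lev x y) (l x) = A (lev x y) (l y) := fun x y =>
    Nat.findGreatest_spec (P := fun i => A i (l x) = A i (l y)) (Nat.zero_le (w + 1))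
      (hH.zero _ _ (hlm x) (hlm y))
  have lev_eq : ∀ x y j, j ≤ lev x y → A j (l x) = A j (l y) := fun x y j hj =>
    down x y _ (lev_sp x y) j hj
  have lev_ne : ∀ x y, lev x y ≤ w → C (lev x y) (l x) ≠ C (lev x y) (l y) := by
    intro x y hv hc
    have h1 : A (lev x y + 1) (l x) = A (lev x y + 1) (l y) :=
      (hH.child _ _ _ (hlm x) (hlm y)).2 ⟨lev_sp x y, hc⟩
    exact Nat.findGreatest_is_greatest (P := fun i => A i (l x) = A i (l y))
      (n := w + 1) (Nat.lt_succ_self (lev x y)) (by omega) h1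
  have h2h : 0 < 2 * h := by omega
  let χ : P → P → Col2 w h := fun x y =>
    (⟨lev x y, Nat.lt_succ_of_le (lev_le x y)⟩,
      decide (C (lev x y) (l x) < C (lev x y) (l y)),
      decide (C (lev x y) (l x) < C (lev x y) (l y) + h ∧
        C (lev x y) (l y) < C (lev x y) (l x) + h),
      fun j => ⟨min (C j (l x)) (C j (l y)) % (2 * h), Nat.mod_lt _ h2h⟩,
      fun j => (key_tr l r e (A j (l x)) x, key_tr l r e (E j (l x)) x),
      fun j => key_td l r e (E j (l y)) y)
  refine ⟨χ, ?_⟩
  intro c n t hn hper hall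
  have hS : ∀ k, ¬ (t k).1 ≤ (t k).2 := fun k => (hall k).1.1
  have hχ : ∀ k, χ (t k).1 (t k).2 = χ (t (k + 1)).1 (t (k + 1)).2 := fun k =>
    (hall k).1.2.trans (hall k).2.1.2.symm
  have hle : ∀ k, (t k).1 ≤ (t (k + 1)).2 := fun k => (hall k).2.2
  set X : ℕ → P := fun k => (t k).1 with hX
  set Y : ℕ → P := fun k => (t k).2 with hY
  have hv1 : ∀ k, lev (X k) (Y k) = lev (X (k + 1)) (Y (k + 1)) := fun k =>
    congrArg Fin.val (congrArg Prod.fst (hχ k))
  set v := lev (X 0) (Y 0) with hvdef
  have hv : ∀ k, lev (X k) (Y k) = v := by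
    intro k
    induction k with
    | zero => rfl
    | succ k ih => rw [← hv1 k]; exact ih
  have hvw : v ≤ w + 1 := lev_le _ _
  have hσ : ∀ k, (C v (l (X k)) < C v (l (Y k)) ↔
      C v (l (X (k + 1))) < C v (l (Y (k + 1)))) := by
    intro k
    have h1 := congrArg (fun z : Col2 w h => z.2.1) (hχ k)
    have h2 := decide_eq_decide.1 h1
    rw [show lev (t k).1 (t k).2 = v from hv k,
      show lev (t (k + 1)).1 (t (k + 1)).2 = v from hv (k + 1)] at h2
    exact h2
  have hν : ∀ k, ((C v (l (X k)) < C v (l (Y k)) + h ∧ C v (l (Y k)) < C v (l (X k)) + h) ↔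
      (C v (l (X (k + 1))) < C v (l (Y (k + 1))) + h ∧
        C v (l (Y (k + 1))) < C v (l (X (k + 1))) + h)) := by
    intro k
    have h1 := congrArg (fun z : Col2 w h => z.2.2.1) (hχ k)
    have h2 := decide_eq_decide.1 h1
    rw [show lev (t k).1 (t k).2 = v from hv k,
      show lev (t (k + 1)).1 (t (k + 1)).2 = v from hv (k + 1)] at h2
    exact h2
  have hidx : ∀ k j, j < w → min (C j (l (X k))) (C j (l (Y k))) % (2 * h) =
      min (C j (l (X (k + 1)))) (C j (l (Y (k + 1)))) % (2 * h) := by
    intro k j hj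
    have h1 := congrFun (congrArg (fun z : Col2 w h => z.2.2.2.1) (hχ k)) ⟨j, hj⟩
    exact congrArg Fin.val h1
  have htA : ∀ k j, j ≤ w + 1 → key_tr l r e (A j (l (X k))) (X k) =
      key_tr l r e (A j (l (X (k + 1)))) (X (k + 1)) := by
    intro k j hj
    have h1 := congrFun (congrArg (fun z : Col2 w h => z.2.2.2.2.1) (hχ k)) ⟨j, by omega⟩
    exact congrArg Prod.fst h1
  have htE : ∀ k j, j ≤ w + 1 → key_tr l r e (E j (l (X k))) (X k) =
      key_tr l r e (E j (l (X (k + 1)))) (X (k + 1)) := by
    intro k j hj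
    have h1 := congrFun (congrArg (fun z : Col2 w h => z.2.2.2.2.1) (hχ k)) ⟨j, by omega⟩
    exact congrArg Prod.snd h1
  have htD : ∀ k j, j ≤ w + 1 → key_td l r e (E j (l (Y k))) (Y k) =
      key_td l r e (E j (l (Y (k + 1)))) (Y (k + 1)) := by
    intro k j hj
    exact congrFun (congrArg (fun z : Col2 w h => z.2.2.2.2.2) (hχ k)) ⟨j, by omega⟩
  -- no element in between contains an end of the node
  have noend : ∀ k i, i ≤ w + 1 → A i (l (X k)) = A i (l (X (k + 1))) → ∀ b, X k ≤ b →
      b ≤ Y (k + 1) → ¬ (l b ≤ A i (l (X k)) ∧ A i (l (X k)) ≤ r b) ∧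
        ¬ (l b ≤ E i (l (X k)) ∧ E i (l (X k)) ≤ r b) := by
    intro k i hi hA b hb1 hb2
    have hE := hH.eqE i _ _ (hlm _) (hlm _) hA
    refine ⟨fun hc => ?_, fun hc => ?_⟩
    · have h1 := htA k i hi
      rw [← hA] at h1
      exact hS (k + 1) ((key_tr_eq hI h1 hb1 hc.1 hc.2).trans hb2)
    · have h1 := htE k i hi
      rw [← hE] at h1
      exact hS (k + 1) ((key_tr_eq hI h1 hb1 hc.1 hc.2).trans hb2)
  have stp : ∀ k i, i ≤ w + 1 → A i (l (X k)) = A i (l (X (k + 1))) →
      C i (l (X k)) < C i (l (Y (k + 1))) + h ∧ C i (l (Y (k + 1))) < C i (l (X k)) + h := by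
    intro k i hi hA
    obtain ⟨-, h1, h2⟩ := hLOC P w h m l r H A E C hR hH i (X k) (Y (k + 1)) (hle k)
      (noend k i hi hA)
    have h3 := hR.lt (Y (k + 1))
    exact ⟨by omega, by omega⟩
  have teq : ∀ k, A w (l (X k)) = A w (l (X (k + 1))) → X k = Y (k + 1) := fun k hA =>
    top_eq P w h m l r H A E C hR hH (X k) (Y (k + 1)) (hle k) (noend k w (by omega) hA)
  -- all positions are in the same node up to level `v`
  have same : ∀ i, i ≤ v → ∀ k, A i (l (X k)) = A i (l (X (k + 1))) := by
    intro i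
    induction i with
    | zero => intro _ k; exact hH.zero _ _ (hlm _) (hlm _)
    | succ i ih =>
      intro hi k
      have hA := ih (by omega) k
      obtain ⟨h1, h2⟩ := stp k i (by omega) hA
      have hc : ∀ k, C i (l (X k)) = C i (l (Y k)) := by
        intro k
        have h3 := lev_eq (X k) (Y k) (i + 1) (by rw [hv k]; exact hi)
        exact ((hH.child i _ _ (hlm _) (hlm _)).1 h3).2
      rcases Nat.lt_or_ge i w with hiw | hiw
      · have h4 := hidx k i hiw
        rw [← hc k, ← hc (k + 1), min_self, min_self] at h4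
        rw [← hc (k + 1)] at h1 h2
        have h5 := key_mod h4 (by omega) (by omega)
        exact (hH.child i _ _ (hlm _) (hlm _)).2 ⟨hA, h5⟩
      · have hiw' : i = w := by omega
        subst hiw'
        have h5 : C i (l (X k)) = C i (l (X (k + 1))) := by
          rw [hc (k + 1), ← teq k hA]
        exact (hH.child i _ _ (hlm _) (hlm _)).2 ⟨hA, h5⟩
  have hAv := same v le_rfl
  rcases Nat.lt_or_ge v (w + 1) with hvlt | hvge
  · -- `v ≤ w`
    have hvw' : v ≤ w := by omega
    have hne : ∀ k, C v (l (X k)) ≠ C v (l (Y k)) := by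
      intro k
      have := lev_ne (X k) (Y k) (by rw [hv k]; exact hvw')
      rwa [hv k] at this
    have hXY : ∀ k, A v (l (X k)) = A v (l (Y k)) := fun k =>
      lev_eq (X k) (Y k) v (by rw [hv k])
    have hst := fun k => stp k v hvw (hAv k)
    have hσ' : ∀ k, (C v (l (X k)) < C v (l (Y k)) ↔ C v (l (X 0)) < C v (l (Y 0))) := by
      intro k
      induction k with
      | zero => rfl
      | succ k ih => exact (hσ k).symm.trans ih
    have hν' : ∀ k, ((C v (l (X k)) < C v (l (Y k)) + h ∧ C v (l (Y k)) < C v (l (X k)) + h) ↔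
        (C v (l (X 0)) < C v (l (Y 0)) + h ∧ C v (l (Y 0)) < C v (l (X 0)) + h)) := by
      intro k
      induction k with
      | zero => rfl
      | succ k ih => exact (hν k).symm.trans ih
    have hperY : Y n = Y 0 := by
      have := hper 0
      rw [zero_add] at this
      simp only [hY, this]
    rcases Nat.eq_or_lt_of_le hvw' with hvw2 | hvw2
    · -- `v = w`
      have hYX : ∀ k, X k = Y (k + 1) := fun k => teq k (by rw [← hvw2]; exact hAv k)
      by_cases hs : C v (l (X 0)) < C v (l (Y 0))
      · have : ∀ k, C v (l (Y k)) + k ≤ C v (l (Y 0)) := by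
          intro k
          induction k with
          | zero => simp
          | succ k ih =>
            have a1 := (hσ' k).2 hs
            rw [hYX k] at a1
            omega
        have h9 := this n
        rw [hperY] at h9
        omega
      · have : ∀ k, C v (l (Y 0)) + k ≤ C v (l (Y k)) := by
          intro k
          induction k with
          | zero => simp
          | succ k ih =>
            have a1 : ¬ C v (l (X k)) < C v (l (Y k)) := fun hc => hs ((hσ' k).1 hc)
            have a2 := hne k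
            rw [hYX k] at a1 a2
            omega
        have h9 := this n
        rw [hperY] at h9
        omega
    by_cases hs : C v (l (X 0)) < C v (l (Y 0))
    · have hs' : ∀ k, C v (l (X k)) < C v (l (Y k)) := fun k => (hσ' k).2 hs
      by_cases hn' : C v (l (X 0)) < C v (l (Y 0)) + h ∧ C v (l (Y 0)) < C v (l (X 0)) + h
      · have hn2 := fun k => (hν' k).2 hn'
        have h4 := hidx 0 v hvw2
        rw [min_eq_left (hs' 0).le, min_eq_left (hs' (0 + 1)).le] at h4
        have h5 : C v (l (X 0)) = C v (l (X (0 + 1))) := by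
          have a1 := hst 0
          have a2 := hs' (0 + 1)
          have a3 := hn2 (0 + 1)
          exact key_mod h4 (by omega) (by omega)
        have h6 : A (v + 1) (l (X 0)) = A (v + 1) (l (X (0 + 1))) :=
          (hH.child v _ _ (hlm _) (hlm _)).2 ⟨hAv 0, h5⟩
        have h7 := hH.eqE (v + 1) _ _ (hlm _) (hlm _) h6
        obtain ⟨m1, m2, m3⟩ := hH.mem (v + 1) (l (X 0)) (hlm _)
        have h8 : E (v + 1) (l (X 0)) < l (Y (0 + 1)) := by
          by_contra hcon
          push Not at hcon
          have h9 : A (v + 1) (E (v + 1) (l (X 0))) = A (v + 1) (l (X 0)) :=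
            hH.node (v + 1) _ _ (hlm _) (m1.trans m2) le_rfl
          obtain ⟨h10, h11⟩ := (hH.child v _ _ m3 (hlm _)).1 h9
          have h12 : A v (l (Y (0 + 1))) = A v (E (v + 1) (l (X 0))) := by
            rw [h10, hAv 0, hXY (0 + 1)]
          have h13 := hH.mono v _ _ hcon m3 h12
          have := hs' (0 + 1)
          omega
        obtain ⟨b, b1, b2, b3, b4⟩ := hCRO P w h m l r H hR (X 0) (Y (0 + 1))
          (E (v + 1) (l (X 0))) (hle 0) (Or.inl ⟨m2, h8⟩)
        have h14 := htE 0 (v + 1) (by omega)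
        rw [← h7] at h14
        exact hS (0 + 1) ((key_tr_eq hI h14 b1 b3 b4).trans b2)
      · have hn2 := fun k hk => hn' ((hν' k).1 hk)
        have hdec : ∀ k, C v (l (Y (k + 1))) < C v (l (Y k)) := by
          intro k
          have a1 := hst k
          have a2 := hs' k
          have a3 := hn2 k
          by_contra hcon
          exact a3 ⟨by omega, by omega⟩
        have : ∀ k, C v (l (Y k)) + k ≤ C v (l (Y 0)) := by
          intro k
          induction k with
          | zero => simp
          | succ k ih => have := hdec k; omega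
        have h9 := this n
        rw [hperY] at h9
        omega
    · have hs' : ∀ k, C v (l (Y k)) < C v (l (X k)) := fun k =>
        lt_of_le_of_ne (not_lt.1 fun hc => hs ((hσ' k).1 hc)) (hne k).symm
      by_cases hn' : C v (l (X 0)) < C v (l (Y 0)) + h ∧ C v (l (Y 0)) < C v (l (X 0)) + h
      · have hn2 := fun k => (hν' k).2 hn'
        have h4 := hidx 0 v hvw2
        rw [min_eq_right (hs' 0).le, min_eq_right (hs' (0 + 1)).le] at h4
        have h5 : C v (l (Y 0)) = C v (l (Y (0 + 1))) := by
          have a1 := hst 0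
          have a2 := hs' 0
          have a3 := hn2 0
          exact key_mod h4 (by omega) (by omega)
        have hAY : A v (l (Y 0)) = A v (l (Y (0 + 1))) := by
          rw [← hXY 0, ← hXY (0 + 1)]; exact hAv 0
        have h6 : A (v + 1) (l (Y 0)) = A (v + 1) (l (Y (0 + 1))) :=
          (hH.child v _ _ (hlm _) (hlm _)).2 ⟨hAY, h5⟩
        have h7 := hH.eqE (v + 1) _ _ (hlm _) (hlm _) h6
        obtain ⟨m1, m2, m3⟩ := hH.mem (v + 1) (l (Y 0)) (hlm _)
        obtain ⟨m1', m2', m3'⟩ := hH.mem (v + 1) (l (Y (0 + 1))) (hlm _)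
        have h8 : E (v + 1) (l (Y 0)) < l (X 0) := by
          by_contra hcon
          push Not at hcon
          have h9 : A (v + 1) (E (v + 1) (l (Y 0))) = A (v + 1) (l (Y 0)) :=
            hH.node (v + 1) _ _ (hlm _) (m1.trans m2) le_rfl
          obtain ⟨h10, h11⟩ := (hH.child v _ _ m3 (hlm _)).1 h9
          have h12 : A v (l (X 0)) = A v (E (v + 1) (l (Y 0))) := by
            rw [h10, hXY 0]
          have h13 := hH.mono v _ _ hcon m3 h12
          have := hs' 0
          omega
        obtain ⟨b, b1, b2, b3, b4⟩ := hCRO P w h m l r H hR (X 0) (Y (0 + 1))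
          (E (v + 1) (l (Y 0))) (hle 0) (Or.inr ⟨by rw [h7]; exact m2', h8⟩)
        have h14 := htD 0 (v + 1) (by omega)
        rw [← h7] at h14
        exact hS 0 (b1.trans (key_td_eq hI h14.symm b2 b3 b4))
      · have hn2 := fun k hk => hn' ((hν' k).1 hk)
        have hinc : ∀ k, C v (l (Y k)) < C v (l (Y (k + 1))) := by
          intro k
          have a1 := hst k
          have a2 := hs' k
          have a3 := hn2 k
          by_contra hcon
          exact a3 ⟨by omega, by omega⟩
        have : ∀ k, C v (l (Y 0)) + k ≤ C v (l (Y k)) := by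
          intro k
          induction k with
          | zero => simp
          | succ k ih => have := hinc k; omega
        have h9 := this n
        rw [hperY] at h9
        omega
  · -- `v = w + 1`
    have hve : v = w + 1 := by omega
    obtain ⟨q1, q2⟩ := hL (X 0) (l (X 0)) (hlm _) le_rfl (hR.lr _)
    obtain ⟨m1, m2, m3⟩ := hH.mem (w + 1) (l (X 0)) (hlm _)
    have h1 := (noend 0 (w + 1) le_rfl (by rw [← hve]; exact hAv 0) (X 0) le_rfl (hle 0)).1
    exact h1 ⟨q1, by omega⟩


/-- the upper bound with exponent `w` -/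
theorem path_width_upper2_const (P : Type) [PartialOrder P] [Fintype P] (w h : ℕ)
    (hh : HeightLE P h) (hw : PathWidthLE (cov P) w) : DimLE P (CW2 w * h ^ w) := by
  rcases Nat.eq_zero_or_pos h with h0 | h0
  · subst h0
    exact upp_empty P hh _
  · obtain ⟨H, hH1, hH2⟩ := st_HGT P h hh
    obtain ⟨m, l, r, hlr, hrm, hadj, hcard⟩ := st_ITV P w hw
    obtain ⟨A, E, C, hier⟩ := (st_HIE st_SPL) P m l r
    have hlst := st_LST P w m l r A E C hcard hier
    obtain ⟨e, he⟩ := st_INJ P w l r hcard
    have hrep : Rep P w h m l r H := ⟨hlr, hrm, hadj, hcard, hH1, hH2⟩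
    obtain ⟨χ, hχ⟩ := (key2 st_CRO st_LOC) P w h m l r H A E C e h0 hrep hier hlst he
    have hf : ∀ c : Col2 w h, ∃ f : P → ℕ, (∀ x y, x ≤ y → f x ≤ f y) ∧
        ∀ x y, (¬ x ≤ y ∧ χ x y = c) → f y < f x := by
      intro c
      exact st_EXT P (fun x y => ¬ x ≤ y ∧ χ x y = c) (fun x y hxy => hxy.1)
        (upp_cls st_SEQ P _ (hχ c))
    choose g hg hr using hf
    exact upp_fin P (Col2 w h) _ (crd2 w h) g χ hg (fun c x y hxy hc => hr c x y ⟨hxy, hc⟩)

/-- the upper bound with exponent `w` -/
theorem path_width_upper2 : ∀ w : ℕ, ∃ C : ℕ, ∀ (h : ℕ) (P : Type) [PartialOrder P] [Fintype P],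
    HeightLE P h → PathWidthLE (cov P) w → DimLE P (C * h ^ w) :=
  fun w => ⟨CW2 w, fun h P _ _ hh hw => path_width_upper2_const P w h hh hw⟩

end Pool.Agent.Helper66.PD
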