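import Pool.Agent.Helper66.PD.Hier2

/-!
# Dimension and height of posets with cover graph of path-width `w`: exponent `w / 2`

The nodes are split by pairs of spanning elements; two disjoint chains which cross a region of a
node meet at most `2 * h + 1` children there, and at most two children if at most two elements of
a bag do not span the node.
-/

set_option autoImplicit false

namespace Pool.Agent.Helper66.PD

open Finset

/-- the comparability `x ≤ y` crosses the region `[s, t]` -/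
def Cr {P : Type} (l r : P → ℕ) (x y : P) (s t : ℕ) : Prop :=
  (l x < s ∧ ∃ q, t < q ∧ l y ≤ q ∧ q ≤ r y) ∨ (t < l x ∧ ∃ q, q < s ∧ l y ≤ q ∧ q ≤ r y)

theorem up4_chain (P : Type) [PartialOrder P] (l r H : P → ℕ) (h : ℕ)
    (hadj : ∀ x y, x ⋖ y → l x ≤ r y ∧ l y ≤ r x) (hH : ∀ x y : P, x < y → H x < H y)
    (hh : ∀ x, H x < h) (x y : P) (hxy : Relation.ReflTransGen (· ⋖ ·) x y) :
    ∃ S : Finset P, x ∈ S ∧ (∀ b ∈ S, x ≤ b ∧ b ≤ y) ∧ S.card + H x ≤ h ∧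
      ∀ u q, l y ≤ q → q ≤ r y → (l x ≤ u ∧ u < q ∨ u < l x ∧ q ≤ u) →
        ∃ b ∈ S, l b ≤ u ∧ u + 1 ≤ r b := by
  classical
  induction hxy using Relation.ReflTransGen.head_induction_on with
  | refl =>
    refine ⟨{y}, by simp, by simp, by have := hh y; simp; omega, ?_⟩
    intro u q h1 h2 h3
    exact ⟨y, by simp, by omega, by omega⟩
  | head hx hxy ih =>
    rename_i a a'
    obtain ⟨S, s1, s2, s3, s4⟩ := ih
    have hle := rtg_le hxy
    obtain ⟨a1, a2⟩ := hadj a a' hx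
    have hHa := hH a a' hx.lt
    refine ⟨insert a S, by simp, ?_, ?_, ?_⟩
    · intro b hb
      rw [mem_insert] at hb
      rcases hb with rfl | hb
      · exact ⟨le_rfl, hx.lt.le.trans hle⟩
      · exact ⟨hx.lt.le.trans (s2 b hb).1, (s2 b hb).2⟩
    · have := card_insert_le a S
      omega
    · intro u q h1 h2 h3
      rcases h3 with h3 | h3
      · by_cases h4 : u + 1 ≤ r a
        · exact ⟨a, by simp, h3.1, h4⟩
        · obtain ⟨b, b1, b2⟩ := s4 u q h1 h2 (Or.inl ⟨by omega, h3.2⟩)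
          exact ⟨b, by simp [b1], b2⟩
      · by_cases h4 : u < l a'
        · obtain ⟨b, b1, b2⟩ := s4 u q h1 h2 (Or.inr ⟨h4, h3.2⟩)
          exact ⟨b, by simp [b1], b2⟩
        · exact ⟨a', by simp [s1], by omega, by omega⟩

theorem inn_inside {P : Type} [PartialOrder P] {l r : P → ℕ} {α ε : ℕ} (hlr : ∀ x, l x ≤ r x)
    (hcro : ∀ x y p, x ≤ y → (l x ≤ p ∧ p < l y ∨ l y ≤ p ∧ p < l x) →
      ∃ b, x ≤ b ∧ b ≤ y ∧ l b ≤ p ∧ p ≤ r b) {x y : P} (hI : Inn l r α ε x y) (h1 : α ≤ l x)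
    (h2 : l x ≤ ε) : ∀ b, x ≤ b → b ≤ y → α < l b ∧ r b < ε := by
  have hx1 : α < l x := by
    by_contra hc
    exact (hI.2 x le_rfl hI.1).1 ⟨not_lt.1 hc, h1.trans (hlr x)⟩
  intro b hb1 hb2
  have hb := hI.2 b hb1 hb2
  have h3 : l b ≤ ε := by
    by_contra hc
    obtain ⟨d, d1, d2, d3, d4⟩ := hcro x b ε hb1 (Or.inl ⟨h2, not_le.1 hc⟩)
    exact (hI.2 d d1 (d2.trans hb2)).2 ⟨d3, d4⟩
  have h4 : r b < ε := by
    by_contra hc
    exact hb.2 ⟨h3, not_lt.1 hc⟩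
  refine ⟨?_, h4⟩
  by_contra hc
  obtain ⟨d, d1, d2, d3, d4⟩ := hcro x b α hb1 (Or.inr ⟨not_lt.1 hc, hx1⟩)
  exact (hI.2 d d1 (d2.trans hb2)).1 ⟨d3, d4⟩

/-- a node in which two disjoint chains cross at most `B` boundaries together -/
structure Nd2 (P : Type) [PartialOrder P] (l r : P → ℕ) (α ε : ℕ) (c : ℕ → ℕ) (B : ℕ) : Prop where
  lr : ∀ x, l x ≤ r x
  mono : ∀ p q, α ≤ p → p ≤ q → q ≤ ε → c p ≤ c q
  one : ∀ p, α ≤ p → p + 1 ≤ ε → c (p + 1) ≤ c p + 1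
  cro : ∀ x y p, x ≤ y → (l x ≤ p ∧ p < l y ∨ l y ≤ p ∧ p < l x) →
    ∃ b, x ≤ b ∧ b ≤ y ∧ l b ≤ p ∧ p ≤ r b
  tc : ∀ (x y x' y' : P) (s t : ℕ), Inn l r α ε x y → Inn l r α ε x' y' → α ≤ l x → l x ≤ ε →
    α ≤ l x' → l x' ≤ ε → s ≤ t → α ≤ s → t ≤ ε → Cr l r x y s t → Cr l r x' y' s t →
    (∀ b p, s ≤ p → p ≤ t → l b ≤ p → p ≤ r b → x ≤ b → b ≤ y → x' ≤ b → b ≤ y' → False) →
    c t ≤ c s + B

section nd2

variable {P : Type} [PartialOrder P] {l r : P → ℕ} {α ε : ℕ} {c : ℕ → ℕ} {B : ℕ}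

theorem Nd2.ivt (N : Nd2 P l r α ε c B) (κ p0 : ℕ) (h0 : α ≤ p0) : ∀ j, p0 + j ≤ ε → c p0 ≤ κ →
    κ ≤ c (p0 + j) → ∃ p, p0 ≤ p ∧ p ≤ p0 + j ∧ c p = κ := by
  intro j
  induction j with
  | zero => intro _ h1 h2; exact ⟨p0, le_rfl, le_rfl, le_antisymm h1 h2⟩
  | succ j ih =>
    intro h1 h2 h3
    by_cases h4 : κ ≤ c (p0 + j)
    · obtain ⟨p, p1, p2, p3⟩ := ih (by omega) h2 h4
      exact ⟨p, p1, by omega, p3⟩
    · have := N.one (p0 + j) (by omega) (by omega)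
      have e : p0 + (j + 1) = p0 + j + 1 := by omega
      rw [e] at h3
      exact ⟨p0 + j + 1, by omega, by omega, by omega⟩

theorem Nd2.ivt' (N : Nd2 P l r α ε c B) (κ p0 p1 : ℕ) (h0 : α ≤ p0) (h1 : p1 ≤ ε)
    (h2 : p0 ≤ p1) (h3 : c p0 ≤ κ) (h4 : κ ≤ c p1) : ∃ p, p0 ≤ p ∧ p ≤ p1 ∧ c p = κ := by
  have := N.ivt κ p0 h0 (p1 - p0) (by omega) h3
  rw [show p0 + (p1 - p0) = p1 by omega] at this
  exact this h4

theorem Nd2.lt (N : Nd2 P l r α ε c B) {p q : ℕ} (hp : p ≤ ε) (hq : α ≤ q) (h : c p < c q) :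
    p < q := by
  by_contra hc
  have := N.mono q p hq (not_lt.1 hc) hp
  omega

theorem Nd2.near (N : Nd2 P l r α ε c B) (K M n : ℕ) (hK : B + 3 ≤ K) (hM : 2 * K + B + 1 ≤ M)
    (hn : 1 ≤ n) (X Y : ℕ → P) (hX : ∀ k, X (k + n) = X k)
    (hI : ∀ k, Inn l r α ε (X k) (Y (k + 1))) (hN : ∀ k, α ≤ l (X k) ∧ l (X k) ≤ ε)
    (hS : ∀ k, ¬ X k ≤ Y k)
    (h2 : ∀ k, c (l (X k)) < c (l (Y k)) + K ∧ c (l (Y k)) < c (l (X k)) + K)
    (h8 : ∀ k, c (l (X k)) % M = c (l (X (k + 1))) % M)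
    (hT : ∀ k k' b p, c (l (X k)) = c (l (X k')) → X k ≤ b → l b ≤ p → p ≤ r b → α ≤ p →
      p ≤ ε → c (l (X k)) < c p → X k' ≤ b) :
    ∀ k, c (l (X k)) = c (l (X (k + 1))) := by
  classical
  set f : ℕ → ℕ := fun k => c (l (X k)) with hf
  have hper : ∀ k, f (k + n) = f k := fun k => by simp only [hf, hX]
  have hperm : ∀ t k, f (k + n * t) = f k := by
    intro t
    induction t with
    | zero => intro k; simp
    | succ t ih =>
      intro k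
      rw [Nat.mul_succ, ← Nat.add_assoc, hper, ih]
  obtain ⟨ks, hks⟩ : ∃ ks, ∀ j, f ks ≤ f j := by
    obtain ⟨a, ⟨ks, rfl⟩, ha⟩ := WellFounded.has_min (r := ((· < ·) : ℕ → ℕ → Prop))
      wellFounded_lt (Set.range f) ⟨f 0, 0, rfl⟩
    exact ⟨ks, fun j => not_lt.1 (ha (f j) ⟨j, rfl⟩)⟩
  by_contra hcon
  push Not at hcon
  obtain ⟨k0, hk0⟩ := hcon
  have hall : ∀ j, (∀ i, f i = f ks → f (i + 1) = f ks) → f j = f ks := by
    intro j hst
    have h3 : ∀ i, f (ks + i) = f ks := by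
      intro i
      induction i with
      | zero => rfl
      | succ i ih => exact hst _ ih
    have h4 : f (j + n * ks) = f j := hperm ks j
    have h5 : ks ≤ j + n * ks := by nlinarith
    obtain ⟨i, hi⟩ := Nat.exists_eq_add_of_le h5
    rw [← h4, hi]
    exact h3 i
  have hall2 : ∀ j, (∀ i, f (i + 1) = f ks → f i = f ks) → f j = f ks := by
    intro j hst
    have h3 : ∀ i j, f (j + i) = f ks → f j = f ks := by
      intro i
      induction i with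
      | zero => intro j hj; exact hj
      | succ i ih =>
        intro j hj
        exact ih j (hst _ hj)
    have h4 : f (ks + n * j) = f ks := hperm j ks
    have h5 : j ≤ ks + n * j := by nlinarith
    obtain ⟨i, hi⟩ := Nat.exists_eq_add_of_le h5
    rw [hi] at h4
    exact h3 i j h4
  obtain ⟨k1, g1, g2⟩ : ∃ k1, f k1 = f ks ∧ f (k1 + 1) ≠ f ks := by
    by_contra hc
    push Not at hc
    exact hk0 ((hall k0 hc).trans (hall (k0 + 1) hc).symm)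
  obtain ⟨k2, g3, g4⟩ : ∃ k2, f (k2 + 1) = f ks ∧ f k2 ≠ f ks := by
    by_contra hc
    push Not at hc
    exact hk0 ((hall2 k0 hc).trans (hall2 (k0 + 1) hc).symm)
  -- steps are multiples of `M`
  have hmod : ∀ a b : ℕ, a % M = b % M → a < b → a + M ≤ b := by
    intro a b h h3
    by_contra hc
    exact absurd (key_mod h (by omega) (by omega)) (by omega)
  have s1 : f ks + M ≤ f (k1 + 1) := by
    have a1 := h8 k1
    have a2 := hks (k1 + 1)
    rw [← g1]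
    exact hmod _ _ a1 (by rw [g1]; omega)
  have s2 : f ks + M ≤ f k2 := by
    have a1 := h8 k2
    have a2 := hks k2
    rw [← g3]
    exact hmod _ _ a1.symm (by rw [g3]; omega)
  have t1 := h2 (k1 + 1)
  have t2 := h2 (k2 + 1)
  simp only [hf] at g1 g3 s1 s2
  have i1 := inn_inside N.lr N.cro (hI k1) (hN k1).1 (hN k1).2
  have i2 := inn_inside N.lr N.cro (hI k2) (hN k2).1 (hN k2).2
  have y1 := i1 _ (hI k1).1 le_rfl
  have y2 := i2 _ (hI k2).1 le_rfl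
  have r1 := N.lr (Y (k1 + 1))
  have r2 := N.lr (Y (k2 + 1))
  have n1 := hN k1
  have n2 := hN k2
  have hlt : l (X k1) < l (Y (k1 + 1)) := N.lt n1.2 (by omega) (by omega)
  obtain ⟨s, s3, s4, s5⟩ := N.ivt' (c (l (X ks)) + K) (l (X k1)) (l (Y (k1 + 1))) n1.1 (by omega)
    hlt.le (by omega) (by omega)
  obtain ⟨t, t3, t4, t5⟩ := N.ivt' (c (l (X ks)) + M - K) (l (X k1)) (l (Y (k1 + 1))) n1.1
    (by omega) hlt.le (by omega) (by omega)
  have hst : s < t := N.lt (by omega) (by omega) (by omega)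
  have c1 : l (X k1) < s := N.lt n1.2 (by omega) (by omega)
  have c2 : t < l (Y (k1 + 1)) := N.lt (by omega) (by omega) (by omega)
  have c3 : t < l (X k2) := N.lt (by omega) n2.1 (by omega)
  have c4 : l (Y (k2 + 1)) < s := N.lt (by omega) (by omega) (by omega)
  have := N.tc (X k1) (Y (k1 + 1)) (X k2) (Y (k2 + 1)) s t (hI k1) (hI k2) n1.1 n1.2 n2.1 n2.2
    hst.le (by omega) (by omega) (Or.inl ⟨c1, l (Y (k1 + 1)), c2, le_rfl, r1⟩)
    (Or.inr ⟨c3, l (Y (k2 + 1)), c4, le_rfl, r2⟩) (by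
      intro b p p1 p2 p3 p4 b1 b2 b3 b4
      have hp : c s ≤ c p := N.mono s p (by omega) p1 (by omega)
      exact hS (k2 + 1) ((hT k1 (k2 + 1) b p (by omega) b1 p3 p4 (by omega) (by omega)
        (by omega)).trans b4))
  omega

theorem Nd2.farR (N : Nd2 P l r α ε c B) (K : ℕ) (hK : B + 3 ≤ K) {x y x1 b1 : P} {q : ℕ}
    (hI : Inn l r α ε x y) (hx : α ≤ l x ∧ l x ≤ ε) (hx1 : α ≤ l x1 ∧ l x1 ≤ ε)
    (h1 : c (l x) < c (l x1)) (h2 : c (l x1) + K ≤ c (l y)) (hI1 : Inn l r α ε x1 b1)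
    (q1 : l b1 ≤ q) (q2 : q ≤ r b1) (q3 : c (l x1) + K ≤ c q) : x1 ≤ y := by
  by_contra hxy
  have i1 := inn_inside N.lr N.cro hI hx.1 hx.2
  have i2 := inn_inside N.lr N.cro hI1 hx1.1 hx1.2
  have y1 := i1 _ hI.1 le_rfl
  have y2 := i2 _ hI1.1 le_rfl
  have r1 := N.lr y
  have hlt : l x1 < l y := N.lt hx1.2 (by omega) (by omega)
  obtain ⟨s, s3, s4, s5⟩ := N.ivt' (c (l x1) + 1) (l x1) (l y) hx1.1 (by omega)
    hlt.le (by omega) (by omega)
  obtain ⟨t, t3, t4, t5⟩ := N.ivt' (c (l x1) + K - 1) (l x1) (l y) hx1.1 (by omega)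
    hlt.le (by omega) (by omega)
  have hst : s < t := N.lt (by omega) (by omega) (by omega)
  have c1 : l x < s := N.lt hx.2 (by omega) (by omega)
  have c2 : t < l y := N.lt (by omega) (by omega) (by omega)
  have c3 : l x1 < s := N.lt hx1.2 (by omega) (by omega)
  have c4 : t < q := N.lt (by omega) (by omega) (by omega)
  have := N.tc x y x1 b1 s t hI hI1 hx.1 hx.2 hx1.1 hx1.2 hst.le (by omega) (by omega)
    (Or.inl ⟨c1, l y, c2, le_rfl, r1⟩) (Or.inl ⟨c3, q, c4, q1, q2⟩)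
    (fun b p _ _ _ _ _ b2 b3 _ => hxy (b3.trans b2))
  omega

theorem Nd2.farL (N : Nd2 P l r α ε c B) (K : ℕ) (hK : B + 3 ≤ K) {x y x1 b1 : P} {q : ℕ}
    (hI : Inn l r α ε x y) (hx : α ≤ l x ∧ l x ≤ ε) (hx1 : α ≤ l x1 ∧ l x1 ≤ ε)
    (h1 : c (l x1) < c (l x)) (h2 : c (l y) + K ≤ c (l x1)) (hI1 : Inn l r α ε x1 b1)
    (q1 : l b1 ≤ q) (q2 : q ≤ r b1) (q3 : c q + K ≤ c (l x1)) : x1 ≤ y := by
  by_contra hxy
  have i1 := inn_inside N.lr N.cro hI hx.1 hx.2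
  have i2 := inn_inside N.lr N.cro hI1 hx1.1 hx1.2
  have y1 := i1 _ hI.1 le_rfl
  have y2 := i2 _ hI1.1 le_rfl
  have r1 := N.lr y
  have hlt : l y < l x1 := N.lt (by omega) hx1.1 (by omega)
  obtain ⟨s, s3, s4, s5⟩ := N.ivt' (c (l x1) + 1 - K) (l y) (l x1) (by omega) hx1.2
    hlt.le (by omega) (by omega)
  obtain ⟨t, t3, t4, t5⟩ := N.ivt' (c (l x1) - 1) (l y) (l x1) (by omega) hx1.2
    hlt.le (by omega) (by omega)
  have hst : s < t := N.lt (by omega) (by omega) (by omega)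
  have c1 : t < l x := N.lt (by omega) hx.1 (by omega)
  have c2 : l y < s := N.lt (by omega) (by omega) (by omega)
  have c3 : t < l x1 := N.lt (by omega) hx1.1 (by omega)
  have c4 : q < s := N.lt (by omega) (by omega) (by omega)
  have := N.tc x y x1 b1 s t hI hI1 hx.1 hx.2 hx1.1 hx1.2 hst.le (by omega) (by omega)
    (Or.inr ⟨c1, l y, c2, le_rfl, r1⟩) (Or.inr ⟨c3, q, c4, q1, q2⟩)
    (fun b p _ _ _ _ _ b2 b3 _ => hxy (b3.trans b2))
  omega

end nd2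

end Pool.Agent.Helper66.PD
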