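import Pool.Agent.Helper66.PD.Up5S

/-!
# Crossing bounds of the nodes
-/

set_option autoImplicit false

namespace Pool.Agent.Helper66.PD

open Finset

/-- the chain of a comparability covers every region which it crosses -/
theorem up5_cov (P : Type) [PartialOrder P] [Fintype P] (w h m : ℕ) (l r H : P → ℕ)
    (hR : Rep P w h m l r H) (x y : P) (hxy : x ≤ y) (s t : ℕ) (hst : s ≤ t)
    (hcr : Cr l r x y s t) :
    ∃ S : Finset P, (∀ b ∈ S, x ≤ b ∧ b ≤ y) ∧ S.card ≤ h ∧
      ∀ u, s ≤ u → u ≤ t → ∃ b ∈ S, l b ≤ u ∧ u + 1 ≤ r b := by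
  obtain ⟨S, -, s2, s3, s4⟩ := up4_chain P l r H h hR.adj hR.mono hR.lt x y (le_rtg hxy)
  refine ⟨S, s2, by omega, ?_⟩
  intro u h1 h2
  rcases hcr with ⟨c1, q, c2, c3, c4⟩ | ⟨c1, q, c2, c3, c4⟩
  · exact s4 u q c3 c4 (Or.inl ⟨by omega, by omega⟩)
  · exact s4 u q c3 c4 (Or.inr ⟨by omega, by omega⟩)

section com

variable {P : Type} {m : ℕ} {l r : P → ℕ} {A E C : ℕ → ℕ → ℕ}

theorem up5_cls (hH : Hier2 P m l r A E C) (i u q : ℕ) (hu : u < m) (h1 : A (i + 1) u ≤ q)
    (h2 : q ≤ E (i + 1) u) : A (i + 1) q = A (i + 1) u ∧ A i q = A i u ∧ C i q = C i u := by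
  have h0 := hH.mem (i + 1) u hu
  have h3 := hH.node (i + 1) u q hu h1 h2
  exact ⟨h3, (hH.child i q u (by omega) hu).1 h3⟩

end com

theorem tcg (hCRO : ST_CRO) : ST_TCG := by
  classical
  intro P _ _ w h m l r H A E C hR hH i a ha
  obtain ⟨m1, m2, m3⟩ := hH.mem i a ha
  have hA : ∀ p, A i a ≤ p → p ≤ E i a → A i p = A i a := fun p h1 h2 => hH.node i a p ha h1 h2
  have hcro := hCRO P w h m l r H hR
  refine ⟨hR.lr, ?_, ?_, hcro, ?_⟩
  · intro p q h1 h2 h3
    exact hH.mono i p q h2 (by omega) ((hA p h1 (h2.trans h3)).trans (hA q (h1.trans h2) h3).symm)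
  · intro p h1 h2
    exact hH.one i p (by omega) ((hA p h1 (by omega)).trans (hA (p + 1) (by omega) h2).symm)
  · intro x y x' y' s t hI hI' x1 x2 x1' x2' hst hs ht hcr hcr' hdis
    obtain ⟨S, a1, a2, a3⟩ := up5_cov P w h m l r H hR x y hI.1 s t hst hcr
    obtain ⟨S', b1, b2, b3⟩ := up5_cov P w h m l r H hR x' y' hI'.1 s t hst hcr'
    have i1 := inn_inside hR.lr hcro hI x1 x2
    have i2 := inn_inside hR.lr hcro hI' x1' x2'
    have claim : ∀ u, s ≤ u → u ≤ t →
        C i u ≤ C i s + 1 + ((S ∪ S').filter (fun f => r f < u)).card := by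
      intro u
      induction u using Nat.strong_induction_on with
      | _ u ih =>
        intro hsu hut
        have hum : u < m := by omega
        obtain ⟨n1, n2, n3⟩ := hH.mem (i + 1) u hum
        by_cases hp : A (i + 1) u ≤ s
        · have := (up5_cls hH i u s hum hp (by omega)).2.2
          omega
        · push Not at hp
          obtain ⟨q, hq⟩ : ∃ q, A (i + 1) u = q + 1 := ⟨A (i + 1) u - 1, by omega⟩
          have hqm : q < m := by omega
          have hAq := hA q (by omega) (by omega)
          have hAq1 := hA (q + 1) (by omega) (by omega)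
          have e1 := up5_cls hH i u (q + 1) hum (by omega) (by omega)
          have e2 := hH.one i q (by omega) (hAq.trans hAq1.symm)
          obtain ⟨k1, k2, k3⟩ := hH.mem (i + 1) q hqm
          by_cases hp' : A (i + 1) q ≤ s
          · have := (up5_cls hH i q s hqm hp' (by omega)).2.2
            omega
          · push Not at hp'
            have e3 := up5_cls hH i q (A (i + 1) q) hqm le_rfl (by omega)
            obtain ⟨b, c1, c2, c3⟩ := a3 (A (i + 1) q - 1) (by omega) (by omega)
            obtain ⟨d, d1, d2, d3⟩ := b3 (A (i + 1) q - 1) (by omega) (by omega)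
            have hbd : b ≠ d := by
              rintro rfl
              exact hdis b (A (i + 1) q) hp'.le (by omega) (by omega) (by omega) (a1 b c1).1
                (a1 b c1).2 (b1 b d1).1 (b1 b d1).2
            have j1 := i1 b (a1 b c1).1 (a1 b c1).2
            have j2 := i2 d (b1 d d1).1 (b1 d d1).2
            have hfr : ∃ f ∈ S ∪ S', A (i + 1) q ≤ r f ∧ r f < u := by
              by_cases g1 : q + 1 ≤ r b
              · by_cases g2 : q + 1 ≤ r d
                · exfalso
                  have hE := hH.eqE i q a hqm ha hAq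
                  have g3 := hH.greedy i q b d (q + 1) hqm hbd (by rw [hAq]; omega)
                    (by rw [hAq]; omega) (by omega) (by omega) (by omega) (by rw [hE]; omega)
                    g1 g2
                  have g4 := (hH.child i (q + 1) q (by omega) hqm).2
                    ⟨hAq1.trans hAq.symm, g3⟩
                  omega
                · exact ⟨d, mem_union_right _ d1, by omega, by omega⟩
              · exact ⟨b, mem_union_left _ c1, by omega, by omega⟩
            obtain ⟨f, f1, f2, f3⟩ := hfr
            have h5 := ih (A (i + 1) q) (by omega) hp'.le (by omega)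
            have h6 : ((S ∪ S').filter (fun f => r f < A (i + 1) q)).card <
                ((S ∪ S').filter (fun f => r f < u)).card := by
              refine card_lt_card ⟨?_, ?_⟩
              · intro z hz
                rw [mem_filter] at hz ⊢
                exact ⟨hz.1, by omega⟩
              · intro hz
                have := hz (show f ∈ (S ∪ S').filter (fun f => r f < u) by
                  rw [mem_filter]; exact ⟨f1, f3⟩)
                rw [mem_filter] at this
                omega
            omega
    have h1 := claim t hst le_rfl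
    have h2 := card_filter_le (S ∪ S') (fun f => r f < t)
    have h3 := card_union_le S S'
    omega

theorem tcl (hCRO : ST_CRO) : ST_TCL := by
  classical
  intro P _ _ w h m l r H A E C hR hH i a ha hwi
  obtain ⟨m1, m2, m3⟩ := hH.mem i a ha
  have hA : ∀ p, A i a ≤ p → p ≤ E i a → A i p = A i a := fun p h1 h2 => hH.node i a p ha h1 h2
  have hcro := hCRO P w h m l r H hR
  have two : ∀ p b b' d, A i a ≤ p → p ≤ E i a → b ≠ b' → l b ≤ p → p ≤ r b → l b' ≤ p →
      p ≤ r b' → l d ≤ p → p ≤ r d → ¬ (l b ≤ A i a ∧ E i a ≤ r b) →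
      ¬ (l b' ≤ A i a ∧ E i a ≤ r b') → ¬ (l d ≤ A i a ∧ E i a ≤ r d) → d = b ∨ d = b' := by
    intro p b b' d h1 h2 hbb hb1 hb2 hb1' hb2' hd1 hd2 nb nb' nd
    have e1 := hA p h1 h2
    have e2 := hH.eqE i p a (by omega) ha e1
    by_contra hcon
    push Not at hcon
    rcases spn2 P m l r A E C hH p (by omega) i with hs | hs
    · have := hs b hb1 hb2
      rw [e1, e2] at this
      exact nb this
    · rw [e1, e2] at hs
      set K := univ.filter (fun z => l z ≤ A i a ∧ E i a ≤ r z) with hK
      have k1 : b ∉ K := fun hx => nb (by rw [hK, mem_filter] at hx; exact hx.2)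
      have k2 : b' ∉ K := fun hx => nb' (by rw [hK, mem_filter] at hx; exact hx.2)
      have k3 : d ∉ K := fun hx => nd (by rw [hK, mem_filter] at hx; exact hx.2)
      have k4 : b' ∉ insert d K := by
        rw [mem_insert]
        rintro (hx | hx)
        · exact hcon.2 hx.symm
        · exact k2 hx
      have k5 : b ∉ insert b' (insert d K) := by
        rw [mem_insert, mem_insert]
        rintro (hx | hx | hx)
        · exact hbb hx
        · exact hcon.1 hx.symm
        · exact k1 hx
      have hsub : insert b (insert b' (insert d K)) ⊆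
          univ.filter (fun z => l z ≤ p ∧ p ≤ r z) := by
        intro z hz
        rw [mem_insert, mem_insert, mem_insert] at hz
        rw [mem_filter]
        rcases hz with rfl | rfl | rfl | hz
        · exact ⟨mem_univ _, hb1, hb2⟩
        · exact ⟨mem_univ _, hb1', hb2'⟩
        · exact ⟨mem_univ _, hd1, hd2⟩
        · rw [hK, mem_filter] at hz
          exact ⟨mem_univ _, hz.2.1.trans h1, h2.trans hz.2.2⟩
      have hcd := (card_le_card hsub).trans (hR.card p)
      rw [card_insert_of_notMem k5, card_insert_of_notMem k4, card_insert_of_notMem k3] at hcd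
      omega
  refine ⟨hR.lr, ?_, ?_, hcro, ?_⟩
  · intro p q h1 h2 h3
    exact hH.mono i p q h2 (by omega) ((hA p h1 (h2.trans h3)).trans (hA q (h1.trans h2) h3).symm)
  · intro p h1 h2
    exact hH.one i p (by omega) ((hA p h1 (by omega)).trans (hA (p + 1) (by omega) h2).symm)
  · intro x y x' y' s t hI hI' x1 x2 x1' x2' hst hs ht hcr hcr' hdis
    obtain ⟨S, a1, a2, a3⟩ := up5_cov P w h m l r H hR x y hI.1 s t hst hcr
    obtain ⟨S', b1, b2, b3⟩ := up5_cov P w h m l r H hR x' y' hI'.1 s t hst hcr'
    have i1 := inn_inside hR.lr hcro hI x1 x2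
    have i2 := inn_inside hR.lr hcro hI' x1' x2'
    obtain ⟨b, c1, c2, c3⟩ := a3 s le_rfl hst
    obtain ⟨d, d1, d2, d3⟩ := b3 s le_rfl hst
    have jb := i1 b (a1 b c1).1 (a1 b c1).2
    have jd := i2 d (b1 d d1).1 (b1 d d1).2
    have hne : ∀ f g u, f ∈ S → g ∈ S' → s ≤ u → u ≤ t → l f ≤ u → u ≤ r f → f ≠ g := by
      rintro f g u hf hg hu1 hu2 hu3 hu4 rfl
      exact hdis f u hu1 hu2 hu3 hu4 (a1 f hf).1 (a1 f hf).2 (b1 f hg).1 (b1 f hg).2
    have hall : ∀ j, s + j ≤ t → s + j ≤ r b ∧ s + j ≤ r d := by
      intro j
      induction j with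
      | zero => intro _; exact ⟨by omega, by omega⟩
      | succ j ih =>
        intro hj
        obtain ⟨g1, g2⟩ := ih (by omega)
        obtain ⟨f, f1, f2, f3⟩ := a3 (s + j) (by omega) (by omega)
        obtain ⟨g, q1, q2, q3⟩ := b3 (s + j) (by omega) (by omega)
        have jf := i1 f (a1 f f1).1 (a1 f f1).2
        have jg := i2 g (b1 g q1).1 (b1 g q1).2
        have hbd : b ≠ d := hne b d (s + j) c1 d1 (by omega) (by omega) (by omega) (by omega)
        have hfd : f ≠ d := hne f d (s + j) f1 d1 (by omega) (by omega) (by omega) (by omega)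
        have hbg : b ≠ g := hne b g (s + j) c1 q1 (by omega) (by omega) (by omega) (by omega)
        have hf := two (s + j) b d f (by omega) (by omega) hbd (by omega) (by omega) (by omega)
          (by omega) (by omega) (by omega) (by omega) (by omega) (by omega)
        have hg := two (s + j) b d g (by omega) (by omega) hbd (by omega) (by omega) (by omega)
          (by omega) (by omega) (by omega) (by omega) (by omega) (by omega)
        rcases hf with hf | hf
        · rcases hg with hg | hg
          · exact absurd hg.symm hbg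
          · subst hf
            subst hg
            exact ⟨by omega, by omega⟩
        · exact absurd hf hfd
    have ht1 := hall (t - s) (by omega)
    rw [show s + (t - s) = t by omega] at ht1
    have hbd : b ≠ d := hne b d s c1 d1 le_rfl hst c2 (by omega)
    have hsm : s < m := by omega
    obtain ⟨n1, n2, n3⟩ := hH.mem (i + 1) s hsm
    by_cases hts : t ≤ E (i + 1) s
    · have := (up5_cls hH i s t hsm (by omega) hts).2.2
      omega
    · push Not at hts
      obtain ⟨p, hp⟩ : ∃ p, p = E (i + 1) s + 1 := ⟨_, rfl⟩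
      have hpm : p < m := by omega
      have hAs := hA s hs (by omega)
      have hAp := hA p (by omega) (by omega)
      have e0 := up5_cls hH i s (E (i + 1) s) hsm (by omega) le_rfl
      have e1 : C i p ≤ C i (E (i + 1) s) + 1 := by
        rw [hp]
        refine hH.one i (E (i + 1) s) (by omega) ?_
        rw [e0.2.1, hAs, ← hp, hAp]
      obtain ⟨k1, k2, k3⟩ := hH.mem (i + 1) p hpm
      have hst1 : A (i + 1) p = p := by
        by_contra hc
        have g1 := up5_cls hH i p (E (i + 1) s) hpm (by omega) (by omega)
        have g2 := hH.eqE (i + 1) p s hpm hsm (g1.1.symm.trans e0.1)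
        omega
      have hE := hH.eqE i p a hpm ha hAp
      have g3 := hH.greedy i p b d t hpm hbd (by rw [hAp]; omega) (by rw [hAp]; omega)
        (by omega) (by omega) (by omega) (by rw [hE]; omega) ht1.1 ht1.2
      omega

end Pool.Agent.Helper66.PD
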