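import Pool.Agent.Helper66.PD.Up4

/-!
# Statements: crossing bounds of the nodes
-/

set_option autoImplicit false

namespace Pool.Agent.Helper66.PD

open Finset

/-- TCG: two disjoint chains in a node meet at most `2 * h + 1` children of a region -/
def ST_TCG : Prop := ∀ (P : Type) [PartialOrder P] [Fintype P] (w h m : ℕ) (l r H : P → ℕ)
  (A E C : ℕ → ℕ → ℕ), Rep P w h m l r H → Hier2 P m l r A E C → ∀ i a, a < m →
  Nd2 P l r (A i a) (E i a) (C i) (2 * h + 1)

/-- TCL: if at most two elements of a bag do not span the node, then two children -/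
def ST_TCL : Prop := ∀ (P : Type) [PartialOrder P] [Fintype P] (w h m : ℕ) (l r H : P → ℕ)
  (A E C : ℕ → ℕ → ℕ), Rep P w h m l r H → Hier2 P m l r A E C → ∀ i a, a < m → w ≤ 2 * i + 1 →
  Nd2 P l r (A i a) (E i a) (C i) 1

end Pool.Agent.Helper66.PD
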