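import Pool.Agent.Helper66.PD.Up5S

/-!
# Dimension and height of posets with cover graph of path-width `w`: exponent `w / 2`, colouring
-/

set_option autoImplicit false

namespace Pool.Agent.Helper66.PD

open Finset

open Classical in
/-- on level `w / 2 + 1` every element of a bag spans the node -/
theorem lst2 (P : Type) [Fintype P] (w J m : ℕ) (hJ : w ≤ 2 * J + 1) (l r : P → ℕ)
    (A E C : ℕ → ℕ → ℕ)
    (hcard : ∀ p, (univ.filter (fun x => l x ≤ p ∧ p ≤ r x)).card ≤ w + 1)
    (hH : Hier2 P m l r A E C) (z : P) (p : ℕ) (hp : p < m) (h1 : l z ≤ p) (h2 : p ≤ r z) :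
    l z ≤ A (J + 1) p ∧ E (J + 1) p ≤ r z := by
  obtain ⟨m1, m2, m3⟩ := hH.mem (J + 1) p hp
  rcases spn2 P m l r A E C hH p hp (J + 1) with hs | hs
  · exact hs z h1 h2
  · have hsub : univ.filter (fun x => l x ≤ A (J + 1) p ∧ E (J + 1) p ≤ r x) ⊆
        univ.filter (fun x => l x ≤ p ∧ p ≤ r x) := by
      intro x hx
      rw [mem_filter] at hx ⊢
      exact ⟨mem_univ _, hx.2.1.trans m1, m2.trans hx.2.2⟩
    have heq := eq_of_subset_of_card_le hsub ((hcard p).trans (by omega))
    have hz : z ∈ univ.filter (fun x => l x ≤ p ∧ p ≤ r x) := by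
      rw [mem_filter]; exact ⟨mem_univ _, h1, h2⟩
    rw [← heq, mem_filter] at hz
    exact hz.2

/-- the colours -/
abbrev Col4 (w J h : ℕ) : Type :=
  Fin (J + 2) × Bool × Bool × Bool × Bool × (Fin J → Fin (18 * h)) × Fin 10 ×
    (Fin (J + 2) → Finset (Fin (w + 1)) × Finset (Fin (w + 1)))

/-- the constant -/
def CW4 (w J : ℕ) : ℕ :=
  (J + 2) * 2 * 2 * 2 * 2 * 18 ^ J * 10 * (2 ^ (w + 1) * 2 ^ (w + 1)) ^ (J + 2)

theorem crd4 (w J h : ℕ) : Fintype.card (Col4 w J h) = CW4 w J * h ^ J := by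
  simp only [Col4, CW4, Fintype.card_prod, Fintype.card_fun, Fintype.card_finset,
    Fintype.card_fin, Fintype.card_bool, mul_pow]
  ring

/-- KEY4: every colour class is without alternating cycles -/
def ST_KEY4 : Prop := ∀ (P : Type) [PartialOrder P] [Fintype P] (w J h m : ℕ) (l r H : P → ℕ)
  (A E C : ℕ → ℕ → ℕ) (e : ℕ → P → Fin (w + 1)), w ≤ 2 * J + 1 → 1 ≤ h → Rep P w h m l r H →
  Hier2 P m l r A E C →
  (∀ z p, p < m → l z ≤ p → p ≤ r z → l z ≤ A (J + 1) p ∧ E (J + 1) p ≤ r z) →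
  (∀ p x y, l x ≤ p → p ≤ r x → l y ≤ p → p ≤ r y → e p x = e p y → x = y) →
  ∃ χ : P → P → Col4 w J h, ∀ (c : Col4 w J h) (n : ℕ) (t : ℕ → P × P), 1 ≤ n →
    (∀ k, t (k + n) = t k) →
    ¬ ∀ k, Alt P (fun x y => ¬ x ≤ y ∧ χ x y = c) (t k) (t (k + 1))

theorem key4 (hCRO : ST_CRO) (hTCG : ST_TCG) (hTCL : ST_TCL) : ST_KEY4 := by
  classical
  intro P _ _ w J h m l r H A E C e hwJ hh hR hH hL hI
  have hlm : ∀ x, l x < m := fun x => lt_of_le_of_lt (hR.lr x) (hR.rm x)
  -- the level
  set lev : P → P → ℕ := fun x y => Nat.findGreatest (fun i => A i (l x) = A i (l y)) (J + 1)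
    with hlev
  have lev_le : ∀ x y, lev x y ≤ J + 1 := fun x y => Nat.findGreatest_le _
  have down : ∀ x y i, A i (l x) = A i (l y) → ∀ j, j ≤ i → A j (l x) = A j (l y) := by
    intro x y i
    induction i with
    | zero => intro h0 j hj; rw [Nat.le_zero.1 hj]; exact h0
    | succ i ih =>
      intro h0 j hj
      rcases Nat.le_succ_iff.1 hj with h1 | h1
      · exact ih ((hH.child i _ _ (hlm x) (hlm y)).1 h0).1 j h1
      · rw [h1]; exact h0
  have lev_sp : ∀ x y, A (lev x y) (l x) = A (lev x y) (l y) := fun x y =>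
    Nat.findGreatest_spec (P := fun i => A i (l x) = A i (l y)) (Nat.zero_le (J + 1))
      (hH.zero _ _ (hlm x) (hlm y))
  have lev_eq : ∀ x y j, j ≤ lev x y → A j (l x) = A j (l y) := fun x y j hj =>
    down x y _ (lev_sp x y) j hj
  have lev_ne : ∀ x y, lev x y ≤ J → C (lev x y) (l x) ≠ C (lev x y) (l y) := by
    intro x y hv hc
    have h1 : A (lev x y + 1) (l x) = A (lev x y + 1) (l y) :=
      (hH.child _ _ _ (hlm x) (hlm y)).2 ⟨lev_sp x y, hc⟩
    exact Nat.findGreatest_is_greatest (P := fun i => A i (l x) = A i (l y))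
      (n := J + 1) (Nat.lt_succ_self (lev x y)) (by omega) h1
  have h2h : 0 < 18 * h := by omega
  obtain ⟨K, hK⟩ : ∃ K : ℕ → ℕ, ∀ i, K i = if i < J then 6 * h else 4 := ⟨_, fun _ => rfl⟩
  obtain ⟨M, hM⟩ : ∃ M : ℕ → ℕ, ∀ i, M i = if i < J then 18 * h else 10 := ⟨_, fun _ => rfl⟩
  have hN2 : ∀ i a, a < m → i ≤ J → ∃ B, Nd2 P l r (A i a) (E i a) (C i) B ∧ B + 3 ≤ K i ∧
      2 * K i + B + 1 ≤ M i := by
    intro i a ha hi
    rcases Nat.lt_or_ge i J with h1 | h1
    · refine ⟨2 * h + 1, hTCG P w h m l r H A E C hR hH i a ha, ?_, ?_⟩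
      · rw [hK, if_pos h1]; omega
      · rw [hK, hM, if_pos h1, if_pos h1]; omega
    · refine ⟨1, hTCL P w h m l r H A E C hR hH i a ha (by omega), ?_, ?_⟩
      · rw [hK, if_neg (by omega)]
      · rw [hK, hM, if_neg (by omega), if_neg (by omega)]
  let χ : P → P → Col4 w J h := fun x y =>
    (⟨lev x y, Nat.lt_succ_of_le (lev_le x y)⟩,
      decide (C (lev x y) (l x) < C (lev x y) (l y)),
      decide (C (lev x y) (l x) < C (lev x y) (l y) + K (lev x y) ∧
        C (lev x y) (l y) < C (lev x y) (l x) + K (lev x y)),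
      decide (∃ b q, Inn l r (A (lev x y) (l x)) (E (lev x y) (l x)) x b ∧ l b ≤ q ∧ q ≤ r b ∧
        C (lev x y) (l x) + K (lev x y) ≤ C (lev x y) q),
      decide (∃ b q, Inn l r (A (lev x y) (l x)) (E (lev x y) (l x)) x b ∧ l b ≤ q ∧ q ≤ r b ∧
        C (lev x y) q + K (lev x y) ≤ C (lev x y) (l x)),
      fun j => ⟨C j (l x) % (18 * h), Nat.mod_lt _ h2h⟩,
      ⟨C J (l x) % 10, Nat.mod_lt _ (by norm_num)⟩,
      fun j => (key_tr l r e (A j (l x)) x, key_tr l r e (E j (l x)) x))
  refine ⟨χ, ?_⟩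
  intro c n t hn hper hall
  have hS : ∀ k, ¬ (t k).1 ≤ (t k).2 := fun k => (hall k).1.1
  have hχ : ∀ k, χ (t k).1 (t k).2 = χ (t (k + 1)).1 (t (k + 1)).2 := fun k =>
    (hall k).1.2.trans (hall k).2.1.2.symm
  have hle : ∀ k, (t k).1 ≤ (t (k + 1)).2 := fun k => (hall k).2.2
  set X : ℕ → P := fun k => (t k).1 with hX
  set Y : ℕ → P := fun k => (t k).2 with hY
  have hv1 : ∀ k, lev (X k) (Y k) = lev (X (k + 1)) (Y (k + 1)) := fun k =>
    congrArg Fin.val (congrArg Prod.fst (hχ k))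
  set v := lev (X 0) (Y 0) with hvdef
  have hv : ∀ k, lev (X k) (Y k) = v := by
    intro k
    induction k with
    | zero => rfl
    | succ k ih => rw [← hv1 k]; exact ih
  have hvw : v ≤ J + 1 := lev_le _ _
  have hσ : ∀ k, (C v (l (X k)) < C v (l (Y k)) ↔
      C v (l (X (k + 1))) < C v (l (Y (k + 1)))) := by
    intro k
    have h1 := congrArg (fun z : Col4 w J h => z.2.1) (hχ k)
    have h2 := decide_eq_decide.1 h1
    rw [show lev (t k).1 (t k).2 = v from hv k,
      show lev (t (k + 1)).1 (t (k + 1)).2 = v from hv (k + 1)] at h2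
    exact h2
  have hν : ∀ k, ((C v (l (X k)) < C v (l (Y k)) + K v ∧ C v (l (Y k)) < C v (l (X k)) + K v) ↔
      (C v (l (X (k + 1))) < C v (l (Y (k + 1))) + K v ∧
        C v (l (Y (k + 1))) < C v (l (X (k + 1))) + K v)) := by
    intro k
    have h1 := congrArg (fun z : Col4 w J h => z.2.2.1) (hχ k)
    have h2 := decide_eq_decide.1 h1
    rw [show lev (t k).1 (t k).2 = v from hv k,
      show lev (t (k + 1)).1 (t (k + 1)).2 = v from hv (k + 1)] at h2
    exact h2
  have hfR : ∀ k, ((∃ b q, Inn l r (A v (l (X k))) (E v (l (X k))) (X k) b ∧ l b ≤ q ∧ q ≤ r b ∧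
      C v (l (X k)) + K v ≤ C v q) ↔
      (∃ b q, Inn l r (A v (l (X (k + 1)))) (E v (l (X (k + 1)))) (X (k + 1)) b ∧ l b ≤ q ∧
      q ≤ r b ∧ C v (l (X (k + 1))) + K v ≤ C v q)) := by
    intro k
    have h1 := congrArg (fun z : Col4 w J h => z.2.2.2.1) (hχ k)
    have h2 := decide_eq_decide.1 h1
    rw [show lev (t k).1 (t k).2 = v from hv k,
      show lev (t (k + 1)).1 (t (k + 1)).2 = v from hv (k + 1)] at h2
    exact h2
  have hfL : ∀ k, ((∃ b q, Inn l r (A v (l (X k))) (E v (l (X k))) (X k) b ∧ l b ≤ q ∧ q ≤ r b ∧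
      C v q + K v ≤ C v (l (X k))) ↔
      (∃ b q, Inn l r (A v (l (X (k + 1)))) (E v (l (X (k + 1)))) (X (k + 1)) b ∧ l b ≤ q ∧
      q ≤ r b ∧ C v q + K v ≤ C v (l (X (k + 1))))) := by
    intro k
    have h1 := congrArg (fun z : Col4 w J h => z.2.2.2.2.1) (hχ k)
    have h2 := decide_eq_decide.1 h1
    rw [show lev (t k).1 (t k).2 = v from hv k,
      show lev (t (k + 1)).1 (t (k + 1)).2 = v from hv (k + 1)] at h2
    exact h2
  have hmod : ∀ k i, i ≤ J → C i (l (X k)) % M i = C i (l (X (k + 1))) % M i := by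
    intro k i hi
    rcases Nat.lt_or_ge i J with h0 | h0
    · rw [hM, if_pos h0]
      have h1 := congrFun (congrArg (fun z : Col4 w J h => z.2.2.2.2.2.1) (hχ k)) ⟨i, h0⟩
      exact congrArg Fin.val h1
    · rw [hM, if_neg (by omega)]
      have hiJ : i = J := by omega
      subst hiJ
      have h1 := congrArg (fun z : Col4 w i h => z.2.2.2.2.2.2.1) (hχ k)
      exact congrArg Fin.val h1
  have htA : ∀ k j, j ≤ J + 1 → key_tr l r e (A j (l (X k))) (X k) =
      key_tr l r e (A j (l (X (k + 1)))) (X (k + 1)) := by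
    intro k j hj
    have h1 := congrFun (congrArg (fun z : Col4 w J h => z.2.2.2.2.2.2.2) (hχ k)) ⟨j, by omega⟩
    exact congrArg Prod.fst h1
  have htE : ∀ k j, j ≤ J + 1 → key_tr l r e (E j (l (X k))) (X k) =
      key_tr l r e (E j (l (X (k + 1)))) (X (k + 1)) := by
    intro k j hj
    have h1 := congrFun (congrArg (fun z : Col4 w J h => z.2.2.2.2.2.2.2) (hχ k)) ⟨j, by omega⟩
    exact congrArg Prod.snd h1
  have htE0 : ∀ j, j ≤ J + 1 → ∀ k, key_tr l r e (E j (l (X k))) (X k) =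
      key_tr l r e (E j (l (X 0))) (X 0) := by
    intro j hj k
    induction k with
    | zero => rfl
    | succ k ih => exact (htE k j hj).symm.trans ih
  -- no element in between contains an end of the node
  have noend : ∀ k i, i ≤ J + 1 → A i (l (X k)) = A i (l (X (k + 1))) → ∀ b, X k ≤ b →
      b ≤ Y (k + 1) → ¬ (l b ≤ A i (l (X k)) ∧ A i (l (X k)) ≤ r b) ∧
        ¬ (l b ≤ E i (l (X k)) ∧ E i (l (X k)) ≤ r b) := by
    intro k i hi hA b hb1 hb2
    have hE := hH.eqE i _ _ (hlm _) (hlm _) hA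
    refine ⟨fun hc => ?_, fun hc => ?_⟩
    · have h1 := htA k i hi
      rw [← hA] at h1
      exact hS (k + 1) ((key_tr_eq hI h1 hb1 hc.1 hc.2).trans hb2)
    · have h1 := htE k i hi
      rw [← hE] at h1
      exact hS (k + 1) ((key_tr_eq hI h1 hb1 hc.1 hc.2).trans hb2)
  have hperX : ∀ k, X (k + n) = X k := fun k => by
    have := hper k
    simp only [hX, this]
  -- the node of level `i`
  have node_all : ∀ i, i ≤ J + 1 → (∀ k, A i (l (X k)) = A i (l (X (k + 1)))) → ∀ k,
      A i (l (X k)) = A i (l (X 0)) ∧ E i (l (X k)) = E i (l (X 0)) ∧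
      (A i (l (X 0)) ≤ l (X k) ∧ l (X k) ≤ E i (l (X 0))) ∧
      Inn l r (A i (l (X 0))) (E i (l (X 0))) (X k) (Y (k + 1)) := by
    intro i hi hA k
    have h1 : A i (l (X k)) = A i (l (X 0)) := by
      induction k with
      | zero => rfl
      | succ k ih => exact (hA k).symm.trans ih
    have h2 := hH.eqE i _ _ (hlm _) (hlm _) h1
    have h3 := hH.mem i (l (X k)) (hlm _)
    rw [h1, h2] at h3
    refine ⟨h1, h2, ⟨h3.1, h3.2.1⟩, hle k, ?_⟩
    have h4 := noend k i hi (hA k)
    rw [h1, h2] at h4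
    exact h4
  have nearlev : ∀ i, i ≤ J → (∀ k, A i (l (X k)) = A i (l (X (k + 1)))) →
      (∀ k, C i (l (X k)) < C i (l (Y k)) + K i ∧ C i (l (Y k)) < C i (l (X k)) + K i) →
      ∀ k, C i (l (X k)) = C i (l (X (k + 1))) := by
    intro i hi hA hKK
    have hN := node_all i (by omega) hA
    obtain ⟨B, N, b1, b2⟩ := hN2 i (l (X 0)) (hlm _) hi
    refine N.near (K i) (M i) n b1 b2 hn X Y hperX (fun k => (hN k).2.2.2)
      (fun k => (hN k).2.2.1) hS hKK (fun k => hmod k i hi) ?_
    intro k k' b p g1 g2 g3 g4 g5 g6 g7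
    have h6 : A (i + 1) (l (X k)) = A (i + 1) (l (X k')) :=
      (hH.child i _ _ (hlm _) (hlm _)).2 ⟨(hN k).1.trans (hN k').1.symm, g1⟩
    have h7 := hH.eqE (i + 1) _ _ (hlm _) (hlm _) h6
    obtain ⟨m1, m2, m3⟩ := hH.mem (i + 1) (l (X k)) (hlm _)
    have h9 : A (i + 1) (E (i + 1) (l (X k))) = A (i + 1) (l (X k)) :=
      hH.node (i + 1) _ _ (hlm _) (m1.trans m2) le_rfl
    obtain ⟨h10, h11⟩ := (hH.child i _ _ m3 (hlm _)).1 h9
    have h8 : E (i + 1) (l (X k)) < p := by
      by_contra hcon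
      push Not at hcon
      have hp : A i p = A i (l (X 0)) := hH.node i (l (X 0)) p (hlm _) g5 g6
      have h12 : A i p = A i (E (i + 1) (l (X k))) := by rw [h10, hp, (hN k).1]
      have h13 := hH.mono i _ _ hcon m3 h12
      omega
    have h15 : ∃ b1, X k ≤ b1 ∧ b1 ≤ b ∧ l b1 ≤ E (i + 1) (l (X k)) ∧
        E (i + 1) (l (X k)) ≤ r b1 := by
      by_cases h16 : l b ≤ E (i + 1) (l (X k))
      · exact ⟨b, g2, le_rfl, h16, by omega⟩
      · exact hCRO P w h m l r H hR (X k) b (E (i + 1) (l (X k))) g2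
          (Or.inl ⟨m2, not_le.1 h16⟩)
    obtain ⟨b1, e1, e2, e3, e4⟩ := h15
    have h14 : key_tr l r e (E (i + 1) (l (X k))) (X k) =
        key_tr l r e (E (i + 1) (l (X k'))) (X k') :=
      (htE0 (i + 1) (by omega) k).trans (htE0 (i + 1) (by omega) k').symm
    rw [← h7] at h14
    exact (key_tr_eq hI h14 e1 e3 e4).trans e2
  have hKpos : ∀ i, 0 < K i := by
    intro i
    rw [hK]
    split_ifs
    · omega
    · norm_num
  -- all positions are in the same node up to level `v`
  have same : ∀ i, i ≤ v → ∀ k, A i (l (X k)) = A i (l (X (k + 1))) := by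
    intro i
    induction i with
    | zero => intro _ k; exact hH.zero _ _ (hlm _) (hlm _)
    | succ i ih =>
      intro hi k
      have hc : ∀ k, C i (l (X k)) = C i (l (Y k)) := by
        intro k
        have h3 := lev_eq (X k) (Y k) (i + 1) (by rw [hv k]; exact hi)
        exact ((hH.child i _ _ (hlm _) (hlm _)).1 h3).2
      have hK0 := hKpos i
      have h5 := nearlev i (by omega) (fun k => ih (by omega) k)
        (fun k => by have := hc k; omega) k
      exact (hH.child i _ _ (hlm _) (hlm _)).2 ⟨ih (by omega) k, h5⟩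
  have hAv := same v le_rfl
  rcases Nat.lt_or_ge v (J + 1) with hvlt | hvge
  · -- `v ≤ J`
    have hvJ : v ≤ J := by omega
    have hne : ∀ k, C v (l (X k)) ≠ C v (l (Y k)) := by
      intro k
      have := lev_ne (X k) (Y k) (by rw [hv k]; exact hvJ)
      rwa [hv k] at this
    have hXY : ∀ k, A v (l (X k)) = A v (l (Y k)) := fun k =>
      lev_eq (X k) (Y k) v (by rw [hv k])
    have hσ' : ∀ k, (C v (l (X k)) < C v (l (Y k)) ↔ C v (l (X 0)) < C v (l (Y 0))) := by
      intro k
      induction k with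
      | zero => rfl
      | succ k ih => exact (hσ k).symm.trans ih
    have hν' : ∀ k, ((C v (l (X k)) < C v (l (Y k)) + K v ∧
        C v (l (Y k)) < C v (l (X k)) + K v) ↔
        (C v (l (X 0)) < C v (l (Y 0)) + K v ∧ C v (l (Y 0)) < C v (l (X 0)) + K v)) := by
      intro k
      induction k with
      | zero => rfl
      | succ k ih => exact (hν k).symm.trans ih
    have hN := node_all v (by omega) hAv
    -- no two consecutive pairs in one child
    have nz : ∀ k, C v (l (X k)) ≠ C v (l (X (k + 1))) := by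
      intro k h5
      have h6 : A (v + 1) (l (X k)) = A (v + 1) (l (X (k + 1))) :=
        (hH.child v _ _ (hlm _) (hlm _)).2 ⟨hAv k, h5⟩
      have h7 := hH.eqE (v + 1) _ _ (hlm _) (hlm _) h6
      obtain ⟨m1, m2, m3⟩ := hH.mem (v + 1) (l (X k)) (hlm _)
      by_cases hs : C v (l (X 0)) < C v (l (Y 0))
      · have hsk := (hσ' (k + 1)).2 hs
        have h8 : E (v + 1) (l (X k)) < l (Y (k + 1)) := by
          by_contra hcon
          push Not at hcon
          have h9 : A (v + 1) (E (v + 1) (l (X k))) = A (v + 1) (l (X k)) :=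
            hH.node (v + 1) _ _ (hlm _) (m1.trans m2) le_rfl
          obtain ⟨h10, h11⟩ := (hH.child v _ _ m3 (hlm _)).1 h9
          have h12 : A v (l (Y (k + 1))) = A v (E (v + 1) (l (X k))) := by
            rw [h10, hAv k, hXY (k + 1)]
          have h13 := hH.mono v _ _ hcon m3 h12
          omega
        obtain ⟨b, b1, b2, b3, b4⟩ := hCRO P w h m l r H hR (X k) (Y (k + 1))
          (E (v + 1) (l (X k))) (hle k) (Or.inl ⟨m2, h8⟩)
        have h14 := htE k (v + 1) (by omega)
        rw [← h7] at h14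
        exact hS (k + 1) ((key_tr_eq hI h14 b1 b3 b4).trans b2)
      · have hsk : ¬ C v (l (X (k + 1))) < C v (l (Y (k + 1))) :=
          fun hc => hs ((hσ' (k + 1)).1 hc)
        have hnk := hne (k + 1)
        have h8 : l (Y (k + 1)) < A (v + 1) (l (X k)) := by
          by_contra hcon
          push Not at hcon
          have h9 : A (v + 1) (A (v + 1) (l (X k))) = A (v + 1) (l (X k)) :=
            hH.node (v + 1) _ _ (hlm _) le_rfl (m1.trans m2)
          obtain ⟨h10, h11⟩ := (hH.child v _ _ (lt_of_le_of_lt (m1.trans m2) m3) (hlm _)).1 h9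
          have h12 : A v (A (v + 1) (l (X k))) = A v (l (Y (k + 1))) := by
            rw [h10, hAv k, hXY (k + 1)]
          have h13 := hH.mono v _ _ hcon (hlm _) h12
          omega
        have h15 : ∃ b, X k ≤ b ∧ b ≤ Y (k + 1) ∧ l b ≤ A (v + 1) (l (X k)) ∧
            A (v + 1) (l (X k)) ≤ r b := by
          rcases Nat.eq_or_lt_of_le m1 with h16 | h16
          · exact ⟨X k, le_rfl, hle k, h16.symm.le, m1.trans (hR.lr _)⟩
          · exact hCRO P w h m l r H hR (X k) (Y (k + 1)) (A (v + 1) (l (X k))) (hle k)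
              (Or.inr ⟨h8.le, h16⟩)
        obtain ⟨b, b1, b2, b3, b4⟩ := h15
        have h14 := htA k (v + 1) (by omega)
        rw [← h6] at h14
        exact hS (k + 1) ((key_tr_eq hI h14 b1 b3 b4).trans b2)
    by_cases hnear : C v (l (X 0)) < C v (l (Y 0)) + K v ∧ C v (l (Y 0)) < C v (l (X 0)) + K v
    · exact nz 0 (nearlev v hvJ hAv (fun k => (hν' k).2 hnear) 0)
    · have hfar : ∀ k, ¬ (C v (l (X k)) < C v (l (Y k)) + K v ∧
          C v (l (Y k)) < C v (l (X k)) + K v) := fun k hk => hnear ((hν' k).1 hk)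
      obtain ⟨B, N, c1, c2⟩ := hN2 v (l (X 0)) (hlm _) hvJ
      by_cases hs : C v (l (X 0)) < C v (l (Y 0))
      · obtain ⟨k, hk⟩ : ∃ k, C v (l (X k)) < C v (l (X (k + 1))) := by
          by_contra hcon
          push Not at hcon
          have : ∀ k, C v (l (X k)) + k ≤ C v (l (X 0)) := by
            intro k
            induction k with
            | zero => simp
            | succ k ih =>
              have a1 := hcon k
              have a2 := nz k
              omega
          have h9 := this n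
          have h10 := hperX 0
          rw [zero_add] at h10
          rw [h10] at h9
          omega
        have f1 := hfar (k + 1)
        have f2 := (hσ' (k + 1)).2 hs
        have g1 : ∃ b q, Inn l r (A v (l (X k))) (E v (l (X k))) (X k) b ∧ l b ≤ q ∧ q ≤ r b ∧
            C v (l (X k)) + K v ≤ C v q := by
          refine ⟨Y (k + 1), l (Y (k + 1)), ?_, le_rfl, hR.lr _, by omega⟩
          have := (hN k).2.2.2
          rw [← (hN k).1, ← (hN k).2.1] at this
          exact this
        obtain ⟨b1, q, g2, g3, g4, g5⟩ := (hfR k).1 g1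
        rw [(hN (k + 1)).1, (hN (k + 1)).2.1] at g2
        have h19 : C v (l (X (k + 1))) + K v ≤ C v (l (Y (k + 1))) := by omega
        have h20 : X (k + 1) ≤ Y (k + 1) := N.farR (K v) c1 (hN k).2.2.2 (hN k).2.2.1
          (hN (k + 1)).2.2.1 hk h19 g2 g3 g4 g5
        exact hS (k + 1) h20
      · obtain ⟨k, hk⟩ : ∃ k, C v (l (X (k + 1))) < C v (l (X k)) := by
          by_contra hcon
          push Not at hcon
          have : ∀ k, C v (l (X 0)) + k ≤ C v (l (X k)) := by
            intro k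
            induction k with
            | zero => simp
            | succ k ih =>
              have a1 := hcon k
              have a2 := nz k
              omega
          have h9 := this n
          have h10 := hperX 0
          rw [zero_add] at h10
          rw [h10] at h9
          omega
        have f1 := hfar (k + 1)
        have f2 : ¬ C v (l (X (k + 1))) < C v (l (Y (k + 1))) :=
          fun hc => hs ((hσ' (k + 1)).1 hc)
        have g1 : ∃ b q, Inn l r (A v (l (X k))) (E v (l (X k))) (X k) b ∧ l b ≤ q ∧ q ≤ r b ∧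
            C v q + K v ≤ C v (l (X k)) := by
          refine ⟨Y (k + 1), l (Y (k + 1)), ?_, le_rfl, hR.lr _, by omega⟩
          have := (hN k).2.2.2
          rw [← (hN k).1, ← (hN k).2.1] at this
          exact this
        obtain ⟨b1, q, g2, g3, g4, g5⟩ := (hfL k).1 g1
        rw [(hN (k + 1)).1, (hN (k + 1)).2.1] at g2
        have h19 : C v (l (Y (k + 1))) + K v ≤ C v (l (X (k + 1))) := by omega
        have h20 : X (k + 1) ≤ Y (k + 1) := N.farL (K v) c1 (hN k).2.2.2 (hN k).2.2.1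
          (hN (k + 1)).2.2.1 hk h19 g2 g3 g4 g5
        exact hS (k + 1) h20
  · -- `v = J + 1`
    have hve : v = J + 1 := by omega
    obtain ⟨q1, q2⟩ := hL (X 0) (l (X 0)) (hlm _) le_rfl (hR.lr _)
    obtain ⟨m1, m2, m3⟩ := hH.mem (J + 1) (l (X 0)) (hlm _)
    have h1 := (noend 0 (J + 1) le_rfl (by rw [← hve]; exact hAv 0) (X 0) le_rfl (hle 0)).1
    exact h1 ⟨q1, by omega⟩

/-- the upper bound with exponent `J`, for `w ≤ 2 * J + 1` -/
theorem path_width_upper4_const (hTCG : ST_TCG) (hTCL : ST_TCL) (P : Type) [PartialOrder P]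
    [Fintype P] (w J h : ℕ) (hJ : w ≤ 2 * J + 1) (hh : HeightLE P h)
    (hw : PathWidthLE (cov P) w) : DimLE P (CW4 w J * h ^ J) := by
  rcases Nat.eq_zero_or_pos h with h0 | h0
  · subst h0
    exact upp_empty P hh _
  · obtain ⟨H, hH1, hH2⟩ := st_HGT P h hh
    obtain ⟨m, l, r, hlr, hrm, hadj, hcard⟩ := st_ITV P w hw
    obtain ⟨A, E, C, hier⟩ := st_HIE2 P m l r
    have hlst := lst2 P w J m hJ l r A E C hcard hier
    obtain ⟨e, he⟩ := st_INJ P w l r hcard
    have hrep : Rep P w h m l r H := ⟨hlr, hrm, hadj, hcard, hH1, hH2⟩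
    obtain ⟨χ, hχ⟩ := (key4 st_CRO hTCG hTCL) P w J h m l r H A E C e hJ h0 hrep hier
      (fun z p => hlst z p) he
    have hf : ∀ c : Col4 w J h, ∃ f : P → ℕ, (∀ x y, x ≤ y → f x ≤ f y) ∧
        ∀ x y, (¬ x ≤ y ∧ χ x y = c) → f y < f x := by
      intro c
      exact st_EXT P (fun x y => ¬ x ≤ y ∧ χ x y = c) (fun x y hxy => hxy.1)
        (upp_cls st_SEQ P _ (hχ c))
    choose g hg hr using hf
    exact upp_fin P (Col4 w J h) _ (crd4 w J h) g χ hg
      (fun c x y hxy hc => hr c x y ⟨hxy, hc⟩)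

/-- the upper bound: path-width `w`, exponent `w / 2` -/
theorem path_width_upper4 (hTCG : ST_TCG) (hTCL : ST_TCL) : ∀ w : ℕ, ∃ C : ℕ,
    ∀ (h : ℕ) (P : Type) [PartialOrder P] [Fintype P],
    HeightLE P h → PathWidthLE (cov P) w → DimLE P (C * h ^ (w / 2)) :=
  fun w => ⟨CW4 w (w / 2), fun h P _ _ hh hw =>
    path_width_upper4_const hTCG hTCL P w (w / 2) h (by omega) hh hw⟩

end Pool.Agent.Helper66.PD
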