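import Pool.Agent.Helper66.PD.Up6

/-!
# Statement: the inside of a node is a poset of smaller path-width
-/

set_option autoImplicit false

namespace Pool.Agent.Helper66.PD

open Finset

/-- INS: coordinates for the elements inside a node of level one -/
def ST_INS : Prop := ∀ (P : Type) [PartialOrder P] [Fintype P] (w h d m : ℕ) (l r H : P → ℕ)
  (A E C : ℕ → ℕ → ℕ), Rep P (w + 2) h m l r H → Hier2 P m l r A E C → HeightLE P h →
  (∀ (Q : Type) [PartialOrder Q] [Fintype Q], HeightLE Q h → PathWidthLE (cov Q) w →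
    DimLE Q d) → ∀ a, a < m → ∃ f : P → Fin d → ℕ,
    (∀ x y, x ≤ y → (∀ b, x ≤ b → b ≤ y → A 1 a < l b ∧ r b < E 1 a) → ∀ i, f x i ≤ f y i) ∧
    (∀ x y, (A 1 a < l x ∧ r x < E 1 a) → (A 1 a < l y ∧ r y < E 1 a) → ¬ x ≤ y →
      ∃ i, f y i < f x i)

end Pool.Agent.Helper66.PD
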