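import Pool.Agent.Helper66.PD.Up5
import Pool.Agent.Helper66.PD.Up7S

/-!
# Dimension, height and path-width: recursion from path-width `w` to path-width `w + 2`
-/

set_option autoImplicit false

namespace Pool.Agent.Helper66.PD

open Finset

/-- the colours -/
abbrev Col5 (w h d : ℕ) : Type :=
  Bool × Bool × Bool × Bool × Bool × Fin (18 * h) ×
    (Fin 2 → Finset (Fin (w + 1)) × Finset (Fin (w + 1))) × Fin d

/-- the constant -/
def CW5 (w : ℕ) : ℕ := 2 * 2 * 2 * 2 * 2 * 18 * (2 ^ (w + 1) * 2 ^ (w + 1)) ^ 2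

theorem crd5 (w h d : ℕ) : Fintype.card (Col5 w h d) = CW5 w * h * d := by
  simp only [Col5, CW5, Fintype.card_prod, Fintype.card_fun, Fintype.card_finset,
    Fintype.card_fin, Fintype.card_bool]
  ring

theorem key5 (hCRO : ST_CRO) (hTCG : ST_TCG) (P : Type) [PartialOrder P] [Fintype P]
    (w h d m : ℕ) (l r H : P → ℕ) (A E C : ℕ → ℕ → ℕ) (e : ℕ → P → Fin (w + 1)) (hh : 1 ≤ h)
    (hd : 1 ≤ d) (hR : Rep P w h m l r H) (hH : Hier2 P m l r A E C)
    (hins : ∀ a, a < m → ∃ f : P → Fin d → ℕ,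
      (∀ x y, x ≤ y → (∀ b, x ≤ b → b ≤ y → A 1 a < l b ∧ r b < E 1 a) → ∀ i, f x i ≤ f y i) ∧
      (∀ x y, (A 1 a < l x ∧ r x < E 1 a) → (A 1 a < l y ∧ r y < E 1 a) → ¬ x ≤ y →
        ∃ i, f y i < f x i))
    (hI : ∀ p x y, l x ≤ p → p ≤ r x → l y ≤ p → p ≤ r y → e p x = e p y → x = y) :
    ∃ χ : P → P → Col5 w h d, ∀ (c : Col5 w h d) (n : ℕ) (t : ℕ → P × P), 1 ≤ n →
      (∀ k, t (k + n) = t k) →
      ¬ ∀ k, Alt P (fun x y => ¬ x ≤ y ∧ χ x y = c) (t k) (t (k + 1)) := by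
  classical
  have hlm : ∀ x, l x < m := fun x => lt_of_le_of_lt (hR.lr x) (hR.rm x)
  have hins' : ∀ a, ∃ f : P → Fin d → ℕ, a < m →
      (∀ x y, x ≤ y → (∀ b, x ≤ b → b ≤ y → A 1 a < l b ∧ r b < E 1 a) → ∀ i, f x i ≤ f y i) ∧
      (∀ x y, (A 1 a < l x ∧ r x < E 1 a) → (A 1 a < l y ∧ r y < E 1 a) → ¬ x ≤ y →
        ∃ i, f y i < f x i) := by
    intro a
    by_cases ha : a < m
    · obtain ⟨f, hf⟩ := hins a ha
      exact ⟨f, fun _ => hf⟩
    · exact ⟨fun _ _ => 0, fun h0 => absurd h0 ha⟩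
  choose g hg using hins'
  have hκ : ∀ x y, ∃ i : Fin d, (∃ i', g (A 1 (l x)) y i' < g (A 1 (l x)) x i') →
      g (A 1 (l x)) y i < g (A 1 (l x)) x i := by
    intro x y
    by_cases h0 : ∃ i', g (A 1 (l x)) y i' < g (A 1 (l x)) x i'
    · obtain ⟨i, hi⟩ := h0
      exact ⟨i, fun _ => hi⟩
    · exact ⟨⟨0, hd⟩, fun h1 => absurd h1 h0⟩
  choose κ hκ' using hκ
  have h2h : 0 < 18 * h := by omega
  obtain ⟨K, hK⟩ : ∃ K : ℕ, K = 6 * h := ⟨_, rfl⟩
  obtain ⟨M, hM⟩ : ∃ M : ℕ, M = 18 * h := ⟨_, rfl⟩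
  have hN2 : ∀ a, a < m → Nd2 P l r (A 0 a) (E 0 a) (C 0) (2 * h + 1) := fun a ha =>
    hTCG P w h m l r H A E C hR hH 0 a ha
  let χ : P → P → Col5 w h d := fun x y =>
    (decide (A 1 (l x) = A 1 (l y)),
      decide (C 0 (l x) < C 0 (l y)),
      decide (C 0 (l x) < C 0 (l y) + K ∧ C 0 (l y) < C 0 (l x) + K),
      decide (∃ b q, Inn l r (A 0 (l x)) (E 0 (l x)) x b ∧ l b ≤ q ∧ q ≤ r b ∧
        C 0 (l x) + K ≤ C 0 q),
      decide (∃ b q, Inn l r (A 0 (l x)) (E 0 (l x)) x b ∧ l b ≤ q ∧ q ≤ r b ∧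
        C 0 q + K ≤ C 0 (l x)),
      ⟨C 0 (l x) % (18 * h), Nat.mod_lt _ h2h⟩,
      fun j => (key_tr l r e (A j (l x)) x, key_tr l r e (E j (l x)) x),
      κ x y)
  refine ⟨χ, ?_⟩
  intro c n t hn hper hall
  have hS : ∀ k, ¬ (t k).1 ≤ (t k).2 := fun k => (hall k).1.1
  have hχ : ∀ k, χ (t k).1 (t k).2 = χ (t (k + 1)).1 (t (k + 1)).2 := fun k =>
    (hall k).1.2.trans (hall k).2.1.2.symm
  have hle : ∀ k, (t k).1 ≤ (t (k + 1)).2 := fun k => (hall k).2.2
  set X : ℕ → P := fun k => (t k).1 with hX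
  set Y : ℕ → P := fun k => (t k).2 with hY
  have hlev : ∀ k, (A 1 (l (X k)) = A 1 (l (Y k)) ↔
      A 1 (l (X (k + 1))) = A 1 (l (Y (k + 1)))) := by
    intro k
    have h1 := congrArg (fun z : Col5 w h d => z.1) (hχ k)
    exact decide_eq_decide.1 h1
  have hσ : ∀ k, (C 0 (l (X k)) < C 0 (l (Y k)) ↔
      C 0 (l (X (k + 1))) < C 0 (l (Y (k + 1)))) := by
    intro k
    have h1 := congrArg (fun z : Col5 w h d => z.2.1) (hχ k)
    exact decide_eq_decide.1 h1
  have hν : ∀ k, ((C 0 (l (X k)) < C 0 (l (Y k)) + K ∧ C 0 (l (Y k)) < C 0 (l (X k)) + K) ↔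
      (C 0 (l (X (k + 1))) < C 0 (l (Y (k + 1))) + K ∧
        C 0 (l (Y (k + 1))) < C 0 (l (X (k + 1))) + K)) := by
    intro k
    have h1 := congrArg (fun z : Col5 w h d => z.2.2.1) (hχ k)
    exact decide_eq_decide.1 h1
  have hfR : ∀ k, ((∃ b q, Inn l r (A 0 (l (X k))) (E 0 (l (X k))) (X k) b ∧ l b ≤ q ∧ q ≤ r b ∧
      C 0 (l (X k)) + K ≤ C 0 q) ↔
      (∃ b q, Inn l r (A 0 (l (X (k + 1)))) (E 0 (l (X (k + 1)))) (X (k + 1)) b ∧ l b ≤ q ∧
      q ≤ r b ∧ C 0 (l (X (k + 1))) + K ≤ C 0 q)) := by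
    intro k
    have h1 := congrArg (fun z : Col5 w h d => z.2.2.2.1) (hχ k)
    exact decide_eq_decide.1 h1
  have hfL : ∀ k, ((∃ b q, Inn l r (A 0 (l (X k))) (E 0 (l (X k))) (X k) b ∧ l b ≤ q ∧ q ≤ r b ∧
      C 0 q + K ≤ C 0 (l (X k))) ↔
      (∃ b q, Inn l r (A 0 (l (X (k + 1)))) (E 0 (l (X (k + 1)))) (X (k + 1)) b ∧ l b ≤ q ∧
      q ≤ r b ∧ C 0 q + K ≤ C 0 (l (X (k + 1))))) := by
    intro k
    have h1 := congrArg (fun z : Col5 w h d => z.2.2.2.2.1) (hχ k)
    exact decide_eq_decide.1 h1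
  have hmod : ∀ k, C 0 (l (X k)) % M = C 0 (l (X (k + 1))) % M := by
    intro k
    have h1 := congrArg (fun z : Col5 w h d => z.2.2.2.2.2.1) (hχ k)
    rw [hM]
    exact congrArg Fin.val h1
  have htA : ∀ k j, j ≤ 1 → key_tr l r e (A j (l (X k))) (X k) =
      key_tr l r e (A j (l (X (k + 1)))) (X (k + 1)) := by
    intro k j hj
    have h1 := congrFun (congrArg (fun z : Col5 w h d => z.2.2.2.2.2.2.1) (hχ k)) ⟨j, by omega⟩
    exact congrArg Prod.fst h1
  have htE : ∀ k j, j ≤ 1 → key_tr l r e (E j (l (X k))) (X k) =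
      key_tr l r e (E j (l (X (k + 1)))) (X (k + 1)) := by
    intro k j hj
    have h1 := congrFun (congrArg (fun z : Col5 w h d => z.2.2.2.2.2.2.1) (hχ k)) ⟨j, by omega⟩
    exact congrArg Prod.snd h1
  have hκk : ∀ k, κ (X k) (Y k) = κ (X (k + 1)) (Y (k + 1)) := by
    intro k
    exact congrArg (fun z : Col5 w h d => z.2.2.2.2.2.2.2) (hχ k)
  have htE0 : ∀ j, j ≤ 1 → ∀ k, key_tr l r e (E j (l (X k))) (X k) =
      key_tr l r e (E j (l (X 0))) (X 0) := by
    intro j hj k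
    induction k with
    | zero => rfl
    | succ k ih => exact (htE k j hj).symm.trans ih
  -- no element in between contains an end of the node
  have noend : ∀ k i, i ≤ 1 → A i (l (X k)) = A i (l (X (k + 1))) → ∀ b, X k ≤ b →
      b ≤ Y (k + 1) → ¬ (l b ≤ A i (l (X k)) ∧ A i (l (X k)) ≤ r b) ∧
        ¬ (l b ≤ E i (l (X k)) ∧ E i (l (X k)) ≤ r b) := by
    intro k i hi hA b hb1 hb2
    have hE := hH.eqE i _ _ (hlm _) (hlm _) hA
    refine ⟨fun hc => ?_, fun hc => ?_⟩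
    · have h1 := htA k i hi
      rw [← hA] at h1
      exact hS (k + 1) ((key_tr_eq hI h1 hb1 hc.1 hc.2).trans hb2)
    · have h1 := htE k i hi
      rw [← hE] at h1
      exact hS (k + 1) ((key_tr_eq hI h1 hb1 hc.1 hc.2).trans hb2)
  have hperX : ∀ k, X (k + n) = X k := fun k => by
    have := hper k
    simp only [hX, this]
  have hperY : ∀ k, Y (k + n) = Y k := fun k => by
    have := hper k
    simp only [hY, this]
  -- the node of level `i`
  have node_all : ∀ i, i ≤ 1 → (∀ k, A i (l (X k)) = A i (l (X (k + 1)))) → ∀ k,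
      A i (l (X k)) = A i (l (X 0)) ∧ E i (l (X k)) = E i (l (X 0)) ∧
      (A i (l (X 0)) ≤ l (X k) ∧ l (X k) ≤ E i (l (X 0))) ∧
      Inn l r (A i (l (X 0))) (E i (l (X 0))) (X k) (Y (k + 1)) := by
    intro i hi hA k
    have h1 : A i (l (X k)) = A i (l (X 0)) := by
      induction k with
      | zero => rfl
      | succ k ih => exact (hA k).symm.trans ih
    have h2 := hH.eqE i _ _ (hlm _) (hlm _) h1
    have h3 := hH.mem i (l (X k)) (hlm _)
    rw [h1, h2] at h3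
    refine ⟨h1, h2, ⟨h3.1, h3.2.1⟩, hle k, ?_⟩
    have h4 := noend k i hi (hA k)
    rw [h1, h2] at h4
    exact h4
  have hA0 : ∀ k, A 0 (l (X k)) = A 0 (l (X (k + 1))) := fun k =>
    hH.zero _ _ (hlm _) (hlm _)
  have hN := node_all 0 (by omega) hA0
  have N := hN2 (l (X 0)) (hlm _)
  have nearlev :
      (∀ k, C 0 (l (X k)) < C 0 (l (Y k)) + K ∧ C 0 (l (Y k)) < C 0 (l (X k)) + K) →
      ∀ k, C 0 (l (X k)) = C 0 (l (X (k + 1))) := by
    intro hKK
    refine N.near K M n (by omega) (by omega) hn X Y hperX (fun k => (hN k).2.2.2)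
      (fun k => (hN k).2.2.1) hS hKK hmod ?_
    intro k k' b p g1 g2 g3 g4 g5 g6 g7
    have h6 : A 1 (l (X k)) = A 1 (l (X k')) :=
      (hH.child 0 _ _ (hlm _) (hlm _)).2 ⟨(hN k).1.trans (hN k').1.symm, g1⟩
    have h7 := hH.eqE 1 _ _ (hlm _) (hlm _) h6
    obtain ⟨m1, m2, m3⟩ := hH.mem 1 (l (X k)) (hlm _)
    have h9 : A 1 (E 1 (l (X k))) = A 1 (l (X k)) :=
      hH.node 1 _ _ (hlm _) (m1.trans m2) le_rfl
    obtain ⟨h10, h11⟩ := (hH.child 0 _ _ m3 (hlm _)).1 h9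
    have h8 : E 1 (l (X k)) < p := by
      by_contra hcon
      push Not at hcon
      have hp : A 0 p = A 0 (l (X 0)) := hH.node 0 (l (X 0)) p (hlm _) g5 g6
      have h12 : A 0 p = A 0 (E 1 (l (X k))) := by rw [h10, hp, (hN k).1]
      have h13 := hH.mono 0 _ _ hcon m3 h12
      omega
    have h15 : ∃ b1, X k ≤ b1 ∧ b1 ≤ b ∧ l b1 ≤ E 1 (l (X k)) ∧ E 1 (l (X k)) ≤ r b1 := by
      by_cases h16 : l b ≤ E 1 (l (X k))
      · exact ⟨b, g2, le_rfl, h16, by omega⟩
      · exact hCRO P w h m l r H hR (X k) b (E 1 (l (X k))) g2 (Or.inl ⟨m2, not_le.1 h16⟩)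
    obtain ⟨b1, e1, e2, e3, e4⟩ := h15
    have h14 : key_tr l r e (E 1 (l (X k))) (X k) = key_tr l r e (E 1 (l (X k'))) (X k') :=
      (htE0 1 le_rfl k).trans (htE0 1 le_rfl k').symm
    rw [← h7] at h14
    exact (key_tr_eq hI h14 e1 e3 e4).trans e2
  by_cases hv : A 1 (l (X 0)) = A 1 (l (Y 0))
  · -- the pairs are in one child
    have hvk : ∀ k, A 1 (l (X k)) = A 1 (l (Y k)) := by
      intro k
      induction k with
      | zero => exact hv
      | succ k ih => exact (hlev k).1 ih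
    have hc : ∀ k, C 0 (l (X k)) = C 0 (l (Y k)) := fun k =>
      ((hH.child 0 _ _ (hlm _) (hlm _)).1 (hvk k)).2
    have h5 := nearlev (fun k => by have := hc k; omega)
    have hA1 : ∀ k, A 1 (l (X k)) = A 1 (l (X (k + 1))) := fun k =>
      (hH.child 0 _ _ (hlm _) (hlm _)).2 ⟨hA0 k, h5 k⟩
    have hN1 := node_all 1 le_rfl hA1
    obtain ⟨m1, m2, m3⟩ := hH.mem 1 (l (X 0)) (hlm _)
    obtain ⟨α, hα⟩ : ∃ α, α = A 1 (l (X 0)) := ⟨_, rfl⟩
    have hαm : α < m := by omega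
    have hAα : A 1 α = A 1 (l (X 0)) := by
      rw [hα]
      exact hH.node 1 _ _ (hlm _) le_rfl (m1.trans m2)
    have hEα : E 1 α = E 1 (l (X 0)) := hH.eqE 1 _ _ hαm (hlm _) hAα
    obtain ⟨q1, q2⟩ := hg α hαm
    rw [hAα, hEα] at q1 q2
    have hin : ∀ k b, X k ≤ b → b ≤ Y (k + 1) →
        A 1 (l (X 0)) < l b ∧ r b < E 1 (l (X 0)) := fun k =>
      inn_inside hR.lr (hCRO P w h m l r H hR) (hN1 k).2.2.2 (hN1 k).2.2.1.1 (hN1 k).2.2.1.2
    have hinY : ∀ k, A 1 (l (X 0)) < l (Y k) ∧ r (Y k) < E 1 (l (X 0)) := by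
      intro k
      have h1 := hin (k + n - 1) (Y (k + n - 1 + 1)) (hle _) le_rfl
      rw [show k + n - 1 + 1 = k + n by omega, hperY k] at h1
      exact h1
    have hκ0 : ∀ k, κ (X k) (Y k) = κ (X 0) (Y 0) := by
      intro k
      induction k with
      | zero => rfl
      | succ k ih => exact (hκk k).symm.trans ih
    have s1 : ∀ k, g α (Y k) (κ (X 0) (Y 0)) < g α (X k) (κ (X 0) (Y 0)) := by
      intro k
      have h1 := q2 (X k) (Y k) (hin k (X k) le_rfl (hle k)) (hinY k) (hS k)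
      have h2 := hκ' (X k) (Y k)
      rw [hκ0 k, (hN1 k).1, ← hα] at h2
      exact h2 h1
    have s2 : ∀ k, g α (X k) (κ (X 0) (Y 0)) ≤ g α (Y (k + 1)) (κ (X 0) (Y 0)) := fun k =>
      q1 (X k) (Y (k + 1)) (hle k) (hin k) _
    have s3 : ∀ k, g α (Y 0) (κ (X 0) (Y 0)) + k ≤ g α (Y k) (κ (X 0) (Y 0)) := by
      intro k
      induction k with
      | zero => simp
      | succ k ih =>
        have a1 := s1 k
        have a2 := s2 k
        omega
    have h9 := s3 n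
    have h10 := hperY 0
    rw [zero_add] at h10
    rw [h10] at h9
    omega
  · have hvk : ∀ k, A 1 (l (X k)) ≠ A 1 (l (Y k)) := by
      intro k
      induction k with
      | zero => exact hv
      | succ k ih => exact fun h0 => ih ((hlev k).2 h0)
    have hXY : ∀ k, A 0 (l (X k)) = A 0 (l (Y k)) := fun k => hH.zero _ _ (hlm _) (hlm _)
    have hne : ∀ k, C 0 (l (X k)) ≠ C 0 (l (Y k)) := fun k h0 =>
      hvk k ((hH.child 0 _ _ (hlm _) (hlm _)).2 ⟨hXY k, h0⟩)
    have hσ' : ∀ k, (C 0 (l (X k)) < C 0 (l (Y k)) ↔ C 0 (l (X 0)) < C 0 (l (Y 0))) := by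
      intro k
      induction k with
      | zero => rfl
      | succ k ih => exact (hσ k).symm.trans ih
    have hν' : ∀ k, ((C 0 (l (X k)) < C 0 (l (Y k)) + K ∧
        C 0 (l (Y k)) < C 0 (l (X k)) + K) ↔
        (C 0 (l (X 0)) < C 0 (l (Y 0)) + K ∧ C 0 (l (Y 0)) < C 0 (l (X 0)) + K)) := by
      intro k
      induction k with
      | zero => rfl
      | succ k ih => exact (hν k).symm.trans ih
    -- no two consecutive pairs in one child
    have nz : ∀ k, C 0 (l (X k)) ≠ C 0 (l (X (k + 1))) := by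
      intro k h5
      have h6 : A 1 (l (X k)) = A 1 (l (X (k + 1))) :=
        (hH.child 0 _ _ (hlm _) (hlm _)).2 ⟨hA0 k, h5⟩
      have h7 := hH.eqE 1 _ _ (hlm _) (hlm _) h6
      obtain ⟨m1, m2, m3⟩ := hH.mem 1 (l (X k)) (hlm _)
      by_cases hs : C 0 (l (X 0)) < C 0 (l (Y 0))
      · have hsk := (hσ' (k + 1)).2 hs
        have h8 : E 1 (l (X k)) < l (Y (k + 1)) := by
          by_contra hcon
          push Not at hcon
          have h9 : A 1 (E 1 (l (X k))) = A 1 (l (X k)) :=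
            hH.node 1 _ _ (hlm _) (m1.trans m2) le_rfl
          obtain ⟨h10, h11⟩ := (hH.child 0 _ _ m3 (hlm _)).1 h9
          have h12 : A 0 (l (Y (k + 1))) = A 0 (E 1 (l (X k))) := by
            rw [h10, hA0 k, hXY (k + 1)]
          have h13 := hH.mono 0 _ _ hcon m3 h12
          omega
        obtain ⟨b, b1, b2, b3, b4⟩ := hCRO P w h m l r H hR (X k) (Y (k + 1))
          (E 1 (l (X k))) (hle k) (Or.inl ⟨m2, h8⟩)
        have h14 := htE k 1 le_rfl
        rw [← h7] at h14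
        exact hS (k + 1) ((key_tr_eq hI h14 b1 b3 b4).trans b2)
      · have hsk : ¬ C 0 (l (X (k + 1))) < C 0 (l (Y (k + 1))) :=
          fun hc => hs ((hσ' (k + 1)).1 hc)
        have hnk := hne (k + 1)
        have h8 : l (Y (k + 1)) < A 1 (l (X k)) := by
          by_contra hcon
          push Not at hcon
          have h9 : A 1 (A 1 (l (X k))) = A 1 (l (X k)) :=
            hH.node 1 _ _ (hlm _) le_rfl (m1.trans m2)
          obtain ⟨h10, h11⟩ := (hH.child 0 _ _ (lt_of_le_of_lt (m1.trans m2) m3) (hlm _)).1 h9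
          have h12 : A 0 (A 1 (l (X k))) = A 0 (l (Y (k + 1))) := by
            rw [h10, hA0 k, hXY (k + 1)]
          have h13 := hH.mono 0 _ _ hcon (hlm _) h12
          omega
        have h15 : ∃ b, X k ≤ b ∧ b ≤ Y (k + 1) ∧ l b ≤ A 1 (l (X k)) ∧
            A 1 (l (X k)) ≤ r b := by
          rcases Nat.eq_or_lt_of_le m1 with h16 | h16
          · exact ⟨X k, le_rfl, hle k, h16.symm.le, m1.trans (hR.lr _)⟩
          · exact hCRO P w h m l r H hR (X k) (Y (k + 1)) (A 1 (l (X k))) (hle k)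
              (Or.inr ⟨h8.le, h16⟩)
        obtain ⟨b, b1, b2, b3, b4⟩ := h15
        have h14 := htA k 1 le_rfl
        rw [← h6] at h14
        exact hS (k + 1) ((key_tr_eq hI h14 b1 b3 b4).trans b2)
    by_cases hnear : C 0 (l (X 0)) < C 0 (l (Y 0)) + K ∧ C 0 (l (Y 0)) < C 0 (l (X 0)) + K
    · exact nz 0 (nearlev (fun k => (hν' k).2 hnear) 0)
    · have hfar : ∀ k, ¬ (C 0 (l (X k)) < C 0 (l (Y k)) + K ∧
          C 0 (l (Y k)) < C 0 (l (X k)) + K) := fun k hk => hnear ((hν' k).1 hk)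
      by_cases hs : C 0 (l (X 0)) < C 0 (l (Y 0))
      · obtain ⟨k, hk⟩ : ∃ k, C 0 (l (X k)) < C 0 (l (X (k + 1))) := by
          by_contra hcon
          push Not at hcon
          have : ∀ k, C 0 (l (X k)) + k ≤ C 0 (l (X 0)) := by
            intro k
            induction k with
            | zero => simp
            | succ k ih =>
              have a1 := hcon k
              have a2 := nz k
              omega
          have h9 := this n
          have h10 := hperX 0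
          rw [zero_add] at h10
          rw [h10] at h9
          omega
        have f1 := hfar (k + 1)
        have f2 := (hσ' (k + 1)).2 hs
        have g1 : ∃ b q, Inn l r (A 0 (l (X k))) (E 0 (l (X k))) (X k) b ∧ l b ≤ q ∧ q ≤ r b ∧
            C 0 (l (X k)) + K ≤ C 0 q := by
          refine ⟨Y (k + 1), l (Y (k + 1)), ?_, le_rfl, hR.lr _, by omega⟩
          have := (hN k).2.2.2
          rw [← (hN k).1, ← (hN k).2.1] at this
          exact this
        obtain ⟨b1, q, g2, g3, g4, g5⟩ := (hfR k).1 g1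
        rw [(hN (k + 1)).1, (hN (k + 1)).2.1] at g2
        have h19 : C 0 (l (X (k + 1))) + K ≤ C 0 (l (Y (k + 1))) := by omega
        have h20 : X (k + 1) ≤ Y (k + 1) := N.farR K (by omega) (hN k).2.2.2 (hN k).2.2.1
          (hN (k + 1)).2.2.1 hk h19 g2 g3 g4 g5
        exact hS (k + 1) h20
      · obtain ⟨k, hk⟩ : ∃ k, C 0 (l (X (k + 1))) < C 0 (l (X k)) := by
          by_contra hcon
          push Not at hcon
          have : ∀ k, C 0 (l (X 0)) + k ≤ C 0 (l (X k)) := by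
            intro k
            induction k with
            | zero => simp
            | succ k ih =>
              have a1 := hcon k
              have a2 := nz k
              omega
          have h9 := this n
          have h10 := hperX 0
          rw [zero_add] at h10
          rw [h10] at h9
          omega
        have f1 := hfar (k + 1)
        have f2 : ¬ C 0 (l (X (k + 1))) < C 0 (l (Y (k + 1))) :=
          fun hc => hs ((hσ' (k + 1)).1 hc)
        have g1 : ∃ b q, Inn l r (A 0 (l (X k))) (E 0 (l (X k))) (X k) b ∧ l b ≤ q ∧ q ≤ r b ∧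
            C 0 q + K ≤ C 0 (l (X k)) := by
          refine ⟨Y (k + 1), l (Y (k + 1)), ?_, le_rfl, hR.lr _, by omega⟩
          have := (hN k).2.2.2
          rw [← (hN k).1, ← (hN k).2.1] at this
          exact this
        obtain ⟨b1, q, g2, g3, g4, g5⟩ := (hfL k).1 g1
        rw [(hN (k + 1)).1, (hN (k + 1)).2.1] at g2
        have h19 : C 0 (l (Y (k + 1))) + K ≤ C 0 (l (X (k + 1))) := by omega
        have h20 : X (k + 1) ≤ Y (k + 1) := N.farL K (by omega) (hN k).2.2.2 (hN k).2.2.1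
          (hN (k + 1)).2.2.1 hk h19 g2 g3 g4 g5
        exact hS (k + 1) h20

/-- recursion: from path-width `w` to path-width `w + 2` -/
theorem path_width_rec (hINS : ST_INS) : ∀ w : ℕ, ∃ C : ℕ, ∀ h d : ℕ, 1 ≤ d →
    (∀ (Q : Type) [PartialOrder Q] [Fintype Q], HeightLE Q h → PathWidthLE (cov Q) w →
      DimLE Q d) →
    ∀ (P : Type) [PartialOrder P] [Fintype P], HeightLE P h → PathWidthLE (cov P) (w + 2) →
      DimLE P (C * h * d) := by
  intro w
  refine ⟨CW5 (w + 2), ?_⟩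
  intro h d hd hQ P _ _ hh hw
  rcases Nat.eq_zero_or_pos h with h0 | h0
  · subst h0
    exact upp_empty P hh _
  · obtain ⟨H, hH1, hH2⟩ := st_HGT P h hh
    obtain ⟨m, l, r, hlr, hrm, hadj, hcard⟩ := st_ITV P (w + 2) hw
    obtain ⟨A, E, C, hier⟩ := st_HIE2 P m l r
    obtain ⟨e, he⟩ := st_INJ P (w + 2) l r hcard
    have hrep : Rep P (w + 2) h m l r H := ⟨hlr, hrm, hadj, hcard, hH1, hH2⟩
    have hins := hINS P w h d m l r H A E C hrep hier hh hQ
    obtain ⟨χ, hχ⟩ := key5 st_CRO (tcg st_CRO) P (w + 2) h d m l r H A E C e h0 hd hrep hier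
      hins he
    have hf : ∀ c : Col5 (w + 2) h d, ∃ f : P → ℕ, (∀ x y, x ≤ y → f x ≤ f y) ∧
        ∀ x y, (¬ x ≤ y ∧ χ x y = c) → f y < f x := by
      intro c
      exact st_EXT P (fun x y => ¬ x ≤ y ∧ χ x y = c) (fun x y hxy => hxy.1)
        (upp_cls st_SEQ P _ (hχ c))
    choose g hg hr using hf
    exact upp_fin P (Col5 (w + 2) h d) _ (crd5 (w + 2) h d) g χ hg
      (fun c x y hxy hc => hr c x y ⟨hxy, hc⟩)

end Pool.Agent.Helper66.PD
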