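import Pool.Agent.Helper66.PD.Up7S

/-!
# The inside of a node of level one
-/

set_option autoImplicit false

namespace Pool.Agent.Helper66.PD

open Finset

/-- the elements inside a node -/
structure InP {P : Type} (l r : P → ℕ) (α ε : ℕ) : Type where
  /-- the element -/
  el : P
  mem : α < l el ∧ r el < ε

theorem inP_inj {P : Type} (l r : P → ℕ) (α ε : ℕ) :
    Function.Injective (fun z : InP l r α ε => z.el) := by
  rintro ⟨x, hx⟩ ⟨y, hy⟩ h
  simp only at h
  subst h
  rfl

/-- comparability by covers inside the node -/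
def InR {P : Type} [PartialOrder P] (l r : P → ℕ) (α ε : ℕ) (x y : InP l r α ε) : Prop :=
  Relation.ReflTransGen (fun u v : InP l r α ε => u.el ⋖ v.el) x y

theorem inR_le {P : Type} [PartialOrder P] {l r : P → ℕ} {α ε : ℕ} {x y : InP l r α ε}
    (h : InR l r α ε x y) : x.el ≤ y.el := by
  induction h with
  | refl => exact le_rfl
  | tail _ h1 ih => exact ih.trans h1.lt.le

instance inPO {P : Type} [PartialOrder P] (l r : P → ℕ) (α ε : ℕ) :
    PartialOrder (InP l r α ε) where
  le := InR l r α ε
  le_refl x := Relation.ReflTransGen.refl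
  le_trans x y z h1 h2 := Relation.ReflTransGen.trans h1 h2
  le_antisymm x y h1 h2 := inP_inj l r α ε (le_antisymm (inR_le h1) (inR_le h2))

theorem in_cov {P : Type} [PartialOrder P] {l r : P → ℕ} {α ε : ℕ} {x y : InP l r α ε}
    (h : x ⋖ y) : x.el ⋖ y.el := by
  have h1 : InR l r α ε x y := h.lt.le
  rcases Relation.ReflTransGen.cases_head h1 with h2 | ⟨z, h2, h3⟩
  · exact absurd h2 h.lt.ne
  · by_cases h4 : z = y
    · subst h4; exact h2
    · exfalso
      have h7 : x ≤ z := Relation.ReflTransGen.single h2
      have h5 : x < z := lt_of_le_of_ne h7 (by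
        rintro rfl
        exact (lt_irrefl _ h2.lt))
      have h8 : z ≤ y := h3
      have h6 : z < y := lt_of_le_of_ne h8 h4
      exact h.2 h5 h6

theorem in_rtg {P : Type} [PartialOrder P] {l r : P → ℕ} {α ε : ℕ} {x y : P}
    (h : Relation.ReflTransGen (· ⋖ ·) x y) (hy : α < l y ∧ r y < ε) :
    (∀ b, x ≤ b → b ≤ y → α < l b ∧ r b < ε) → ∀ hx : α < l x ∧ r x < ε,
    Relation.ReflTransGen (fun u v : InP l r α ε => u.el ⋖ v.el) ⟨x, hx⟩ ⟨y, hy⟩ := by
  induction h using Relation.ReflTransGen.head_induction_on with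
  | refl => exact fun _ _ => Relation.ReflTransGen.refl
  | head h1 h2 ih =>
    rename_i a b
    intro hb hx
    have hab := h1.lt.le
    have hby := rtg_le h2
    have h3 := ih (fun c c1 c2 => hb c (hab.trans c1) c2) (hb b hab hby)
    exact Relation.ReflTransGen.head (b := (⟨b, hb b hab hby⟩ : InP l r α ε)) h1 h3

open Classical in
theorem ins : ST_INS := by
  intro P _ _ w h d m l r H A E C hR hH hh hQ a ha
  obtain ⟨α, hα⟩ : ∃ α, α = A 1 a := ⟨_, rfl⟩
  obtain ⟨ε, hε⟩ : ∃ ε, ε = E 1 a := ⟨_, rfl⟩
  rw [← hα, ← hε]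
  let _ : Fintype (InP l r α ε) := Fintype.ofInjective _ (inP_inj l r α ε)
  have hdim : DimLE (InP l r α ε) d := by
    refine hQ (InP l r α ε) ?_ ?_
    · intro s hs
      have h1 := hh (s.image (fun z => z.el)) (by
        intro x hx y hy hxy
        rw [coe_image] at hx hy
        obtain ⟨x', hx', rfl⟩ := hx
        obtain ⟨y', hy', rfl⟩ := hy
        have hne : x' ≠ y' := fun h0 => hxy (by rw [h0])
        rcases hs hx' hy' hne with h2 | h2
        · exact Or.inl (inR_le h2)
        · exact Or.inr (inR_le h2))
      rwa [card_image_of_injective _ (inP_inj l r α ε)] at h1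
    · obtain ⟨B, hB⟩ : ∃ B : Fin m → Finset (InP l r α ε), ∀ i z, z ∈ B i ↔
          l z.el ≤ (i : ℕ) ∧ (i : ℕ) ≤ r z.el :=
        ⟨fun i => univ.filter (fun z => l z.el ≤ (i : ℕ) ∧ (i : ℕ) ≤ r z.el), by
          intro i z
          rw [mem_filter]
          exact ⟨fun h0 => h0.2, fun h0 => ⟨mem_univ _, h0⟩⟩⟩
      refine ⟨m, B, ?_, ?_, ?_, ?_⟩
      · intro v
        refine ⟨⟨l v.el, lt_of_le_of_lt (hR.lr _) (hR.rm _)⟩, ?_⟩
        rw [hB]
        exact ⟨le_rfl, hR.lr _⟩
      · intro u v huv
        have huv' : u.el ⋖ v.el ∨ v.el ⋖ u.el := by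
          rw [cov, SimpleGraph.fromRel_adj] at huv
          rcases huv.2 with h1 | h1
          · exact Or.inl (in_cov h1)
          · exact Or.inr (in_cov h1)
        have h2 : l u.el ≤ r v.el ∧ l v.el ≤ r u.el := by
          rcases huv' with h1 | h1
          · exact hR.adj _ _ h1
          · exact (hR.adj _ _ h1).symm
        have hu := hR.lr u.el
        have hv := hR.lr v.el
        refine ⟨⟨max (l u.el) (l v.el), ?_⟩, ?_, ?_⟩
        · exact max_lt (lt_of_le_of_lt hu (hR.rm _)) (lt_of_le_of_lt hv (hR.rm _))
        · rw [hB]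
          exact ⟨le_max_left _ _, max_le hu h2.2⟩
        · rw [hB]
          exact ⟨le_max_right _ _, max_le h2.1 hv⟩
      · intro i j k v hij hjk hi hk
        rw [hB] at hi hk ⊢
        have h1 : (i : ℕ) ≤ j := hij
        have h2 : (j : ℕ) ≤ k := hjk
        exact ⟨hi.1.trans h1, h2.trans hk.2⟩
      · intro i
        by_cases hne : (B i).Nonempty
        · obtain ⟨z, hz⟩ := hne
          rw [hB] at hz
          have hz2 := z.mem
          have g1 : α ≤ (i : ℕ) := by omega
          have g2 : (i : ℕ) ≤ ε := by omega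
          have e1 : A 1 (i : ℕ) = α := by
            rw [hα]; exact hH.node 1 a i ha (by omega) (by omega)
          have e2 : E 1 (i : ℕ) = ε := by
            rw [hε]; exact hH.eqE 1 i a i.2 ha (by rw [e1, hα])
          rcases spn2 P m l r A E C hH i i.2 1 with hs | hs
          · exfalso
            have := hs z.el hz.1 hz.2
            rw [e1, e2] at this
            omega
          · rw [e1, e2] at hs
            set K := univ.filter (fun x => l x ≤ α ∧ ε ≤ r x) with hK
            have hdis : Disjoint ((B i).image (fun z => z.el)) K := by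
              rw [disjoint_left]
              intro x hx hx'
              rw [mem_image] at hx
              obtain ⟨x', -, rfl⟩ := hx
              rw [hK, mem_filter] at hx'
              have := x'.mem
              omega
            have hsub : ((B i).image (fun z => z.el)) ∪ K ⊆
                univ.filter (fun x => l x ≤ (i : ℕ) ∧ (i : ℕ) ≤ r x) := by
              intro x hx
              rw [mem_union, mem_image] at hx
              rw [mem_filter]
              rcases hx with ⟨x', hx', rfl⟩ | hx
              · rw [hB] at hx'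
                exact ⟨mem_univ _, hx'⟩
              · rw [hK, mem_filter] at hx
                exact ⟨mem_univ _, hx.2.1.trans g1, g2.trans hx.2.2⟩
            have hcd := (card_le_card hsub).trans (hR.card i)
            rw [card_union_of_disjoint hdis,
              card_image_of_injective _ (inP_inj l r α ε)] at hcd
            omega
        · rw [not_nonempty_iff_eq_empty] at hne
          rw [hne]
          simp
  obtain ⟨f, hf⟩ := hdim
  refine ⟨fun x => if hx : α < l x ∧ r x < ε then f ⟨x, hx⟩ else fun _ => 0, ?_, ?_⟩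
  · intro x y hxy hb i
    have hx := hb x le_rfl hxy
    have hy := hb y hxy le_rfl
    simp only [dif_pos hx, dif_pos hy]
    exact (hf ⟨x, hx⟩ ⟨y, hy⟩).1 (in_rtg (le_rtg hxy) hy hb hx) i
  · intro x y hx hy hxy
    simp only [dif_pos hx, dif_pos hy]
    by_contra hcon
    push Not at hcon
    have h1 : InR l r α ε ⟨x, hx⟩ ⟨y, hy⟩ := (hf ⟨x, hx⟩ ⟨y, hy⟩).2 hcon
    exact hxy (inR_le h1)

end Pool.Agent.Helper66.PD
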