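import Pool.Agent.Helper66.PD.Up7
import Pool.Agent.Helper66.PD.Up8

/-!
# Dimension, height and path-width: iterated recursion
-/

set_option autoImplicit false

namespace Pool.Agent.Helper66.PD

/-- more coordinates -/
theorem dimLE_mono {P : Type} [PartialOrder P] {d d' : ℕ} (h : DimLE P d) (hd : d ≤ d') :
    DimLE P d' := by
  obtain ⟨f, hf⟩ := h
  refine ⟨fun x i => if hi : (i : ℕ) < d then f x ⟨i, hi⟩ else 0,
    fun x y => ⟨fun hxy i => ?_, fun hxy => (hf x y).2 fun i => ?_⟩⟩
  · dsimp only
    split_ifs with hi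
    · exact (hf x y).1 hxy _
    · exact le_rfl
  · have := hxy ⟨i, lt_of_lt_of_le i.2 hd⟩
    simpa using this

/-- iterated recursion: from path-width `w` to path-width `w + 2 * j` -/
theorem path_width_rec_iter : ∀ w j : ℕ, ∃ C : ℕ, ∀ h d : ℕ, 1 ≤ d →
    (∀ (Q : Type) [PartialOrder Q] [Fintype Q], HeightLE Q h → PathWidthLE (cov Q) w →
      DimLE Q d) →
    ∀ (P : Type) [PartialOrder P] [Fintype P], HeightLE P h →
      PathWidthLE (cov P) (w + 2 * j) → DimLE P (C * h ^ j * d) := by
  intro w j
  induction j with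
  | zero =>
    refine ⟨1, ?_⟩
    intro h d _ hQ P _ _ hh hw
    have := hQ P hh hw
    simpa using this
  | succ j ih =>
    obtain ⟨C, hC⟩ := ih
    obtain ⟨D, hD⟩ := path_width_rec ins (w + 2 * j)
    refine ⟨D * (C + 1), ?_⟩
    intro h d hd hQ P _ _ hh hw
    rcases Nat.eq_zero_or_pos h with h0 | h0
    · subst h0
      exact upp_empty P hh _
    · have h1 : 1 ≤ (C + 1) * h ^ j * d := by
        have hd' : 0 < d := hd
        have h0' : 0 < h := h0
        have h3 : 0 < (C + 1) * h ^ j * d := by positivity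
        exact h3
      have h2 := hD h ((C + 1) * h ^ j * d) h1 ?_ P hh hw
      · have e : D * (C + 1) * h ^ (j + 1) * d = D * h * ((C + 1) * h ^ j * d) := by ring
        rw [e]
        exact h2
      · intro Q _ _ hhQ hwQ
        have h4 := hC h d hd hQ Q hhQ hwQ
        exact dimLE_mono h4 (by
          have : C * h ^ j * d ≤ (C + 1) * h ^ j * d := by gcongr; omega
          exact this)

end Pool.Agent.Helper66.PD
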